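import Mathlib

/-! JOB J3a: walls in a Coxeter group (cocycle, strong exchange, counting). Any Coxeter system. -/

namespace Pool.Agent.Helper376.LC

variable {B : Type*} {M : CoxeterMatrix B} {W : Type*} [Group W] (cs : CoxeterSystem M W)

/-- The set of left inversions of `w` (walls separating `1` from `w`). -/
def Ninv (w : W) : Set W := {t | cs.IsLeftInversion w t}

/-- The set of walls separating `x` from `y`. -/
def Wl (x y : W) : Set W := symmDiff (Ninv cs x) (Ninv cs y)

open Classical in
/-- The generator maps on `W × ZMod 2`. -/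
noncomputable def wf (i : B) : Function.End (W × ZMod 2) :=
  fun p => (cs.simple i * p.1 * cs.simple i, p.2 + if p.1 = cs.simple i then 1 else 0)

open Classical in
theorem wf_apply (i : B) (t : W) (e : ZMod 2) :
    wf cs i (t, e) = (cs.simple i * t * cs.simple i, e + if t = cs.simple i then 1 else 0) := rfl

open Classical in
theorem wf_mul_apply (i j : B) (t : W) (e : ZMod 2) :
    (wf cs i * wf cs j) (t, e) =
      ((cs.simple i * cs.simple j) * t * (cs.simple i * cs.simple j)⁻¹,
        e + ((if t = cs.simple j then 1 else 0) +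
          if t = (cs.simple i * cs.simple j)⁻¹ * cs.simple j then 1 else 0)) := by
  have h1 : (wf cs i * wf cs j) (t, e) = wf cs i (wf cs j (t, e)) := rfl
  rw [h1, wf_apply, wf_apply]
  have h2 : (cs.simple j * t * cs.simple j = cs.simple i) ↔
      (t = (cs.simple i * cs.simple j)⁻¹ * cs.simple j) := by
    rw [mul_inv_rev, cs.inv_simple, cs.inv_simple]
    constructor
    · intro h
      rw [← h]
      simp [mul_assoc]
    · intro h
      rw [h]
      simp [mul_assoc]
  simp only [h2]
  rw [Prod.mk.injEq]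
  refine ⟨?_, by ring⟩
  rw [mul_inv_rev, cs.inv_simple, cs.inv_simple]
  simp [mul_assoc]

open Classical in
theorem wf_mul_pow_apply (i j : B) (m : ℕ) (t : W) (e : ZMod 2) :
    ((wf cs i * wf cs j) ^ m) (t, e) =
      ((cs.simple i * cs.simple j) ^ m * t * ((cs.simple i * cs.simple j) ^ m)⁻¹,
        e + ∑ l ∈ Finset.range (2 * m),
          if t = ((cs.simple i * cs.simple j)⁻¹) ^ l * cs.simple j then 1 else 0) := by
  induction m generalizing t e with
  | zero => simp [Function.End.one_def]
  | succ m ih =>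
    have h1 : ((wf cs i * wf cs j) ^ (m + 1)) (t, e) =
        ((wf cs i * wf cs j) ^ m) ((wf cs i * wf cs j) (t, e)) := by
      rw [pow_succ]; rfl
    rw [h1, wf_mul_apply, ih]
    set c := cs.simple i * cs.simple j with hc
    have hcj : cs.simple j * c = c⁻¹ * cs.simple j := by
      rw [hc, mul_inv_rev, cs.inv_simple, cs.inv_simple]
      simp [mul_assoc]
    have h2 : ∀ l : ℕ, (c * t * c⁻¹ = c⁻¹ ^ l * cs.simple j) ↔
        (t = c⁻¹ ^ (l + 1 + 1) * cs.simple j) := by
      intro l
      have h3 : c⁻¹ ^ (l + 1 + 1) * cs.simple j = c⁻¹ * (c⁻¹ ^ l * cs.simple j) * c := by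
        rw [pow_succ, pow_succ']
        simp only [mul_assoc]
        rw [hcj]
      rw [h3]
      constructor
      · intro h
        rw [← h]
        group
      · intro h
        rw [h]
        group
    simp only [h2]
    rw [Prod.mk.injEq]
    constructor
    · rw [pow_succ]
      simp [mul_assoc]
    · rw [show 2 * (m + 1) = 2 * m + 1 + 1 by ring, Finset.sum_range_succ', Finset.sum_range_succ']
      simp only [pow_zero, one_mul, zero_add, pow_one]
      ring

open Classical in
theorem wf_liftable : M.IsLiftable (wf cs) := by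
  intro i j
  funext ⟨t, e⟩
  rw [wf_mul_pow_apply]
  have hM : (cs.simple i * cs.simple j) ^ M i j = 1 := cs.simple_mul_simple_pow i j
  rw [hM]
  have h1 : (1 : Function.End (W × ZMod 2)) (t, e) = (t, e) := rfl
  rw [h1, Prod.mk.injEq]
  refine ⟨by simp, ?_⟩
  rw [two_mul, Finset.sum_range_add]
  have h2 : ∀ l : ℕ, ((cs.simple i * cs.simple j)⁻¹) ^ (M i j + l) =
      ((cs.simple i * cs.simple j)⁻¹) ^ l := by
    intro l
    rw [pow_add, inv_pow, hM]
    simp
  simp only [h2]
  rw [CharTwo.add_self_eq_zero, add_zero]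

/-- The action of `W` on `W × ZMod 2`. -/
noncomputable def wpsi : W →* Function.End (W × ZMod 2) := cs.lift ⟨wf cs, wf_liftable cs⟩

/-- The cocycle. -/
noncomputable def eta (w t : W) : ZMod 2 := (wpsi cs w (t, 0)).2

theorem wpsi_simple (i : B) : wpsi cs (cs.simple i) = wf cs i := by
  unfold wpsi
  exact cs.lift_apply_simple (wf_liftable cs) i

theorem wpsi_mul_apply (w w' : W) (p : W × ZMod 2) :
    wpsi cs (w * w') p = wpsi cs w (wpsi cs w' p) := by
  rw [map_mul]; rfl

theorem wpsi_one_apply (p : W × ZMod 2) : wpsi cs 1 p = p := by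
  rw [map_one]; rfl

open Classical in
theorem wpsi_apply (w t : W) (e : ZMod 2) :
    wpsi cs w (t, e) = (w * t * w⁻¹, e + eta cs w t) := by
  induction w using cs.simple_induction_left generalizing t e with
  | one => simp [wpsi_one_apply, eta]
  | mul_simple_left w i ih =>
    have h1 : eta cs (cs.simple i * w) t = eta cs w t +
        if w * t * w⁻¹ = cs.simple i then 1 else 0 := by
      unfold eta
      rw [wpsi_mul_apply, wpsi_simple, ih, wf_apply]
    rw [wpsi_mul_apply, ih, wpsi_simple, wf_apply, h1]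
    rw [Prod.mk.injEq]
    refine ⟨?_, by ring⟩
    rw [mul_inv_rev, cs.inv_simple]
    simp [mul_assoc]

theorem eta_mul (w w' t : W) : eta cs (w * w') t = eta cs w' t + eta cs w (w' * t * w'⁻¹) := by
  have h := wpsi_mul_apply cs w w' (t, 0)
  rw [wpsi_apply, wpsi_apply, wpsi_apply, Prod.mk.injEq] at h
  have h2 := h.2
  rw [zero_add, zero_add] at h2
  exact h2

open Classical in
theorem eta_simple (i : B) (t : W) : eta cs (cs.simple i) t = if t = cs.simple i then 1 else 0 := by
  unfold eta
  rw [wpsi_simple, wf_apply]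
  simp

theorem eta_one (t : W) : eta cs 1 t = 0 := by
  unfold eta
  rw [wpsi_one_apply]

theorem eta_self {t : W} (ht : cs.IsReflection t) : eta cs t t = 1 := by
  obtain ⟨w, i, rfl⟩ := ht
  have h0 : eta cs w (cs.simple i) + eta cs w⁻¹ (w * cs.simple i * w⁻¹) = 0 := by
    rw [← eta_mul, inv_mul_cancel, eta_one]
  have h1 : eta cs (w * cs.simple i * w⁻¹) (w * cs.simple i * w⁻¹) =
      eta cs w⁻¹ (w * cs.simple i * w⁻¹) + (eta cs (cs.simple i) (cs.simple i) +
        eta cs w (cs.simple i)) := by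
    rw [eta_mul, show w⁻¹ * (w * cs.simple i * w⁻¹) * w⁻¹⁻¹ = cs.simple i by group, eta_mul]
    rw [show cs.simple i * cs.simple i * (cs.simple i)⁻¹ = cs.simple i by group]
  rw [h1, eta_simple, if_pos rfl]
  linear_combination h0

open Classical in
theorem eta_wordProd (ω : List B) (t : W) :
    eta cs (cs.wordProd ω) t = ((cs.rightInvSeq ω).count t : ZMod 2) := by
  induction ω with
  | nil => simp [eta_one]
  | cons i ω ih =>
    rw [cs.wordProd_cons, eta_mul, ih, eta_simple]
    have h1 : cs.rightInvSeq (i :: ω) =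
        ((cs.wordProd ω)⁻¹ * cs.simple i * cs.wordProd ω) :: cs.rightInvSeq ω := rfl
    rw [h1, List.count_cons]
    have h2 : (cs.wordProd ω * t * (cs.wordProd ω)⁻¹ = cs.simple i) ↔
        ((cs.wordProd ω)⁻¹ * cs.simple i * cs.wordProd ω = t) := by
      constructor
      · intro h
        rw [← h]
        group
      · intro h
        rw [← h]
        group
    simp only [h2, beq_iff_eq, Nat.cast_add, Nat.cast_ite, Nat.cast_one, Nat.cast_zero]

theorem rightInv_of_eta {w t : W} (h : eta cs w t = 1) : cs.IsRightInversion w t := by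
  classical
  obtain ⟨ω, hω, rfl⟩ := cs.exists_isReduced w
  rw [eta_wordProd] at h
  apply cs.isRightInversion_of_mem_rightInvSeq hω
  by_contra hn
  rw [List.count_eq_zero_of_not_mem hn] at h
  simp at h

theorem zmod2_cases (a : ZMod 2) : a = 0 ∨ a = 1 := by
  revert a; decide

theorem rightInv_iff_eta (w t : W) : cs.IsRightInversion w t ↔ eta cs w t = 1 := by
  constructor
  · intro h
    have ht : cs.IsReflection t := h.1
    have h1 : ¬ cs.IsRightInversion (w * t) t := ht.not_isRightInversion_mul_left_iff.mpr h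
    have h2 : eta cs (w * t) t = 0 := by
      rcases zmod2_cases (eta cs (w * t) t) with h3 | h3
      · exact h3
      · exact absurd (rightInv_of_eta cs h3) h1
    rw [eta_mul, eta_self cs ht, show t * t * t⁻¹ = t by group] at h2
    rcases zmod2_cases (eta cs w t) with h3 | h3
    · rw [h3] at h2
      simp at h2
    · exact h3
  · exact rightInv_of_eta cs

theorem mem_Ninv_iff (w t : W) : t ∈ Ninv cs w ↔ eta cs w⁻¹ t = 1 := by
  rw [← rightInv_iff_eta, cs.isRightInversion_inv_iff]
  rfl

theorem mem_Wl_iff (x y t : W) : t ∈ Wl cs x y ↔ x⁻¹ * t * x ∈ Ninv cs (x⁻¹ * y) := by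
  unfold Wl
  rw [Set.mem_symmDiff, mem_Ninv_iff, mem_Ninv_iff, mem_Ninv_iff]
  have h1 : eta cs y⁻¹ t = eta cs x⁻¹ t + eta cs (x⁻¹ * y)⁻¹ (x⁻¹ * t * x) := by
    have h2 := eta_mul cs (x⁻¹ * y)⁻¹ x⁻¹ t
    rw [show (x⁻¹ * y)⁻¹ * x⁻¹ = y⁻¹ by group, inv_inv] at h2
    exact h2
  rw [h1]
  rcases zmod2_cases (eta cs x⁻¹ t) with h3 | h3 <;>
    rcases zmod2_cases (eta cs (x⁻¹ * y)⁻¹ (x⁻¹ * t * x)) with h4 | h4 <;>
    rw [h3, h4] <;> decide

theorem mem_Wl_mul_left (g x y t : W) :
    t ∈ Wl cs (g * x) (g * y) ↔ g⁻¹ * t * g ∈ Wl cs x y := by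
  rw [mem_Wl_iff, mem_Wl_iff]
  rw [show (g * x)⁻¹ * t * (g * x) = x⁻¹ * (g⁻¹ * t * g) * x by group,
    show (g * x)⁻¹ * (g * y) = x⁻¹ * y by group]

theorem Wl_mul_simple (x : W) (i : B) :
    Wl cs x (x * cs.simple i) = {x * cs.simple i * x⁻¹} := by
  classical
  ext t
  rw [mem_Wl_iff, mem_Ninv_iff, Set.mem_singleton_iff,
    show (x⁻¹ * (x * cs.simple i))⁻¹ = cs.simple i by
      rw [inv_mul_cancel_left, cs.inv_simple], eta_simple]
  constructor
  · intro h
    by_cases h2 : x⁻¹ * t * x = cs.simple i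
    · rw [← h2]
      group
    · rw [if_neg h2] at h
      simp at h
  · rintro rfl
    rw [if_pos (by group)]

theorem Ninv_eq (w : W) : ∃ s : Finset W, Ninv cs w = ↑s ∧ s.card = cs.length w := by
  classical
  obtain ⟨ω, hω, hw⟩ := cs.exists_isReduced w⁻¹
  refine ⟨(cs.rightInvSeq ω).toFinset, ?_, ?_⟩
  · ext t
    rw [mem_Ninv_iff, hw, eta_wordProd]
    simp only [List.coe_toFinset, Set.mem_ofPred_eq]
    have hnd := hω.nodup_rightInvSeq
    by_cases ht : t ∈ cs.rightInvSeq ω
    · rw [List.count_eq_one_of_mem hnd ht]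
      simp [ht]
    · rw [List.count_eq_zero_of_not_mem ht]
      simp [ht]
  · rw [List.toFinset_card_of_nodup hω.nodup_rightInvSeq, cs.length_rightInvSeq, ← cs.length_inv w,
      hw, hω.eq]

theorem Wl_eq_image (x y : W) : Wl cs x y = (fun u => x * u * x⁻¹) '' Ninv cs (x⁻¹ * y) := by
  ext t
  rw [mem_Wl_iff]
  constructor
  · intro h
    exact ⟨_, h, by group⟩
  · rintro ⟨u, hu, rfl⟩
    rwa [show x⁻¹ * (x * u * x⁻¹) * x = u by group]

theorem Wl_finite (x y : W) : (Wl cs x y).Finite := by
  rw [Wl_eq_image]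
  obtain ⟨s, hs, -⟩ := Ninv_eq cs (x⁻¹ * y)
  rw [hs]
  exact (s.finite_toSet).image _

theorem Wl_ncard (x y : W) : (Wl cs x y).ncard = cs.length (x⁻¹ * y) := by
  rw [Wl_eq_image]
  obtain ⟨s, hs, hc⟩ := Ninv_eq cs (x⁻¹ * y)
  rw [Set.ncard_image_of_injective, hs, Set.ncard_coe_finset, hc]
  intro a b hab
  simpa using hab


/-! TARGETS -/

/-- Right-angled Coxeter matrix. -/
def RightAngled (M : CoxeterMatrix B) : Prop := ∀ i j, i ≠ j → M i j = 2 ∨ M i j = 0

theorem Ninv_one' : Ninv cs (1 : W) = ∅ := by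
  ext t
  simp [Ninv, CoxeterSystem.IsLeftInversion]

theorem mem_Wl' (x y t : W) : t ∈ Wl cs x y ↔
    (t ∈ Ninv cs x ∧ t ∉ Ninv cs y) ∨ (t ∈ Ninv cs y ∧ t ∉ Ninv cs x) := Set.mem_symmDiff

theorem Wl_one' (w : W) : Wl cs 1 w = Ninv cs w := by
  ext t
  rw [mem_Wl', Ninv_one']
  simp

theorem mem_Wl_trans' (x y z t : W) : t ∈ Wl cs x z ↔
    (t ∈ Wl cs x y ∧ t ∉ Wl cs y z) ∨ (t ∉ Wl cs x y ∧ t ∈ Wl cs y z) := by
  simp only [mem_Wl']
  tauto

theorem simple_mem_Ninv' (w : W) (i : B) : cs.simple i ∈ Ninv cs w ↔ cs.IsLeftDescent w i :=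
  cs.isLeftInversion_simple_iff_isLeftDescent w i

theorem mem_Ninv_mul' (g w t : W) : t ∈ Ninv cs (g * w) ↔
    (t ∈ Ninv cs g ∧ g⁻¹ * t * g ∉ Ninv cs w) ∨ (t ∉ Ninv cs g ∧ g⁻¹ * t * g ∈ Ninv cs w) := by
  rw [← Wl_one' cs (g * w), mem_Wl_trans' cs 1 g (g * w), Wl_one']
  have h := mem_Wl_mul_left cs g 1 w t
  rw [mul_one, Wl_one'] at h
  rw [h]

theorem mem_Ninv_mul_simple' (g t : W) (i : B) : t ∈ Ninv cs (g * cs.simple i) ↔
    (t ∈ Ninv cs g ∧ t ≠ g * cs.simple i * g⁻¹) ∨ (t ∉ Ninv cs g ∧ t = g * cs.simple i * g⁻¹) := by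
  rw [← Wl_one' cs (g * cs.simple i), mem_Wl_trans' cs 1 g (g * cs.simple i), Wl_one',
    Wl_mul_simple]
  simp only [Set.mem_singleton_iff]

theorem mem_Ninv_simple_mul' (w t : W) (i : B) : t ∈ Ninv cs (cs.simple i * w) ↔
    (t = cs.simple i ∧ cs.simple i * t * cs.simple i ∉ Ninv cs w) ∨
    (t ≠ cs.simple i ∧ cs.simple i * t * cs.simple i ∈ Ninv cs w) := by
  have h1 : Ninv cs (cs.simple i) = {cs.simple i} := by
    have := Wl_mul_simple cs 1 i
    rw [one_mul, Wl_one'] at this
    rw [this]
    simp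
  rw [mem_Ninv_mul' cs (cs.simple i) w t, h1, cs.inv_simple]
  simp only [Set.mem_singleton_iff]

/-- the action on the line used to see that `s_i s_j` has infinite order -/
noncomputable def lineMap (i j : B) : B → Equiv.Perm ℤ := by
  classical
  exact fun a => if a = i then Equiv.neg ℤ else if a = j then Equiv.subLeft (1 : ℤ) else 1

theorem lineMap_liftable (hM : RightAngled M) (i j : B) (hij : i ≠ j) (h0 : M i j = 0) :
    M.IsLiftable (lineMap i j) := by
  classical
  have hinv : ∀ a, lineMap i j a * lineMap i j a = 1 := by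
    intro a
    unfold lineMap
    ext x
    split_ifs <;> simp
  intro a b
  by_cases hab : a = b
  · subst hab
    rw [M.diagonal, pow_one, hinv]
  · rcases hM a b hab with h | h
    · rw [h, pow_two]
      by_cases ha : a = i ∨ a = j
      · by_cases hb : b = i ∨ b = j
        · exfalso
          have h0' : M j i = 0 := by rw [M.symmetric]; exact h0
          rcases ha with ha | ha <;> rcases hb with hb | hb
          · exact hab (ha.trans hb.symm)
          · rw [ha, hb, h0] at h; omega
          · rw [ha, hb, h0'] at h; omega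
          · exact hab (ha.trans hb.symm)
        · push Not at hb
          have h1 : lineMap i j b = 1 := by
            unfold lineMap
            simp [hb.1, hb.2]
          rw [h1, mul_one, hinv]
      · push Not at ha
        have h1 : lineMap i j a = 1 := by
          unfold lineMap
          simp [ha.1, ha.2]
        rw [h1, one_mul, hinv]
    · rw [h, pow_zero]

theorem rho_inj (hM : RightAngled M) (i j : B) (hij : i ≠ j) (h0 : M i j = 0) (k l : ℤ)
    (h : (cs.simple i * cs.simple j) ^ k = (cs.simple i * cs.simple j) ^ l) : k = l := by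
  classical
  have hl := lineMap_liftable hM i j hij h0
  let f : W →* Equiv.Perm ℤ := cs.lift ⟨lineMap i j, hl⟩
  have hfi : f (cs.simple i) = Equiv.neg ℤ := by
    have := cs.lift_apply_simple hl i
    rw [show f (cs.simple i) = lineMap i j i from this]
    unfold lineMap
    simp
  have hfj : f (cs.simple j) = Equiv.subLeft (1 : ℤ) := by
    have := cs.lift_apply_simple hl j
    rw [show f (cs.simple j) = lineMap i j j from this]
    unfold lineMap
    simp [hij.symm]
  have hρ : f (cs.simple i * cs.simple j) = Equiv.addRight (-1 : ℤ) := by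
    rw [map_mul, hfi, hfj]
    ext x
    simp
    ring
  have hk : ∀ k : ℤ, ∀ x : ℤ, ((Equiv.addRight (-1 : ℤ) : Equiv.Perm ℤ) ^ k) x = x - k := by
    intro k
    induction k using Int.induction_on with
    | zero => intro x; simp
    | succ n ih =>
      intro x
      rw [zpow_add_one, Equiv.Perm.mul_apply, ih, Equiv.coe_addRight]
      ring
    | pred n ih =>
      intro x
      have hinv : (Equiv.addRight (-1 : ℤ) : Equiv.Perm ℤ)⁻¹ x = x + 1 := by
        rw [Equiv.Perm.inv_eq_iff_eq, Equiv.coe_addRight]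
        ring
      rw [zpow_sub_one, Equiv.Perm.mul_apply, hinv, ih]
      ring
  have h2 := congrArg f h
  rw [map_zpow, map_zpow, hρ] at h2
  have h3 := congrArg (fun e : Equiv.Perm ℤ => e 0) h2
  simp only [hk] at h3
  omega

/-- Two distinct left descents commute. -/
theorem descents_commute (hM : RightAngled M) (w : W) (i j : B) (hij : i ≠ j)
    (hi : cs.IsLeftDescent w i) (hj : cs.IsLeftDescent w j) : M i j = 2 := by
  classical
  rcases hM i j hij with h | h0
  · exact h
  exfalso
  set ρ : W := cs.simple i * cs.simple j with hρ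
  let r : ℤ → W := fun k => ρ ^ k * cs.simple i
  have hsρ : ∀ m : ℤ, cs.simple i * ρ ^ m = ρ ^ (-m) * cs.simple i := by
    intro m
    have h1 : cs.simple i * ρ * cs.simple i = ρ⁻¹ := by
      rw [hρ, mul_inv_rev, cs.inv_simple, cs.inv_simple, ← mul_assoc, cs.simple_mul_simple_self,
        one_mul]
    have h2 : cs.simple i * ρ ^ m * cs.simple i = ρ ^ (-m) := by
      have h3 : cs.simple i * ρ ^ m * (cs.simple i)⁻¹ = (cs.simple i * ρ * (cs.simple i)⁻¹) ^ m :=
        (conj_zpow).symm
      rw [cs.inv_simple] at h3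
      rw [h3, h1, inv_zpow, zpow_neg]
    rw [← h2, mul_assoc, mul_assoc, cs.simple_mul_simple_self, mul_one]
  have hsj : cs.simple j = ρ ^ (-1 : ℤ) * cs.simple i := by
    rw [zpow_neg_one, hρ, mul_inv_rev, cs.inv_simple, cs.inv_simple, mul_assoc,
      cs.simple_mul_simple_self, mul_one]
  have hrinj : ∀ k l : ℤ, r k = r l ↔ k = l := by
    intro k l
    constructor
    · intro h
      exact rho_inj cs hM i j hij h0 k l (mul_right_cancel h)
    · intro h; rw [h]
  have hP : ∀ u ∈ Subgroup.closure ({cs.simple i, cs.simple j} : Set W), ∃ m : ℤ,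
      (u = ρ ^ m ∧ ∀ k, r k ∈ Ninv cs u ↔ (0 ≤ k ∧ k < 2 * m) ∨ (2 * m ≤ k ∧ k < 0)) ∨
      (u = ρ ^ m * cs.simple i ∧
        ∀ k, r k ∈ Ninv cs u ↔ (0 ≤ k ∧ k < 2 * m + 1) ∨ (2 * m + 1 ≤ k ∧ k < 0)) := by
    have hstepi : ∀ u : W, (∃ m : ℤ,
      (u = ρ ^ m ∧ ∀ k, r k ∈ Ninv cs u ↔ (0 ≤ k ∧ k < 2 * m) ∨ (2 * m ≤ k ∧ k < 0)) ∨
      (u = ρ ^ m * cs.simple i ∧
        ∀ k, r k ∈ Ninv cs u ↔ (0 ≤ k ∧ k < 2 * m + 1) ∨ (2 * m + 1 ≤ k ∧ k < 0))) →
      (∃ m : ℤ,
      (u * cs.simple i = ρ ^ m ∧ ∀ k, r k ∈ Ninv cs (u * cs.simple i) ↔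
        (0 ≤ k ∧ k < 2 * m) ∨ (2 * m ≤ k ∧ k < 0)) ∨
      (u * cs.simple i = ρ ^ m * cs.simple i ∧
        ∀ k, r k ∈ Ninv cs (u * cs.simple i) ↔
          (0 ≤ k ∧ k < 2 * m + 1) ∨ (2 * m + 1 ≤ k ∧ k < 0))) := by
      rintro u ⟨m, ⟨hu, hk⟩ | ⟨hu, hk⟩⟩
      · refine ⟨m, Or.inr ⟨by rw [hu], ?_⟩⟩
        intro k
        have hw : u * cs.simple i * u⁻¹ = r (2 * m) := by
          rw [hu, ← zpow_neg, mul_assoc, hsρ, neg_neg, ← mul_assoc, ← zpow_add]
          simp only [r]
          congr 2; ring
        rw [mem_Ninv_mul_simple', hw, hk k, Ne, hrinj]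
        omega
      · refine ⟨m, Or.inl ⟨by rw [hu, mul_assoc, cs.simple_mul_simple_self, mul_one], ?_⟩⟩
        intro k
        have hw : u * cs.simple i * u⁻¹ = r (2 * m) := by
          rw [hu, mul_assoc (ρ ^ m), cs.simple_mul_simple_self, mul_one, mul_inv_rev,
            cs.inv_simple, ← zpow_neg, hsρ, neg_neg, ← mul_assoc, ← zpow_add]
          simp only [r]
          congr 2; ring
        rw [mem_Ninv_mul_simple', hw, hk k, Ne, hrinj]
        omega
    have hstepj : ∀ u : W, (∃ m : ℤ,
      (u = ρ ^ m ∧ ∀ k, r k ∈ Ninv cs u ↔ (0 ≤ k ∧ k < 2 * m) ∨ (2 * m ≤ k ∧ k < 0)) ∨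
      (u = ρ ^ m * cs.simple i ∧
        ∀ k, r k ∈ Ninv cs u ↔ (0 ≤ k ∧ k < 2 * m + 1) ∨ (2 * m + 1 ≤ k ∧ k < 0))) →
      (∃ m : ℤ,
      (u * cs.simple j = ρ ^ m ∧ ∀ k, r k ∈ Ninv cs (u * cs.simple j) ↔
        (0 ≤ k ∧ k < 2 * m) ∨ (2 * m ≤ k ∧ k < 0)) ∨
      (u * cs.simple j = ρ ^ m * cs.simple i ∧
        ∀ k, r k ∈ Ninv cs (u * cs.simple j) ↔
          (0 ≤ k ∧ k < 2 * m + 1) ∨ (2 * m + 1 ≤ k ∧ k < 0))) := by
      rintro u ⟨m, ⟨hu, hk⟩ | ⟨hu, hk⟩⟩
      · refine ⟨m - 1, Or.inr ⟨?_, ?_⟩⟩
        · rw [hu, hsj, ← mul_assoc, ← zpow_add]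
          congr 2
        intro k
        have hw : u * cs.simple j * u⁻¹ = r (2 * m - 1) := by
          rw [hu, hsj, ← zpow_neg, ← mul_assoc, ← zpow_add, mul_assoc, hsρ, neg_neg, ← mul_assoc,
            ← zpow_add]
          simp only [r]
          congr 2; ring
        rw [mem_Ninv_mul_simple', hw, hk k, Ne, hrinj]
        omega
      · refine ⟨m + 1, Or.inl ⟨?_, ?_⟩⟩
        · rw [hu, mul_assoc, ← hρ, zpow_add_one]
        intro k
        have hw : u * cs.simple j * u⁻¹ = r (2 * m + 1) := by
          rw [hu, mul_assoc (ρ ^ m), ← hρ, ← zpow_add_one, mul_inv_rev,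
            cs.inv_simple, ← zpow_neg, hsρ, neg_neg, ← mul_assoc, ← zpow_add]
          simp only [r]
          congr 2; ring
        rw [mem_Ninv_mul_simple', hw, hk k, Ne, hrinj]
        omega
    intro u hu
    induction hu using Subgroup.closure_induction_right with
    | one =>
      refine ⟨0, Or.inl ⟨by simp, ?_⟩⟩
      intro k
      rw [Ninv_one']
      constructor
      · intro h
        exact absurd h (Set.notMem_empty _)
      · intro h
        exfalso
        omega
    | mul_right x hx y hy ih =>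
      rcases hy with hy | hy
      · rw [hy]; exact hstepi x ih
      · rw [Set.mem_singleton_iff.mp hy]; exact hstepj x ih
    | mul_inv_cancel x hx y hy ih =>
      rcases hy with hy | hy
      · rw [hy, cs.inv_simple]; exact hstepi x ih
      · rw [Set.mem_singleton_iff.mp hy, cs.inv_simple]; exact hstepj x ih
  -- minimal coset representative
  set D := Subgroup.closure ({cs.simple i, cs.simple j} : Set W) with hD
  have hex : ∃ n, ∃ d ∈ D, cs.length (d * w) = n := ⟨_, 1, D.one_mem, rfl⟩
  obtain ⟨d, hd, hdn⟩ := Nat.find_spec hex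
  have hmin : ∀ d' ∈ D, cs.length (d * w) ≤ cs.length (d' * w) := by
    intro d' hd'
    rw [hdn]
    exact Nat.find_min' hex ⟨d', hd', rfl⟩
  have hiD : cs.simple i ∈ D := Subgroup.subset_closure (by simp)
  have hjD : cs.simple j ∈ D := Subgroup.subset_closure (by simp)
  have hnot : ∀ t ∈ D, t ∉ Ninv cs (d * w) := by
    intro t ht hmem
    have h1 : cs.length (t * (d * w)) < cs.length (d * w) := hmem.2
    rw [← mul_assoc] at h1
    have h2 := hmin (t * d) (D.mul_mem ht hd)
    omega
  have hu : d⁻¹ ∈ D := D.inv_mem hd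
  have hred : ∀ t ∈ D, t ∈ Ninv cs w → t ∈ Ninv cs d⁻¹ := by
    intro t ht htw
    have h1 : w = d⁻¹ * (d * w) := by group
    rw [h1, mem_Ninv_mul'] at htw
    rcases htw with h | h
    · exact h.1
    · exfalso
      apply hnot _ _ h.2
      rw [inv_inv]
      exact D.mul_mem (D.mul_mem hd ht) hu
  have hi' := hred _ hiD ((simple_mem_Ninv' cs w i).mpr hi)
  have hj' := hred _ hjD ((simple_mem_Ninv' cs w j).mpr hj)
  have hr0 : r 0 = cs.simple i := by simp [r]
  have hr1 : r (-1) = cs.simple j := by simp only [r]; rw [← hsj]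
  obtain ⟨m, ⟨-, hk⟩ | ⟨-, hk⟩⟩ := hP d⁻¹ hu
  · have a := (hk 0).mp (by rw [hr0]; exact hi')
    have b := (hk (-1)).mp (by rw [hr1]; exact hj')
    omega
  · have a := (hk 0).mp (by rw [hr0]; exact hi')
    have b := (hk (-1)).mp (by rw [hr1]; exact hj')
    omega

/-- If some wall separates `1` from both `x` and `y` then a wall adjacent to `1` does. -/
theorem exists_simple_of_inter (hM : RightAngled M) (x y : W)
    (h : (Ninv cs x ∩ Ninv cs y).Nonempty) :
    ∃ i, cs.simple i ∈ Ninv cs x ∩ Ninv cs y := by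
  classical
  have key : ∀ n : ℕ, ∀ v : W, ∀ i : B, cs.length v = n →
      v * cs.simple i * v⁻¹ ∈ Ninv cs x ∩ Ninv cs y →
      ∃ i, cs.simple i ∈ Ninv cs x ∩ Ninv cs y := by
    intro n
    induction n using Nat.strong_induction_on with
    | _ n ih =>
      intro v i hv ht
      by_cases hshort : ∃ v' i', cs.length v' < cs.length v ∧
          v' * cs.simple i' * v'⁻¹ = v * cs.simple i * v⁻¹
      · obtain ⟨v', i', hlt, heq⟩ := hshort
        rw [hv] at hlt
        exact ih _ hlt v' i' rfl (by rw [heq]; exact ht)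
      · push Not at hshort
        by_cases hv1 : v = 1
        · refine ⟨i, ?_⟩
          rw [hv1] at ht
          simpa using ht
        · obtain ⟨q, hq⟩ := cs.exists_rightDescent_of_ne_one hv1
          have hqi : q ≠ i := by
            intro hqi
            apply hshort (v * cs.simple i) i
            · rw [← hqi]; exact hq
            · rw [mul_inv_rev, cs.inv_simple]
              simp only [← mul_assoc]
              rw [mul_assoc v, cs.simple_mul_simple_self, mul_one]
          have hM0 : M i q ≠ 2 := by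
            intro h2
            have hcomm : cs.simple i * cs.simple q = cs.simple q * cs.simple i := by
              have h3 := cs.simple_mul_simple_pow i q
              rw [h2, pow_two] at h3
              have h4 : (cs.simple i * cs.simple q) = (cs.simple i * cs.simple q)⁻¹ :=
                eq_inv_of_mul_eq_one_left h3
              rw [mul_inv_rev, cs.inv_simple, cs.inv_simple] at h4
              exact h4
            apply hshort (v * cs.simple q) i hq
            rw [mul_inv_rev, cs.inv_simple]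
            calc v * cs.simple q * cs.simple i * (cs.simple q * v⁻¹)
                = v * (cs.simple q * cs.simple i) * cs.simple q * v⁻¹ := by group
              _ = v * (cs.simple i * cs.simple q) * cs.simple q * v⁻¹ := by rw [hcomm]
              _ = v * cs.simple i * (cs.simple q * cs.simple q) * v⁻¹ := by group
              _ = v * cs.simple i * v⁻¹ := by rw [cs.simple_mul_simple_self, mul_one]
          set t := v * cs.simple i * v⁻¹ with htdef
          set t' := v * cs.simple q * v⁻¹ with ht'def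
          have htv : t ∉ Ninv cs v := by
            intro hmem
            have h1 : cs.length (t * v) < cs.length v := hmem.2
            have h2 : t * v = v * cs.simple i := by rw [htdef]; group
            rw [h2] at h1
            apply hshort (v * cs.simple i) i h1
            rw [mul_inv_rev, cs.inv_simple]
            simp only [← mul_assoc]
            rw [mul_assoc v, cs.simple_mul_simple_self, mul_one]
          have ht'v : t' ∈ Ninv cs v := by
            refine ⟨⟨v, q, rfl⟩, ?_⟩
            have h2 : t' * v = v * cs.simple q := by rw [ht'def]; group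
            rw [h2]
            exact hq
          have claim : ∀ z : W, t ∈ Ninv cs z → t' ∈ Ninv cs z := by
            intro z hz
            by_contra hcon
            have h1 : t ∈ Wl cs v z := (mem_Wl' cs v z t).mpr (Or.inr ⟨hz, htv⟩)
            have h2 : t' ∈ Wl cs v z := (mem_Wl' cs v z t').mpr (Or.inl ⟨ht'v, hcon⟩)
            have e : z = v * (v⁻¹ * z) := by group
            rw [e] at h1 h2
            have h3 := mem_Wl_mul_left cs v 1 (v⁻¹ * z) t
            have h4 := mem_Wl_mul_left cs v 1 (v⁻¹ * z) t'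
            rw [mul_one, Wl_one'] at h3 h4
            have e1 : v⁻¹ * t * v = cs.simple i := by rw [htdef]; group
            have e2 : v⁻¹ * t' * v = cs.simple q := by rw [ht'def]; group
            rw [e1] at h3
            rw [e2] at h4
            have d1 := (simple_mem_Ninv' cs _ i).mp (h3.mp h1)
            have d2 := (simple_mem_Ninv' cs _ q).mp (h4.mp h2)
            exact hM0 (descents_commute cs hM _ i q hqi.symm d1 d2)
          have hlt : cs.length (v * cs.simple q) < n := by rw [← hv]; exact hq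
          apply ih _ hlt (v * cs.simple q) q rfl
          have e3 : v * cs.simple q * cs.simple q * (v * cs.simple q)⁻¹ = t' := by
            rw [mul_assoc v, cs.simple_mul_simple_self, mul_one, mul_inv_rev, cs.inv_simple,
              ← mul_assoc]
          rw [e3]
          exact ⟨claim x ht.1, claim y ht.2⟩
  obtain ⟨t, ht⟩ := h
  obtain ⟨v, i, hvi⟩ := ht.1.1
  exact key _ v i rfl (by rw [← hvi]; exact ht)

theorem median_one' (hM : RightAngled M) : ∀ n : ℕ, ∀ y z : W, cs.length y = n →
    ∃ m, Ninv cs m = Ninv cs y ∩ Ninv cs z := by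
  intro n
  induction n using Nat.strong_induction_on with
  | _ n ih =>
    intro y z hy
    by_cases hne : (Ninv cs y ∩ Ninv cs z).Nonempty
    · obtain ⟨i, hiy, hiz⟩ := exists_simple_of_inter cs hM y z hne
      have hlt : cs.length (cs.simple i * y) < n := by
        rw [← hy]
        exact (simple_mem_Ninv' cs y i).mp hiy
      obtain ⟨m', hm'⟩ := ih _ hlt (cs.simple i * y) (cs.simple i * z) rfl
      refine ⟨cs.simple i * m', ?_⟩
      have cancel : ∀ w : W, cs.simple i * (cs.simple i * w) = w := fun w =>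
        cs.simple_mul_simple_cancel_left i
      have hnot : ∀ w : W, cs.simple i ∈ Ninv cs w → cs.simple i ∉ Ninv cs (cs.simple i * w) := by
        intro w hw
        have := mem_Ninv_simple_mul' cs (cs.simple i * w) (cs.simple i) i
        rw [cancel] at this
        have h2 := this.mp hw
        rcases h2 with h2 | h2
        · have h3 := h2.2
          rwa [cs.simple_mul_simple_self, one_mul] at h3
        · exact absurd rfl h2.1
      have hmem : ∀ w t : W, t ≠ cs.simple i →
          (t ∈ Ninv cs w ↔ cs.simple i * t * cs.simple i ∈ Ninv cs (cs.simple i * w)) := by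
        intro w t ht
        have := mem_Ninv_simple_mul' cs (cs.simple i * w) t i
        rw [cancel] at this
        rw [this]
        constructor
        · rintro (h | h)
          · exact absurd h.1 ht
          · exact h.2
        · intro h
          exact Or.inr ⟨ht, h⟩
      ext t
      by_cases ht : t = cs.simple i
      · rw [ht]
        constructor
        · intro _
          exact ⟨hiy, hiz⟩
        · intro _
          rw [mem_Ninv_simple_mul']
          left
          refine ⟨rfl, ?_⟩
          rw [cs.simple_mul_simple_self, one_mul, hm']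
          intro h
          exact hnot y hiy h.1
      · rw [mem_Ninv_simple_mul', hm']
        rw [Set.mem_inter_iff, Set.mem_inter_iff, hmem y t ht, hmem z t ht]
        constructor
        · rintro (h | h)
          · exact absurd h.1 ht
          · exact h.2
        · intro h
          exact Or.inr ⟨ht, h⟩
    · refine ⟨1, ?_⟩
      rw [Ninv_one', Set.not_nonempty_iff_eq_empty.mp hne]

/-- Medians. -/
theorem exists_median (hM : RightAngled M) (x y z : W) :
    ∃ m, Wl cs x m = Wl cs x y ∩ Wl cs x z := by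
  obtain ⟨m, hm⟩ := median_one' cs hM _ (x⁻¹ * y) (x⁻¹ * z) rfl
  refine ⟨x * m, ?_⟩
  have hg : ∀ w t : W, t ∈ Wl cs x (x * w) ↔ x⁻¹ * t * x ∈ Ninv cs w := by
    intro w t
    have := mem_Wl_mul_left cs x 1 w t
    rwa [mul_one, Wl_one'] at this
  ext t
  have hy : y = x * (x⁻¹ * y) := by group
  have hz : z = x * (x⁻¹ * z) := by group
  rw [hg m t, hm, Set.mem_inter_iff, Set.mem_inter_iff, ← hg, ← hg, ← hy, ← hz]

/-- The type of a wall is well defined. -/
theorem type_unique (hM : RightAngled M) (x y : W) (i j : B)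
    (h : x * cs.simple i * x⁻¹ = y * cs.simple j * y⁻¹) : i = j := by
  classical
  by_contra hij
  have hl : M.IsLiftable (fun a : B => if a = i then Multiplicative.ofAdd (1 : ZMod 2) else 1) := by
    have hsq : ∀ c : Multiplicative (ZMod 2), c ^ 2 = 1 := by decide
    intro a b
    by_cases hab : a = b
    · subst hab
      rw [M.diagonal, pow_one, ← pow_two, hsq]
    · rcases hM a b hab with h2 | h2
      · rw [h2, hsq]
      · rw [h2, pow_zero]
  let f : W →* Multiplicative (ZMod 2) := cs.lift ⟨_, hl⟩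
  have hf : ∀ a, f (cs.simple a) = if a = i then Multiplicative.ofAdd (1 : ZMod 2) else 1 :=
    fun a => cs.lift_apply_simple hl a
  have h2 := congrArg f h
  rw [map_mul, map_mul, map_mul, map_mul, map_inv, map_inv, mul_comm (f x), mul_inv_cancel_right,
    mul_comm (f y), mul_inv_cancel_right, hf, hf, if_pos rfl, if_neg (Ne.symm hij)] at h2
  revert h2
  decide

/-- Crossing walls: there is a square, in particular the types commute. -/
theorem crossing (hM : RightAngled M) (t t' a b c d : W)
    (hb : t ∈ Wl cs a b) (hb' : t' ∉ Wl cs a b)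
    (hc : t ∉ Wl cs a c) (hc' : t' ∈ Wl cs a c)
    (hd : t ∈ Wl cs a d) (hd' : t' ∈ Wl cs a d) :
    ∃ x i j, i ≠ j ∧ M i j = 2 ∧ t = x * cs.simple i * x⁻¹ ∧ t' = x * cs.simple j * x⁻¹ := by
  classical
  have haa : ∀ s : W, s ∉ Wl cs a a := by
    intro s hs
    rw [mem_Wl'] at hs
    tauto
  have hex : ∃ n, ∃ x y : W, (t ∉ Wl cs a x ∧ t' ∉ Wl cs a x) ∧ (t ∈ Wl cs a y ∧ t' ∈ Wl cs a y) ∧
      cs.length (x⁻¹ * y) = n := ⟨_, a, d, ⟨haa t, haa t'⟩, ⟨hd, hd'⟩, rfl⟩
  obtain ⟨x, y, ⟨hx, hx'⟩, ⟨hy, hy'⟩, hn⟩ := Nat.find_spec hex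
  have hmin : ∀ x₁ : W, t ∉ Wl cs a x₁ → t' ∉ Wl cs a x₁ →
      cs.length (x⁻¹ * y) ≤ cs.length (x₁⁻¹ * y) := by
    intro x₁ h1 h2
    rw [hn]
    exact Nat.find_min' hex ⟨x₁, y, ⟨h1, h2⟩, ⟨hy, hy'⟩, rfl⟩
  have hdesc : ∀ i, cs.simple i ∈ Ninv cs (x⁻¹ * y) →
      x * cs.simple i * x⁻¹ = t ∨ x * cs.simple i * x⁻¹ = t' := by
    intro i hi
    by_contra hcon
    push Not at hcon
    have h1 : cs.length (cs.simple i * (x⁻¹ * y)) < cs.length (x⁻¹ * y) :=
      (simple_mem_Ninv' cs _ i).mp hi
    have h2 := hmin (x * cs.simple i) (by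
      rw [mem_Wl_trans' cs a x, Wl_mul_simple, Set.mem_singleton_iff]
      push Not
      exact ⟨fun h => absurd h hx, fun _ h => hcon.1 h.symm⟩) (by
      rw [mem_Wl_trans' cs a x, Wl_mul_simple, Set.mem_singleton_iff]
      push Not
      exact ⟨fun h => absurd h hx', fun _ h => hcon.2 h.symm⟩)
    rw [mul_inv_rev, cs.inv_simple, mul_assoc] at h2
    omega
  have hxy : t ∈ Wl cs x y ∧ t' ∈ Wl cs x y := by
    constructor
    · rcases (mem_Wl_trans' cs a x y t).mp hy with h | h
      · exact absurd h.1 hx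
      · exact h.2
    · rcases (mem_Wl_trans' cs a x y t').mp hy' with h | h
      · exact absurd h.1 hx'
      · exact h.2
  have hg : ∀ w s : W, s ∈ Wl cs x w ↔ x⁻¹ * s * x ∈ Ninv cs (x⁻¹ * w) := by
    intro w s
    have := mem_Wl_mul_left cs x 1 (x⁻¹ * w) s
    rw [mul_one, Wl_one'] at this
    rw [← this]
    have e : x * (x⁻¹ * w) = w := by group
    rw [e]
  have hfind : ∀ p : W, ∀ s s' : W, s ∈ Wl cs x y → s ∈ Wl cs x p → s' ∉ Wl cs x p →
      (∀ i, cs.simple i ∈ Ninv cs (x⁻¹ * y) →
        x * cs.simple i * x⁻¹ = s ∨ x * cs.simple i * x⁻¹ = s') →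
      ∃ i, cs.IsLeftDescent (x⁻¹ * y) i ∧ s = x * cs.simple i * x⁻¹ := by
    intro p s s' hsy hsp hs'p hor
    obtain ⟨m, hm⟩ := exists_median cs hM x y p
    have hsm : s ∈ Wl cs x m := by rw [hm]; exact ⟨hsy, hsp⟩
    have hne : x⁻¹ * m ≠ 1 := by
      intro h
      have h1 := (hg m s).mp hsm
      rw [h, Ninv_one'] at h1
      exact h1
    obtain ⟨i, hi⟩ := cs.exists_leftDescent_of_ne_one hne
    have h1 : cs.simple i ∈ Ninv cs (x⁻¹ * m) := (simple_mem_Ninv' cs _ i).mpr hi
    have h2 : x * cs.simple i * x⁻¹ ∈ Wl cs x m := by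
      rw [hg]
      have e : x⁻¹ * (x * cs.simple i * x⁻¹) * x = cs.simple i := by group
      rw [e]; exact h1
    rw [hm] at h2
    have h3 : cs.simple i ∈ Ninv cs (x⁻¹ * y) := by
      have h4 := (hg y _).mp h2.1
      have e : x⁻¹ * (x * cs.simple i * x⁻¹) * x = cs.simple i := by group
      rwa [e] at h4
    refine ⟨i, (simple_mem_Ninv' cs _ i).mp h3, ?_⟩
    rcases hor i h3 with h4 | h4
    · exact h4.symm
    · exfalso
      rw [h4] at h2
      exact hs'p h2.2
  obtain ⟨i, hi, hit⟩ := hfind b t t' hxy.1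
    (by
      rcases (mem_Wl_trans' cs a x b t).mp hb with h | h
      · exact absurd h.1 hx
      · exact h.2)
    (by
      intro h
      exact hb' ((mem_Wl_trans' cs a x b t').mpr (Or.inr ⟨hx', h⟩))) hdesc
  obtain ⟨j, hj, hjt⟩ := hfind c t' t hxy.2
    (by
      rcases (mem_Wl_trans' cs a x c t').mp hc' with h | h
      · exact absurd h.1 hx'
      · exact h.2)
    (by
      intro h
      exact hc ((mem_Wl_trans' cs a x c t).mpr (Or.inr ⟨hx, h⟩))) (fun k hk => (hdesc k hk).symm)
  have hij : i ≠ j := by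
    intro h
    rw [← h, ← hit] at hjt
    rw [hjt] at hb'
    exact hb' hb
  exact ⟨x, i, j, hij, descents_commute cs hM _ i j hij hi hj, hit, hjt⟩

end Pool.Agent.Helper376.LC
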