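import Mathlib
import Pool.Agent.Helper376.LC.Cox

/-! The concrete right-angled Coxeter group, heights, the groups `As` and `Gs`, the ray `rho`. -/

namespace Pool.Agent.Helper376.LC

/-- Letters: ten letters `(i, β)` and the two letters `p`, `q`. -/
abbrev Lt := (ZMod 5 × Bool) ⊕ Bool

/-- The commutation relation. -/
def cmt : Lt → Lt → Prop
  | Sum.inl a, Sum.inl b => a ≠ b ∧ (a.1 - b.1 = 0 ∨ a.1 - b.1 = 1 ∨ a.1 - b.1 = -1)
  | _, _ => False

instance : DecidableRel cmt := fun a b => by
  cases a <;> cases b <;> unfold cmt <;> infer_instance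

/-- The Coxeter matrix. -/
def MM : CoxeterMatrix Lt where
  M := Matrix.of fun a b => if a = b then 1 else if cmt a b then 2 else 0
  isSymm := by
    ext a b
    simp only [Matrix.transpose_apply, Matrix.of_apply]
    revert a b
    decide +kernel
  diagonal := by intro a; simp
  off_diagonal := by
    intro a b h
    simp only [Matrix.of_apply, h, if_false]
    split_ifs <;> simp

/-- The right-angled Coxeter group. -/
abbrev Wh : Type := MM.Group

/-- Its Coxeter system. -/
abbrev cs : CoxeterSystem MM Wh := MM.toCoxeterSystem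

/-- The generators. -/
abbrev sg (a : Lt) : Wh := cs.simple a

/-- Values: height and state. -/
abbrev Val := ℤ × (ZMod 5 → Bool)

/-- Colour of a letter. -/
def colr (a : ZMod 5 × Bool) : ZMod 5 := if a.2 then a.1 - 2 else a.1

/-- Sign of a letter in a state. -/
def sgn (e : ZMod 5 → Bool) (a : ZMod 5 × Bool) : ℤ :=
  if (e (colr a)) = a.2 then 1 else -1

/-- Action of a letter on states. -/
def flp (e : ZMod 5 → Bool) (a : ZMod 5 × Bool) : ZMod 5 → Bool :=
  Function.update e (colr a) (!(e (colr a)))

theorem flp_flp (e : ZMod 5 → Bool) (a : ZMod 5 × Bool) : flp (flp e a) a = e := by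
  unfold flp
  funext i
  by_cases h : i = colr a
  · subst h; simp
  · simp [h]

theorem sgn_flp (e : ZMod 5 → Bool) (a : ZMod 5 × Bool) : sgn (flp e a) a = - sgn e a := by
  unfold sgn flp
  simp only [Function.update_self]
  cases e (colr a) <;> cases a.2 <;> simp

/-- Action of a letter on values. -/
def sig (a : ZMod 5 × Bool) : Equiv.Perm Val where
  toFun x := (x.1 + sgn x.2 a, flp x.2 a)
  invFun x := (x.1 + sgn x.2 a, flp x.2 a)
  left_inv x := by simp [sgn_flp, flp_flp]
  right_inv x := by simp [sgn_flp, flp_flp]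

theorem flp_comm (e : ZMod 5 → Bool) (a b : ZMod 5 × Bool) (h : colr a ≠ colr b) :
    flp (flp e a) b = flp (flp e b) a := by
  unfold flp
  funext i
  by_cases h1 : i = colr a
  · subst h1
    simp [h]
  · by_cases h2 : i = colr b
    · subst h2
      simp [h.symm]
    · simp [h1, h2]

theorem sgn_flp_ne (e : ZMod 5 → Bool) (a b : ZMod 5 × Bool) (h : colr a ≠ colr b) :
    sgn (flp e a) b = sgn e b := by
  unfold sgn flp
  simp [h.symm]

theorem colr_ne_of_cmt (a b : ZMod 5 × Bool) (h : cmt (Sum.inl a) (Sum.inl b)) :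
    colr a ≠ colr b := by
  revert a b
  decide +kernel

/-- Action of all the letters on values. -/
def sigL : Lt → Equiv.Perm Val
  | Sum.inl a => sig a
  | Sum.inr _ => 1

theorem sig_mul_self (a : ZMod 5 × Bool) : sig a * sig a = 1 := by
  ext1 x
  exact (sig a).left_inv x

theorem sigL_mul_self (a : Lt) : sigL a * sigL a = 1 := by
  cases a with
  | inl a => exact sig_mul_self a
  | inr b => rfl

theorem sig_comm (a b : ZMod 5 × Bool) (h : colr a ≠ colr b) : sig a * sig b = sig b * sig a := by
  ext1 x
  show (x.1 + sgn x.2 b + sgn (flp x.2 b) a, flp (flp x.2 b) a) =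
    (x.1 + sgn x.2 a + sgn (flp x.2 a) b, flp (flp x.2 a) b)
  rw [sgn_flp_ne _ _ _ h.symm, sgn_flp_ne _ _ _ h, flp_comm _ _ _ h]
  simp only [Prod.mk.injEq, and_true]
  ring

theorem MM_apply (a b : Lt) : MM a b = if a = b then 1 else if cmt a b then 2 else 0 := rfl

theorem not_cmt_self (a : Lt) : ¬ cmt a a := by
  revert a; decide

theorem cmt_symm (a b : Lt) : cmt a b → cmt b a := by
  revert a b; decide +kernel

theorem MM_eq_two_iff (a b : Lt) : MM a b = 2 ↔ cmt a b := by
  rw [MM_apply]
  split_ifs with h1 h2
  · subst h1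
    simp [not_cmt_self]
  · simp [h2]
  · simp [h2]

theorem MM_eq_zero_iff (a b : Lt) : MM a b = 0 ↔ a ≠ b ∧ ¬ cmt a b := by
  rw [MM_apply]
  split_ifs with h1 h2
  · simp [h1]
  · simp [h1, h2]
  · simp [h1, h2]

theorem hMM : RightAngled MM := by
  intro i j h
  rw [MM_eq_two_iff, MM_eq_zero_iff]
  by_cases h2 : cmt i j
  · left; exact h2
  · right; exact ⟨h, h2⟩

/-- Liftability criterion. -/
theorem liftable_of {H : Type*} [Group H] (f : Lt → H) (h1 : ∀ a, f a * f a = 1)
    (h2 : ∀ a b, cmt a b → f a * f b = f b * f a) : MM.IsLiftable f := by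
  intro a b
  by_cases hab : a = b
  · subst hab
    rw [h1, one_pow]
  · rcases hMM a b hab with h | h
    · rw [h, pow_two]
      have h3 := h2 a b ((MM_eq_two_iff a b).1 h)
      calc f a * f b * (f a * f b) = f a * f b * (f b * f a) := by rw [h3]
        _ = f a * (f b * f b) * f a := by group
        _ = 1 := by rw [h1, mul_one, h1]
    · rw [h, pow_zero]

/-- The action on values. -/
noncomputable def phi : Wh →* Equiv.Perm Val :=
  cs.lift ⟨sigL, liftable_of sigL sigL_mul_self (by
    intro a b h
    cases a with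
    | inl a =>
      cases b with
      | inl b => exact sig_comm a b (colr_ne_of_cmt a b h)
      | inr b => exact absurd h (by unfold cmt; exact id)
    | inr a => exact absurd h (by unfold cmt; exact id))⟩

theorem phi_sg (a : Lt) : phi (sg a) = sigL a := cs.lift_apply_simple _ _

/-- The base value. -/
def e0 : Val := (0, fun _ => false)

/-- Height and state of an element. -/
noncomputable def val (w : Wh) : Val := phi w⁻¹ e0

theorem val_one : val 1 = e0 := by simp [val]

theorem sg_inv (a : Lt) : (sg a)⁻¹ = sg a := cs.inv_simple a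

theorem sg_mul_self (a : Lt) : sg a * sg a = 1 := cs.simple_mul_simple_self a

theorem val_mul_sg (w : Wh) (a : Lt) : val (w * sg a) = sigL a (val w) := by
  unfold val
  rw [mul_inv_rev, sg_inv, map_mul, phi_sg]
  rfl

theorem val_mul_inl (w : Wh) (a : ZMod 5 × Bool) :
    val (w * sg (Sum.inl a)) = ((val w).1 + sgn (val w).2 a, flp (val w).2 a) :=
  val_mul_sg w (Sum.inl a)

theorem val_mul_inr (w : Wh) (b : Bool) : val (w * sg (Sum.inr b)) = val w :=
  val_mul_sg w (Sum.inr b)

/-- The subgroup generated by the ten letters. -/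
def Ws : Subgroup Wh := Subgroup.closure (Set.range fun a : ZMod 5 × Bool => sg (Sum.inl a))

theorem sg_mem_Ws (a : ZMod 5 × Bool) : sg (Sum.inl a) ∈ Ws :=
  Subgroup.subset_closure ⟨a, rfl⟩

/-- The subgroup of `Ws` fixing the base value. -/
noncomputable def As : Subgroup Wh :=
  Ws ⊓ (MulAction.stabilizer (Equiv.Perm Val) e0).comap phi

theorem mem_As (w : Wh) : w ∈ As ↔ w ∈ Ws ∧ phi w e0 = e0 := Iff.rfl

theorem val_mul_left (a w : Wh) (ha : a ∈ As) : val (a * w) = val w := by
  unfold val
  rw [mul_inv_rev, map_mul]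
  have h1 : phi a⁻¹ e0 = e0 := ((mem_As a⁻¹).1 (As.inv_mem ha)).2
  show phi w⁻¹ (phi a⁻¹ e0) = phi w⁻¹ e0
  rw [h1]

theorem val_eq_iff (x y : Wh) (hx : x ∈ Ws) (hy : y ∈ Ws) : val x = val y ↔ y * x⁻¹ ∈ As := by
  constructor
  · intro h
    rw [mem_As]
    refine ⟨Ws.mul_mem hy (Ws.inv_mem hx), ?_⟩
    unfold val at h
    rw [map_mul]
    show phi y (phi x⁻¹ e0) = e0
    rw [h]
    show (phi y * phi y⁻¹) e0 = e0
    rw [← map_mul, mul_inv_cancel, map_one]
    rfl
  · intro h
    have h1 := val_mul_left _ x h
    rw [inv_mul_cancel_right] at h1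
    exact h1.symm

/-- The free generator. -/
noncomputable def bb : Wh := sg (Sum.inr false) * sg (Sum.inr true)

/-- The group acting on the space. -/
noncomputable def Gs : Subgroup Wh := As ⊔ Subgroup.zpowers bb

theorem As_le_Gs : As ≤ Gs := le_sup_left

theorem bb_mem_Gs : bb ∈ Gs := le_sup_right (a := As) (Subgroup.mem_zpowers bb)

/-- The retraction onto `Ws`. -/
noncomputable def ret : Wh →* Wh :=
  cs.lift ⟨fun a => match a with
    | Sum.inl a => sg (Sum.inl a)
    | Sum.inr _ => 1, liftable_of _ (by
      intro a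
      cases a with
      | inl a => exact sg_mul_self _
      | inr b => simp) (by
      intro a b h
      cases a with
      | inl a =>
        cases b with
        | inl b =>
          have h1 := cs.simple_mul_simple_pow (Sum.inl a) (Sum.inl b)
          rw [(MM_eq_two_iff _ _).2 h, pow_two] at h1
          have h2 : sg (Sum.inl a) * sg (Sum.inl b) =
            (sg (Sum.inl a) * sg (Sum.inl b))⁻¹ := eq_inv_of_mul_eq_one_left h1
          rw [mul_inv_rev, sg_inv, sg_inv] at h2
          exact h2
        | inr b => exact absurd h (by unfold cmt; exact id)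
      | inr a => exact absurd h (by unfold cmt; exact id))⟩

theorem ret_inl (a : ZMod 5 × Bool) : ret (sg (Sum.inl a)) = sg (Sum.inl a) :=
  cs.lift_apply_simple _ _

theorem ret_inr (b : Bool) : ret (sg (Sum.inr b)) = 1 := cs.lift_apply_simple _ _

theorem ret_mem (w : Wh) : ret w ∈ Ws := by
  induction w using cs.simple_induction_left with
  | one => rw [map_one]; exact Ws.one_mem
  | mul_simple_left w i h =>
    rw [map_mul]
    refine Ws.mul_mem ?_ h
    cases i with
    | inl a => rw [show cs.simple (Sum.inl a) = sg (Sum.inl a) from rfl, ret_inl]; exact sg_mem_Ws a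
    | inr b => rw [show cs.simple (Sum.inr b) = sg (Sum.inr b) from rfl, ret_inr]; exact Ws.one_mem

theorem ret_of_mem (w : Wh) (h : w ∈ Ws) : ret w = w := by
  induction h using Subgroup.closure_induction with
  | mem x hx => obtain ⟨a, rfl⟩ := hx; exact ret_inl a
  | one => exact map_one _
  | mul x y _ _ hx hy => rw [map_mul, hx, hy]
  | inv x _ hx => rw [map_inv, hx]

theorem ret_bb : ret bb = 1 := by
  unfold bb
  rw [map_mul, ret_inr, ret_inr, mul_one]

theorem ret_Gs (g : Wh) (h : g ∈ Gs) : ret g ∈ As := by
  have h1 : Gs ≤ As.comap ret := by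
    unfold Gs
    refine sup_le ?_ ?_
    · intro a ha
      rw [Subgroup.mem_comap, ret_of_mem a ((mem_As a).1 ha).1]
      exact ha
    · rw [Subgroup.zpowers_le, Subgroup.mem_comap, ret_bb]
      exact As.one_mem
  exact h1 h

theorem mem_As_of (g : Wh) (h : g ∈ Gs) (h' : g ∈ Ws) : g ∈ As := by
  have h1 := ret_Gs g h
  rwa [ret_of_mem g h'] at h1

/-- Parity of the number of letters `p`, `q`. -/
noncomputable def chi : Wh →* Multiplicative (ZMod 2) :=
  cs.lift ⟨fun a => match a with
    | Sum.inl _ => 1
    | Sum.inr _ => Multiplicative.ofAdd 1, liftable_of _ (by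
      intro a
      cases a with
      | inl a => rfl
      | inr b =>
        show Multiplicative.ofAdd (1 : ZMod 2) * Multiplicative.ofAdd (1 : ZMod 2) = 1
        decide) (by
      intro a b _
      exact mul_comm _ _)⟩

theorem chi_inl (a : ZMod 5 × Bool) : chi (sg (Sum.inl a)) = 1 := cs.lift_apply_simple _ _

theorem chi_inr (b : Bool) : chi (sg (Sum.inr b)) = Multiplicative.ofAdd 1 :=
  cs.lift_apply_simple _ _

theorem chi_Ws (w : Wh) (h : w ∈ Ws) : chi w = 1 := by
  induction h using Subgroup.closure_induction with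
  | mem x hx => obtain ⟨a, rfl⟩ := hx; exact chi_inl a
  | one => exact map_one _
  | mul x y _ _ hx hy => rw [map_mul, hx, hy, mul_one]
  | inv x _ hx => rw [map_inv, hx, inv_one]

theorem chi_bb : chi bb = 1 := by
  unfold bb
  rw [map_mul, chi_inr, chi_inr]
  decide

theorem chi_Gs (g : Wh) (h : g ∈ Gs) : chi g = 1 := by
  have h1 : Gs ≤ chi.ker := by
    unfold Gs
    refine sup_le ?_ ?_
    · intro a ha
      exact chi_Ws a ((mem_As a).1 ha).1
    · rw [Subgroup.zpowers_le]
      exact chi_bb
  exact h1 h

/-- Letters of the ray. -/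
def rl (k : ℕ) : ZMod 5 × Bool := (((2 * k : ℕ) : ZMod 5), decide (k % 2 = 1))

/-- The ray. -/
noncomputable def rho : ℕ → Wh
  | 0 => 1
  | k + 1 => rho k * sg (Sum.inl (rl k))

theorem rho_mem (k : ℕ) : rho k ∈ Ws := by
  induction k with
  | zero => exact Ws.one_mem
  | succ k ih => exact Ws.mul_mem ih (sg_mem_Ws _)

/-- The state along the ray. -/
def rst (k : ℕ) : ZMod 5 → Bool := fun i => decide (k % 2 = 1 ∧ i = ((2 * (k - 1) : ℕ) : ZMod 5))

theorem val_rho (k : ℕ) : val (rho k) = ((k : ℤ), rst k) := by
  induction k with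
  | zero =>
    show val 1 = _
    rw [val_one]
    unfold e0 rst
    simp
  | succ k ih =>
    show val (rho k * sg (Sum.inl (rl k))) = _
    rw [val_mul_inl, ih]
    rcases Nat.even_or_odd k with hk | hk
    · have hk1 : k % 2 = 0 := Nat.even_iff.1 hk
      have hc : colr (rl k) = ((2 * k : ℕ) : ZMod 5) := by
        unfold colr rl
        simp [hk1]
      have h2 : rst k = fun _ => false := by
        funext i
        unfold rst
        simp [hk1]
      have h3 : sgn (rst k) (rl k) = 1 := by
        unfold sgn
        rw [h2]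
        simp [rl, hk1]
      rw [h3]
      refine Prod.ext ?_ ?_
      · simp
      · funext i
        unfold flp
        rw [hc, h2]
        unfold rst
        have h4 : (k + 1) % 2 = 1 := by omega
        by_cases h5 : i = ((2 * k : ℕ) : ZMod 5)
        · subst h5
          simp [h4]
        · simp only [Function.update_of_ne h5, h4, Nat.add_sub_cancel, true_and]
          exact (decide_eq_false h5).symm
    · have hk1 : k % 2 = 1 := Nat.odd_iff.1 hk
      have hk0 : 1 ≤ k := by omega
      have hc : colr (rl k) = ((2 * (k - 1) : ℕ) : ZMod 5) := by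
        unfold colr rl
        have h6 : ((2 * k : ℕ) : ZMod 5) = ((2 * (k - 1) : ℕ) : ZMod 5) + 2 := by
          have h7 : 2 * k = 2 * (k - 1) + 2 := by omega
          rw [h7, Nat.cast_add]
          rfl
        simp only [hk1, decide_true, if_true]
        rw [h6]
        ring
      have h2 : rst k (colr (rl k)) = true := by
        rw [hc]
        unfold rst
        simp [hk1]
      have h3 : sgn (rst k) (rl k) = 1 := by
        unfold sgn
        rw [h2]
        simp [rl, hk1]
      rw [h3]
      refine Prod.ext ?_ ?_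
      · simp
      · funext i
        show Function.update (rst k) (colr (rl k)) (!(rst k (colr (rl k)))) i = rst (k + 1) i
        rw [h2]
        have h4 : ¬ ((k + 1) % 2 = 1) := by omega
        by_cases h5 : i = colr (rl k)
        · subst h5
          simp [rst, h4]
        · simp only [Function.update_of_ne h5]
          rw [hc] at h5
          unfold rst
          rw [decide_eq_false (fun h => h5 h.2), decide_eq_false (fun h => h4 h.1)]

end Pool.Agent.Helper376.LC
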