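import Mathlib

/-! JOB J5: pushing paths in Cayley graphs (Morse theory for commuting involutions) and finite
generation of the stabiliser of a level. -/

namespace Pool.Agent.Helper376.LC

/-- Pushing a path below level `N`. -/
theorem push {W : Type*} [Group W] {B : Type*} (s : B → W) (hs : ∀ b, s b * s b = 1)
    (cm : B → B → Prop) (hcm : ∀ a b, cm a b → s a * s b = s b * s a)
    (f : W → ℤ) (N : ℤ) (P : W → Prop)
    (hf : ∀ w b, f (w * s b) = f w + 1 ∨ f (w * s b) = f w - 1)
    (hconn : ∀ w, P w → N < f w → ∀ a b, f (w * s a) = f w - 1 → f (w * s b) = f w - 1 →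
      Relation.ReflTransGen
        (fun x y => f (w * s x) = f w - 1 ∧ f (w * s y) = f w - 1 ∧ cm x y) a b)
    (hdown : ∀ w, P w → N < f w → ∀ a b, f (w * s a) = f w - 1 → f (w * s b) = f w - 1 →
      cm a b → f (w * s a * s b) = f w - 2 ∧ P (w * s a * s b))
    (hP : ∀ w, P w → N < f w → ∀ a, f (w * s a) = f w - 1 → P (w * s a))
    (u v : W) (hu : f u ≤ N) (hv : f v ≤ N)
    (huv : Relation.ReflTransGen (fun x y => P x ∧ P y ∧ ∃ b, y = x * s b) u v) :
    Relation.ReflTransGen
      (fun x y => (P x ∧ f x ≤ N) ∧ (P y ∧ f y ≤ N) ∧ ∃ b, y = x * s b) u v := by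
  let R : ℤ → W → W → Prop := fun K => Relation.ReflTransGen
      (fun x y => (P x ∧ f x ≤ K) ∧ (P y ∧ f y ≤ K) ∧ ∃ b, y = x * s b)
  have hmono : ∀ {K K' : ℤ}, K ≤ K' → ∀ {x y}, R K x y → R K' x y := by
    intro K K' hK x y h
    induction h with
    | refl => exact Relation.ReflTransGen.refl
    | tail _ hab ih =>
      exact ih.tail ⟨⟨hab.1.1, hab.1.2.trans hK⟩, ⟨hab.2.1.1, hab.2.1.2.trans hK⟩, hab.2.2⟩
  have hcancel : ∀ (w : W) (b : B), w * s b * s b = w := by
    intro w b
    rw [mul_assoc, hs, mul_one]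
  -- bounded height
  have hbd : ∃ n : ℕ, R (N + n) u v := by
    clear hv
    induction huv with
    | refl => exact ⟨0, Relation.ReflTransGen.refl⟩
    | @tail x y hx hxy ih =>
      obtain ⟨n, hn⟩ := ih
      refine ⟨n + (f x - N).toNat + (f y - N).toNat, ?_⟩
      refine Relation.ReflTransGen.tail (hmono (by push_cast; omega) hn) ?_
      exact ⟨⟨hxy.1, by push_cast; omega⟩, ⟨hxy.2.1, by push_cast; omega⟩, hxy.2.2⟩
  have hstep : ∀ K : ℤ, N ≤ K → ∀ w, R (K + 1) u w →
      (f w ≤ K → R K u w) ∧ (f w = K + 1 → ∃ a, f (w * s a) = K ∧ R K u (w * s a)) := by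
    intro K hK w hw
    induction hw with
    | refl => exact ⟨fun _ => Relation.ReflTransGen.refl, fun h => by omega⟩
    | @tail x y hx hxy ih =>
      obtain ⟨⟨hPx, hfx⟩, ⟨hPy, hfy⟩, b, rfl⟩ := hxy
      rcases (show f x ≤ K ∨ f x = K + 1 by omega) with h | h
      · have hRx := ih.1 h
        constructor
        · intro h2
          exact hRx.tail ⟨⟨hPx, h⟩, ⟨hPy, h2⟩, b, rfl⟩
        · intro h2
          refine ⟨b, ?_, ?_⟩
          · rw [hcancel]
            rcases hf x b with h3 | h3 <;> omega
          · rw [hcancel]; exact hRx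
      · have hb : f (x * s b) = f x - 1 := by
          rcases hf x b with h3 | h3 <;> omega
        obtain ⟨a, ha, hRa⟩ := ih.2 h
        have ha' : f (x * s a) = f x - 1 := by omega
        have hchain := hconn x hPx (by omega) a b ha' hb
        have hall : R K u (x * s b) := by
          clear hb hfy hPy
          induction hchain with
          | refl => exact hRa
          | @tail c d hc hcd ih2 =>
            obtain ⟨hfc, hfd, hcmcd⟩ := hcd
            obtain ⟨h4, h5⟩ := hdown x hPx (by omega) c d hfc hfd hcmcd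
            have hPc := hP x hPx (by omega) c hfc
            have hPd := hP x hPx (by omega) d hfd
            have e1 : x * s c * s d * s c = x * s d := by
              rw [mul_assoc x (s c) (s d), hcm c d hcmcd, ← mul_assoc x (s d) (s c), hcancel]
            refine (ih2.tail (b := x * s c) (c := x * s c * s d) ?_).tail ?_
            · exact ⟨⟨hPc, by omega⟩, ⟨h5, by omega⟩, d, rfl⟩
            · exact ⟨⟨h5, by omega⟩, ⟨hPd, by omega⟩, c, e1.symm⟩
        exact ⟨fun _ => hall, fun h2 => by omega⟩
  obtain ⟨n, hn⟩ := hbd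
  have hfin : ∀ n : ℕ, R (N + n) u v → R N u v := by
    intro n
    induction n with
    | zero => intro h; simpa using h
    | succ n ih =>
      intro h
      apply ih
      have h2 : R (N + n + 1) u v := by
        have : (N + ((n + 1 : ℕ) : ℤ)) = N + n + 1 := by push_cast; ring
        rwa [this] at h
      exact (hstep (N + n) (by omega) v h2).1 (by omega)
  exact hfin n hn

/-- A subgroup acting with finitely many orbits on a connected level set is finitely generated. -/
theorem fg_of_level {W : Type*} [Group W] {B : Type*} [Finite B] (s : B → W) {E : Type*}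
    (v : W → E) (A : Subgroup W) (hA : ∀ x y, v x = v y ↔ y * x⁻¹ ∈ A)
    (T : Set E) (hT : T.Finite)
    (hconn : ∀ a ∈ A, Relation.ReflTransGen
      (fun x y => v x ∈ T ∧ v y ∈ T ∧ ∃ b, y = x * s b) 1 a) :
    A.FG := by
  classical
  let r : E → W := Function.invFun v
  have hr : ∀ w, v (r (v w)) = v w := fun w => Function.invFun_eq ⟨w, rfl⟩
  have hrA : ∀ w, w * (r (v w))⁻¹ ∈ A := fun w => (hA _ _).1 (hr w)
  let F : Set W := (fun p : E × E × B => r p.1 * s p.2.2 * (r p.2.1)⁻¹) '' (T ×ˢ T ×ˢ Set.univ)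
    ∪ {r (v 1)}
  have hF : F.Finite := by
    apply Set.Finite.union _ (Set.finite_singleton _)
    exact (hT.prod (hT.prod Set.finite_univ)).image _
  rw [Subgroup.fg_iff]
  refine ⟨F ∩ A, ?_, hF.subset Set.inter_subset_left⟩
  have hr1 : r (v 1) ∈ A := by
    have := (hA 1 (r (v 1))).1 (hr 1).symm
    simpa using this
  have hr1c : r (v 1) ∈ Subgroup.closure (F ∩ A) :=
    Subgroup.subset_closure ⟨Or.inr rfl, hr1⟩
  apply le_antisymm
  · rw [Subgroup.closure_le]
    exact Set.inter_subset_right
  · intro a ha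
    have key : ∀ w, Relation.ReflTransGen
      (fun x y => v x ∈ T ∧ v y ∈ T ∧ ∃ b, y = x * s b) 1 w →
        w * (r (v w))⁻¹ ∈ Subgroup.closure (F ∩ A) := by
      intro w hw
      induction hw with
      | refl =>
        rw [one_mul]
        exact inv_mem hr1c
      | @tail x y hx hxy ih =>
        obtain ⟨hx', hy', b, rfl⟩ := hxy
        have e1 : x * s b * (r (v (x * s b)))⁻¹ = (x * (r (v x))⁻¹) *
            (r (v x) * s b * (r (v (x * s b)))⁻¹) := by group
        rw [e1]
        apply mul_mem ih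
        apply Subgroup.subset_closure
        refine ⟨Or.inl ⟨(v x, v (x * s b), b), ⟨hx', hy', Set.mem_univ _⟩, rfl⟩, ?_⟩
        have e2 : r (v x) * s b * (r (v (x * s b)))⁻¹ = (x * (r (v x))⁻¹)⁻¹ *
            (x * s b * (r (v (x * s b)))⁻¹) := by group
        rw [e2]
        exact mul_mem (inv_mem (hrA _)) (hrA _)
    have h1 := key a (hconn a ha)
    have h2 : v a = v 1 := ((hA 1 a).2 (by simpa using ha)).symm
    rw [h2] at h1
    have h3 : a = a * (r (v 1))⁻¹ * r (v 1) := by group
    rw [h3]
    exact mul_mem h1 hr1c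

end Pool.Agent.Helper376.LC
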