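import Mathlib
import Pool.Agent.Helper376.LC.Cox

/-! Rigid words and gates in right-angled Coxeter groups. -/

namespace Pool.Agent.Helper376.LC

variable {B : Type*} {M : CoxeterMatrix B} {W : Type*} [Group W] (cs : CoxeterSystem M W)


/-! TARGETS -/

/-- A rigid word: consecutive letters generate an infinite dihedral group. -/
def Rigid (M : CoxeterMatrix B) (ω : List B) : Prop := ω.IsChain (fun a b => M a b = 0)

theorem Wl_comm' (x y : W) : Wl cs x y = Wl cs y x := symmDiff_comm _ _

theorem Wl_tri' (x y z : W) : Wl cs x z = symmDiff (Wl cs x y) (Wl cs y z) := by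
  unfold Wl
  ext t
  simp only [Set.mem_symmDiff]
  tauto

theorem disjoint_iff_length' (x y z : W) :
    Disjoint (Wl cs x y) (Wl cs y z) ↔
      cs.length (x⁻¹ * z) = cs.length (x⁻¹ * y) + cs.length (y⁻¹ * z) := by
  rw [← Wl_ncard, ← Wl_ncard, ← Wl_ncard, Wl_tri' cs x y z]
  have hA := Wl_finite cs x y
  have hB := Wl_finite cs y z
  set A := Wl cs x y
  set C := Wl cs y z
  have hu : (symmDiff A C).ncard = (A \ C).ncard + (C \ A).ncard := by
    rw [Set.symmDiff_def]
    apply Set.ncard_union_eq _ hA.sdiff hB.sdiff
    rw [Set.disjoint_left]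
    rintro t ⟨h1, h2⟩ ⟨h3, h4⟩
    exact h2 h3
  have h1 : (A \ C).ncard + (A ∩ C).ncard = A.ncard := by
    have e : (A \ C) ∪ (A ∩ C) = A := Set.sdiff_union_inter A C
    rw [← Set.ncard_union_eq _ hA.sdiff (hA.subset Set.inter_subset_left), e]
    rw [Set.disjoint_left]
    rintro t ⟨_, h1⟩ ⟨_, h2⟩
    exact h1 h2
  have h2 : (C \ A).ncard + (A ∩ C).ncard = C.ncard := by
    have e : (C \ A) ∪ (C ∩ A) = C := Set.sdiff_union_inter C A
    rw [Set.inter_comm A C, ← Set.ncard_union_eq _ hB.sdiff (hB.subset Set.inter_subset_left), e]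
    rw [Set.disjoint_left]
    rintro t ⟨_, h1⟩ ⟨_, h2⟩
    exact h1 h2
  rw [hu]
  constructor
  · intro hd
    have : A ∩ C = ∅ := Set.disjoint_iff_inter_eq_empty.1 hd
    rw [this, Set.ncard_empty] at h1 h2
    omega
  · intro h
    rw [Set.disjoint_iff_inter_eq_empty]
    have : (A ∩ C).ncard = 0 := by omega
    exact (Set.ncard_eq_zero (hA.subset Set.inter_subset_left)).1 this

theorem simple_inj' (hM : RightAngled M) {i j : B} (h : cs.simple i = cs.simple j) : i = j :=
  type_unique cs hM 1 1 i j (by simpa using h)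

/-- Two distinct right descents can be removed one after the other. -/
theorem length_mul_two_descents (hM : RightAngled M) (v : W) (i j : B) (hij : i ≠ j)
    (hi : cs.IsRightDescent v i) (hj : cs.IsRightDescent v j) :
    M i j = 2 ∧ cs.length (v * cs.simple i * cs.simple j) + 2 = cs.length v := by
  have hi' := cs.isLeftDescent_inv_iff.2 hi
  have hj' := cs.isLeftDescent_inv_iff.2 hj
  have h2 := descents_commute cs hM v⁻¹ i j hij hi' hj'
  refine ⟨h2, ?_⟩
  have hcomm : cs.simple i * cs.simple j = cs.simple j * cs.simple i := by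
    have h := cs.simple_mul_simple_pow i j
    rw [h2, pow_two] at h
    have h3 : cs.simple i * cs.simple j = (cs.simple i * cs.simple j)⁻¹ := by
      rw [eq_inv_iff_mul_eq_one]; exact h
    rw [h3]
    simp
  have key : cs.simple j ∈ Wl cs (cs.simple i * cs.simple i) (cs.simple i * v⁻¹) := by
    rw [mem_Wl_mul_left]
    have e : (cs.simple i)⁻¹ * cs.simple j * cs.simple i = cs.simple j := by
      rw [mul_assoc, ← hcomm, ← mul_assoc]
      simp
    rw [e, Wl, Set.mem_symmDiff]
    right
    refine ⟨(simple_mem_Ninv' cs _ _).2 hj', ?_⟩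
    have h3 : Ninv cs (cs.simple i) = {cs.simple i} := by
      have := Wl_mul_simple cs 1 i
      rw [one_mul, Wl_one'] at this
      simpa using this
    rw [h3]
    intro h4
    exact hij (simple_inj' cs hM h4).symm
  rw [cs.simple_mul_simple_self, Wl_one', simple_mem_Ninv'] at key
  have h5 : cs.IsRightDescent (v * cs.simple i) j := by
    rw [← cs.isLeftDescent_inv_iff]
    simpa using key
  have h6 := cs.isRightDescent_iff.1 h5
  have h7 := cs.isRightDescent_iff.1 hi
  omega

/-- Two commuting right ascents can be added one after the other. -/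
theorem length_mul_two_ascents (hM : RightAngled M) (v : W) (i j : B) (hij : M i j = 2)
    (hi : ¬ cs.IsRightDescent v i) (hj : ¬ cs.IsRightDescent v j) :
    cs.length (v * cs.simple i * cs.simple j) = cs.length v + 2 := by
  have hne : i ≠ j := by
    rintro rfl
    rw [M.diagonal] at hij
    omega
  have h1 := cs.not_isRightDescent_iff.1 hi
  have h1' := cs.not_isRightDescent_iff.1 hj
  have h2 : ¬ cs.IsRightDescent (v * cs.simple i) j := by
    intro h
    have h3 : cs.IsRightDescent (v * cs.simple i) i := by
      rw [cs.isRightDescent_iff_not_isRightDescent_mul, cs.simple_mul_simple_cancel_right]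
      exact hi
    have h4 := (length_mul_two_descents cs hM _ i j hne h3 h).2
    rw [cs.simple_mul_simple_cancel_right] at h4
    omega
  have h3 := cs.not_isRightDescent_iff.1 h2
  omega

/-- A rigid word whose first letter is an ascent of `x` extends `x` geodesically. -/
theorem length_mul_rigid (hM : RightAngled M) (x : W) (a : B) (ω : List B)
    (h : Rigid M (a :: ω)) (ha : ¬ cs.IsRightDescent x a) :
    cs.length (x * cs.wordProd (a :: ω)) = cs.length x + (ω.length + 1) := by
  induction ω generalizing x a with
  | nil =>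
    simpa using cs.not_isRightDescent_iff.1 ha
  | cons b ω ih =>
    have hab : M a b = 0 := by
      have := h
      rw [Rigid, List.isChain_cons_cons] at this
      exact this.1
    have hr : Rigid M (b :: ω) := by
      have := h
      rw [Rigid, List.isChain_cons_cons] at this
      exact this.2
    have h1 := cs.not_isRightDescent_iff.1 ha
    have hb : ¬ cs.IsRightDescent (x * cs.simple a) b := by
      intro h2
      have h3 : cs.IsRightDescent (x * cs.simple a) a := by
        rw [cs.isRightDescent_iff_not_isRightDescent_mul, cs.simple_mul_simple_cancel_right]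
        exact ha
      have hne : a ≠ b := by
        rintro rfl
        rw [M.diagonal] at hab
        omega
      have h4 := (length_mul_two_descents cs hM _ a b hne h3 h2).1
      omega
    have h2 := ih (x * cs.simple a) b hr hb
    rw [cs.wordProd_cons a, ← mul_assoc, h2, h1, List.length_cons]
    omega

theorem rigid_reduced (hM : RightAngled M) (ω : List B) (h : Rigid M ω) : cs.IsReduced ω := by
  cases ω with
  | nil => simp [CoxeterSystem.IsReduced]
  | cons a ω =>
    have := length_mul_rigid cs hM 1 a ω h (cs.not_isRightDescent_one a)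
    rw [one_mul] at this
    rw [CoxeterSystem.IsReduced, this]
    simp

theorem Rigid.left {ω ω' : List B} (h : Rigid M (ω ++ ω')) : Rigid M ω :=
  List.IsChain.left_of_append h

/-- The only right descent of a rigid word is its last letter. -/
theorem rigid_rightDescent (hM : RightAngled M) (ω : List B) (a i : B)
    (h : Rigid M (ω ++ [a])) (hi : cs.IsRightDescent (cs.wordProd (ω ++ [a])) i) : i = a := by
  induction ω using List.reverseRecOn generalizing a i with
  | nil =>
    by_contra hne
    have h1 : cs.IsRightDescent (cs.wordProd ([] ++ [a])) a := by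
      rw [cs.isRightDescent_iff]
      simp
    have h2 := (length_mul_two_descents cs hM _ i a hne hi h1).2
    simp at h2
  | append_singleton ω b ih =>
    by_contra hne
    have hred := (rigid_reduced cs hM _ h).eq
    have hred' := (rigid_reduced cs hM _ h.left).eq
    have hw : cs.wordProd (ω ++ [b] ++ [a]) * cs.simple a = cs.wordProd (ω ++ [b]) := by
      rw [cs.wordProd_append _ [a], cs.wordProd_singleton, cs.simple_mul_simple_cancel_right]
    have h1 : cs.IsRightDescent (cs.wordProd (ω ++ [b] ++ [a])) a := by
      rw [cs.isRightDescent_iff, hw, hred, hred']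
      simp
    obtain ⟨h2, h3⟩ := length_mul_two_descents cs hM _ a i (Ne.symm hne) h1 hi
    rw [hw] at h3
    have h4 : cs.IsRightDescent (cs.wordProd (ω ++ [b])) i := by
      rw [cs.isRightDescent_iff, hred']
      rw [hred] at h3
      simp only [List.length_append, List.length_cons, List.length_nil] at h3 ⊢
      omega
    have h5 := ih b i h.left h4
    have h6 : M b a = 0 := by
      have h7 := h
      rw [Rigid, List.append_assoc, List.cons_append, List.nil_append,
        List.isChain_append_cons_cons] at h7
      exact h7.2.1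
    rw [h5, M.symmetric, h6] at h2
    omega

theorem Rigid.reverse {ω : List B} (h : Rigid M ω) : Rigid M ω.reverse := by
  rw [Rigid, List.isChain_reverse]
  have : (fun a b => M b a = 0) = (fun a b => M a b = 0) := by
    funext a b
    rw [M.symmetric]
  rw [this]
  exact h

/-- The only left descent of a rigid word is its first letter. -/
theorem rigid_leftDescent (hM : RightAngled M) (ω : List B) (a i : B)
    (h : Rigid M (a :: ω)) (hi : cs.IsLeftDescent (cs.wordProd (a :: ω)) i) : i = a := by
  apply rigid_rightDescent cs hM ω.reverse a i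
  · have := h.reverse
    rwa [List.reverse_cons] at this
  · rw [← List.reverse_cons, cs.wordProd_reverse, cs.isRightDescent_inv_iff]
    exact hi

theorem rigid_between_aux (hM : RightAngled M) (ω : List B) (h : Rigid M ω) (u : W)
    (hu : cs.length (cs.wordProd ω) = cs.length u + cs.length (u⁻¹ * cs.wordProd ω)) :
    ∃ k ≤ ω.length, u = cs.wordProd (ω.take k) := by
  induction ω using List.reverseRecOn generalizing u with
  | nil =>
    refine ⟨0, le_rfl, ?_⟩
    simp only [CoxeterSystem.wordProd_nil, CoxeterSystem.length_one, List.take_nil] at hu ⊢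
    have : cs.length u = 0 := by omega
    exact cs.length_eq_zero_iff.1 this
  | append_singleton ω a ih =>
    by_cases huw : u = cs.wordProd (ω ++ [a])
    · exact ⟨(ω ++ [a]).length, le_rfl, by rw [List.take_length]; exact huw⟩
    · have hv : u⁻¹ * cs.wordProd (ω ++ [a]) ≠ 1 := by
        intro h1
        exact huw (inv_mul_eq_one.1 h1)
      obtain ⟨i, hi⟩ := cs.exists_rightDescent_of_ne_one hv
      have hi1 := cs.isRightDescent_iff.1 hi
      have hle : cs.length (cs.wordProd (ω ++ [a]) * cs.simple i) ≤
          cs.length u + cs.length (u⁻¹ * cs.wordProd (ω ++ [a]) * cs.simple i) := by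
        have := cs.length_mul_le u (u⁻¹ * cs.wordProd (ω ++ [a]) * cs.simple i)
        have e : u * (u⁻¹ * cs.wordProd (ω ++ [a]) * cs.simple i) =
          cs.wordProd (ω ++ [a]) * cs.simple i := by group
        rwa [e] at this
      have hi2 : cs.IsRightDescent (cs.wordProd (ω ++ [a])) i := by
        unfold CoxeterSystem.IsRightDescent
        omega
      have hia := rigid_rightDescent cs hM ω a i h hi2
      subst hia
      have hw : cs.wordProd (ω ++ [i]) * cs.simple i = cs.wordProd ω := by
        rw [cs.wordProd_append _ [i], cs.wordProd_singleton, cs.simple_mul_simple_cancel_right]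
      have hi3 := cs.isRightDescent_iff.1 hi2
      rw [mul_assoc, hw] at hi1
      rw [hw] at hi3
      obtain ⟨k, hk, hk2⟩ := ih h.left u (by omega)
      refine ⟨k, by simp; omega, ?_⟩
      rw [List.take_append_of_le_length hk]
      exact hk2

/-- The interval between the end points of a rigid word consists of the prefixes. -/
theorem rigid_between (hM : RightAngled M) (ω : List B) (h : Rigid M ω) (x m : W)
    (hm : Disjoint (Wl cs x m) (Wl cs m (x * cs.wordProd ω))) :
    ∃ k ≤ ω.length, m = x * cs.wordProd (ω.take k) := by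
  rw [disjoint_iff_length'] at hm
  obtain ⟨k, hk, hk2⟩ := rigid_between_aux cs hM ω h (x⁻¹ * m) (by
    rw [inv_mul_cancel_left] at hm
    rw [hm]
    congr 2
    group)
  exact ⟨k, hk, by rw [← hk2]; group⟩

/-- A rigid word is determined by its product. -/
theorem rigid_unique (hM : RightAngled M) (ω ω' : List B) (h : Rigid M ω) (h' : Rigid M ω')
    (he : cs.wordProd ω = cs.wordProd ω') : ω = ω' := by
  induction ω using List.reverseRecOn generalizing ω' with
  | nil =>
    have h1 := (rigid_reduced cs hM _ h').eq
    rw [← he] at h1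
    simp only [CoxeterSystem.wordProd_nil, CoxeterSystem.length_one] at h1
    exact (List.length_eq_zero_iff.1 h1.symm).symm
  | append_singleton ω a ih =>
    have h1 := (rigid_reduced cs hM _ h').eq
    have h2 := (rigid_reduced cs hM _ h).eq
    rw [← he, h2] at h1
    rcases List.eq_nil_or_concat' ω' with rfl | ⟨ω₂, b, rfl⟩
    · simp at h1
    · have h3 := (rigid_reduced cs hM _ h'.left).eq
      have h5 := (rigid_reduced cs hM _ h').eq
      have hw : cs.wordProd (ω₂ ++ [b]) * cs.simple b = cs.wordProd ω₂ := by
        rw [cs.wordProd_append _ [b], cs.wordProd_singleton, cs.simple_mul_simple_cancel_right]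
      have hb : cs.IsRightDescent (cs.wordProd (ω₂ ++ [b])) b := by
        rw [cs.isRightDescent_iff, hw, h3, h5]
        simp
      rw [← he] at hb
      have hba := rigid_rightDescent cs hM ω a b h hb
      subst hba
      have he2 : cs.wordProd ω = cs.wordProd ω₂ := by
        rw [cs.wordProd_append, cs.wordProd_append] at he
        exact mul_right_cancel he
      rw [ih ω₂ h.left h'.left he2]

/-- A step towards `y`. -/
theorem exists_step (x y : W) (hxy : x ≠ y) :
    ∃ i, Wl cs x (x * cs.simple i) ⊆ Wl cs x y ∧ (Wl cs x (x * cs.simple i)).ncard = 1 ∧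
      cs.length ((x * cs.simple i)⁻¹ * y) + 1 = cs.length (x⁻¹ * y) := by
  have hne : x⁻¹ * y ≠ 1 := fun h => hxy (inv_mul_eq_one.1 h)
  obtain ⟨i, hi⟩ := cs.exists_leftDescent_of_ne_one hne
  refine ⟨i, ?_, ?_, ?_⟩
  · rw [Wl_mul_simple, Set.singleton_subset_iff]
    have := mem_Wl_mul_left cs x 1 (x⁻¹ * y) (x * cs.simple i * x⁻¹)
    rw [mul_one, mul_inv_cancel_left] at this
    rw [this, Wl_one']
    have e : x⁻¹ * (x * cs.simple i * x⁻¹) * x = cs.simple i := by group
    rw [e, simple_mem_Ninv']
    exact hi
  · rw [Wl_mul_simple, Set.ncard_singleton]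
  · have := cs.isLeftDescent_iff.1 hi
    rw [← this]
    congr 2
    rw [mul_inv_rev, cs.inv_simple, mul_assoc]

theorem exists_minimal_of_wellFoundedLT' (C : Set W) (hne : C.Nonempty) (x : W) :
    ∃ g ∈ C, ∀ y ∈ C, cs.length (x⁻¹ * g) ≤ cs.length (x⁻¹ * y) := by
  classical
  have hex : ∃ n, ∃ g ∈ C, cs.length (x⁻¹ * g) = n := by
    obtain ⟨g, hg⟩ := hne
    exact ⟨_, g, hg, rfl⟩
  obtain ⟨g, hg, hgn⟩ := Nat.find_spec hex
  refine ⟨g, hg, fun y hy => ?_⟩
  rw [hgn]
  exact Nat.find_min' hex ⟨y, hy, rfl⟩

/-- Gates of convex sets. -/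
theorem exists_gate (hM : RightAngled M) (C : Set W) (hne : C.Nonempty)
    (hconv : ∀ x ∈ C, ∀ y ∈ C, ∀ m, Disjoint (Wl cs x m) (Wl cs m y) → m ∈ C) (x : W) :
    ∃ g ∈ C, ∀ y ∈ C, Disjoint (Wl cs x g) (Wl cs g y) := by
  obtain ⟨g, hg, hmin⟩ : ∃ g ∈ C, ∀ y ∈ C, cs.length (x⁻¹ * g) ≤ cs.length (x⁻¹ * y) := by
    obtain ⟨g, hg, hgm⟩ := exists_minimal_of_wellFoundedLT' cs C hne x
    exact ⟨g, hg, hgm⟩
  refine ⟨g, hg, fun y hy => ?_⟩
  obtain ⟨m, hm⟩ := exists_median cs hM x g y
  have h1 : Wl cs g m = Wl cs x g \ Wl cs x y := by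
    rw [Wl_tri' cs g x m, hm, Wl_comm' cs g x]
    ext t
    simp only [Set.mem_symmDiff, Set.mem_inter_iff, Set.mem_sdiff]
    tauto
  have h2 : Wl cs m y = Wl cs x y \ Wl cs x g := by
    rw [Wl_tri' cs m x y, Wl_comm' cs m x, hm]
    ext t
    simp only [Set.mem_symmDiff, Set.mem_inter_iff, Set.mem_sdiff]
    tauto
  have h3 : m ∈ C := by
    apply hconv g hg y hy m
    rw [h1, h2, Set.disjoint_left]
    rintro t ⟨_, h4⟩ ⟨h5, _⟩
    exact h4 h5
  have h4 := hmin m h3
  rw [← Wl_ncard, ← Wl_ncard] at h4
  have h5 : Wl cs x m = Wl cs x g := by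
    apply Set.eq_of_subset_of_ncard_le _ h4 (Wl_finite cs x g)
    rw [hm]
    exact Set.inter_subset_left
  rw [Set.disjoint_left]
  intro t ht
  rw [Wl_tri' cs g x y, Wl_comm' cs g x, Set.mem_symmDiff]
  have h6 : t ∈ Wl cs x y := by
    rw [← h5, hm] at ht
    exact ht.2
  tauto

end Pool.Agent.Helper376.LC
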