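import Mathlib
import Pool.Agent.Helper376.LC.Conc
import Pool.Agent.Helper376.LC.Rigid
import Pool.Agent.Helper376.LC.Push

/-! Part of the construction (see Defs and Conc). -/

namespace Pool.Agent.Helper376.LC


/-- states by five bits -/
def st973 (b0 b1 b2 b3 b4 : Bool) : ZMod 5 → Bool := fun i => (![b0, b1, b2, b3, b4] : Fin 5 → Bool) i

theorem conn_fact973 : ∀ b0 b1 b2 b3 b4 : Bool, ∀ a b : ZMod 5 × Bool,
    sgn (st973 b0 b1 b2 b3 b4) a = sgn (st973 b0 b1 b2 b3 b4) b →
    ∃ c : ZMod 5 × Bool, (sgn (st973 b0 b1 b2 b3 b4) c = sgn (st973 b0 b1 b2 b3 b4) a ∧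
      (a = c ∨ cmt (Sum.inl a) (Sum.inl c))) ∧
    ∃ d : ZMod 5 × Bool, (sgn (st973 b0 b1 b2 b3 b4) d = sgn (st973 b0 b1 b2 b3 b4) a ∧
      (c = d ∨ cmt (Sum.inl c) (Sum.inl d))) ∧ (d = b ∨ cmt (Sum.inl d) (Sum.inl b)) := by
  decide +kernel

theorem conn973 (e : ZMod 5 → Bool) (a b : ZMod 5 × Bool) (σ : ℤ) (ha : sgn e a = σ)
    (hb : sgn e b = σ) :
    Relation.ReflTransGen (fun x y => sgn e x = σ ∧ sgn e y = σ ∧
      cmt (Sum.inl x) (Sum.inl y)) a b := by
  have he : e = st973 (e 0) (e 1) (e 2) (e 3) (e 4) := by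
    funext i
    fin_cases i <;> rfl
  have key := conn_fact973 (e 0) (e 1) (e 2) (e 3) (e 4) a b
  rw [← he] at key
  obtain ⟨c, ⟨hc1, hc2⟩, d, ⟨hd1, hd2⟩, hd3⟩ := key (ha.trans hb.symm)
  have hcσ : sgn e c = σ := hc1.trans ha
  have hdσ : sgn e d = σ := hd1.trans ha
  have step : ∀ x y, sgn e x = σ → sgn e y = σ → (x = y ∨ cmt (Sum.inl x) (Sum.inl y)) →
      Relation.ReflTransGen (fun x y => sgn e x = σ ∧ sgn e y = σ ∧
        cmt (Sum.inl x) (Sum.inl y)) x y := by
    rintro x y hx hy (rfl | h)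
    · exact Relation.ReflTransGen.refl
    · exact Relation.ReflTransGen.single ⟨hx, hy, h⟩
  exact ((step a c ha hcσ hc2).trans (step c d hcσ hdσ hd2)).trans (step d b hdσ hb hd3)

theorem sgn_cases973 (e : ZMod 5 → Bool) (a : ZMod 5 × Bool) : sgn e a = 1 ∨ sgn e a = -1 := by
  unfold sgn
  split_ifs
  · exact Or.inl rfl
  · exact Or.inr rfl

theorem sg_comm973 (a b : ZMod 5 × Bool) (h : cmt (Sum.inl a) (Sum.inl b)) :
    sg (Sum.inl a) * sg (Sum.inl b) = sg (Sum.inl b) * sg (Sum.inl a) := by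
  have h1 := cs.simple_mul_simple_pow (Sum.inl a) (Sum.inl b)
  rw [(MM_eq_two_iff _ _).2 h, pow_two] at h1
  have h2 : sg (Sum.inl a) * sg (Sum.inl b) =
    (sg (Sum.inl a) * sg (Sum.inl b))⁻¹ := eq_inv_of_mul_eq_one_left h1
  rw [mul_inv_rev, sg_inv, sg_inv] at h2
  exact h2

/-- generators of `Ws` -/
noncomputable def gs973 (a : ZMod 5 × Bool) : Ws := ⟨sg (Sum.inl a), sg_mem_Ws a⟩

theorem gs_mul_self973 (a : ZMod 5 × Bool) : gs973 a * gs973 a = 1 :=
  Subtype.ext (sg_mul_self _)

theorem gs_comm973 (a b : ZMod 5 × Bool) (h : cmt (Sum.inl a) (Sum.inl b)) :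
    gs973 a * gs973 b = gs973 b * gs973 a :=
  Subtype.ext (sg_comm973 a b h)

theorem val_gs973 (w : Ws) (a : ZMod 5 × Bool) : val ((w * gs973 a : Ws) : Wh) =
    ((val (w : Wh)).1 + sgn (val (w : Wh)).2 a, flp (val (w : Wh)).2 a) :=
  val_mul_inl (w : Wh) a

theorem path973 (w : Wh) (hw : w ∈ Ws) : ∀ x : Ws,
    Relation.ReflTransGen (fun x y : Ws => True ∧ True ∧ ∃ b, y = x * gs973 b) x (x * ⟨w, hw⟩) := by
  have hsymm : ∀ x y : Ws,
      Relation.ReflTransGen (fun x y : Ws => True ∧ True ∧ ∃ b, y = x * gs973 b) x y →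
      Relation.ReflTransGen (fun x y : Ws => True ∧ True ∧ ∃ b, y = x * gs973 b) y x := by
    intro x y h
    induction h with
    | refl => exact Relation.ReflTransGen.refl
    | tail _ h2 ih =>
      obtain ⟨-, -, b, rfl⟩ := h2
      refine Relation.ReflTransGen.head ⟨trivial, trivial, b, ?_⟩ ih
      rw [mul_assoc, gs_mul_self973, mul_one]
  induction hw using Subgroup.closure_induction with
  | mem x hx =>
    intro y
    obtain ⟨a, rfl⟩ := hx
    exact Relation.ReflTransGen.single ⟨trivial, trivial, a, rfl⟩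
  | one =>
    intro y
    have : y * ⟨1, Ws.one_mem⟩ = y := by
      apply Subtype.ext; simp
    rw [this]
  | mul a b ha hb iha ihb =>
    intro y
    have h1 := iha y
    have h2 := ihb (y * ⟨a, ha⟩)
    have h3 : y * ⟨a * b, Ws.mul_mem ha hb⟩ = y * ⟨a, ha⟩ * ⟨b, hb⟩ := by
      apply Subtype.ext; simp [mul_assoc]
    rw [h3]
    exact h1.trans h2
  | inv a ha iha =>
    intro y
    have h1 := iha (y * ⟨a⁻¹, Ws.inv_mem ha⟩)
    have h2 : y * ⟨a⁻¹, Ws.inv_mem ha⟩ * ⟨a, ha⟩ = y := by
      apply Subtype.ext; simp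
    rw [h2] at h1
    exact hsymm _ _ h1

theorem As_fg : As.FG := by
  set f : Ws → ℤ := fun w => (val (w : Wh)).1 with hf
  have hfs : ∀ (w : Ws) (b : ZMod 5 × Bool), f (w * gs973 b) = f w + sgn (val (w : Wh)).2 b := by
    intro w b
    simp only [hf]
    rw [val_gs973]
  have hff : ∀ (w : Ws) (a b : ZMod 5 × Bool), cmt (Sum.inl a) (Sum.inl b) →
      f (w * gs973 a * gs973 b) = f w + sgn (val (w : Wh)).2 a + sgn (val (w : Wh)).2 b := by
    intro w a b hab
    rw [hfs, hfs]
    congr 1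
    rw [val_gs973]
    exact sgn_flp_ne _ _ _ (colr_ne_of_cmt a b hab)
  have hcm : ∀ a b : ZMod 5 × Bool, (fun a b => cmt (Sum.inl a) (Sum.inl b)) a b →
      gs973 a * gs973 b = gs973 b * gs973 a := fun a b h => gs_comm973 a b h
  have hf1 : f 1 = 0 := by
    show (val 1).1 = 0
    rw [val_one]; rfl
  have hfg : (As.subgroupOf Ws).FG := by
    refine fg_of_level gs973 (fun w : Ws => val (w : Wh)) (As.subgroupOf Ws) ?_
      {x : Val | 0 ≤ x.1 ∧ x.1 ≤ 1} ?_ ?_
    · intro x y
      rw [Subgroup.mem_subgroupOf]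
      exact val_eq_iff x y x.2 y.2
    · have : {x : Val | 0 ≤ x.1 ∧ x.1 ≤ 1} = (Set.Icc (0 : ℤ) 1) ×ˢ (Set.univ : Set (ZMod 5 → Bool)) := by
        ext x
        constructor
        · intro h; exact ⟨h, trivial⟩
        · intro h; exact h.1
      rw [this]
      exact (Set.finite_Icc 0 1).prod Set.finite_univ
    · intro a ha
      have haA : (a : Wh) ∈ As := Subgroup.mem_subgroupOf.mp ha
      have hfa : f a = 0 := by
        have := val_mul_left (a : Wh) 1 haA
        rw [mul_one] at this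
        show (val (a : Wh)).1 = 0
        rw [this, val_one]; rfl
      have p0 := path973 (a : Wh) a.2 1
      have e1 : (1 : Ws) * ⟨(a : Wh), a.2⟩ = a := by apply Subtype.ext; simp
      rw [e1] at p0
      -- first push
      have p1 := push gs973 gs_mul_self973 (fun a b => cmt (Sum.inl a) (Sum.inl b)) hcm f 1
        (fun _ => True)
        (by
          intro w b
          rw [hfs]
          rcases sgn_cases973 (val (w : Wh)).2 b with h | h
          · left; rw [h]
          · right; rw [h]; ring)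
        (by
          intro w _ _ a b ha hb
          rw [hfs] at ha hb
          have := conn973 (val (w : Wh)).2 a b (-1) (by linarith) (by linarith)
          refine Relation.ReflTransGen.mono ?_ _ _ this
          rintro x y ⟨h1, h2, h3⟩
          refine ⟨?_, ?_, h3⟩
          · rw [hfs, h1]; ring
          · rw [hfs, h2]; ring)
        (by
          intro w _ _ a b ha hb hab
          rw [hfs] at ha hb
          refine ⟨?_, trivial⟩
          rw [hff w a b hab]
          linarith)
        (fun _ _ _ _ _ => trivial) 1 a (by rw [hf1]; norm_num) (by rw [hfa]; norm_num) p0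
      have p1' : Relation.ReflTransGen (fun x y : Ws => f x ≤ 1 ∧ f y ≤ 1 ∧ ∃ b, y = x * gs973 b) 1 a := by
        refine Relation.ReflTransGen.mono ?_ _ _ p1
        rintro x y ⟨h1, h2, h3⟩
        exact ⟨h1.2, h2.2, h3⟩
      have p2 := push gs973 gs_mul_self973 (fun a b => cmt (Sum.inl a) (Sum.inl b)) hcm
        (fun w => - f w) 0 (fun w => f w ≤ 1)
        (by
          intro w b
          rw [hfs]
          rcases sgn_cases973 (val (w : Wh)).2 b with h | h
          · right; rw [h]; ring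
          · left; rw [h]; ring)
        (by
          intro w _ _ a b ha hb
          rw [hfs] at ha hb
          have := conn973 (val (w : Wh)).2 a b 1 (by linarith) (by linarith)
          refine Relation.ReflTransGen.mono ?_ _ _ this
          rintro x y ⟨h1, h2, h3⟩
          refine ⟨?_, ?_, h3⟩
          · rw [hfs, h1]; ring
          · rw [hfs, h2]; ring)
        (by
          intro w _ hN a b ha hb hab
          rw [hfs] at ha hb
          rw [hff w a b hab]
          constructor
          · linarith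
          · linarith)
        (by
          intro w _ hN a ha
          linarith) 1 a (by rw [hf1]; norm_num) (by rw [hfa]; norm_num) p1'
      refine Relation.ReflTransGen.mono ?_ _ _ p2
      rintro x y ⟨⟨h1, h2⟩, ⟨h3, h4⟩, h5⟩
      refine ⟨⟨?_, h1⟩, ⟨?_, h3⟩, h5⟩
      · show 0 ≤ f x; linarith
      · show 0 ≤ f y; linarith
  have hle : As ≤ Ws := inf_le_left
  classical
  obtain ⟨S, hS⟩ := hfg
  refine ⟨S.image Ws.subtype, ?_⟩
  rw [Finset.coe_image, ← MonoidHom.map_closure, hS, Subgroup.map_subgroupOf_eq_of_le hle]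

end Pool.Agent.Helper376.LC
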