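import Mathlib

/-! Definitions: geodesic spaces, Gromov hyperbolicity, Gromov boundary, limit sets. -/

namespace Pool.Agent.Helper376.LC

/-- Any two points are joined by a geodesic. -/
def GeodesicSpace (X : Type*) [MetricSpace X] : Prop :=
  ∀ x y : X, ∃ γ : ℝ → X, γ 0 = x ∧ γ (dist x y) = y ∧
    ∀ s ∈ Set.Icc (0 : ℝ) (dist x y), ∀ t ∈ Set.Icc (0 : ℝ) (dist x y),
      dist (γ s) (γ t) = |s - t|

/-- The Gromov product of `x` and `y` based at `o`. -/
noncomputable def gprod {X : Type*} [MetricSpace X] (o x y : X) : ℝ :=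
  (dist x o + dist y o - dist x y) / 2

/-- Gromov hyperbolicity (four point condition). -/
def GromovHyperbolic (X : Type*) [MetricSpace X] : Prop :=
  ∃ δ : ℝ, ∀ o x y z : X, min (gprod o x z) (gprod o z y) - δ ≤ gprod o x y

/-- A sequence converging to infinity in the sense of Gromov. -/
structure GromovSeq (X : Type*) [MetricSpace X] where
  seq : ℕ → X
  conv : ∀ (o : X) (R : ℝ), ∃ N : ℕ, ∀ m ≥ N, ∀ n ≥ N, R ≤ gprod o (seq m) (seq n)

/-- Two sequences converging to infinity are equivalent if their Gromov products tend to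
infinity. -/
def GromovSeq.Equiv {X : Type*} [MetricSpace X] (u v : GromovSeq X) : Prop :=
  ∀ (o : X) (R : ℝ), ∃ N : ℕ, ∀ n ≥ N, R ≤ gprod o (u.seq n) (v.seq n)

/-- The Gromov boundary: classes of sequences converging to infinity. -/
def Boundary (X : Type*) [MetricSpace X] : Type _ := Quot (GromovSeq.Equiv (X := X))

/-- The boundary point defined by a sequence converging to infinity. -/
def GromovSeq.lim {X : Type*} [MetricSpace X] (u : GromovSeq X) : Boundary X := Quot.mk _ u

/-- The Gromov product of the boundary points `ξ` and `η` is at least `R`. -/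
def Near {X : Type*} [MetricSpace X] (o : X) (R : ℝ) (ξ η : Boundary X) : Prop :=
  ∃ u v : GromovSeq X, u.lim = ξ ∧ v.lim = η ∧
    ∃ N : ℕ, ∀ m ≥ N, ∀ n ≥ N, R ≤ gprod o (u.seq m) (v.seq n)

/-- The usual topology of the Gromov boundary: a set is open if with each of its points `ξ` it
contains all `η` whose Gromov product with `ξ` is large enough. -/
instance Boundary.instTopologicalSpace (X : Type*) [MetricSpace X] :
    TopologicalSpace (Boundary X) where
  IsOpen U := ∀ ξ ∈ U, ∀ o : X, ∃ R : ℝ, ∀ η, Near o R ξ η → η ∈ U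
  isOpen_univ := fun _ _ _ => ⟨0, fun _ _ => trivial⟩
  isOpen_inter := by
    intro U V hU hV ξ hξ o
    obtain ⟨R, hR⟩ := hU ξ hξ.1 o
    obtain ⟨R', hR'⟩ := hV ξ hξ.2 o
    refine ⟨max R R', fun η h => ?_⟩
    obtain ⟨u, v, hu, hv, N, hN⟩ := h
    exact ⟨hR η ⟨u, v, hu, hv, N, fun m hm n hn => (le_max_left _ _).trans (hN m hm n hn)⟩,
      hR' η ⟨u, v, hu, hv, N, fun m hm n hn => (le_max_right _ _).trans (hN m hm n hn)⟩⟩
  isOpen_sUnion := by
    intro S hS ξ hξ o
    obtain ⟨U, hU, hξU⟩ := hξ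
    obtain ⟨R, hR⟩ := hS U hU ξ hξU o
    exact ⟨R, fun η h => ⟨U, hU, hR η h⟩⟩

/-- The limit set of `G`: accumulation points in the boundary of the orbit of `x`. -/
def limitSet {X : Type*} [MetricSpace X] (G : Type*) [Group G] [MulAction G X] (x : X) :
    Set (Boundary X) :=
  {ξ | ∃ (g : ℕ → G) (u : GromovSeq X), (∀ n, u.seq n = g n • x) ∧ u.lim = ξ}

end Pool.Agent.Helper376.LC
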