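import Mathlib
import Pool.Agent.Helper376.LC.Defs

/-! JOB J4a: Gromov boundary of a proper geodesic hyperbolic space by sequences, basic facts. -/

namespace Pool.Agent.Helper376.LC



theorem gprod_comm {X : Type} [MetricSpace X] (o x y : X) : gprod o x y = gprod o y x := by
  unfold gprod
  rw [dist_comm x y]
  ring

theorem gprod_base {X : Type} [MetricSpace X] (o o' x y : X) :
    gprod o x y - dist o o' ≤ gprod o' x y := by
  unfold gprod
  have h1 := dist_triangle x o' o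
  have h2 := dist_triangle y o' o
  rw [dist_comm o o']
  linarith

theorem hyp_max {X : Type} [MetricSpace X] (h : GromovHyperbolic X) :
    ∃ δ : ℝ, 0 ≤ δ ∧ ∀ o x y z : X, min (gprod o x z) (gprod o z y) - δ ≤ gprod o x y := by
  obtain ⟨δ, hδ⟩ := h
  refine ⟨max δ 0, le_max_right _ _, fun o x y z => ?_⟩
  have := hδ o x y z
  have h2 := le_max_left δ 0
  linarith

theorem equiv_equivalence {X : Type} [MetricSpace X] (hhyp : GromovHyperbolic X) :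
    Equivalence (GromovSeq.Equiv (X := X)) := by
  obtain ⟨δ, hδ0, hδ⟩ := hyp_max hhyp
  refine ⟨?_, ?_, ?_⟩
  · intro u o R
    obtain ⟨N, hN⟩ := u.conv o R
    exact ⟨N, fun n hn => hN n hn n hn⟩
  · intro u v h o R
    obtain ⟨N, hN⟩ := h o R
    refine ⟨N, fun n hn => ?_⟩
    rw [gprod_comm]
    exact hN n hn
  · intro u v w h1 h2 o R
    obtain ⟨N1, hN1⟩ := h1 o (R + δ)
    obtain ⟨N2, hN2⟩ := h2 o (R + δ)
    refine ⟨max N1 N2, fun n hn => ?_⟩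
    have h3 := hN1 n (le_trans (le_max_left _ _) hn)
    have h4 := hN2 n (le_trans (le_max_right _ _) hn)
    have h5 := hδ o (u.seq n) (w.seq n) (v.seq n)
    have h6 := le_min h3 h4
    linarith

/-! TARGETS -/

theorem GromovSeq.lim_eq_iff {X : Type} [MetricSpace X] (hhyp : GromovHyperbolic X)
    (u v : GromovSeq X) : u.lim = v.lim ↔ u.Equiv v := by
  constructor
  · intro h
    have h1 := Quot.eqvGen_exact h
    rwa [(equiv_equivalence hhyp).eqvGen_iff] at h1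
  · intro h
    exact Quot.sound h

/-- Convergence to infinity can be checked at one base point. -/
theorem exists_gromovSeq {X : Type} [MetricSpace X] (o : X) (x : ℕ → X)
    (hx : ∀ R : ℝ, ∃ N : ℕ, ∀ m ≥ N, ∀ n ≥ N, R ≤ gprod o (x m) (x n)) :
    ∃ u : GromovSeq X, u.seq = x := by
  refine ⟨⟨x, fun o' R => ?_⟩, rfl⟩
  obtain ⟨N, hN⟩ := hx (R + dist o o')
  refine ⟨N, fun m hm n hn => ?_⟩
  have h1 := hN m hm n hn
  have h2 := gprod_base o o' (x m) (x n)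
  linarith

/-- Equivalence can be checked at one base point. -/
theorem GromovSeq.equiv_of_base {X : Type} [MetricSpace X] (o : X) (u v : GromovSeq X)
    (h : ∀ R : ℝ, ∃ N : ℕ, ∀ n ≥ N, R ≤ gprod o (u.seq n) (v.seq n)) : u.Equiv v := by
  intro o' R
  obtain ⟨N, hN⟩ := h (R + dist o o')
  refine ⟨N, fun n hn => ?_⟩
  have h1 := hN n hn
  have h2 := gprod_base o o' (u.seq n) (v.seq n)
  linarith

/-- Sequential compactness at infinity of a proper geodesic hyperbolic space. -/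
theorem exists_subseq {X : Type} [MetricSpace X] [ProperSpace X] (hgeo : GeodesicSpace X)
    (hhyp : GromovHyperbolic X) (o : X) (x : ℕ → X)
    (hx : ∀ R : ℝ, ∃ I : ℕ, ∀ i ≥ I, R ≤ dist o (x i)) :
    ∃ φ : ℕ → ℕ, StrictMono φ ∧
      ∀ R : ℝ, ∃ N : ℕ, ∀ m ≥ N, ∀ n ≥ N, R ≤ gprod o (x (φ m)) (x (φ n)) := by
  obtain ⟨δ, hδ0, hδ⟩ := hyp_max hhyp
  -- points on the geodesics
  have hpt : ∀ (i N : ℕ), ∃ y : X, dist o y ≤ N ∧
      ((N : ℝ) ≤ dist o (x i) → dist o y = N ∧ dist (x i) y = dist o (x i) - N) := by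
    intro i N
    obtain ⟨γ, h0, h1, hγ⟩ := hgeo o (x i)
    by_cases hc : (N : ℝ) ≤ dist o (x i)
    · have hN0 : (0 : ℝ) ≤ N := Nat.cast_nonneg N
      have hd0 : (0 : ℝ) ≤ dist o (x i) := dist_nonneg
      have e1 : dist o (γ N) = N := by
        have := hγ 0 ⟨le_rfl, hd0⟩ N ⟨hN0, hc⟩
        rw [h0, zero_sub, abs_neg, abs_of_nonneg hN0] at this
        exact this
      have e2 : dist (x i) (γ N) = dist o (x i) - N := by
        have := hγ (dist o (x i)) ⟨hd0, le_rfl⟩ N ⟨hN0, hc⟩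
        rw [h1, abs_of_nonneg (by linarith)] at this
        exact this
      exact ⟨γ N, e1.le, fun _ => ⟨e1, e2⟩⟩
    · exact ⟨o, by simp, fun h => absurd h hc⟩
  choose y hy1 hy2 using hpt
  have hcomp : IsCompact (Set.pi Set.univ (fun N : ℕ => Metric.closedBall o (N : ℝ))) :=
    isCompact_univ_pi fun N => isCompact_closedBall o (N : ℝ)
  have hmem : ∀ i, y i ∈ Set.pi Set.univ (fun N : ℕ => Metric.closedBall o (N : ℝ)) := by
    intro i N _
    rw [Metric.mem_closedBall, dist_comm]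
    exact hy1 i N
  obtain ⟨a, _, φ, hφ, hlim⟩ := hcomp.tendsto_subseq hmem
  refine ⟨φ, hφ, fun R => ?_⟩
  obtain ⟨N, hN⟩ := exists_nat_ge (R + 2 * δ + 1 / 2)
  have hcau : CauchySeq (fun k => y (φ k) N) := (tendsto_pi_nhds.1 hlim N).cauchySeq
  obtain ⟨K1, hK1⟩ := Metric.cauchySeq_iff.1 hcau 1 one_pos
  obtain ⟨I, hI⟩ := hx N
  refine ⟨max K1 I, fun m hm n hn => ?_⟩
  have hm1 : K1 ≤ m := le_trans (le_max_left _ _) hm
  have hn1 : K1 ≤ n := le_trans (le_max_left _ _) hn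
  have hm2 : I ≤ φ m := le_trans (le_trans (le_max_right _ _) hm) (hφ.id_le m)
  have hn2 : I ≤ φ n := le_trans (le_trans (le_max_right _ _) hn) (hφ.id_le n)
  have hd := hK1 m hm1 n hn1
  obtain ⟨a1, a2⟩ := hy2 (φ m) N (hI _ hm2)
  obtain ⟨b1, b2⟩ := hy2 (φ n) N (hI _ hn2)
  have g1 : gprod o (x (φ m)) (y (φ m) N) = N := by
    unfold gprod
    rw [dist_comm (x (φ m)) o, dist_comm (y (φ m) N) o, a1, a2]
    ring
  have g2 : gprod o (y (φ n) N) (x (φ n)) = N := by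
    rw [gprod_comm]
    unfold gprod
    rw [dist_comm (x (φ n)) o, dist_comm (y (φ n) N) o, b1, b2]
    ring
  have g3 : (N : ℝ) - 1 / 2 ≤ gprod o (y (φ m) N) (y (φ n) N) := by
    unfold gprod
    rw [dist_comm (y (φ m) N) o, dist_comm (y (φ n) N) o, a1, b1]
    linarith
  have g4 := hδ o (y (φ m) N) (x (φ n)) (y (φ n) N)
  have g5 := hδ o (x (φ m)) (x (φ n)) (y (φ m) N)
  rw [g2] at g4
  rw [g1] at g5
  have g6 : (N : ℝ) - 1 / 2 ≤ min (gprod o (y (φ m) N) (y (φ n) N)) N :=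
    le_min g3 (by linarith)
  have g7 : (N : ℝ) - 1 / 2 - δ ≤ min (N : ℝ) (gprod o (y (φ m) N) (x (φ n))) :=
    le_min (by linarith) (by linarith)
  linarith

/-- `Near` does not depend on the representatives, up to a constant. -/
theorem Near.of_reps {X : Type} [MetricSpace X] (δ : ℝ) (hδ : 0 ≤ δ)
    (hhyp : ∀ o x y z : X, min (gprod o x z) (gprod o z y) - δ ≤ gprod o x y)
    (o : X) (R : ℝ) (ξ η : Boundary X) (h : Near o R ξ η) (u v : GromovSeq X)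
    (hu : u.lim = ξ) (hv : v.lim = η) :
    ∃ N : ℕ, ∀ m ≥ N, ∀ n ≥ N, R - 2 * δ ≤ gprod o (u.seq m) (v.seq n) := by
  obtain ⟨u', v', hu', hv', N, hN⟩ := h
  have e1 : u.Equiv u' := (GromovSeq.lim_eq_iff ⟨δ, hhyp⟩ u u').1 (hu.trans hu'.symm)
  have e2 : v'.Equiv v := (GromovSeq.lim_eq_iff ⟨δ, hhyp⟩ v' v).1 (hv'.trans hv.symm)
  obtain ⟨N1, hN1⟩ := e1 o R
  obtain ⟨N2, hN2⟩ := e2 o R
  refine ⟨max N (max N1 N2), fun m hm n hn => ?_⟩
  have hm0 : N ≤ m := le_trans (le_max_left _ _) hm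
  have hn0 : N ≤ n := le_trans (le_max_left _ _) hn
  have hm1 : N1 ≤ m := le_trans (le_trans (le_max_left _ _) (le_max_right _ _)) hm
  have hn1 : N2 ≤ n := le_trans (le_trans (le_max_right _ _) (le_max_right _ _)) hn
  have g1 := hN1 m hm1
  have g2 := hN2 n hn1
  have g3 := hN m hm0 n hn0
  have g4 := hhyp o (u'.seq m) (v.seq n) (v'.seq n)
  have g5 := hhyp o (u.seq m) (v.seq n) (u'.seq m)
  have g6 := le_min g3 g2
  have g7 : R - δ ≤ min (gprod o (u.seq m) (u'.seq m)) (gprod o (u'.seq m) (v.seq n)) :=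
    le_min (by linarith) (by linarith)
  linarith



/-! helper lemmas for the target -/

theorem j7_gprod_comm {X : Type} [MetricSpace X] (o x y : X) : gprod o x y = gprod o y x := by
  unfold gprod
  rw [dist_comm x y]; ring

theorem j7_gprod_le_left {X : Type} [MetricSpace X] (o x y : X) : gprod o x y ≤ dist o x := by
  unfold gprod
  have h := dist_triangle y x o
  rw [dist_comm y x] at h
  rw [dist_comm o x]; linarith

theorem j7_gprod_le_right {X : Type} [MetricSpace X] (o x y : X) : gprod o x y ≤ dist o y := by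
  rw [j7_gprod_comm]; exact j7_gprod_le_left o y x

theorem j7_gprod_self {X : Type} [MetricSpace X] (o x : X) : gprod o x x = dist o x := by
  unfold gprod
  rw [dist_self, dist_comm o x]; ring

theorem j7_gprod_sub_le {X : Type} [MetricSpace X] (o a a' b : X) :
    gprod o a b - dist a a' ≤ gprod o a' b := by
  unfold gprod
  have h1 := dist_triangle a a' o
  have h2 := dist_triangle a' a b
  rw [dist_comm a' a] at h2
  linarith

theorem j7_gprod_sub_le_right {X : Type} [MetricSpace X] (o a b b' : X) :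
    gprod o a b - dist b b' ≤ gprod o a b' := by
  rw [j7_gprod_comm o a b, j7_gprod_comm o a b']; exact j7_gprod_sub_le o b b' a

/-- the Gromov product of the point `x` and the boundary point `ζ` is at least `R` -/
def PB {X : Type} [MetricSpace X] (o : X) (R : ℝ) (x : X) (ζ : Boundary X) : Prop :=
  ∃ u : GromovSeq X, u.lim = ζ ∧ ∃ N : ℕ, ∀ n ≥ N, R ≤ gprod o x (u.seq n)

theorem PB.mono {X : Type} [MetricSpace X] {o : X} {R R' : ℝ} {x : X} {ζ : Boundary X}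
    (h : PB o R x ζ) (hR : R' ≤ R) : PB o R' x ζ := by
  obtain ⟨u, hu, N, hN⟩ := h
  exact ⟨u, hu, N, fun n hn => hR.trans (hN n hn)⟩

theorem Near.mono' {X : Type} [MetricSpace X] {o : X} {R R' : ℝ} {ξ ζ : Boundary X}
    (h : Near o R ξ ζ) (hR : R' ≤ R) : Near o R' ξ ζ := by
  obtain ⟨u, v, hu, hv, N, hN⟩ := h
  exact ⟨u, v, hu, hv, N, fun m hm n hn => hR.trans (hN m hm n hn)⟩

theorem Near.symm' {X : Type} [MetricSpace X] {o : X} {R : ℝ} {ξ ζ : Boundary X}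
    (h : Near o R ξ ζ) : Near o R ζ ξ := by
  obtain ⟨u, v, hu, hv, N, hN⟩ := h
  exact ⟨v, u, hv, hu, N, fun m hm n hn => by rw [j7_gprod_comm]; exact hN n hn m hm⟩

theorem PB.le_dist {X : Type} [MetricSpace X] {o : X} {R : ℝ} {x : X} {ζ : Boundary X}
    (h : PB o R x ζ) : R ≤ dist o x := by
  obtain ⟨u, hu, N, hN⟩ := h
  exact (hN N le_rfl).trans (j7_gprod_le_left _ _ _)

/-- any representative can be used in `PB` -/
theorem PB.of_rep {X : Type} [MetricSpace X] {δ : ℝ} 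
    (hyp : ∀ o x y z : X, min (gprod o x z) (gprod o z y) - δ ≤ gprod o x y)
    {o : X} {R : ℝ} {x : X} {ζ : Boundary X}
    (h : PB o R x ζ) (v : GromovSeq X) (hv : v.lim = ζ) :
    ∃ N : ℕ, ∀ n ≥ N, R - δ ≤ gprod o x (v.seq n) := by
  have hhyp : GromovHyperbolic X := ⟨δ, hyp⟩
  obtain ⟨u, hu, N, hN⟩ := h
  have he : u.Equiv v := (GromovSeq.lim_eq_iff hhyp u v).1 (hu.trans hv.symm)
  obtain ⟨M, hM⟩ := he o R
  refine ⟨max N M, fun n hn => ?_⟩
  have h1 := hN n (le_of_max_le_left hn)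
  have h2 := hM n (le_of_max_le_right hn)
  have h3 := hyp o x (v.seq n) (u.seq n)
  have h4 : R ≤ min (gprod o x (u.seq n)) (gprod o (u.seq n) (v.seq n)) := le_min h1 h2
  linarith

theorem Near.of_PB {X : Type} [MetricSpace X] {δ : ℝ} 
    (hyp : ∀ o x y z : X, min (gprod o x z) (gprod o z y) - δ ≤ gprod o x y)
    {o : X} {R : ℝ} {x : X} {ζ η : Boundary X}
    (h : PB o R x ζ) (h' : PB o R x η) : Near o (R - δ) ζ η := by
  obtain ⟨u, hu, N, hN⟩ := h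
  obtain ⟨v, hv, M, hM⟩ := h'
  refine ⟨u, v, hu, hv, max N M, fun m hm n hn => ?_⟩
  have h1 := hN m (le_of_max_le_left hm)
  have h2 := hM n (le_of_max_le_right hn)
  have h3 := hyp o (u.seq m) (v.seq n) x
  rw [j7_gprod_comm o (u.seq m) x] at h3
  have h4 : R ≤ min (gprod o x (u.seq m)) (gprod o x (v.seq n)) := le_min h1 h2
  linarith

theorem PB.move {X : Type} [MetricSpace X] {δ : ℝ} 
    (hyp : ∀ o x y z : X, min (gprod o x z) (gprod o z y) - δ ≤ gprod o x y)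
    {o : X} {R : ℝ} {x y : X} {ζ : Boundary X}
    (h : PB o R x ζ) (h' : R ≤ gprod o x y) : PB o (R - δ) y ζ := by
  obtain ⟨u, hu, N, hN⟩ := h
  refine ⟨u, hu, N, fun n hn => ?_⟩
  have h1 := hN n hn
  have h3 := hyp o y (u.seq n) x
  rw [j7_gprod_comm o y x] at h3
  have h4 : R ≤ min (gprod o x y) (gprod o x (u.seq n)) := le_min h' h1
  linarith

theorem Near.trans' {X : Type} [MetricSpace X] {δ : ℝ} (hδ : 0 ≤ δ)
    (hyp : ∀ o x y z : X, min (gprod o x z) (gprod o z y) - δ ≤ gprod o x y)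
    {o : X} {R : ℝ} {ξ ζ η : Boundary X}
    (h : Near o R ξ ζ) (h' : Near o R ζ η) : Near o (R - 3 * δ) ξ η := by
  obtain ⟨u, v, hu, hv, N, hN⟩ := h
  obtain ⟨w, hw⟩ := Quot.exists_rep η
  obtain ⟨M, hM⟩ := Near.of_reps δ hδ hyp o R ζ η h' v w hv hw
  refine ⟨u, w, hu, hw, max N M, fun m hm n hn => ?_⟩
  have h1 := hN m (le_of_max_le_left hm) (max N M) (le_max_left _ _)
  have h2 := hM (max N M) (le_max_right _ _) n (le_of_max_le_right hn)
  have h3 := hyp o (u.seq m) (w.seq n) (v.seq (max N M))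
  have h4 : R - 2 * δ ≤ min (gprod o (u.seq m) (v.seq (max N M)))
      (gprod o (v.seq (max N M)) (w.seq n)) := le_min (by linarith) h2
  linarith

theorem j7_eq_of_near {X : Type} [MetricSpace X] {δ : ℝ} (hδ : 0 ≤ δ)
    (hyp : ∀ o x y z : X, min (gprod o x z) (gprod o z y) - δ ≤ gprod o x y)
    (o : X) (ξ ζ : Boundary X) (h : ∀ R, Near o R ξ ζ) : ξ = ζ := by
  have hhyp : GromovHyperbolic X := ⟨δ, hyp⟩
  obtain ⟨u, hu⟩ := Quot.exists_rep ξ
  obtain ⟨v, hv⟩ := Quot.exists_rep ζ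
  have he : u.Equiv v := by
    apply GromovSeq.equiv_of_base o
    intro R
    obtain ⟨N, hN⟩ := Near.of_reps δ hδ hyp o (R + 2 * δ) ξ ζ (h _) u v hu hv
    exact ⟨N, fun n hn => by have := hN n hn n hn; linarith⟩
  have : u.lim = v.lim := (GromovSeq.lim_eq_iff hhyp u v).2 he
  exact hu.symm.trans (this.trans hv)

/-- `Near`-balls are neighbourhoods -/
theorem j7_near_mem_nhds {X : Type} [MetricSpace X] {δ : ℝ} (hδ : 0 ≤ δ)
    (hyp : ∀ o x y z : X, min (gprod o x z) (gprod o z y) - δ ≤ gprod o x y)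
    (o : X) (ξ : Boundary X) (R : ℝ) : {η | Near o R ξ η} ∈ nhds ξ := by
  have hself : ∀ (ζ : Boundary X) (S : ℝ), Near o S ζ ζ := by
    intro ζ S
    obtain ⟨u, hu⟩ := Quot.exists_rep ζ
    obtain ⟨N, hN⟩ := u.conv o S
    exact ⟨u, u, hu, hu, N, hN⟩
  rw [mem_nhds_iff]
  refine ⟨{η | ∃ S, ∀ ζ, Near o S η ζ → Near o R ξ ζ}, ?_, ?_, ?_⟩
  · rintro η ⟨S, hS⟩
    exact hS η (hself η S)
  · intro η hη o'
    obtain ⟨S, hS⟩ := hη
    refine ⟨S + 3 * δ + dist o o', fun ζ hζ => ⟨S + 3 * δ, fun θ hθ => ?_⟩⟩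
    have hζ' : Near o (S + 3 * δ) η ζ := by
      obtain ⟨u, v, hu, hv, N, hN⟩ := hζ
      refine ⟨u, v, hu, hv, N, fun m hm n hn => ?_⟩
      have h1 := hN m hm n hn
      unfold gprod at h1 ⊢
      have h2 := dist_triangle (u.seq m) o o'
      have h3 := dist_triangle (v.seq n) o o'
      linarith
    have := Near.trans' hδ hyp hζ' hθ
    exact hS θ (this.mono' (by linarith))
  · exact ⟨R, fun ζ h => h⟩

theorem j7_near_self {X : Type} [MetricSpace X] (o : X) (ζ : Boundary X) (S : ℝ) :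
    Near o S ζ ζ := by
  obtain ⟨u, hu⟩ := Quot.exists_rep ζ
  obtain ⟨N, hN⟩ := u.conv o S
  exact ⟨u, u, hu, hu, N, hN⟩

theorem j7_almost_max {ι : Type*} [Nonempty ι] (f : ι → ℝ) (B : ℝ) (h : ∀ i, f i ≤ B) :
    ∃ i, ∀ j, f j ≤ f i + 1 := by
  have hb : BddAbove (Set.range f) := ⟨B, by rintro _ ⟨i, rfl⟩; exact h i⟩
  obtain ⟨i, hi⟩ := exists_lt_of_lt_ciSup (show (⨆ i, f i) - 1 < ⨆ i, f i by linarith)
  exact ⟨i, fun j => by have := le_ciSup hb j; linarith⟩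

theorem j7_subseq {X : Type} [MetricSpace X] (u : GromovSeq X) (φ : ℕ → ℕ) (hφ : StrictMono φ) :
    ∃ v : GromovSeq X, v.seq = u.seq ∘ φ ∧ v.lim = u.lim := by
  refine ⟨⟨u.seq ∘ φ, fun o R => ?_⟩, rfl, ?_⟩
  · obtain ⟨N, hN⟩ := u.conv o R
    exact ⟨N, fun m hm n hn => hN _ (hm.trans (hφ.id_le m)) _ (hn.trans (hφ.id_le n))⟩
  · apply Quot.sound
    intro o R
    obtain ⟨N, hN⟩ := u.conv o R
    exact ⟨N, fun n hn => hN _ (hn.trans (hφ.id_le n)) _ hn⟩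

theorem j7_limitSet_eq {X : Type} [MetricSpace X] {δ : ℝ} (hδ : 0 ≤ δ)
    (hyp : ∀ o x y z : X, min (gprod o x z) (gprod o z y) - δ ≤ gprod o x y)
    {G : Type} [Group G] [MulAction G X] (hiso : ∀ (g : G) (x y : X), dist (g • x) (g • y) = dist x y)
    (o : X) (O : Set X) (hO : ∀ g : G, g • o ∈ O)
    (happrox : ∀ N : ℝ, ∃ N' : ℝ, ∀ x ∈ O, N' ≤ dist o x → ∃ g : G, N ≤ gprod o x (g • o))
    (x : X) :
    limitSet G x = {ξ | ∃ u : GromovSeq X, u.lim = ξ ∧ ∀ n, u.seq n ∈ O} := by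
  ext ξ; constructor
  · rintro ⟨g, u, hu, rfl⟩
    have hd : ∀ n, dist (u.seq n) (g n • o) = dist x o := by intro n; rw [hu n, hiso]
    have hv : ∀ R : ℝ, ∃ N : ℕ, ∀ m ≥ N, ∀ n ≥ N, R ≤ gprod o (g m • o) (g n • o) := by
      intro R
      obtain ⟨N, hN⟩ := u.conv o (R + 2 * dist x o)
      refine ⟨N, fun m hm n hn => ?_⟩
      have h1 := hN m hm n hn
      have h2 := j7_gprod_sub_le o (u.seq m) (g m • o) (u.seq n)
      have h3 := j7_gprod_sub_le_right o (g m • o) (u.seq n) (g n • o)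
      rw [hd] at h2 h3
      linarith
    obtain ⟨v, hv'⟩ := exists_gromovSeq o _ hv
    refine ⟨v, ?_, fun n => by rw [hv']; exact hO _⟩
    rw [GromovSeq.lim_eq_iff ⟨δ, hyp⟩]
    apply GromovSeq.equiv_of_base o
    intro R
    obtain ⟨N, hN⟩ := u.conv o (R + dist x o)
    refine ⟨N, fun n hn => ?_⟩
    have h1 := hN n hn n hn
    have h2 := j7_gprod_sub_le o (u.seq n) (g n • o) (u.seq n)
    rw [hd] at h2
    rw [hv']
    linarith
  · rintro ⟨u, rfl, hu⟩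
    have hch : ∀ n, ∃ g : G, ∀ h : G,
        gprod o (u.seq n) (h • o) ≤ gprod o (u.seq n) (g • o) + 1 := fun n =>
      j7_almost_max (fun g : G => gprod o (u.seq n) (g • o)) (dist o (u.seq n))
        (fun g => j7_gprod_le_left _ _ _)
    choose g hg using hch
    have h1 : ∀ R : ℝ, ∃ N : ℕ, ∀ n ≥ N, R ≤ gprod o (u.seq n) (g n • o) := by
      intro R
      obtain ⟨N', hN'⟩ := happrox (R + 1)
      obtain ⟨N, hN⟩ := u.conv o N'
      refine ⟨N, fun n hn => ?_⟩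
      have h2 := hN n hn n hn
      rw [j7_gprod_self] at h2
      obtain ⟨h, hh⟩ := hN' _ (hu n) h2
      have := hg n h
      linarith
    have hw : ∀ R : ℝ, ∃ N : ℕ, ∀ n ≥ N, R ≤ gprod o (u.seq n) (g n • x) := by
      intro R
      obtain ⟨N, hN⟩ := h1 (R + dist x o)
      refine ⟨N, fun n hn => ?_⟩
      have h2 := j7_gprod_sub_le_right o (u.seq n) (g n • o) (g n • x)
      rw [hiso, dist_comm o x] at h2
      have := hN n hn
      linarith
    have hv : ∀ R : ℝ, ∃ N : ℕ, ∀ m ≥ N, ∀ n ≥ N, R ≤ gprod o (g m • x) (g n • x) := by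
      intro R
      obtain ⟨N, hN⟩ := hw (R + 2 * δ)
      obtain ⟨M, hM⟩ := u.conv o (R + 2 * δ)
      refine ⟨max N M, fun m hm n hn => ?_⟩
      have a1 := hN m (le_of_max_le_left hm)
      have a2 := hN n (le_of_max_le_left hn)
      have a3 := hM m (le_of_max_le_right hm) n (le_of_max_le_right hn)
      have b1 := hyp o (g m • x) (u.seq n) (u.seq m)
      rw [j7_gprod_comm o (g m • x) (u.seq m)] at b1
      have b2 := hyp o (g m • x) (g n • x) (u.seq n)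
      have c1 : R + 2 * δ ≤ min (gprod o (u.seq m) (g m • x)) (gprod o (u.seq m) (u.seq n)) :=
        le_min a1 a3
      have c2 : R + δ ≤ min (gprod o (g m • x) (u.seq n)) (gprod o (u.seq n) (g n • x)) :=
        le_min (by linarith) (by linarith)
      linarith
    obtain ⟨v, hv'⟩ := exists_gromovSeq o _ hv
    refine ⟨g, v, fun n => by rw [hv'], ?_⟩
    rw [GromovSeq.lim_eq_iff ⟨δ, hyp⟩]
    apply GromovSeq.equiv_of_base o
    intro R
    obtain ⟨N, hN⟩ := hw R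
    exact ⟨N, fun n hn => by rw [hv', j7_gprod_comm]; exact hN n hn⟩

theorem j7_cpt {X : Type} [MetricSpace X] [ProperSpace X] (hgeo : GeodesicSpace X) 
    (hhyp : GromovHyperbolic X) (o : X) (O : Set X) (x : ℕ → X) (hxO : ∀ i, x i ∈ O)
    (hx : ∀ R : ℝ, ∃ I : ℕ, ∀ i ≥ I, R ≤ dist o (x i)) :
    ∃ φ : ℕ → ℕ, StrictMono φ ∧ ∃ u : GromovSeq X, u.seq = x ∘ φ ∧
      u.lim ∈ {ξ | ∃ u : GromovSeq X, u.lim = ξ ∧ ∀ n, u.seq n ∈ O} := by
  obtain ⟨φ, hφ, h⟩ := exists_subseq hgeo hhyp o x hx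
  obtain ⟨u, hu⟩ := exists_gromovSeq o (x ∘ φ) h
  exact ⟨φ, hφ, u, hu, u, rfl, fun n => by rw [hu]; exact hxO _⟩

theorem j7_connected {X : Type} [MetricSpace X] [ProperSpace X] (hgeo : GeodesicSpace X)
    {δ : ℝ} (hδ : 0 ≤ δ)
    (hyp : ∀ o x y z : X, min (gprod o x z) (gprod o z y) - δ ≤ gprod o x y)
    (o : X) (O : Set X)
    (hconn : ∀ N : ℝ, ∃ N' : ℝ, ∀ x ∈ O, ∀ y ∈ O, N' ≤ dist o x → N' ≤ dist o y →
      Relation.ReflTransGen (fun a b => a ∈ O ∧ b ∈ O ∧ N ≤ gprod o a b) x y)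
    (L : Set (Boundary X)) (hL : L = {ξ | ∃ u : GromovSeq X, u.lim = ξ ∧ ∀ n, u.seq n ∈ O})
    (hne : L.Nonempty) : IsConnected L := by
  have hhyp : GromovHyperbolic X := ⟨δ, hyp⟩
  have hB : ∀ N : ℝ, ∃ N' : ℝ, ∀ x ∈ O, N' ≤ dist o x → ∃ ζ ∈ L, PB o N x ζ := by
    by_contra hcon
    push Not at hcon
    obtain ⟨N, hN⟩ := hcon
    choose x hx using fun i : ℕ => hN i
    have hx1 : ∀ R : ℝ, ∃ I : ℕ, ∀ i ≥ I, R ≤ dist o (x i) := by
      intro R
      obtain ⟨I, hI⟩ := exists_nat_ge R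
      refine ⟨I, fun i hi => hI.trans ?_⟩
      have : (I : ℝ) ≤ i := by exact_mod_cast hi
      exact this.trans (hx i).2.1
    obtain ⟨φ, hφ, u, hu, huL⟩ := j7_cpt hgeo hhyp o O x (fun i => (hx i).1) hx1
    rw [← hL] at huL
    obtain ⟨M, hM⟩ := u.conv o N
    refine (hx (φ M)).2.2 _ huL ⟨u, rfl, M, fun n hn => ?_⟩
    have := hM M le_rfl n hn
    rw [hu] at this ⊢
    exact this
  have hπ : ∀ x : X, ∃ ζ ∈ L, ∀ N : ℕ, (∃ ζ' ∈ L, PB o N x ζ') → PB o N x ζ := by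
    classical
    intro x
    by_cases h : ∃ N : ℕ, ∃ ζ' ∈ L, PB o N x ζ'
    · obtain ⟨N0, hN0⟩ := h
      have hle : ∀ N : ℕ, (∃ ζ' ∈ L, PB o N x ζ') → N ≤ ⌊dist o x⌋₊ := by
        rintro N ⟨ζ', _, h⟩
        exact Nat.le_floor h.le_dist
      have hsp := Nat.findGreatest_spec (P := fun N : ℕ => ∃ ζ' ∈ L, PB o N x ζ') (hle N0 hN0) hN0
      obtain ⟨ζ, hζL, hζ⟩ := hsp
      refine ⟨ζ, hζL, fun N hN => hζ.mono ?_⟩
      exact_mod_cast Nat.le_findGreatest (P := fun N : ℕ => ∃ ζ' ∈ L, PB o N x ζ') (hle N hN) hN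
    · obtain ⟨ζ, hζ⟩ := hne
      exact ⟨ζ, hζ, fun N hN => absurd ⟨N, hN⟩ h⟩
  choose π hπL hπ using hπ
  have hnear : ∀ (S : ℕ) (x : X), ∀ ζ ∈ L, PB o S x ζ → Near o (S - δ) ζ (π x) := by
    intro S x ζ hζ h
    exact Near.of_PB hyp h (hπ x S ⟨ζ, hζ, h⟩)
  refine ⟨hne, ?_⟩
  intro U V hU hV hcov hLU hLV
  by_contra hemp
  rw [Set.not_nonempty_iff_eq_empty] at hemp
  have hex : ∀ ζ ∈ L, ζ ∈ U → ζ ∈ V → False := by
    intro ζ h1 h2 h3
    have : ζ ∈ L ∩ (U ∩ V) := ⟨h1, h2, h3⟩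
    rw [hemp] at this
    exact this
  obtain ⟨ξ, hξL, hξU⟩ := hLU
  obtain ⟨η, hηL, hηV⟩ := hLV
  -- the starting points
  have hstart : ∀ (W : Set (Boundary X)), IsOpen W → ∀ ξ ∈ L, ξ ∈ W →
      ∃ u : GromovSeq X, (∀ n, u.seq n ∈ O) ∧ ∃ N : ℕ, ∀ n ≥ N, π (u.seq n) ∈ W := by
    intro W hW ξ hξL hξW
    obtain ⟨R, hR⟩ := hW ξ hξW o
    have h := hξL
    rw [hL] at h
    obtain ⟨u, hu, huO⟩ := h
    obtain ⟨S, hS⟩ := exists_nat_ge (R + δ)
    obtain ⟨N, hN⟩ := u.conv o S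
    refine ⟨u, huO, N, fun n hn => hR _ ?_⟩
    have hp : PB o S (u.seq n) ξ := ⟨u, hu, N, fun m hm => hN n hn m hm⟩
    exact (hnear S _ ξ hξL hp).mono' (by linarith)
  obtain ⟨u, huO, Nu, hu⟩ := hstart U hU ξ hξL hξU
  obtain ⟨v, hvO, Nv, hv⟩ := hstart V hV η hηL hηV
  have hN1 : ∃ N1 : ℝ, ∀ x ∈ O, ∀ y ∈ O, N1 ≤ gprod o x y → π x ∈ U → π y ∈ V → False := by
    by_contra hcon
    push Not at hcon
    choose x hx y hy hxy hxU hyV _ using fun i : ℕ => hcon i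
    have hx1 : ∀ R : ℝ, ∃ I : ℕ, ∀ i ≥ I, R ≤ dist o (x i) := by
      intro R
      obtain ⟨I, hI⟩ := exists_nat_ge R
      refine ⟨I, fun i hi => hI.trans ?_⟩
      have : (I : ℝ) ≤ i := by exact_mod_cast hi
      exact this.trans ((hxy i).trans (j7_gprod_le_left _ _ _))
    obtain ⟨φ, hφ, u, hu, huL⟩ := j7_cpt hgeo hhyp o O x hx hx1
    rw [← hL] at huL
    have key : ∀ S : ℝ, ∃ I : ℕ, PB o S (x (φ I)) u.lim ∧ PB o S (y (φ I)) u.lim := by
      intro S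
      obtain ⟨M, hM⟩ := u.conv o (S + δ)
      obtain ⟨K, hK⟩ := exists_nat_ge (S + δ)
      have h1 : PB o (S + δ) (x (φ (max M K))) u.lim := by
        refine ⟨u, rfl, M, fun n hn => ?_⟩
        have := hM (max M K) (le_max_left _ _) n hn
        rw [hu] at this ⊢
        exact this
      have h2 : S + δ ≤ gprod o (x (φ (max M K))) (y (φ (max M K))) := by
        refine hK.trans (le_trans ?_ (hxy _))
        exact_mod_cast (le_max_right M K).trans (hφ.id_le _)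
      have h3 := h1.move hyp h2
      refine ⟨max M K, h1.mono (by linarith), h3.mono (by linarith)⟩
    rcases hcov huL with hζ | hζ
    · obtain ⟨R, hR⟩ := hU _ hζ o
      obtain ⟨S, hS⟩ := exists_nat_ge (R + δ)
      obtain ⟨I, -, hI⟩ := key S
      have := hR _ ((hnear S _ _ huL hI).mono' (by linarith))
      exact hex _ (hπL _) this (hyV _)
    · obtain ⟨R, hR⟩ := hV _ hζ o
      obtain ⟨S, hS⟩ := exists_nat_ge (R + δ)
      obtain ⟨I, hI, -⟩ := key S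
      have := hR _ ((hnear S _ _ huL hI).mono' (by linarith))
      exact hex _ (hπL _) (hxU _) this
  obtain ⟨N1, hN1⟩ := hN1
  obtain ⟨N', hN'⟩ := hconn N1
  obtain ⟨Mu, hMu⟩ := u.conv o N'
  obtain ⟨Mv, hMv⟩ := v.conv o N'
  have hdu := hMu (max Nu Mu) (le_max_right _ _) (max Nu Mu) (le_max_right _ _)
  have hdv := hMv (max Nv Mv) (le_max_right _ _) (max Nv Mv) (le_max_right _ _)
  rw [j7_gprod_self] at hdu hdv
  have hchain := hN' _ (huO (max Nu Mu)) _ (hvO (max Nv Mv)) hdu hdv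
  have hend : ∀ b, Relation.ReflTransGen (fun a b => a ∈ O ∧ b ∈ O ∧ N1 ≤ gprod o a b)
      (u.seq (max Nu Mu)) b → π b ∈ U := by
    intro b hb
    induction hb with
    | refl => exact hu _ (le_max_left _ _)
    | tail _ hbc ih =>
      obtain ⟨hb, hc, hg⟩ := hbc
      rcases hcov (hπL _) with h | h
      · exact h
      · exact (hN1 _ hb _ hc hg ih h).elim
  exact hex _ (hπL _) (hend _ hchain) (hv _ (le_max_left _ _))

theorem j7_key {X : Type} [MetricSpace X] {δ : ℝ} (hδ : 0 ≤ δ)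
    (hyp : ∀ o x y z : X, min (gprod o x z) (gprod o z y) - δ ≤ gprod o x y)
    (o : X) (O : Set X)
    (ρ : ℕ → X) (hρ : ∀ N : ℝ, ∃ K : ℕ, ∀ k ≥ K, ∀ l ≥ K, N ≤ gprod o (ρ k) (ρ l))
    (W : Set X) 
    (hsep : ∀ N : ℝ, ∃ N' : ℝ, ∀ u ∈ W, ∀ v ∈ O, v ∉ W → N' ≤ gprod o u v →
      ∃ k, N ≤ gprod o u (ρ k))
    (w : GromovSeq X) (hw : w.seq = ρ) (ζ : Boundary X) (hζ : ζ ≠ w.lim) :
    ∃ R : ℝ, ∀ η, Near o R ζ η → ∀ u v : GromovSeq X, (∀ i, u.seq i ∈ W) →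
      (∀ i, v.seq i ∈ O ∧ v.seq i ∉ W) → (u.lim = ζ ∧ v.lim = η ∨ u.lim = η ∧ v.lim = ζ) →
      False := by
  have h0 : ∃ R0, ¬ Near o R0 ζ w.lim := by
    by_contra hcon
    push Not at hcon
    exact hζ (j7_eq_of_near hδ hyp o _ _ hcon)
  obtain ⟨R0, hR0⟩ := h0
  obtain ⟨K0, hK0⟩ := hρ (R0 + 3 * δ + δ)
  obtain ⟨N', hN'⟩ := hsep (max (R0 + 3 * δ + δ) (∑ k ∈ Finset.range K0, dist o (ρ k) + 1))
  refine ⟨max (R0 + 3 * δ) (N' + 2 * δ), fun η hη u v hu hv huv => ?_⟩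
  have hnuv : Near o (N' + 2 * δ) u.lim v.lim := by
    rcases huv with ⟨h1, h2⟩ | ⟨h1, h2⟩
    · rw [h1, h2]; exact hη.mono' (le_max_right _ _)
    · rw [h1, h2]; exact (hη.mono' (le_max_right _ _)).symm'
  obtain ⟨M, hM⟩ := Near.of_reps δ hδ hyp o _ _ _ hnuv u v rfl rfl
  have hT : Near o (R0 + 3 * δ) u.lim w.lim := by
    refine ⟨u, w, rfl, rfl, max M K0, fun m hm l hl => ?_⟩
    have h1 := hM m (le_of_max_le_left hm) m (le_of_max_le_left hm)
    obtain ⟨k, hk⟩ := hN' _ (hu m) _ (hv m).1 (hv m).2 (by linarith)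
    have hkK : K0 ≤ k := by
      by_contra hlt
      push Not at hlt
      have h2 : dist o (ρ k) ≤ ∑ k ∈ Finset.range K0, dist o (ρ k) :=
        Finset.single_le_sum (f := fun k => dist o (ρ k)) (fun _ _ => dist_nonneg)
          (Finset.mem_range.2 hlt)
      have h3 := (le_max_right _ _).trans (hk.trans (j7_gprod_le_right _ _ _))
      linarith
    have h4 := hK0 k hkK l (le_of_max_le_right hl)
    have h5 := (le_max_left _ _).trans hk
    have h6 := hyp o (u.seq m) (ρ l) (ρ k)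
    have h7 : R0 + 3 * δ + δ ≤ min (gprod o (u.seq m) (ρ k)) (gprod o (ρ k) (ρ l)) := le_min h5 h4
    rw [hw]
    linarith
  apply hR0
  rcases huv with ⟨h1, h2⟩ | ⟨h1, h2⟩
  · rw [h1] at hT
    exact hT.mono' (by linarith)
  · rw [h1] at hT
    exact ((hη.mono' (le_max_left _ _)).trans' hδ hyp hT).mono' (by linarith)

theorem j7_not_lc {X : Type} [MetricSpace X] [ProperSpace X] (hgeo : GeodesicSpace X)
    {δ : ℝ} (hδ : 0 ≤ δ)
    (hyp : ∀ o x y z : X, min (gprod o x z) (gprod o z y) - δ ≤ gprod o x y)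
    (o : X) (O : Set X)
    (ρ : ℕ → X) (hρ : ∀ N : ℝ, ∃ K : ℕ, ∀ k ≥ K, ∀ l ≥ K, N ≤ gprod o (ρ k) (ρ l))
    (Wn : ℕ → Set X) (hWsub : ∀ n, Wn n ⊆ O) (hWdisj : ∀ n m, n ≠ m → Disjoint (Wn n) (Wn m))
    (hsep : ∀ n, ∀ N : ℝ, ∃ N' : ℝ, ∀ u ∈ Wn n, ∀ v ∈ O, v ∉ Wn n → N' ≤ gprod o u v →
      ∃ k, N ≤ gprod o u (ρ k))
    (p : ℕ → ℕ → X) (hpW : ∀ n j, p n j ∈ Wn n)
    (hpinf : ∀ n, ∀ N : ℝ, ∃ J, ∀ j ≥ J, N ≤ dist o (p n j))
    (hpz : ∃ B : ℝ, ∀ n, ∃ K, ∀ k ≥ K, gprod o (p n 0) (ρ k) ≤ B)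
    (hpclose : ∀ N : ℝ, ∃ n0, ∀ n ≥ n0, ∀ j j', N ≤ gprod o (p n j) (p n j'))
    (L : Set (Boundary X)) (hL : L = {ξ | ∃ u : GromovSeq X, u.lim = ξ ∧ ∀ n, u.seq n ∈ O}) :
    ¬ LocallyConnectedSpace L := by
  classical
  intro hlc
  have hhyp : GromovHyperbolic X := ⟨δ, hyp⟩
  obtain ⟨w, hw⟩ := exists_gromovSeq o ρ hρ
  -- the point ξ
  have hx1 : ∀ R : ℝ, ∃ I : ℕ, ∀ i ≥ I, R ≤ dist o (p i 0) := by
    intro R
    obtain ⟨n0, hn0⟩ := hpclose R
    refine ⟨n0, fun i hi => ?_⟩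
    have := hn0 i hi 0 0
    rwa [j7_gprod_self] at this
  obtain ⟨φ, hφ, u0, hu0, hu0L⟩ := j7_cpt hgeo hhyp o O (fun n => p n 0)
    (fun n => hWsub n (hpW n 0)) hx1
  rw [← hL] at hu0L
  -- the points η n
  have hη : ∀ n, ∃ ψ : ℕ → ℕ, ∃ u : GromovSeq X, u.seq = p n ∘ ψ ∧ u.lim ∈ L := by
    intro n
    obtain ⟨ψ, hψ, u, hu, huL⟩ := j7_cpt hgeo hhyp o O (p n) (fun j => hWsub n (hpW n j)) (hpinf n)
    rw [← hL] at huL
    exact ⟨ψ, u, hu, huL⟩
  choose ψ η hηseq hηL using hη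
  have hηW : ∀ n i, (η n).seq i ∈ Wn n := fun n i => by rw [hηseq]; exact hpW n _
  -- near
  have hnear : ∀ R : ℝ, ∃ I : ℕ, ∀ i ≥ I, Near o R u0.lim (η (φ i)).lim := by
    intro R
    obtain ⟨n0, hn0⟩ := hpclose (R + δ)
    obtain ⟨N, hN⟩ := u0.conv o (R + δ)
    refine ⟨max n0 N, fun i hi => ⟨u0, η (φ i), rfl, rfl, N, fun m hm n hn => ?_⟩⟩
    have h1 := hN m hm i (le_of_max_le_right hi)
    have h2 := hn0 (φ i) ((le_of_max_le_left hi).trans (hφ.id_le i)) 0 (ψ (φ i) n)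
    have h3 := hyp o (u0.seq m) ((η (φ i)).seq n) (u0.seq i)
    have h4 : u0.seq i = p (φ i) 0 := by rw [hu0]; rfl
    have h5 : (η (φ i)).seq n = p (φ i) (ψ (φ i) n) := by rw [hηseq]; rfl
    have h6 : R + δ ≤ min (gprod o (u0.seq m) (u0.seq i))
        (gprod o (u0.seq i) ((η (φ i)).seq n)) := by
      refine le_min h1 ?_
      rw [h4, h5]; exact h2
    linarith
  -- ξ ≠ z
  have hξz : u0.lim ≠ w.lim := by
    intro heq
    obtain ⟨B, hB⟩ := hpz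
    have h1 : Near o (B + 1 + 2 * δ) u0.lim w.lim := by rw [heq]; exact j7_near_self o _ _
    obtain ⟨M, hM⟩ := Near.of_reps δ hδ hyp o _ _ _ h1 u0 w rfl rfl
    obtain ⟨K, hK⟩ := hB (φ M)
    have h2 := hM M le_rfl (max M K) (le_max_left _ _)
    have h3 := hK (max M K) (le_max_right _ _)
    rw [hu0, hw] at h2
    simp only [Function.comp] at h2
    linarith
  -- neighbourhoods
  have hopen : {ζ : L | ζ.1 ≠ w.lim} ∈ nhds (⟨u0.lim, hu0L⟩ : L) := by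
    have h0 : ∃ R0, ¬ Near o R0 u0.lim w.lim := by
      by_contra hcon
      push Not at hcon
      exact hξz (j7_eq_of_near hδ hyp o _ _ hcon)
    obtain ⟨R0, hR0⟩ := h0
    have h1 := j7_near_mem_nhds hδ hyp o u0.lim R0
    have h2 := continuous_subtype_val.continuousAt.preimage_mem_nhds
      (x := (⟨u0.lim, hu0L⟩ : L)) h1
    refine Filter.mem_of_superset h2 ?_
    intro ζ hζ hz
    apply hR0
    rw [← hz]; exact hζ
  obtain ⟨s, ⟨hso, hξs, hsc⟩, hsub⟩ :=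
    (LocallyConnectedSpace.open_connected_basis (⟨u0.lim, hu0L⟩ : L)).mem_iff.1 hopen
  simp only [id] at hsub
  -- the η (φ i) are in s for large i
  have hsη : ∃ I : ℕ, ∀ i ≥ I, (⟨(η (φ i)).lim, hηL (φ i)⟩ : L) ∈ s := by
    obtain ⟨U', hU', hU's⟩ := isOpen_induced_iff.1 hso
    have hξU' : u0.lim ∈ U' := by
      rw [← hU's] at hξs; exact hξs
    obtain ⟨R, hR⟩ := hU' _ hξU' o
    obtain ⟨I, hI⟩ := hnear R
    refine ⟨I, fun i hi => ?_⟩
    rw [← hU's]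
    exact hR _ (hI i hi)
  obtain ⟨I, hI⟩ := hsη
  have hne : φ I ≠ φ (I + 1) := (hφ (Nat.lt_succ_self I)).ne
  -- dichotomy
  have hdich : ∀ n, ∀ ζ ∈ L, (∃ u : GromovSeq X, u.lim = ζ ∧ ∀ i, u.seq i ∈ Wn n) ∨
      ∃ v : GromovSeq X, v.lim = ζ ∧ ∀ i, v.seq i ∈ O ∧ v.seq i ∉ Wn n := by
    intro n ζ hζ
    rw [hL] at hζ
    obtain ⟨u, hu, huO⟩ := hζ
    by_cases hf : ∃ᶠ i in Filter.atTop, u.seq i ∈ Wn n
    · left
      obtain ⟨θ, hθ, hθ'⟩ := Filter.extraction_of_frequently_atTop hf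
      obtain ⟨v, hv, hvl⟩ := j7_subseq u θ hθ
      exact ⟨v, hvl.trans hu, fun i => by rw [hv]; exact hθ' i⟩
    · right
      rw [Filter.not_frequently] at hf
      obtain ⟨N, hN⟩ := Filter.eventually_atTop.1 hf
      obtain ⟨v, hv, hvl⟩ := j7_subseq u (fun i => i + N) (fun a b h => Nat.add_lt_add_right h N)
      refine ⟨v, hvl.trans hu, fun i => ?_⟩
      rw [hv]
      exact ⟨huO _, hN _ (Nat.le_add_left N i)⟩
  have hcont : ContinuousOn (fun ζ : L =>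
      decide (∃ u : GromovSeq X, u.lim = ζ.1 ∧ ∀ i, u.seq i ∈ Wn (φ I))) s := by
    intro ζ hζs
    apply ContinuousAt.continuousWithinAt
    have hζz : ζ.1 ≠ w.lim := hsub hζs
    obtain ⟨R, hR⟩ := j7_key hδ hyp o O ρ hρ (Wn (φ I)) (hsep (φ I)) w hw ζ.1 hζz
    have h1 := j7_near_mem_nhds hδ hyp o ζ.1 R
    have h2 := continuous_subtype_val.continuousAt.preimage_mem_nhds (x := ζ) h1
    have h3 : (fun ζ : L =>
      decide (∃ u : GromovSeq X, u.lim = ζ.1 ∧ ∀ i, u.seq i ∈ Wn (φ I))) =ᶠ[nhds ζ]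
      fun _ => decide (∃ u : GromovSeq X, u.lim = ζ.1 ∧ ∀ i, u.seq i ∈ Wn (φ I)) := by
      filter_upwards [h2] with θ hθ
      rw [decide_eq_decide]
      constructor
      · rintro ⟨u, hu, huW⟩
        rcases hdich (φ I) ζ.1 ζ.2 with h | ⟨v, hv, hvW⟩
        · exact h
        · exact (hR _ hθ u v huW hvW (Or.inr ⟨hu, hv⟩)).elim
      · rintro ⟨u, hu, huW⟩
        rcases hdich (φ I) θ.1 θ.2 with h | ⟨v, hv, hvW⟩
        · exact h
        · exact (hR _ hθ u v huW hvW (Or.inl ⟨hu, hv⟩)).elim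
    exact h3.continuousAt
  have hconst := hsc.isPreconnected.constant hcont (hI I le_rfl) (hI (I + 1) (Nat.le_succ I))
  simp only [decide_eq_decide] at hconst
  obtain ⟨u, hu, huW⟩ := hconst.1 ⟨η (φ I), rfl, hηW (φ I)⟩
  have hzm : (η (φ (I + 1))).lim ≠ w.lim := hsub (hI (I + 1) (Nat.le_succ I))
  obtain ⟨R, hR⟩ := j7_key hδ hyp o O ρ hρ (Wn (φ I)) (hsep (φ I)) w hw _ hzm
  refine hR _ (j7_near_self o _ R) u (η (φ (I + 1))) huW (fun i => ⟨hWsub _ (hηW _ i), ?_⟩)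
    (Or.inl ⟨hu, rfl⟩)
  intro hmem
  exact Set.disjoint_left.1 (hWdisj _ _ hne) hmem (hηW _ i)

/-! TARGET -/

theorem limitSet_connected_not_locallyConnected {X : Type} [MetricSpace X] [ProperSpace X]
    (hgeo : GeodesicSpace X) (hhyp : GromovHyperbolic X)
    {G : Type} [Group G] [MulAction G X] (hiso : ∀ (g : G) (x y : X), dist (g • x) (g • y) = dist x y)
    (o : X) (O : Set X) (hO : ∀ g : G, g • o ∈ O)
    (happrox : ∀ N : ℝ, ∃ N' : ℝ, ∀ x ∈ O, N' ≤ dist o x → ∃ g : G, N ≤ gprod o x (g • o))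
    (hconn : ∀ N : ℝ, ∃ N' : ℝ, ∀ x ∈ O, ∀ y ∈ O, N' ≤ dist o x → N' ≤ dist o y →
      Relation.ReflTransGen (fun a b => a ∈ O ∧ b ∈ O ∧ N ≤ gprod o a b) x y)
    (ρ : ℕ → X) (hρ : ∀ N : ℝ, ∃ K : ℕ, ∀ k ≥ K, ∀ l ≥ K, N ≤ gprod o (ρ k) (ρ l))
    (Wn : ℕ → Set X) (hWsub : ∀ n, Wn n ⊆ O) (hWdisj : ∀ n m, n ≠ m → Disjoint (Wn n) (Wn m))
    (hsep : ∀ n, ∀ N : ℝ, ∃ N' : ℝ, ∀ u ∈ Wn n, ∀ v ∈ O, v ∉ Wn n → N' ≤ gprod o u v →
      ∃ k, N ≤ gprod o u (ρ k))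
    (p : ℕ → ℕ → X) (hpW : ∀ n j, p n j ∈ Wn n)
    (hpinf : ∀ n, ∀ N : ℝ, ∃ J, ∀ j ≥ J, N ≤ dist o (p n j))
    (hpz : ∃ B : ℝ, ∀ n, ∃ K, ∀ k ≥ K, gprod o (p n 0) (ρ k) ≤ B)
    (hpclose : ∀ N : ℝ, ∃ n0, ∀ n ≥ n0, ∀ j j', N ≤ gprod o (p n j) (p n j')) :
    ∀ x : X, IsConnected (limitSet G x) ∧ ¬ LocallyConnectedSpace (limitSet G x) := by
  obtain ⟨δ0, hδ0⟩ := hhyp
  have hδ : (0 : ℝ) ≤ max δ0 0 := le_max_right _ _
  have hyp : ∀ o x y z : X, min (gprod o x z) (gprod o z y) - max δ0 0 ≤ gprod o x y :=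
    fun o x y z => by have := hδ0 o x y z; have := le_max_left δ0 0; linarith
  intro x
  have hL := j7_limitSet_eq hδ hyp hiso o O hO happrox x
  have hne : (limitSet G x).Nonempty := by
    obtain ⟨ψ, -, u, -, huL⟩ := j7_cpt hgeo ⟨_, hyp⟩ o O (p 0) (fun j => hWsub 0 (hpW 0 j)) (hpinf 0)
    rw [← hL] at huL
    exact ⟨_, huL⟩
  exact ⟨j7_connected hgeo hδ hyp o O hconn _ hL hne,
    j7_not_lc hgeo hδ hyp o O ρ hρ Wn hWsub hWdisj hsep p hpW hpinf hpz hpclose _ hL⟩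

end Pool.Agent.Helper376.LC
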