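import Mathlib
import Pool.Agent.Helper376.LC.Conc
import Pool.Agent.Helper376.LC.Rigid

/-! Part of the construction (see Defs and Conc). -/

namespace Pool.Agent.Helper376.LC

/-- The spine of the comb. -/
noncomputable def sp (t : ℤ) : Wh := bb ^ (t / 2) * (if t % 2 = 0 then 1 else sg (Sum.inr false))

/-- The letter from position `t` to position `t + 1` of the spine. -/
def spl (t : ℤ) : Lt := Sum.inr (decide (t % 2 = 1))

/-- Comb elements. -/
noncomputable def el (t : ℤ) (k : ℕ) : Wh := sp t * rho k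

/-- Valid comb coordinates. -/
def CP (t : ℤ) (k : ℕ) : Prop := k = 0 ∨ t % 2 = 0

/-- Distance between comb points. -/
def cd (t : ℤ) (k : ℕ) (t' : ℤ) (k' : ℕ) : ℕ :=
  if t = t' then (k - k') + (k' - k) else (t - t').natAbs + k + k'


theorem sp_succ (t : ℤ) : sp (t + 1) = sp t * sg (spl t) := by
  unfold sp spl
  rcases Int.emod_two_eq_zero_or_one t with h | h
  · have h1 : (t + 1) / 2 = t / 2 := by omega
    have h2 : ¬ ((t + 1) % 2 = 0) := by omega
    have h3 : ¬ (t % 2 = 1) := by omega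
    rw [h1, if_neg h2, if_pos h, decide_eq_false h3, mul_one]
  · have h1 : (t + 1) / 2 = t / 2 + 1 := by omega
    have h2 : (t + 1) % 2 = 0 := by omega
    have h3 : ¬ (t % 2 = 0) := by omega
    rw [h1, if_pos h2, if_neg h3, decide_eq_true h, mul_one, zpow_add_one, mul_assoc]
    rfl

theorem sp_add_two (t n : ℤ) : sp (t + 2 * n) = bb ^ n * sp t := by
  unfold sp
  have h1 : (t + 2 * n) / 2 = n + t / 2 := by omega
  have h2 : (t + 2 * n) % 2 = t % 2 := by omega
  rw [h1, h2, zpow_add, mul_assoc]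

theorem el_zero (t : ℤ) : el t 0 = sp t := by
  unfold el
  show sp t * 1 = sp t
  rw [mul_one]

theorem el_succ (t : ℤ) (k : ℕ) : el t (k + 1) = el t k * sg (Sum.inl (rl k)) := by
  unfold el
  rw [mul_assoc]
  rfl

theorem el_pred (t : ℤ) (k : ℕ) : el t k = el t (k + 1) * sg (Sum.inl (rl k)) := by
  rw [el_succ, mul_assoc, sg_mul_self, mul_one]

theorem sp_pred (t : ℤ) : sp t = sp (t + 1) * sg (spl t) := by
  rw [sp_succ, mul_assoc, sg_mul_self, mul_one]

theorem cmt_inr (d : Lt) (b : Bool) : ¬ cmt d (Sum.inr b) := by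
  cases d <;> exact id

theorem rl_fst (k : ℕ) : (rl k).1 = 2 * (k : ZMod 5) := by
  unfold rl; push_cast; rfl

theorem MM_symm0 (a b : Lt) (h : MM a b = 0) : MM b a = 0 := by
  rw [MM_eq_zero_iff] at h ⊢
  exact ⟨h.1.symm, fun h2 => h.2 (cmt_symm _ _ h2)⟩

theorem MM_rl (k : ℕ) : MM (Sum.inl (rl k)) (Sum.inl (rl (k + 1))) = 0 := by
  rw [MM_eq_zero_iff]
  have h1 := rl_fst k
  have h2 := rl_fst (k + 1)
  push_cast at h2
  constructor
  · intro h
    have h3 : (rl k).1 = (rl (k + 1)).1 := by rw [Sum.inl.inj h]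
    rw [h1, h2] at h3
    have h4 : (2 : ZMod 5) = 0 := by linear_combination -h3
    exact absurd h4 (by decide)
  · rintro ⟨-, h3 | h3 | h3⟩
    · rw [h1, h2] at h3
      have h4 : (2 : ZMod 5) = 0 := by linear_combination -h3
      exact absurd h4 (by decide)
    · rw [h1, h2] at h3
      have h4 : (3 : ZMod 5) = 0 := by linear_combination -h3
      exact absurd h4 (by decide)
    · rw [h1, h2] at h3
      have h4 : (1 : ZMod 5) = 0 := by linear_combination -h3
      exact absurd h4 (by decide)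

theorem MM_inl_inr (a : ZMod 5 × Bool) (b : Bool) : MM (Sum.inl a) (Sum.inr b) = 0 := by
  rw [MM_eq_zero_iff]
  exact ⟨by simp, cmt_inr _ _⟩

theorem MM_inr_inl (a : ZMod 5 × Bool) (b : Bool) : MM (Sum.inr b) (Sum.inl a) = 0 :=
  MM_symm0 _ _ (MM_inl_inr a b)

theorem MM_inr_inr (a b : Bool) (h : b ≠ a) : MM (Sum.inr a) (Sum.inr b) = 0 := by
  rw [MM_eq_zero_iff]
  refine ⟨fun h2 => h (Sum.inr.inj h2).symm, cmt_inr _ _⟩

/-- the triple condition -/
def TO (a b c : Lt) : Prop :=
  (¬ ∃ d, cmt d a ∧ cmt d b ∧ cmt d c) ∧ (a = c → ∃ β, a = Sum.inr β)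

theorem TO_symm (a b c : Lt) (h : TO a b c) : TO c b a := by
  refine ⟨fun ⟨d, h1, h2, h3⟩ => h.1 ⟨d, h3, h2, h1⟩, fun h1 => ?_⟩
  subst h1
  exact h.2 rfl

theorem TO_aux : ∀ (i x : ZMod 5), (i - 2 * x = 0 ∨ i - 2 * x = 1 ∨ i - 2 * x = -1) →
      (i - 2 * (x + 1) = 0 ∨ i - 2 * (x + 1) = 1 ∨ i - 2 * (x + 1) = -1) →
      (i - 2 * (x + 2) = 0 ∨ i - 2 * (x + 2) = 1 ∨ i - 2 * (x + 2) = -1) → False := by
  decide +kernel

theorem TO_rl (k : ℕ) : TO (Sum.inl (rl k)) (Sum.inl (rl (k + 1))) (Sum.inl (rl (k + 2))) := by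
  have h0 := rl_fst k
  have h1 := rl_fst (k + 1)
  have h2 := rl_fst (k + 2)
  push_cast at h1 h2
  constructor
  · rintro ⟨d, hd0, hd1, hd2⟩
    cases d with
    | inr b => exact cmt_inr _ _ (cmt_symm _ _ hd0)
    | inl d =>
      obtain ⟨i, β⟩ := d
      obtain ⟨-, e0⟩ := hd0
      obtain ⟨-, e1⟩ := hd1
      obtain ⟨-, e2⟩ := hd2
      rw [h0] at e0
      rw [h1] at e1
      rw [h2] at e2
      exact TO_aux i k e0 e1 e2
  · intro h
    have h3 : (rl k).1 = (rl (k + 2)).1 := by rw [Sum.inl.inj h]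
    rw [h0, h2] at h3
    have h4 : (4 : ZMod 5) = 0 := by linear_combination -h3
    exact absurd h4 (by decide)

/-- assembling a word out of a path of comb points -/
theorem assemble (n : ℕ) (L : ℕ → Lt) (P : ℕ → ℤ × ℕ)
    (h1 : ∀ j < n, el (P (j+1)).1 (P (j+1)).2 = el (P j).1 (P j).2 * sg (L j))
    (h2 : ∀ j ≤ n, CP (P j).1 (P j).2)
    (h3 : ∀ i, i + 1 < n → MM (L i) (L (i+1)) = 0)
    (h4 : ∀ i, i + 2 < n → TO (L i) (L (i+1)) (L (i+2))) :
    ∃ ω : List Lt, Rigid MM ω ∧ el (P n).1 (P n).2 = el (P 0).1 (P 0).2 * cs.wordProd ω ∧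
      ω.length = n ∧
      (∀ j, ∃ t1 k1, CP t1 k1 ∧ el (P 0).1 (P 0).2 * cs.wordProd (ω.take j) = el t1 k1) ∧
      (∀ (i : ℕ) (a b c : Lt), ω[i]? = some a → ω[i + 1]? = some b → ω[i + 2]? = some c →
        (¬ ∃ d, cmt d a ∧ cmt d b ∧ cmt d c) ∧ (a = c → ∃ β, a = Sum.inr β)) ∧
      (0 < n → ω.head? = some (L 0)) := by
  have key : ∀ j ≤ n, el (P 0).1 (P 0).2 * cs.wordProd ((List.range j).map L) =
      el (P j).1 (P j).2 := by
    intro j
    induction j with
    | zero => intro _; simp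
    | succ j ih =>
      intro hj
      rw [List.range_succ, List.map_append, cs.wordProd_append, ← mul_assoc, ih (by omega),
        h1 j (by omega)]
      simp
      rfl
  refine ⟨(List.range n).map L, ?_, (key n le_rfl).symm, by simp, ?_, ?_, ?_⟩
  · unfold Rigid
    rw [List.isChain_iff_getElem]
    intro i hi
    simp only [List.length_map, List.length_range] at hi
    simp only [List.getElem_map, List.getElem_range]
    exact h3 i hi
  · intro j
    refine ⟨(P (min j n)).1, (P (min j n)).2, h2 _ (min_le_right _ _), ?_⟩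
    rw [← List.map_take, List.take_range, key _ (min_le_right _ _)]
  · intro i a b c ha hb hc
    rw [List.getElem?_map] at ha hb hc
    have hlt : i + 2 < n := by
      by_contra hcon
      rw [List.getElem?_eq_none (by simpa using not_lt.1 hcon)] at hc
      simp at hc
    rw [List.getElem?_range (by omega)] at ha hb hc
    simp only [Option.map_some, Option.some.injEq] at ha hb hc
    subst ha hb hc
    exact h4 i hlt
  · intro hn
    obtain ⟨m, rfl⟩ : ∃ m, n = m + 1 := ⟨n - 1, by omega⟩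
    rw [List.range_succ_eq_map]
    simp

/-- the different-teeth case -/
theorem comb_ne (t t' : ℤ) (k k' m : ℕ) (q : ℕ → ℤ) (s : ℕ → Bool) (hm : 1 ≤ m)
    (hk : 0 < k → 0 < k' → 2 ≤ m) (h : CP t k) (h' : CP t' k') (hq0 : q 0 = t) (hqm : q m = t')
    (hq : ∀ i < m, sp (q (i+1)) = sp (q i) * sg (Sum.inr (s i))) (hs : ∀ i, s (i+1) ≠ s i) :
    ∃ ω : List Lt, Rigid MM ω ∧ el t' k' = el t k * cs.wordProd ω ∧ ω.length = k + m + k' ∧
      (∀ j, ∃ t1 k1, CP t1 k1 ∧ el t k * cs.wordProd (ω.take j) = el t1 k1) ∧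
      (∀ (i : ℕ) (a b c : Lt), ω[i]? = some a → ω[i + 1]? = some b → ω[i + 2]? = some c →
        (¬ ∃ d, cmt d a ∧ cmt d b ∧ cmt d c) ∧ (a = c → ∃ β, a = Sum.inr β)) ∧
      (k = 0 → ∃ β, ω.head? = some (Sum.inr β)) := by
  let P : ℕ → ℤ × ℕ := fun j => if j ≤ k then (t, k - j) else if j ≤ k + m then (q (j - k), 0)
    else (t', j - k - m)
  let L : ℕ → Lt := fun j => if j < k then Sum.inl (rl (k - 1 - j)) else
    if j < k + m then Sum.inr (s (j - k)) else Sum.inl (rl (j - k - m))
  have hP : ∀ j, P j = if j ≤ k then (t, k - j) else if j ≤ k + m then (q (j - k), 0)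
    else (t', j - k - m) := fun j => rfl
  have hL : ∀ j, L j = if j < k then Sum.inl (rl (k - 1 - j)) else
    if j < k + m then Sum.inr (s (j - k)) else Sum.inl (rl (j - k - m)) := fun j => rfl
  have hP1 : ∀ j, j ≤ k → P j = (t, k - j) := fun j hj => by rw [hP, if_pos hj]
  have hP2 : ∀ i, i ≤ m → P (k + i) = (q i, 0) := by
    intro i hi
    rw [hP]
    split_ifs with g1 g2
    · have : i = 0 := by omega
      subst this
      rw [hq0]; simp
    · simp
    · omega
  have hP3 : ∀ i, P (k + m + i) = (t', i) := by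
    intro i
    rcases Nat.eq_zero_or_pos i with hi | hi
    · subst hi
      have := hP2 m le_rfl
      rw [hqm] at this
      exact this
    · rw [hP, if_neg (by omega), if_neg (by omega)]
      congr 1
      omega
  have hL1 : ∀ i, i < k → L (k - 1 - i) = Sum.inl (rl i) := by
    intro i hi
    rw [hL, if_pos (by omega)]
    congr 2
    omega
  have hL2 : ∀ i, i < m → L (k + i) = Sum.inr (s i) := by
    intro i hi
    rw [hL, if_neg (by omega), if_pos (by omega)]
    congr 2
    omega
  have hL3 : ∀ i, L (k + m + i) = Sum.inl (rl i) := by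
    intro i
    rw [hL, if_neg (by omega), if_neg (by omega)]
    congr 2
    omega
  have c1 : ∀ j < k + m + k', el (P (j+1)).1 (P (j+1)).2 = el (P j).1 (P j).2 * sg (L j) := by
    intro j hj
    rcases lt_or_ge j k with g1 | g1
    · obtain ⟨i, hi, rfl⟩ : ∃ i, i < k ∧ j = k - 1 - i := ⟨k - 1 - j, by omega, by omega⟩
      rw [hL1 i hi, hP1 _ (by omega), hP1 _ (by omega)]
      have e1 : k - (k - 1 - i + 1) = i := by omega
      have e2 : k - (k - 1 - i) = i + 1 := by omega
      rw [e1, e2]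
      exact el_pred t i
    · rcases lt_or_ge j (k + m) with g2 | g2
      · obtain ⟨i, hi, rfl⟩ : ∃ i, i < m ∧ j = k + i := ⟨j - k, by omega, by omega⟩
        rw [hL2 i hi, hP2 i (by omega), add_assoc, hP2 (i+1) (by omega), el_zero, el_zero]
        exact hq i hi
      · obtain ⟨i, rfl⟩ : ∃ i, j = k + m + i := ⟨j - k - m, by omega⟩
        rw [hL3 i, hP3 i, add_assoc, hP3 (i+1)]
        exact el_succ t' i
  have c2 : ∀ j ≤ k + m + k', CP (P j).1 (P j).2 := by
    intro j hj
    rcases lt_or_ge j k with g1 | g1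
    · rw [hP1 j g1.le]
      rcases h with h | h
      · omega
      · exact Or.inr h
    · rcases le_or_gt j (k + m) with g2 | g2
      · obtain ⟨i, hi, rfl⟩ : ∃ i, i ≤ m ∧ j = k + i := ⟨j - k, by omega, by omega⟩
        rw [hP2 i hi]
        exact Or.inl rfl
      · obtain ⟨i, rfl⟩ : ∃ i, j = k + m + i := ⟨j - k - m, by omega⟩
        rw [hP3 i]
        rcases h' with h' | h'
        · omega
        · exact Or.inr h'
  have c3 : ∀ i, i + 1 < k + m + k' → MM (L i) (L (i+1)) = 0 := by
    intro j hj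
    rcases lt_or_ge j k with g1 | g1
    · rcases lt_or_ge (j+1) k with g2 | g2
      · obtain ⟨i, hi, rfl⟩ : ∃ i, i + 1 < k ∧ j = k - 1 - (i + 1) := ⟨k - 2 - j, by omega, by omega⟩
        have e1 : k - 1 - (i + 1) + 1 = k - 1 - i := by omega
        rw [e1, hL1 _ (by omega), hL1 _ (by omega)]
        exact MM_symm0 _ _ (MM_rl i)
      · obtain rfl : j = k - 1 - 0 := by omega
        have e1 : k - 1 - 0 + 1 = k + 0 := by omega
        rw [e1, hL1 0 (by omega), hL2 0 (by omega)]
        exact MM_inl_inr _ _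
    · rcases lt_or_ge j (k + m) with g2 | g2
      · obtain ⟨i, hi, rfl⟩ : ∃ i, i < m ∧ j = k + i := ⟨j - k, by omega, by omega⟩
        rcases lt_or_ge (i + 1) m with g3 | g3
        · rw [hL2 i hi, add_assoc, hL2 (i+1) g3]
          exact MM_inr_inr _ _ (hs i)
        · have e1 : k + i + 1 = k + m + 0 := by omega
          rw [hL2 i hi, e1, hL3 0]
          exact MM_inr_inl _ _
      · obtain ⟨i, rfl⟩ : ∃ i, j = k + m + i := ⟨j - k - m, by omega⟩
        rw [hL3 i, add_assoc, hL3 (i+1)]
        exact MM_rl i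
  have c4 : ∀ i, i + 2 < k + m + k' → TO (L i) (L (i+1)) (L (i+2)) := by
    intro j hj
    -- triples with a letter from the spine
    have spine : ∀ a b c : Lt, (∃ β, a = Sum.inr β) ∨ (∃ β, b = Sum.inr β) ∨ (∃ β, c = Sum.inr β) →
        (a = c → ∃ β, a = Sum.inr β) → TO a b c := by
      rintro a b c hh h1
      refine ⟨?_, h1⟩
      rintro ⟨d, d1, d2, d3⟩
      rcases hh with ⟨β, rfl⟩ | ⟨β, rfl⟩ | ⟨β, rfl⟩
      · exact cmt_inr _ _ d1
      · exact cmt_inr _ _ d2
      · exact cmt_inr _ _ d3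
    have inrc : ∀ a : Lt, ∀ β : Bool, a = Sum.inr β → ∃ β, a = Sum.inr β := fun a β h => ⟨β, h⟩
    rcases lt_or_ge (j + 2) k with g1 | g1
    · obtain ⟨i, hi, rfl⟩ : ∃ i, i + 2 < k ∧ j = k - 1 - (i + 2) := ⟨k - 3 - j, by omega, by omega⟩
      have e1 : k - 1 - (i + 2) + 1 = k - 1 - (i + 1) := by omega
      have e2 : k - 1 - (i + 2) + 2 = k - 1 - i := by omega
      rw [e1, e2, hL1 _ (by omega), hL1 _ (by omega), hL1 _ (by omega)]
      exact TO_symm _ _ _ (TO_rl i)
    · rcases lt_or_ge j (k + m) with g2 | g2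
      · -- one of the letters is on the spine, unless j+2 is the last one of the tooth
        rcases lt_or_ge (j + 2) (k + m) with g3 | g3
        · -- the third letter is on the spine if j + 2 ≥ k
          obtain ⟨i, hi, e⟩ : ∃ i, i < m ∧ j + 2 = k + i := ⟨j + 2 - k, by omega, by omega⟩
          apply spine
          · right; right
            rw [e, hL2 i hi]; exact ⟨_, rfl⟩
          · intro hac
            rw [hac, e, hL2 i hi]; exact ⟨_, rfl⟩
        · -- j + 2 ≥ k + m, j < k + m
          by_cases g4 : k ≤ j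
          · obtain ⟨i, hi, rfl⟩ : ∃ i, i < m ∧ j = k + i := ⟨j - k, by omega, by omega⟩
            apply spine
            · left; rw [hL2 i hi]; exact ⟨_, rfl⟩
            · intro _; rw [hL2 i hi]; exact ⟨_, rfl⟩
          · -- j < k, j + 2 ≥ k + m so m = 1, j = k - 1
            exfalso
            have : 0 < k' := by omega
            have := hk (by omega) this
            omega
      · obtain ⟨i, rfl⟩ : ∃ i, j = k + m + i := ⟨j - k - m, by omega⟩
        rw [hL3 i, add_assoc, hL3 (i+1), add_assoc (k+m) i 2, hL3 (i+2)]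
        exact TO_rl i
  obtain ⟨ω, w1, w2, w3, w4, w5, w6⟩ := assemble (k + m + k') L P c1 c2 c3 c4
  have e0 : P 0 = (t, k) := by rw [hP1 0 (Nat.zero_le _)]; rfl
  have en : P (k + m + k') = (t', k') := hP3 k'
  rw [e0, en] at w2
  rw [e0] at w4
  refine ⟨ω, w1, w2, w3, w4, w5, fun hk0 => ⟨s 0, ?_⟩⟩
  rw [w6 (by omega)]
  have := hL2 0 (by omega)
  rw [hk0] at this
  simpa using this

/-- The geodesic word between two comb points. -/
theorem comb_word (t : ℤ) (k : ℕ) (t' : ℤ) (k' : ℕ) (h : CP t k) (h' : CP t' k') :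
    ∃ ω : List Lt, Rigid MM ω ∧ el t' k' = el t k * cs.wordProd ω ∧ ω.length = cd t k t' k' ∧
      (∀ j, ∃ t1 k1, CP t1 k1 ∧ el t k * cs.wordProd (ω.take j) = el t1 k1) ∧
      (∀ (i : ℕ) (a b c : Lt), ω[i]? = some a → ω[i + 1]? = some b → ω[i + 2]? = some c →
        (¬ ∃ d, cmt d a ∧ cmt d b ∧ cmt d c) ∧ (a = c → ∃ β, a = Sum.inr β)) ∧
      (t ≠ t' → k = 0 → ∃ β, ω.head? = some (Sum.inr β)) := by
  by_cases htt : t = t'
  · subst htt
    have hcd : cd t k t k' = (k - k') + (k' - k) := by unfold cd; rw [if_pos rfl]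
    rw [hcd]
    have hCP : ∀ i, (i ≤ k ∨ i ≤ k') → CP t i := by
      rintro i (hi | hi)
      · rcases h with h | h
        · left; omega
        · exact Or.inr h
      · rcases h' with h | h
        · left; omega
        · exact Or.inr h
    rcases le_total k k' with hkk | hkk
    · obtain ⟨ω, w1, w2, w3, w4, w5, w6⟩ := assemble (k' - k) (fun j => Sum.inl (rl (k + j)))
        (fun j => (t, k + j)) (fun j _ => by
          show el t (k + (j+1)) = _
          rw [← add_assoc]; exact el_succ t (k + j))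
        (fun j hj => hCP _ (Or.inr (by omega)))
        (fun i _ => by
          show MM (Sum.inl (rl (k + i))) (Sum.inl (rl (k + (i+1)))) = 0
          rw [← add_assoc]; exact MM_rl _)
        (fun i _ => by
          show TO (Sum.inl (rl (k + i))) (Sum.inl (rl (k + (i+1)))) (Sum.inl (rl (k + (i+2))))
          exact TO_rl (k + i))
      refine ⟨ω, w1, ?_, by rw [w3]; omega, w4, w5, fun h => absurd rfl h⟩
      have : k + (k' - k) = k' := by omega
      simp only [this, add_zero] at w2
      exact w2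
    · obtain ⟨ω, w1, w2, w3, w4, w5, w6⟩ := assemble (k - k') (fun j => Sum.inl (rl (k - 1 - j)))
        (fun j => (t, k - j)) (fun j hj => by
          show el t (k - (j+1)) = el t (k - j) * sg (Sum.inl (rl (k - 1 - j)))
          have e1 : k - (j + 1) = k - 1 - j := by omega
          have e2 : k - j = k - 1 - j + 1 := by omega
          rw [e1, e2]; exact el_pred t (k - 1 - j))
        (fun j hj => hCP _ (Or.inl (by omega)))
        (fun i hi => by
          show MM (Sum.inl (rl (k - 1 - i))) (Sum.inl (rl (k - 1 - (i+1)))) = 0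
          have e2 : k - 1 - i = k - 1 - (i+1) + 1 := by omega
          rw [e2]; exact MM_symm0 _ _ (MM_rl _))
        (fun i hi => by
          show TO (Sum.inl (rl (k - 1 - i))) (Sum.inl (rl (k - 1 - (i+1)))) (Sum.inl (rl (k - 1 - (i+2))))
          have e2 : k - 1 - i = k - 1 - (i+2) + 2 := by omega
          have e1 : k - 1 - (i+1) = k - 1 - (i+2) + 1 := by omega
          rw [e2, e1]
          exact TO_symm _ _ _ (TO_rl _))
      refine ⟨ω, w1, ?_, by rw [w3]; omega, w4, w5, fun h => absurd rfl h⟩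
      have : k - (k - k') = k' := by omega
      simp only [this, Nat.sub_zero] at w2
      exact w2
  · have hcd : cd t k t' k' = (t - t').natAbs + k + k' := by unfold cd; rw [if_neg htt]
    have hpar : 0 < k → 0 < k' → t % 2 = 0 ∧ t' % 2 = 0 := by
      intro h1 h2
      rcases h with h | h
      · omega
      · rcases h' with h' | h'
        · omega
        · exact ⟨h, h'⟩
    rcases lt_or_gt_of_ne htt with hlt | hlt
    · obtain ⟨m, hm⟩ : ∃ m : ℕ, t' = t + m := ⟨(t' - t).toNat, by omega⟩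
      obtain ⟨ω, w1, w2, w3, w4, w5, w6⟩ := comb_ne t t' k k' m (fun i => t + i)
        (fun i => decide ((t + i) % 2 = 1)) (by omega)
        (fun h1 h2 => by have := hpar h1 h2; omega) h h' (by simp) (by rw [hm])
        (fun i _ => by
          show sp (t + ((i + 1 : ℕ) : ℤ)) = _
          have : t + ((i + 1 : ℕ) : ℤ) = t + i + 1 := by push_cast; ring
          rw [this, sp_succ]; rfl)
        (fun i hi => by
          have h1 : (decide ((t + ((i + 1 : ℕ) : ℤ)) % 2 = 1)) = decide ((t + i) % 2 = 1) := hi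
          rw [decide_eq_decide] at h1
          push_cast at h1
          omega)
      exact ⟨ω, w1, w2, by rw [w3, hcd]; omega, w4, w5, fun _ => w6⟩
    · obtain ⟨m, hm⟩ : ∃ m : ℕ, t' = t - m := ⟨(t - t').toNat, by omega⟩
      obtain ⟨ω, w1, w2, w3, w4, w5, w6⟩ := comb_ne t t' k k' m (fun i => t - i)
        (fun i => decide ((t - i - 1) % 2 = 1)) (by omega)
        (fun h1 h2 => by have := hpar h1 h2; omega) h h' (by simp) (by rw [hm])
        (fun i _ => by
          show sp (t - ((i + 1 : ℕ) : ℤ)) = sp (t - i) * sg (Sum.inr (decide ((t - i - 1) % 2 = 1)))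
          have : t - ((i + 1 : ℕ) : ℤ) = t - i - 1 := by push_cast; ring
          rw [this]
          have h3 := sp_pred (t - i - 1)
          have e4 : t - i - 1 + 1 = t - i := by ring
          rw [e4] at h3
          exact h3)
        (fun i hi => by
          have h1 : (decide ((t - ((i + 1 : ℕ) : ℤ) - 1) % 2 = 1)) = decide ((t - i - 1) % 2 = 1) := hi
          rw [decide_eq_decide] at h1
          push_cast at h1
          omega)
      exact ⟨ω, w1, w2, by rw [w3, hcd]; omega, w4, w5, fun _ => w6⟩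

end Pool.Agent.Helper376.LC
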