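import Mathlib
import Pool.Agent.Helper376.LC.Conc

/-! More definitions for the construction. -/

namespace Pool.Agent.Helper376.LC

/-- The alternating word of length `n` starting with `a`. -/
def altw (a b : Lt) : ℕ → List Lt
  | 0 => []
  | n + 1 => a :: altw b a n

/-- Elements with a reduced word starting with `p` or `q`. -/
def bside (x : Wh) : Prop :=
  cs.IsLeftDescent x (Sum.inr false) ∨ cs.IsLeftDescent x (Sum.inr true)

/-- The union of the translates of `Ws` by elements of the group. -/
def GW : Set Wh := {x | ∃ g ∈ Gs, ∃ w ∈ Ws, x = g * w}

end Pool.Agent.Helper376.LC
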