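import Mathlib
import Pool.Agent.Helper376.LC.CombC
import Pool.Agent.Helper376.LC.Conc2

/-! Part of the construction (see Defs and Conc). -/

namespace Pool.Agent.Helper376.LC


theorem wall_of_change (x : Wh) (a : Lt) (t : Wh)
    (h : (t ∈ Ninv cs x ∧ t ∉ Ninv cs (x * sg a)) ∨ (t ∈ Ninv cs (x * sg a) ∧ t ∉ Ninv cs x)) :
    t = x * sg a * x⁻¹ := by
  have h1 : t ∈ Wl cs x (x * cs.simple a) := by
    unfold Wl
    rw [Set.mem_symmDiff]
    exact h
  rw [Wl_mul_simple] at h1
  exact h1

theorem mem_Ninv_simple (x : Wh) (i : Lt) : sg i ∈ Ninv cs x ↔ cs.IsLeftDescent x i :=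
  cs.isLeftInversion_simple_iff_isLeftDescent x i

theorem desc_unique (x : Wh) (i : Lt) (β : Bool) (h : cs.IsLeftDescent x i)
    (h' : cs.IsLeftDescent x (Sum.inr β)) : i = Sum.inr β := by
  by_contra hne
  have h1 := descents_commute cs hMM x i (Sum.inr β) hne h h'
  rw [MM_eq_two_iff] at h1
  cases i with
  | inl a => exact h1
  | inr a => exact h1

theorem desc_change (x : Wh) (a i : Lt)
    (h : (cs.IsLeftDescent x i ∧ ¬ cs.IsLeftDescent (x * sg a) i) ∨
      (cs.IsLeftDescent (x * sg a) i ∧ ¬ cs.IsLeftDescent x i)) :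
    i = a ∧ sg i = x * sg a * x⁻¹ := by
  have h1 : sg i = x * sg a * x⁻¹ := by
    refine wall_of_change x a (sg i) ?_
    rw [mem_Ninv_simple, mem_Ninv_simple]
    exact h
  refine ⟨?_, h1⟩
  refine type_unique cs hMM 1 x i a ?_
  rw [one_mul, inv_one, mul_one]
  exact h1

theorem not_bside_of_mem_Ws (w : Wh) (h : w ∈ Ws) : ¬ bside w := by
  have key : ∀ β : Bool, ¬ cs.IsLeftDescent w (Sum.inr β) := by
    intro β
    induction h using Subgroup.closure_induction_right with
    | one => exact cs.not_isLeftDescent_one _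
    | mul_right x hx y hy ih =>
      obtain ⟨a, rfl⟩ := hy
      intro hd
      have := (desc_change x (Sum.inl a) (Sum.inr β) (Or.inr ⟨hd, ih⟩)).1
      simp at this
    | mul_inv_cancel x hx y hy ih =>
      obtain ⟨a, rfl⟩ := hy
      intro hd
      rw [sg_inv] at hd
      have := (desc_change x (Sum.inl a) (Sum.inr β) (Or.inr ⟨hd, ih⟩)).1
      simp at this
  rintro (h1 | h1)
  · exact key _ h1
  · exact key _ h1

theorem desc_mul_of_not (x : Wh) (i : Lt) (h : ¬ cs.IsLeftDescent x i) :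
    cs.IsLeftDescent (sg i * x) i := by
  rw [cs.isLeftDescent_iff_not_isLeftDescent_mul, cs.simple_mul_simple_cancel_left]
  exact h

theorem desc_pow (u : Wh) (hu : ¬ bside u) (β : Bool) (n : ℕ) :
    cs.IsLeftDescent ((sg (Sum.inr β) * sg (Sum.inr (!β))) ^ (n + 1) * u) (Sum.inr β) := by
  have step : ∀ v : Wh, ¬ cs.IsLeftDescent v (Sum.inr (!β)) →
      cs.IsLeftDescent (sg (Sum.inr β) * (sg (Sum.inr (!β)) * v)) (Sum.inr β) := by
    intro v hv
    apply desc_mul_of_not
    intro hd
    have h1 := desc_mul_of_not v _ hv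
    have h2 := desc_unique _ _ _ h1 hd
    simp at h2
  have hu' : ¬ cs.IsLeftDescent u (Sum.inr (!β)) := by
    intro hd
    apply hu
    cases β with
    | false => right; exact hd
    | true => left; exact hd
  induction n with
  | zero =>
    rw [zero_add, pow_one, mul_assoc]
    exact step u hu'
  | succ n ih =>
    rw [pow_succ', mul_assoc, mul_assoc]
    apply step
    intro hd
    have h2 := desc_unique _ _ _ hd ih
    simp at h2

theorem bside_of_desc (x : Wh) (β : Bool) (h : cs.IsLeftDescent x (Sum.inr β)) : bside x := by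
  cases β with
  | false => exact Or.inl h
  | true => exact Or.inr h

theorem bside_bb_zpow_mul (u : Wh) (hu : ¬ bside u) (k : ℤ) (hk : k ≠ 0) :
    bside (bb ^ k * u) := by
  rcases lt_or_gt_of_ne hk with hk | hk
  · obtain ⟨n, rfl⟩ : ∃ n : ℕ, k = -((n + 1 : ℕ) : ℤ) := ⟨(-k - 1).toNat, by omega⟩
    have h1 : bb ^ (-((n + 1 : ℕ) : ℤ)) = (sg (Sum.inr true) * sg (Sum.inr (!true))) ^ (n + 1) := by
      rw [zpow_neg, zpow_natCast, ← inv_pow]
      congr 1
      unfold bb
      rw [mul_inv_rev, sg_inv, sg_inv]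
      rfl
    rw [h1]
    exact bside_of_desc _ _ (desc_pow u hu true n)
  · obtain ⟨n, rfl⟩ : ∃ n : ℕ, k = ((n + 1 : ℕ) : ℤ) := ⟨(k - 1).toNat, by omega⟩
    have h1 : bb ^ ((n + 1 : ℕ) : ℤ) = (sg (Sum.inr false) * sg (Sum.inr (!false))) ^ (n + 1) := by
      rw [zpow_natCast]
      rfl
    rw [h1]
    exact bside_of_desc _ _ (desc_pow u hu false n)

theorem bside_step (x : Wh) (a : Lt) (h : ¬ bside x) (h' : bside (x * sg a)) : x = 1 := by
  by_contra hx
  obtain ⟨i, hi⟩ := cs.exists_leftDescent_of_ne_one hx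
  have key : ∀ β : Bool, cs.IsLeftDescent (x * sg a) (Sum.inr β) → False := by
    intro β hβ
    have hnβ : ¬ cs.IsLeftDescent x (Sum.inr β) := fun hd => h (bside_of_desc _ _ hd)
    have h1 := desc_change x a (Sum.inr β) (Or.inr ⟨hβ, hnβ⟩)
    by_cases hi' : cs.IsLeftDescent (x * sg a) i
    · have h2 := desc_unique _ _ _ hi' hβ
      rw [h2] at hi
      exact hnβ hi
    · have h3 := desc_change x a i (Or.inl ⟨hi, hi'⟩)
      have h4 : i = Sum.inr β := h3.1.trans h1.1.symm
      rw [h4] at hi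
      exact hnβ hi
  rcases h' with h' | h'
  · exact key _ h'
  · exact key _ h'

theorem bside_el (t : ℤ) (k : ℕ) (h : CP t k) (ht : t ≠ 0) : bside (el t k) := by
  obtain ⟨ω, h1, h2, -, -, -, h6⟩ := comb_word 0 0 t k (Or.inl rfl) h
  obtain ⟨β, hβ⟩ := h6 ht.symm rfl
  have h0 : el 0 0 = 1 := by
    unfold el sp rho
    simp
  rw [h0, one_mul] at h2
  rw [h2]
  cases ω with
  | nil => simp at hβ
  | cons a ω =>
    simp only [List.head?_cons, Option.some.injEq] at hβ
    subst hβ
    apply bside_of_desc _ β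
    unfold CoxeterSystem.IsLeftDescent
    have h3 := rigid_reduced cs hMM _ h1
    unfold CoxeterSystem.IsReduced at h3
    rw [h3, cs.wordProd_cons, cs.simple_mul_simple_cancel_left, List.length_cons]
    exact Nat.lt_succ_of_le (cs.length_wordProd_le ω)

end Pool.Agent.Helper376.LC
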