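import Mathlib

/-! JOB J6a: combinatorics of the binary plane. -/

namespace Pool.Agent.Helper376.LC

/-- The plane `ℤ × ℕ` with levels `ℤ`; the parent of a point. -/
def par (u : ℤ × ℕ) : ℤ × ℕ := (u.1 + 1, u.2 / 2)

/-- The ancestor of `u` at level `n` (meaningful for `u.1 ≤ n`). -/
def anc (u : ℤ × ℕ) (n : ℤ) : ℤ × ℕ := (n, u.2 / 2 ^ (n - u.1).toNat)

/-- Adjacency in the plane. -/
def PAdj (u v : ℤ × ℕ) : Prop :=
  v = par u ∨ u = par v ∨ (u.1 = v.1 ∧ (v.2 = u.2 + 1 ∨ u.2 = v.2 + 1))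

/-- `n` is a level above `u` and `v` at which the ancestors differ by at most one. -/
def Meets (u v : ℤ × ℕ) (n : ℤ) : Prop :=
  u.1 ≤ n ∧ v.1 ≤ n ∧ (anc u n).2 ≤ (anc v n).2 + 1 ∧ (anc v n).2 ≤ (anc u n).2 + 1

/-- The ancestors of `u` and `v` up to the first meeting level. -/
def Pset (u v : ℤ × ℕ) : Set (ℤ × ℕ) :=
  {w | (∀ n, Meets u v n → w.1 ≤ n) ∧
    ((u.1 ≤ w.1 ∧ w = anc u w.1) ∨ (v.1 ≤ w.1 ∧ w = anc v w.1))}

/-- Being joined by a path of length at most `n` in the plane. -/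
def PD : ℕ → ℤ × ℕ → ℤ × ℕ → Prop
  | 0, u, v => u = v
  | n + 1, u, v => ∃ w, PD n u w ∧ (w = v ∨ PAdj w v)

theorem PAdj_symm {u v : ℤ × ℕ} (h : PAdj u v) : PAdj v u := by
  rcases h with h | h | ⟨h1, h2⟩
  · exact Or.inr (Or.inl h)
  · exact Or.inl h
  · exact Or.inr (Or.inr ⟨h1.symm, h2.symm⟩)

theorem PD_succ (n : ℕ) (u v : ℤ × ℕ) (h : PD n u v) : PD (n + 1) u v := ⟨v, h, Or.inl rfl⟩

theorem PD_trans (m n : ℕ) (u v w : ℤ × ℕ) (h : PD m u v) (h' : PD n v w) : PD (m + n) u w := by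
  induction n generalizing w with
  | zero =>
    have : v = w := h'
    subst this
    exact h
  | succ n ih =>
    obtain ⟨x, hx, hxw⟩ := h'
    exact ⟨x, ih x hx, hxw⟩

theorem PD_of_adj {u v : ℤ × ℕ} (h : PAdj u v) : PD 1 u v := ⟨u, rfl, Or.inr h⟩

theorem PD_symm (n : ℕ) (u v : ℤ × ℕ) (h : PD n u v) : PD n v u := by
  induction n generalizing v with
  | zero =>
    have : u = v := h
    exact this.symm
  | succ n ih =>
    obtain ⟨x, hx, hxw⟩ := h
    have h1 : PD 1 v x := by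
      rcases hxw with h | h
      · exact ⟨v, rfl, Or.inl h.symm⟩
      · exact ⟨v, rfl, Or.inr (PAdj_symm h)⟩
    have := PD_trans 1 n v x u h1 (ih x hx)
    rwa [Nat.add_comm] at this

theorem PD_mono {m n : ℕ} (hmn : m ≤ n) {u v : ℤ × ℕ} (h : PD m u v) : PD n u v := by
  induction n, hmn using Nat.le_induction with
  | base => exact h
  | succ n _ ih => exact PD_succ n u v ih

theorem anc_self (u : ℤ × ℕ) : anc u u.1 = u := by
  simp [anc]

theorem anc_succ (u : ℤ × ℕ) {n : ℤ} (h : u.1 ≤ n) : anc u (n + 1) = par (anc u n) := by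
  have e : (n + 1 - u.1).toNat = (n - u.1).toNat + 1 := by omega
  simp only [anc, par, e, pow_succ, Nat.div_div_eq_div_mul]

theorem anc_fst (u : ℤ × ℕ) (n : ℤ) : (anc u n).1 = n := rfl

theorem Meets_symm {u v : ℤ × ℕ} {n : ℤ} (h : Meets u v n) : Meets v u n :=
  ⟨h.2.1, h.1, h.2.2.2, h.2.2.1⟩

theorem Meets_succ {u v : ℤ × ℕ} {n : ℤ} (h : Meets u v n) : Meets u v (n + 1) := by
  obtain ⟨h1, h2, h3, h4⟩ := h
  refine ⟨by omega, by omega, ?_, ?_⟩ <;>
  · rw [anc_succ u h1, anc_succ v h2]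
    simp only [par]
    omega

theorem Meets_mono {u v : ℤ × ℕ} {m n : ℤ} (h : Meets u v m) (hmn : m ≤ n) : Meets u v n := by
  induction n, hmn using Int.leInduction with
  | base => exact h
  | succ n _ ih => exact Meets_succ ih

theorem exists_Meets (u v : ℤ × ℕ) : ∃ n, Meets u v n := by
  refine ⟨max u.1 v.1 + (u.2 + v.2 : ℕ), by omega, by omega, ?_, ?_⟩
  all_goals
    have h1 : (anc u (max u.1 v.1 + (u.2 + v.2 : ℕ))).2 = 0 := by
      simp only [anc]
      apply Nat.div_eq_of_lt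
      refine lt_of_lt_of_le (Nat.lt_two_pow_self) (Nat.pow_le_pow_right (by norm_num) ?_)
      omega
    have h2 : (anc v (max u.1 v.1 + (u.2 + v.2 : ℕ))).2 = 0 := by
      simp only [anc]
      apply Nat.div_eq_of_lt
      refine lt_of_lt_of_le (Nat.lt_two_pow_self) (Nat.pow_le_pow_right (by norm_num) ?_)
      omega
    rw [h1, h2]
    omega

/-- least meeting level -/
theorem exists_least (u v : ℤ × ℕ) : ∃ M, Meets u v M ∧ ∀ n, Meets u v n → M ≤ n := by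
  obtain ⟨M, h1, h2⟩ := Int.exists_least_of_bdd (P := fun n => Meets u v n)
    ⟨u.1, fun z hz => hz.1⟩ (exists_Meets u v)
  exact ⟨M, h1, h2⟩

theorem Pset_symm (u v : ℤ × ℕ) : Pset u v = Pset v u := by
  ext w
  constructor
  · rintro ⟨h1, h2⟩
    exact ⟨fun n hn => h1 n (Meets_symm hn), h2.symm⟩
  · rintro ⟨h1, h2⟩
    exact ⟨fun n hn => h1 n (Meets_symm hn), h2.symm⟩

theorem left_mem_Pset (u v : ℤ × ℕ) : u ∈ Pset u v :=
  ⟨fun _ hn => hn.1, Or.inl ⟨le_rfl, (anc_self u).symm⟩⟩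

theorem anc_mem_left {u v : ℤ × ℕ} {M : ℤ} (hM : ∀ n, Meets u v n → M ≤ n) {k : ℤ}
    (h1 : u.1 ≤ k) (h2 : k ≤ M) : anc u k ∈ Pset u v :=
  ⟨fun n hn => h2.trans (hM n hn), Or.inl ⟨h1, rfl⟩⟩

theorem anc_mem_right {u v : ℤ × ℕ} {M : ℤ} (hM : ∀ n, Meets u v n → M ≤ n) {k : ℤ}
    (h1 : v.1 ≤ k) (h2 : k ≤ M) : anc v k ∈ Pset u v :=
  ⟨fun n hn => h2.trans (hM n hn), Or.inr ⟨h1, rfl⟩⟩

/-- two points of the same level with labels differing by at most one -/
theorem eq_or_adj {a b : ℤ × ℕ} (h : a.1 = b.1) (h1 : a.2 ≤ b.2 + 1) (h2 : b.2 ≤ a.2 + 1) :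
    a = b ∨ PAdj a b := by
  rcases lt_trichotomy a.2 b.2 with h3 | h3 | h3
  · exact Or.inr (Or.inr (Or.inr ⟨h, Or.inl (by omega)⟩))
  · exact Or.inl (Prod.ext h h3)
  · exact Or.inr (Or.inr (Or.inr ⟨h, Or.inr (by omega)⟩))

theorem up_path (u v : ℤ × ℕ) {M : ℤ} (hM : ∀ n, Meets u v n → M ≤ n) {k : ℤ}
    (h1 : u.1 ≤ k) (h2 : k ≤ M) :
    Relation.ReflTransGen (fun a b => a ∈ Pset u v ∧ b ∈ Pset u v ∧ PAdj a b) u (anc u k) := by
  induction k, h1 using Int.leInduction with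
  | base =>
    rw [anc_self]
  | succ n hn ih =>
    refine (ih (by omega)).tail ⟨anc_mem_left hM hn (by omega), anc_mem_left hM (by omega) h2, ?_⟩
    left
    exact anc_succ u hn

theorem Pset_path (u v : ℤ × ℕ) :
    Relation.ReflTransGen (fun a b => a ∈ Pset u v ∧ b ∈ Pset u v ∧ PAdj a b) u v := by
  obtain ⟨M, hM, hM'⟩ := exists_least u v
  have p1 := up_path u v hM' hM.1 le_rfl
  have p2 := up_path v u (fun n hn => hM' n (Meets_symm hn)) hM.2.1 le_rfl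
  have hsymm : Std.Symm (fun a b => a ∈ Pset u v ∧ b ∈ Pset u v ∧ PAdj a b) :=
    ⟨fun a b h => ⟨h.2.1, h.1, PAdj_symm h.2.2⟩⟩
  rw [Pset_symm v u] at p2
  have p3 : Relation.ReflTransGen (fun a b => a ∈ Pset u v ∧ b ∈ Pset u v ∧ PAdj a b)
      (anc v M) v := Relation.ReflTransGen.stdSymm.symm _ _ p2
  rcases eq_or_adj (a := anc u M) (b := anc v M) rfl hM.2.2.1 hM.2.2.2 with h | h
  · rw [h] at p1
    exact p1.trans p3
  · exact (p1.tail ⟨anc_mem_left hM' hM.1 le_rfl, anc_mem_right hM' hM.2.1 le_rfl, h⟩).trans p3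

theorem Pset_thin_aux (u v z : ℤ × ℕ) (k : ℤ) (hk : ∀ n, Meets u v n → k ≤ n) (huk : u.1 ≤ k) :
    ∃ w' ∈ Pset u z ∪ Pset z v, PD 2 (anc u k) w' := by
  obtain ⟨M2, hM2, hM2'⟩ := exists_least u z
  obtain ⟨M3, hM3, hM3'⟩ := exists_least z v
  have hM1 : Meets u v (max M2 M3 + 1) := by
    have a1 := Meets_mono hM2 (le_max_left M2 M3)
    have a2 := Meets_mono hM3 (le_max_right M2 M3)
    obtain ⟨b1, b2, b3, b4⟩ := a1
    obtain ⟨c1, c2, c3, c4⟩ := a2
    refine ⟨by omega, by omega, ?_, ?_⟩ <;>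
    · rw [anc_succ u b1, anc_succ v c2]
      simp only [par]
      omega
  have hk1 := hk _ hM1
  rcases le_or_gt k M2 with h | h
  · exact ⟨anc u k, Or.inl (anc_mem_left hM2' huk h), PD_mono (Nat.zero_le 2) (show PD 0 _ _ from rfl)⟩
  rcases le_or_gt k M3 with h3 | h3
  · refine ⟨anc z k, Or.inr (anc_mem_left hM3' (by have := hM2.2.1; omega) h3), ?_⟩
    have hm := Meets_mono hM2 h.le
    refine PD_mono (m := 1) (by norm_num) ?_
    exact ⟨anc u k, rfl, eq_or_adj (a := anc u k) (b := anc z k) rfl hm.2.2.1 hm.2.2.2⟩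
  have hk2 : k = (k - 1) + 1 := by omega
  have hu1 : u.1 ≤ k - 1 := by have := hM2.1; omega
  have hadj : PD 1 (anc u k) (anc u (k - 1)) := by
    refine PD_of_adj (Or.inr (Or.inl ?_))
    rw [← anc_succ u hu1, ← hk2]
  rcases le_or_gt (k - 1) M2 with h4 | h4
  · exact ⟨anc u (k - 1), Or.inl (anc_mem_left hM2' hu1 h4), PD_succ _ _ _ hadj⟩
  · refine ⟨anc z (k - 1), Or.inr (anc_mem_left hM3' (by have := hM2.2.1; omega) (by omega)), ?_⟩
    have hm := Meets_mono hM2 h4.le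
    exact ⟨anc u (k - 1), hadj,
      eq_or_adj (a := anc u (k - 1)) (b := anc z (k - 1)) rfl hm.2.2.1 hm.2.2.2⟩

theorem Pset_thin (u v z w : ℤ × ℕ) (hw : w ∈ Pset u v) :
    ∃ w' ∈ Pset u z ∪ Pset z v, PD 2 w w' := by
  obtain ⟨h1, ⟨h2, h3⟩ | ⟨h2, h3⟩⟩ := hw
  · have := Pset_thin_aux u v z w.1 h1 h2
    rwa [← h3] at this
  · have := Pset_thin_aux v u z w.1 (fun n hn => h1 n (Meets_symm hn)) h2
    rw [← h3, Pset_symm v z, Pset_symm z u, Set.union_comm] at this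
    exact this

theorem Pset_par (u w : ℤ × ℕ) (hw : w ∈ Pset u (par u)) : w = u ∨ w = par u := by
  have e : anc u (u.1 + 1) = par u := by rw [anc_succ u le_rfl, anc_self]
  have e2 : anc (par u) (u.1 + 1) = par u := anc_self (par u)
  have hm : Meets u (par u) (u.1 + 1) := by
    refine ⟨by omega, by simp [par], ?_, ?_⟩
    · rw [e, e2]; omega
    · rw [e, e2]; omega
  obtain ⟨h1, h2⟩ := hw
  have h3 := h1 _ hm
  rcases h2 with ⟨h4, h5⟩ | ⟨h4, h5⟩
  · rcases eq_or_lt_of_le h4 with h6 | h6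
    · left
      rw [h5, ← h6, anc_self]
    · right
      have h7 : w.1 = u.1 + 1 := by omega
      rw [h5, h7, e]
  · right
    have h7 : w.1 = u.1 + 1 := by
      have : (par u).1 = u.1 + 1 := rfl
      omega
    rw [h5, h7, e2]

theorem Pset_adj {z v w : ℤ × ℕ} (h : z = v ∨ PAdj z v) (hw : w ∈ Pset z v) : w = z ∨ w = v := by
  have level : z.1 = v.1 → z.2 ≤ v.2 + 1 → v.2 ≤ z.2 + 1 → w = z ∨ w = v := by
    intro h1 h2 h3
    have e1 : anc z z.1 = z := anc_self z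
    have e2 : anc v z.1 = v := by rw [h1]; exact anc_self v
    have hm : Meets z v z.1 := ⟨le_rfl, h1.ge, by rw [e1, e2]; exact h2, by rw [e1, e2]; exact h3⟩
    have h4 := hw.1 _ hm
    rcases hw.2 with ⟨h5, h6⟩ | ⟨h5, h6⟩
    · left
      have : w.1 = z.1 := by omega
      rw [h6, this, e1]
    · right
      have : w.1 = z.1 := by omega
      rw [h6, this, e2]
  rcases h with h | h | h | ⟨h1, h2⟩
  · subst h
    exact level rfl (by omega) (by omega)
  · subst h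
    exact Pset_par z w hw
  · subst h
    rw [Pset_symm] at hw
    exact (Pset_par v w hw).symm
  · exact level h1 (by omega) (by omega)

theorem Pset_near (n : ℕ) : ∃ m : ℕ, ∀ u v w : ℤ × ℕ, PD n u v → w ∈ Pset u v → PD m u w := by
  induction n with
  | zero =>
    refine ⟨0, fun u v w h hw => ?_⟩
    have h' : u = v := h
    rcases Pset_adj (Or.inl h') hw with h1 | h1
    · exact h1.symm
    · exact h'.trans h1.symm
  | succ n ih =>
    obtain ⟨m, hm⟩ := ih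
    refine ⟨max m (n + 1) + 2, fun u v w h hw => ?_⟩
    obtain ⟨z, hz, hzv⟩ := h
    obtain ⟨w', hw', hd⟩ := Pset_thin u v z w hw
    refine PD_trans _ 2 u w' w ?_ (PD_symm 2 _ _ hd)
    rcases hw' with hw' | hw'
    · exact PD_mono (le_max_left _ _) (hm u z w' hz hw')
    · refine PD_mono (le_max_right _ _) ?_
      rcases Pset_adj hzv hw' with h1 | h1
      · rw [h1]
        exact PD_succ n u z hz
      · rw [h1]
        exact ⟨z, hz, hzv⟩

end Pool.Agent.Helper376.LC
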