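import Mathlib
import Pool.Agent.Helper376.LC.Plane

/-! Thin triangles in a median space with combs. -/

namespace Pool.Agent.Helper376.LC

/-- Two walls cross: all four quadrants are nonempty. -/
def Crs {V R : Type*} (Wl : V → V → Set R) (H H' : R) : Prop :=
  ∃ a b c d, (H ∈ Wl a b ∧ H' ∉ Wl a b) ∧ (H ∉ Wl a c ∧ H' ∈ Wl a c) ∧
    (H ∈ Wl a d ∧ H' ∈ Wl a d)

/-- A median space with walls (`Wl x y` is the set of walls separating `x` from `y`) with a
disjoint family of convex combs `Q c`, each with coordinates `θ, κ` in the plane. -/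
structure CombSpace (V R K : Type*) where
  Wl : V → V → Set R
  Wl_comm : ∀ x y, Wl x y = Wl y x
  Wl_tri : ∀ x y z, Wl x z = symmDiff (Wl x y) (Wl y z)
  Wl_fin : ∀ x y, (Wl x y).Finite
  Wl_inj : ∀ x y, Wl x y = ∅ → x = y
  step : ∀ x y, x ≠ y → ∃ x', (Wl x x').ncard = 1 ∧ Wl x x' ⊆ Wl x y
  median : ∀ x y z, ∃ m, Wl x m = Wl x y ∩ Wl x z
  grid : ∀ m a b, (∀ H ∈ Wl m a, ∀ H' ∈ Wl m b, Crs Wl H H') →
    (Wl m a).ncard ≤ 4 ∨ (Wl m b).ncard ≤ 4
  Q : K → Set V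
  gate : K → V → V
  gate_mem : ∀ c x, gate c x ∈ Q c
  gate_sep : ∀ c x y, y ∈ Q c → Disjoint (Wl x (gate c x)) (Wl (gate c x) y)
  conv : ∀ c x y m, x ∈ Q c → y ∈ Q c → Disjoint (Wl x m) (Wl m y) → m ∈ Q c
  Q_disj : ∀ c c', c ≠ c' → Disjoint (Q c) (Q c')
  no3 : ∀ c x y, x ∈ Q c → y ∈ Q c → 3 ≤ (Wl x y).ncard → ∀ H, ∃ H' ∈ Wl x y, ¬ Crs Wl H H'
  θ : K → ℤ × ℕ → V
  κ : K → V → ℤ × ℕ
  θ_mem : ∀ c p, θ c p ∈ Q c
  κ_θ : ∀ c p, κ c (θ c p) = p
  κ_gate : ∀ c x, κ c (gate c x) = κ c x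
  near : ∀ c x, x ∈ Q c → (Wl x (θ c (κ c x))).ncard ≤ 1
  lip : ∀ c x y, x ∈ Q c → y ∈ Q c → (Wl x y).ncard = 1 →
    κ c x = κ c y ∨ PAdj (κ c x) (κ c y)
  horiz : ∀ c j k, (Wl (θ c (j, k)) (θ c (j, k + 1))).ncard = 1

namespace CombSpace

variable {V R K : Type*} (S : CombSpace V R K)

/-- The graph: median graph edges and the edges from a plane point to its parent. -/
def graph : SimpleGraph V where
  Adj x y := (S.Wl x y).ncard = 1 ∨
    ∃ c p, (x = S.θ c p ∧ y = S.θ c (par p)) ∨ (y = S.θ c p ∧ x = S.θ c (par p))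
  symm := by
    constructor
    rintro x y (h | ⟨c, p, h⟩)
    · left; rw [S.Wl_comm]; exact h
    · right; exact ⟨c, p, h.symm⟩
  loopless := by
    constructor
    rintro x (h | ⟨c, p, h⟩)
    · have h1 := S.Wl_tri x x x
      simp only [symmDiff_self] at h1
      rw [h1] at h
      simp at h
    · have h1 : S.θ c p = S.θ c (par p) := by
        rcases h with h | h
        · exact h.1.symm.trans h.2
        · exact h.1.symm.trans h.2
      have h2 : p = par p :=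
        (S.κ_θ c p).symm.trans ((congrArg (S.κ c) h1).trans (S.κ_θ c (par p)))
      have h3 : p.1 = p.1 + 1 := congrArg Prod.fst h2
      omega

/-- Distance of the gates of `x` and `y` on the comb `Q c`. -/
noncomputable def dc (c : K) (x y : V) : ℕ := (S.Wl (S.gate c x) (S.gate c y)).ncard

/-- Candidate for the geodesic from `x` to `y`. -/
def L (x y : V) : Set V :=
  {m | Disjoint (S.Wl x m) (S.Wl m y) ∧ ∀ c, ¬ (3 ≤ S.dc c x m ∧ 3 ≤ S.dc c m y)} ∪
  {v | ∃ c, 3 ≤ S.dc c x y ∧ ∃ p ∈ Pset (S.κ c x) (S.κ c y), v = S.θ c p}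


/-! helper lemmas -/

lemma side (o : V) (H : R) : ∃ s : V → Prop, ∀ x y, H ∈ S.Wl x y ↔ ¬ (s x ↔ s y) := by
  refine ⟨fun x => H ∈ S.Wl o x, fun x y => ?_⟩
  have h := S.Wl_tri o x y
  have h2 : H ∈ S.Wl o y ↔ H ∈ symmDiff (S.Wl o x) (S.Wl x y) := by rw [← h]
  rw [Set.mem_symmDiff] at h2
  tauto

lemma Wl_self (x : V) : S.Wl x x = ∅ := by
  ext H
  obtain ⟨s, hs⟩ := S.side x H
  simp only [hs, Set.mem_empty_iff_false]
  tauto

lemma btw_sub_left {x m y : V} (h : Disjoint (S.Wl x m) (S.Wl m y)) : S.Wl x m ⊆ S.Wl x y := by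
  intro H hH
  have h' := Set.disjoint_left.1 h hH
  obtain ⟨s, hs⟩ := S.side x H
  simp only [hs] at *
  tauto

lemma btw_sub_right {x m y : V} (h : Disjoint (S.Wl x m) (S.Wl m y)) : S.Wl m y ⊆ S.Wl x y := by
  intro H hH
  have h' := Set.disjoint_right.1 h hH
  obtain ⟨s, hs⟩ := S.side x H
  simp only [hs] at *
  tauto

lemma btw_of_sub {x m y : V} (h : S.Wl x m ⊆ S.Wl x y) : Disjoint (S.Wl x m) (S.Wl m y) := by
  rw [Set.disjoint_left]
  intro H hH
  have h' := h hH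
  obtain ⟨s, hs⟩ := S.side x H
  simp only [hs] at *
  tauto

lemma btw_symm {x m y : V} (h : Disjoint (S.Wl x m) (S.Wl m y)) :
    Disjoint (S.Wl y m) (S.Wl m x) := by
  rw [S.Wl_comm y m, S.Wl_comm m x]; exact h.symm

lemma ncard_mono {x y x' y' : V} (h : S.Wl x y ⊆ S.Wl x' y') :
    (S.Wl x y).ncard ≤ (S.Wl x' y').ncard := Set.ncard_le_ncard h (S.Wl_fin _ _)

lemma ncard_tri (x y z : V) : (S.Wl x z).ncard ≤ (S.Wl x y).ncard + (S.Wl y z).ncard := by
  refine le_trans (Set.ncard_le_ncard (t := S.Wl x y ∪ S.Wl y z) ?_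
    ((S.Wl_fin _ _).union (S.Wl_fin _ _))) (Set.ncard_union_le _ _)
  intro H hH
  rw [Set.mem_union]
  obtain ⟨s, hs⟩ := S.side x H
  simp only [hs] at *
  tauto

lemma ncard_btw {x m y : V} (h : Disjoint (S.Wl x m) (S.Wl m y)) :
    (S.Wl x m).ncard + (S.Wl m y).ncard = (S.Wl x y).ncard := by
  rw [← Set.ncard_union_eq h (S.Wl_fin _ _) (S.Wl_fin _ _)]
  congr 1
  apply Set.Subset.antisymm
  · exact Set.union_subset (S.btw_sub_left h) (S.btw_sub_right h)
  · intro H hH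
    rw [Set.mem_union]
    obtain ⟨s, hs⟩ := S.side x H
    simp only [hs] at *
    tauto

/-! TARGETS -/

theorem gate_self (c : K) (x : V) (hx : x ∈ S.Q c) : S.gate c x = x := by
  have h := S.gate_sep c x x hx
  rw [S.Wl_comm (S.gate c x) x, disjoint_self] at h
  exact (S.Wl_inj _ _ h).symm

/-- walls of a comb do not separate a point from its gate -/
lemma g1 {c : K} {x y y' : V} (hy : y ∈ S.Q c) (hy' : y' ∈ S.Q c) {H : R}
    (h : H ∈ S.Wl y y') : H ∉ S.Wl x (S.gate c x) := by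
  intro h1
  have h2 := Set.disjoint_left.1 (S.gate_sep c x y hy) h1
  have h3 := Set.disjoint_left.1 (S.gate_sep c x y' hy') h1
  obtain ⟨s, hs⟩ := S.side x H
  simp only [hs] at *
  tauto

lemma g2 {c : K} {x y : V} : S.Wl (S.gate c x) (S.gate c y) ⊆ S.Wl x y := by
  intro H hH
  have h1 := S.g1 (x := x) (S.gate_mem c x) (S.gate_mem c y) hH
  have h2 := S.g1 (x := y) (S.gate_mem c x) (S.gate_mem c y) hH
  obtain ⟨s, hs⟩ := S.side x H
  simp only [hs] at *
  tauto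

lemma g3 {c : K} {x m y : V} (h : S.Wl x m ⊆ S.Wl x y) :
    S.Wl (S.gate c x) (S.gate c m) ⊆ S.Wl (S.gate c x) (S.gate c y) := by
  intro H hH
  have h1 := S.g1 (x := x) (S.gate_mem c x) (S.gate_mem c m) hH
  have h2 := S.g1 (x := m) (S.gate_mem c x) (S.gate_mem c m) hH
  have h3 := S.g1 (x := y) (S.gate_mem c x) (S.gate_mem c m) hH
  have h4 := h (S.g2 hH)
  obtain ⟨s, hs⟩ := S.side x H
  simp only [hs] at *
  tauto

lemma dc_mono {c : K} {x m y : V} (h : S.Wl x m ⊆ S.Wl x y) : S.dc c x m ≤ S.dc c x y :=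
  S.ncard_mono (S.g3 h)

lemma dc_comm (c : K) (x y : V) : S.dc c x y = S.dc c y x := by
  unfold dc; rw [S.Wl_comm]

lemma dc_self (c : K) (x : V) : S.dc c x x = 0 := by
  unfold dc; rw [S.Wl_self]; simp

lemma dc_le (c : K) (x y : V) : S.dc c x y ≤ (S.Wl x y).ncard := S.ncard_mono S.g2

lemma dc_tri (c : K) (x y z : V) : S.dc c x z ≤ S.dc c x y + S.dc c y z := S.ncard_tri _ _ _

lemma dc_mono' {c : K} {x m y : V} (h : Disjoint (S.Wl x m) (S.Wl m y)) :
    S.dc c m y ≤ S.dc c x y := by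
  rw [S.dc_comm c m y, S.dc_comm c x y]
  exact S.dc_mono (S.btw_sub_left (S.btw_symm h))

theorem reach_step (x y : V) : ∃ w : S.graph.Walk x y, w.length ≤ (S.Wl x y).ncard := by
  induction hn : (S.Wl x y).ncard generalizing x with
  | zero =>
    have h := (Set.ncard_eq_zero (S.Wl_fin x y)).1 hn
    have := S.Wl_inj _ _ h
    subst this
    exact ⟨SimpleGraph.Walk.nil, by simp⟩
  | succ n ih =>
    have hne : x ≠ y := by
      rintro rfl
      rw [S.Wl_self] at hn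
      simp at hn
    obtain ⟨x', h1, h2⟩ := S.step x y hne
    have h3 := S.ncard_btw (S.btw_of_sub h2)
    obtain ⟨w, hw⟩ := ih x' (by omega)
    have hadj : S.graph.Adj x x' := Or.inl h1
    refine ⟨SimpleGraph.Walk.cons hadj w, ?_⟩
    rw [SimpleGraph.Walk.length_cons]
    omega

theorem dist_le_ncard [Nonempty V] (x y : V) : S.graph.dist x y ≤ (S.Wl x y).ncard := by
  obtain ⟨w, hw⟩ := S.reach_step x y
  exact (SimpleGraph.dist_le w).trans hw

/-- If at least three walls of the comb separate `x` from `y` then the gate of `x` lies between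
`x` and `y`, and the gate of `y` too. -/
theorem gate_between_left (c : K) (x y : V) (h : 3 ≤ S.dc c x y) :
    Disjoint (S.Wl x (S.gate c x)) (S.Wl (S.gate c x) y) := by
  rw [Set.disjoint_left]
  intro H h1 h2
  obtain ⟨H', h3, h4⟩ := S.no3 c _ _ (S.gate_mem c x) (S.gate_mem c y) h H
  apply h4
  have a1 : H ∉ S.Wl (S.gate c x) (S.gate c y) := fun hh =>
    S.g1 (x := x) (S.gate_mem c x) (S.gate_mem c y) hh h1
  have a2 := S.g1 (x := x) (S.gate_mem c x) (S.gate_mem c y) h3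
  have a3 := S.g1 (x := y) (S.gate_mem c x) (S.gate_mem c y) h3
  refine ⟨x, S.gate c x, y, S.gate c y, ⟨h1, a2⟩, ⟨?_, ?_⟩, ⟨?_, ?_⟩⟩
  · obtain ⟨s, hs⟩ := S.side x H
    simp only [hs] at *
    tauto
  · exact S.g2 h3
  · obtain ⟨s, hs⟩ := S.side x H
    simp only [hs] at *
    tauto
  · obtain ⟨s, hs⟩ := S.side x H'
    simp only [hs] at *
    tauto

theorem gate_between (c : K) (x y : V) (h : 3 ≤ S.dc c x y) :
    Disjoint (S.Wl x (S.gate c x)) (S.Wl (S.gate c x) y) ∧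
    Disjoint (S.Wl x (S.gate c y)) (S.Wl (S.gate c y) y) := by
  refine ⟨S.gate_between_left c x y h, ?_⟩
  rw [S.dc_comm] at h
  exact S.btw_symm (S.gate_between_left c y x h)

theorem graph_connected [Nonempty V] : S.graph.Connected := by
  refine ⟨fun x y => ?_⟩
  obtain ⟨w, _⟩ := S.reach_step x y
  exact ⟨w⟩

/-- deep points are in the comb -/
lemma deep_mem {c : K} {x m y : V} (hb : Disjoint (S.Wl x m) (S.Wl m y)) (h1 : 3 ≤ S.dc c x m)
    (h2 : 3 ≤ S.dc c m y) : m ∈ S.Q c := by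
  have a1 := S.btw_sub_right (S.gate_between c x m h1).2
  have a2 := S.btw_sub_left (S.gate_between c m y h2).1
  have h3 : S.Wl m (S.gate c m) = ∅ := by
    rw [Set.eq_empty_iff_forall_notMem]
    intro H hH
    refine Set.disjoint_left.1 hb (a1 ?_) (a2 hH)
    rw [S.Wl_comm]; exact hH
  rw [S.Wl_inj _ _ h3]
  exact S.gate_mem c m

lemma eq_of_dc {c c' : K} {x y : V} (h : 3 ≤ S.dc c x y) (hx : x ∈ S.Q c') (hy : y ∈ S.Q c') :
    c = c' := by
  by_contra hne
  have h1 := S.conv c' x y _ hx hy (S.gate_between c x y h).1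
  exact Set.disjoint_left.1 (S.Q_disj c c' hne) (S.gate_mem c x) h1

lemma step_mem {c : K} {x x' y : V} (hx : x ∈ S.Q c) (h : 3 ≤ S.dc c x y)
    (h1 : (S.Wl x x').ncard = 1) (h2 : S.Wl x x' ⊆ S.Wl x y) : x' ∈ S.Q c := by
  obtain ⟨H, hH⟩ := Set.ncard_eq_one.1 h1
  have hg := S.gate_self c x hx
  have hb := (S.gate_between c x y h).2
  have hsub := S.btw_sub_left hb
  have h3 : 3 ≤ (S.Wl x (S.gate c y)).ncard := by
    unfold dc at h; rwa [hg] at h
  by_cases hc : H ∈ S.Wl x (S.gate c y)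
  · apply S.conv c x (S.gate c y) x' hx (S.gate_mem c y)
    apply S.btw_of_sub
    rw [hH]
    simpa using hc
  · exfalso
    obtain ⟨H', a1, a2⟩ := S.no3 c _ _ hx (S.gate_mem c y) h3 H
    apply a2
    refine ⟨x, x', S.gate c y, y, ⟨by rw [hH]; simp, ?_⟩, ⟨hc, a1⟩, ⟨?_, hsub a1⟩⟩
    · rw [hH]
      simp only [Set.mem_singleton_iff]
      rintro rfl
      exact hc a1
    · apply h2; rw [hH]; simp

lemma PD_mono {m n : ℕ} (hmn : m ≤ n) {u v : ℤ × ℕ} (h : PD m u v) : PD n u v := by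
  induction n, hmn using Nat.le_induction with
  | base => exact h
  | succ n _ ih => exact ⟨v, ih, Or.inl rfl⟩

lemma PD_Q (c : K) (n : ℕ) (x y : V) (hx : x ∈ S.Q c) (hy : y ∈ S.Q c)
    (hn : (S.Wl x y).ncard = n) : PD n (S.κ c y) (S.κ c x) := by
  induction n generalizing x with
  | zero =>
    have h := (Set.ncard_eq_zero (S.Wl_fin x y)).1 hn
    have := S.Wl_inj _ _ h
    subst this
    rfl
  | succ n ih =>
    have hne : x ≠ y := by
      rintro rfl
      rw [S.Wl_self] at hn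
      simp at hn
    obtain ⟨x', h1, h2⟩ := S.step x y hne
    have hb := S.btw_of_sub h2
    have h3 := S.ncard_btw hb
    have hx' := S.conv c x y x' hx hy hb
    refine ⟨S.κ c x', ih x' hx' (by omega), ?_⟩
    apply S.lip c x' x hx' hx
    rw [S.Wl_comm]; exact h1

lemma PD_gate (c : K) (x y : V) (n : ℕ) (hn : S.dc c x y ≤ n) :
    PD n (S.κ c x) (S.κ c y) := by
  have h := S.PD_Q c _ _ _ (S.gate_mem c y) (S.gate_mem c x) rfl
  rw [S.κ_gate, S.κ_gate] at h
  apply PD_mono _ h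
  rw [S.Wl_comm]; exact hn

lemma adj_of_PAdj {c : K} {u v : ℤ × ℕ} (h : PAdj u v) : S.graph.Adj (S.θ c u) (S.θ c v) := by
  rcases h with h | h | ⟨h1, h2 | h2⟩
  · right; exact ⟨c, u, Or.inl ⟨rfl, by rw [h]⟩⟩
  · right; exact ⟨c, v, Or.inr ⟨rfl, by rw [h]⟩⟩
  · left
    have := S.horiz c u.1 u.2
    have e : v = (u.1, u.2 + 1) := Prod.ext h1.symm h2
    rw [e]; exact this
  · left
    have := S.horiz c v.1 v.2
    have e : u = (v.1, v.2 + 1) := Prod.ext h1 h2
    rw [e, S.Wl_comm]; exact this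

lemma dist_PD [Nonempty V] (c : K) (n : ℕ) (u v : ℤ × ℕ) (h : PD n u v) :
    S.graph.dist (S.θ c u) (S.θ c v) ≤ n := by
  induction n generalizing v with
  | zero =>
    have : u = v := h
    subst this; simp
  | succ n ih =>
    obtain ⟨w, h1, h2⟩ := h
    have h3 := ih w h1
    rcases h2 with h2 | h2
    · subst h2; omega
    · have h4 := (S.adj_of_PAdj (c := c) h2)
      have h5 := (SimpleGraph.dist_eq_one_iff_adj.2 h4)
      have h6 := S.graph_connected.dist_triangle (u := S.θ c u) (v := S.θ c w) (w := S.θ c v)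
      omega

lemma near_gate [Nonempty V] (c : K) (x : V) :
    S.graph.dist (S.gate c x) (S.θ c (S.κ c x)) ≤ 1 := by
  have := S.near c (S.gate c x) (S.gate_mem c x)
  rw [S.κ_gate] at this
  exact (S.dist_le_ncard _ _).trans this

lemma L_symm (x y : V) : S.L x y = S.L y x := by
  have key : ∀ x y : V, S.L x y ⊆ S.L y x := by
    intro x y v hv
    rcases hv with ⟨h1, h2⟩ | ⟨c, h1, p, hp, rfl⟩
    · left
      refine ⟨S.btw_symm h1, fun c hc => h2 c ⟨?_, ?_⟩⟩
      · rw [S.dc_comm]; exact hc.2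
      · rw [S.dc_comm]; exact hc.1
    · right
      refine ⟨c, by rw [S.dc_comm]; exact h1, p, ?_, rfl⟩
      rw [Pset_symm]; exact hp
  exact Set.Subset.antisymm (key x y) (key y x)

lemma left_mem_L (x y : V) : x ∈ S.L x y := by
  left
  refine ⟨by rw [S.Wl_self]; exact Set.empty_disjoint _, fun c hc => ?_⟩
  rw [S.dc_self] at hc
  omega

/-- gates are exposed -/
lemma gate_exposed {c : K} {x y : V} (h : 3 ≤ S.dc c x y) :
    Disjoint (S.Wl x (S.gate c x)) (S.Wl (S.gate c x) y) ∧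
      ∀ c', ¬ (3 ≤ S.dc c' x (S.gate c x) ∧ 3 ≤ S.dc c' (S.gate c x) y) := by
  have hb := (S.gate_between c x y h).1
  refine ⟨hb, fun c' hc' => ?_⟩
  by_cases hcc : c' = c
  · subst hcc
    have := hc'.1
    unfold dc at this
    rw [S.gate_self c' _ (S.gate_mem c' x), S.Wl_self] at this
    simp at this
  · have := S.deep_mem hb hc'.1 hc'.2
    exact Set.disjoint_left.1 (S.Q_disj c' c hcc) this (S.gate_mem c x)

lemma thin1_aux [Nonempty V] {x y z m m₁ : V} (hb : Disjoint (S.Wl x m) (S.Wl m y))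
    (he : ∀ c, ¬ (3 ≤ S.dc c x m ∧ 3 ≤ S.dc c m y)) (hm₁ : S.Wl m m₁ = S.Wl m x ∩ S.Wl m z)
    (h4 : (S.Wl m m₁).ncard ≤ 4) : ∃ v ∈ S.L x z ∪ S.L z y, S.graph.dist m v ≤ 13 := by
  have hmem : ∀ H, H ∈ S.Wl m m₁ ↔ (H ∈ S.Wl m x ∧ H ∈ S.Wl m z) := by
    intro H; rw [hm₁]; rfl
  have b1 : Disjoint (S.Wl x m₁) (S.Wl m₁ z) := by
    rw [Set.disjoint_left]
    intro H hH
    have := hmem H
    obtain ⟨s, hs⟩ := S.side x H
    simp only [hs] at *
    tauto
  have b2 : S.Wl x m₁ ⊆ S.Wl x m := by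
    intro H hH
    have := hmem H
    obtain ⟨s, hs⟩ := S.side x H
    simp only [hs] at *
    tauto
  have hd4 : S.graph.dist m m₁ ≤ 4 := (S.dist_le_ncard _ _).trans h4
  by_cases hexp : ∀ c, ¬ (3 ≤ S.dc c x m₁ ∧ 3 ≤ S.dc c m₁ z)
  · exact ⟨m₁, Or.inl (Or.inl ⟨b1, hexp⟩), by omega⟩
  · push Not at hexp
    obtain ⟨c, c1, c2⟩ := hexp
    have hQ := S.deep_mem b1 c1 c2
    have hg := S.gate_self c m₁ hQ
    have c3 : 3 ≤ S.dc c x m := c1.trans (S.dc_mono b2)
    have c4 : S.dc c m y ≤ 2 := by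
      by_contra hcon
      exact he c ⟨c3, by omega⟩
    have c5 : S.dc c m₁ m ≤ 4 := by
      refine (S.dc_le c _ _).trans ?_
      rw [S.Wl_comm]; exact h4
    have c6 : (S.Wl m₁ (S.gate c y)).ncard ≤ 6 := by
      have := S.dc_tri c m₁ m y
      have h7 : S.dc c m₁ y = (S.Wl m₁ (S.gate c y)).ncard := by
        unfold dc; rw [hg]
      omega
    have d1 : S.graph.dist m₁ (S.gate c y) ≤ 6 := (S.dist_le_ncard _ _).trans c6
    have t1 := S.graph_connected.dist_triangle (u := m) (v := m₁) (w := S.gate c y)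
    by_cases hzy : 3 ≤ S.dc c z y
    · refine ⟨S.θ c (S.κ c y), Or.inr (Or.inr ⟨c, hzy, S.κ c y, ?_, rfl⟩), ?_⟩
      · rw [Pset_symm]; exact left_mem_Pset _ _
      · have t2 := S.graph_connected.dist_triangle (u := m) (v := S.gate c y)
          (w := S.θ c (S.κ c y))
        have t3 := S.near_gate c y
        omega
    · have c7 : 3 ≤ S.dc c x z := c1.trans (S.dc_mono (S.btw_sub_left b1))
      refine ⟨S.θ c (S.κ c z), Or.inl (Or.inr ⟨c, c7, S.κ c z, ?_, rfl⟩), ?_⟩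
      · rw [Pset_symm]; exact left_mem_Pset _ _
      · have t2 := S.graph_connected.dist_triangle (u := m) (v := S.gate c y)
          (w := S.gate c z)
        have t2' := S.graph_connected.dist_triangle (u := m) (v := S.gate c z)
          (w := S.θ c (S.κ c z))
        have t3 := S.near_gate c z
        have t4 : S.graph.dist (S.gate c y) (S.gate c z) ≤ S.dc c y z := S.dist_le_ncard _ _
        rw [S.dc_comm] at t4
        omega

lemma thin1 [Nonempty V] {x y m : V} (z : V) (hb : Disjoint (S.Wl x m) (S.Wl m y))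
    (he : ∀ c, ¬ (3 ≤ S.dc c x m ∧ 3 ≤ S.dc c m y)) :
    ∃ v ∈ S.L x z ∪ S.L z y, S.graph.dist m v ≤ 13 := by
  obtain ⟨m₁, h1⟩ := S.median m x z
  obtain ⟨m₂, h2⟩ := S.median m y z
  have hcr : ∀ H ∈ S.Wl m m₁, ∀ H' ∈ S.Wl m m₂, Crs S.Wl H H' := by
    intro H hH H' hH'
    rw [h1] at hH
    rw [h2] at hH'
    refine ⟨m, x, y, z, ⟨hH.1, ?_⟩, ⟨?_, hH'.1⟩, ⟨hH.2, hH'.2⟩⟩
    · intro hcon
      rw [S.Wl_comm] at hcon
      exact Set.disjoint_left.1 hb hcon hH'.1
    · intro hcon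
      have hH1 := hH.1
      rw [S.Wl_comm] at hH1
      exact Set.disjoint_left.1 hb hH1 hcon
  rcases S.grid m m₁ m₂ hcr with h4 | h4
  · exact S.thin1_aux hb he h1 h4
  · obtain ⟨v, hv, hd⟩ := S.thin1_aux (x := y) (y := x) (z := z) (S.btw_symm hb)
      (fun c hc => he c ⟨by rw [S.dc_comm]; exact hc.2, by rw [S.dc_comm]; exact hc.1⟩) h2 h4
    refine ⟨v, ?_, hd⟩
    rw [S.L_symm x z, S.L_symm z y, Set.union_comm]
    exact hv

lemma thin2 [Nonempty V] (k₂ k₄ : ℕ)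
    (hk₂ : ∀ u v w : ℤ × ℕ, PD 2 u v → w ∈ Pset u v → PD k₂ u w)
    (hk₄ : ∀ u v w : ℤ × ℕ, PD 4 u v → w ∈ Pset u v → PD k₄ u w)
    {c : K} {x y : V} (z : V) (h : 3 ≤ S.dc c x y) {p : ℤ × ℕ} (hp : p ∈ Pset (S.κ c x) (S.κ c y)) :
    ∃ v ∈ S.L x z ∪ S.L z y, S.graph.dist (S.θ c p) v ≤ 14 + k₂ + k₄ := by
  obtain ⟨p', hp', hd⟩ := Pset_thin _ _ (S.κ c z) _ hp
  have hdist := S.dist_PD c 2 p p' hd
  by_cases h1 : 3 ≤ S.dc c x z
  · by_cases h2 : 3 ≤ S.dc c z y
    · rcases hp' with hp' | hp'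
      · exact ⟨S.θ c p', Or.inl (Or.inr ⟨c, h1, p', hp', rfl⟩), by omega⟩
      · exact ⟨S.θ c p', Or.inr (Or.inr ⟨c, h2, p', hp', rfl⟩), by omega⟩
    · rcases hp' with hp' | hp'
      · exact ⟨S.θ c p', Or.inl (Or.inr ⟨c, h1, p', hp', rfl⟩), by omega⟩
      · have a1 := hk₂ _ _ _ (S.PD_gate c z y 2 (by omega)) hp'
        have a2 := S.dist_PD c _ _ _ a1
        have t := S.graph_connected.dist_triangle (u := S.θ c p) (v := S.θ c p')
          (w := S.θ c (S.κ c z))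
        rw [SimpleGraph.dist_comm] at a2
        refine ⟨S.θ c (S.κ c z), Or.inl (Or.inr ⟨c, h1, S.κ c z, ?_, rfl⟩), by omega⟩
        rw [Pset_symm]; exact left_mem_Pset _ _
  · by_cases h2 : 3 ≤ S.dc c z y
    · rcases hp' with hp' | hp'
      · rw [Pset_symm] at hp'
        have a1 := hk₂ _ _ _ (S.PD_gate c z x 2 (by rw [S.dc_comm]; omega)) hp'
        have a2 := S.dist_PD c _ _ _ a1
        have t := S.graph_connected.dist_triangle (u := S.θ c p) (v := S.θ c p')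
          (w := S.θ c (S.κ c z))
        rw [SimpleGraph.dist_comm] at a2
        exact ⟨S.θ c (S.κ c z), Or.inr (Or.inr ⟨c, h2, S.κ c z, left_mem_Pset _ _, rfl⟩), by omega⟩
      · exact ⟨S.θ c p', Or.inr (Or.inr ⟨c, h2, p', hp', rfl⟩), by omega⟩
    · have h3 := S.dc_tri c x z y
      have a1 := hk₄ _ _ _ (S.PD_gate c x y 4 (by omega)) hp
      have a2 := S.dist_PD c _ _ _ a1
      rw [SimpleGraph.dist_comm] at a2
      obtain ⟨e1, e2⟩ := S.gate_exposed h
      obtain ⟨v, hv, hvd⟩ := S.thin1 z e1 e2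
      refine ⟨v, hv, ?_⟩
      have t1 := S.graph_connected.dist_triangle (u := S.θ c p) (v := S.θ c (S.κ c x))
        (w := S.gate c x)
      have t2 := S.graph_connected.dist_triangle (u := S.θ c p) (v := S.gate c x) (w := v)
      have t3 := S.near_gate c x
      rw [SimpleGraph.dist_comm] at t3
      omega

lemma adj_theta [Nonempty V] (c : K) (p : ℤ × ℕ) {u : V}
    (hu : u ∈ S.L (S.θ c p) (S.θ c (par p))) : S.graph.dist (S.θ c p) u ≤ 3 := by
  have hadj : S.graph.Adj (S.θ c p) (S.θ c (par p)) := Or.inr ⟨c, p, Or.inl ⟨rfl, rfl⟩⟩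
  have hd := SimpleGraph.dist_eq_one_iff_adj.2 hadj
  rcases hu with ⟨h1, h2⟩ | ⟨c', h1, q, hq, rfl⟩
  · have hQ := S.conv c _ _ _ (S.θ_mem c p) (S.θ_mem c (par p)) h1
    have g1 := S.gate_self c _ (S.θ_mem c p)
    have g2 := S.gate_self c _ (S.θ_mem c (par p))
    have g3 := S.gate_self c _ hQ
    have h3 := h2 c
    unfold dc at h3
    rw [g1, g2, g3] at h3
    have h4 := S.dist_le_ncard (S.θ c p) u
    have h5 := S.dist_le_ncard u (S.θ c (par p))
    have t := S.graph_connected.dist_triangle (u := S.θ c p) (v := S.θ c (par p)) (w := u)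
    rw [SimpleGraph.dist_comm] at h5
    omega
  · have hc := S.eq_of_dc h1 (S.θ_mem c p) (S.θ_mem c (par p))
    subst hc
    rw [S.κ_θ, S.κ_θ] at hq
    rcases Pset_par _ _ hq with h | h
    · subst h; simp
    · subst h; omega

lemma path_aux [Nonempty V] (x y : V) (n : ℕ) : ∀ m : V, (S.Wl x m).ncard ≤ n →
    Disjoint (S.Wl x m) (S.Wl m y) → (∀ c, ¬ (3 ≤ S.dc c x m ∧ 3 ≤ S.dc c m y)) →
    Relation.ReflTransGen (fun a b => a ∈ S.L x y ∧ b ∈ S.L x y ∧ S.graph.dist a b ≤ 3) x m := by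
  induction n with
  | zero =>
    intro m hm _ _
    have h := (Set.ncard_eq_zero (S.Wl_fin x m)).1 (by omega)
    rw [S.Wl_inj _ _ h]
  | succ n ih =>
    intro m hm hb he
    by_cases hxm : x = m
    · rw [hxm]
    obtain ⟨m', h1, h2⟩ := S.step m x (Ne.symm hxm)
    have hb1 : Disjoint (S.Wl x m') (S.Wl m' m) := S.btw_symm (S.btw_of_sub h2)
    have h3 := S.ncard_btw hb1
    rw [S.Wl_comm m' m] at h3
    have hsub1 : S.Wl x m' ⊆ S.Wl x m := S.btw_sub_left hb1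
    have hb2 : Disjoint (S.Wl x m') (S.Wl m' y) :=
      S.btw_of_sub (hsub1.trans (S.btw_sub_left hb))
    have hmL : m ∈ S.L x y := Or.inl ⟨hb, he⟩
    by_cases hexp : ∀ c, ¬ (3 ≤ S.dc c x m' ∧ 3 ≤ S.dc c m' y)
    · refine (ih m' (by omega) hb2 hexp).tail ⟨Or.inl ⟨hb2, hexp⟩, hmL, ?_⟩
      have := S.dist_le_ncard m' m
      rw [S.Wl_comm m' m] at this
      omega
    · push Not at hexp
      obtain ⟨c, c1, c2⟩ := hexp
      have hQ := S.deep_mem hb2 c1 c2
      have h5 : S.Wl m' m ⊆ S.Wl m' y := by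
        intro H hH
        have k1 : H ∈ S.Wl x m → H ∉ S.Wl m y := fun h => Set.disjoint_left.1 hb h
        have k2 : H ∈ S.Wl x m' → H ∉ S.Wl m' m := fun h => Set.disjoint_left.1 hb1 h
        obtain ⟨s, hs⟩ := S.side x H
        simp only [hs] at *
        tauto
      have hmQ : m ∈ S.Q c := S.step_mem hQ c2 (by rw [S.Wl_comm]; exact h1) h5
      have c3 : 3 ≤ S.dc c x m := c1.trans (S.dc_mono hsub1)
      have c4 : S.dc c m y ≤ 2 := by
        by_contra hcon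
        exact he c ⟨c3, by omega⟩
      have c5 : 3 ≤ S.dc c x y := c3.trans (S.dc_mono (S.btw_sub_left hb))
      have gm := S.gate_self c m hmQ
      obtain ⟨e1, e2⟩ := S.gate_exposed c5
      have hgL : S.gate c x ∈ S.L x y := Or.inl ⟨e1, e2⟩
      have h6 := S.ncard_btw (S.gate_between c x m c3).1
      have h7 : S.dc c x m = (S.Wl (S.gate c x) m).ncard := by unfold dc; rw [gm]
      have r1 := ih (S.gate c x) (by omega) e1 e2
      have hLθ : ∀ q ∈ Pset (S.κ c x) (S.κ c y), S.θ c q ∈ S.L x y :=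
        fun q hq => Or.inr ⟨c, c5, q, hq, rfl⟩
      have k1 : S.κ c x ∈ Pset (S.κ c x) (S.κ c y) := left_mem_Pset _ _
      have k2 : S.κ c y ∈ Pset (S.κ c x) (S.κ c y) := by rw [Pset_symm]; exact left_mem_Pset _ _
      have r2 := r1.tail (c := S.θ c (S.κ c x)) ⟨hgL, hLθ _ k1, (S.near_gate c x).trans (by omega)⟩
      have r3 : Relation.ReflTransGen
          (fun a b => a ∈ S.L x y ∧ b ∈ S.L x y ∧ S.graph.dist a b ≤ 3)
          (S.θ c (S.κ c x)) (S.θ c (S.κ c y)) := by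
        refine Relation.ReflTransGen.lift (S.θ c) ?_ _ _ (Pset_path (S.κ c x) (S.κ c y))
        intro a b hab
        refine ⟨hLθ _ hab.1, hLθ _ hab.2.1, ?_⟩
        have := SimpleGraph.dist_eq_one_iff_adj.2 (S.adj_of_PAdj (c := c) hab.2.2)
        omega
      refine (r2.trans r3).tail ⟨hLθ _ k2, hmL, ?_⟩
      have h8 : S.dc c m y = (S.Wl m (S.gate c y)).ncard := by unfold dc; rw [gm]
      have h9 := S.dist_le_ncard m (S.gate c y)
      have h10 := S.near_gate c y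
      have t := S.graph_connected.dist_triangle (u := m) (v := S.gate c y) (w := S.θ c (S.κ c y))
      rw [SimpleGraph.dist_comm]
      omega

theorem main [Nonempty V] : ∃ C : ℕ,
    (∀ x y, S.L x y = S.L y x) ∧
    (∀ x y, x ∈ S.L x y) ∧
    (∀ x y, S.graph.Adj x y → ∀ u ∈ S.L x y, S.graph.dist x u ≤ C) ∧
    (∀ x, ∀ u ∈ S.L x x, S.graph.dist x u ≤ C) ∧
    (∀ x y, Relation.ReflTransGen
      (fun a b => a ∈ S.L x y ∧ b ∈ S.L x y ∧ S.graph.dist a b ≤ C) x y) ∧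
    (∀ x y z, ∀ u ∈ S.L x y, ∃ v ∈ S.L x z ∪ S.L z y, S.graph.dist u v ≤ C) := by
  obtain ⟨k₂, hk₂⟩ := Pset_near 2
  obtain ⟨k₄, hk₄⟩ := Pset_near 4
  refine ⟨14 + k₂ + k₄, S.L_symm, S.left_mem_L, ?_, ?_, ?_, ?_⟩
  · intro x y hxy u hu
    have hd := SimpleGraph.dist_eq_one_iff_adj.2 hxy
    rcases hxy with h1 | ⟨c, p, ⟨rfl, rfl⟩ | ⟨rfl, rfl⟩⟩
    · rcases hu with ⟨h2, _⟩ | ⟨c, h2, _⟩
      · have h3 := S.dist_le_ncard x u
        have h4 := S.ncard_mono (S.btw_sub_left h2)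
        omega
      · have := S.dc_le c x y
        omega
    · have := S.adj_theta c p hu
      omega
    · rw [S.L_symm] at hu
      have h1 := S.adj_theta c p hu
      have t := S.graph_connected.dist_triangle (u := S.θ c (par p)) (v := S.θ c p) (w := u)
      omega
  · intro x u hu
    rcases hu with ⟨h1, _⟩ | ⟨c, h1, _⟩
    · rw [S.Wl_comm u x, disjoint_self] at h1
      rw [← S.Wl_inj _ _ h1]
      simp
    · rw [S.dc_self] at h1
      omega
  · intro x y
    have h := S.path_aux x y _ y le_rfl (by rw [S.Wl_self]; exact Set.disjoint_empty _)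
      (fun c hc => by have := hc.2; rw [S.dc_self] at this; omega)
    refine Relation.ReflTransGen.mono ?_ _ _ h
    intro a b hab
    exact ⟨hab.1, hab.2.1, hab.2.2.trans (by omega)⟩
  · intro x y z u hu
    rcases hu with ⟨h1, h2⟩ | ⟨c, h1, p, hp, rfl⟩
    · obtain ⟨v, hv, hd⟩ := S.thin1 z h1 h2
      exact ⟨v, hv, hd.trans (by omega)⟩
    · exact S.thin2 k₂ k₄ hk₂ hk₄ z h1 hp

end CombSpace

end Pool.Agent.Helper376.LC
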