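import Mathlib
import Pool.Agent.Helper376.LC.Conc
import Pool.Agent.Helper376.LC.Rigid
import Pool.Agent.Helper376.LC.Push

/-! Part of the construction (see Defs and Conc). -/

namespace Pool.Agent.Helper376.LC


theorem desc_index (D : ZMod 5 × Bool → Prop)
    (hD : ∀ a b, D a → D b → a ≠ b → cmt (Sum.inl a) (Sum.inl b)) :
    ∃ j : ZMod 5, ∀ a, D a → a.1 = j ∨ a.1 = j + 1 := by
  by_cases h0 : ∃ a, D a
  · obtain ⟨a0, ha0⟩ := h0
    have hthree : ∀ c, D c → c.1 = a0.1 ∨ c.1 = a0.1 + 1 ∨ c.1 = a0.1 - 1 := by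
      intro c hc
      by_cases hca : c = a0
      · left; rw [hca]
      · obtain ⟨-, h⟩ := hD c a0 hc ha0 hca
        rcases h with h | h | h
        · left; exact sub_eq_zero.mp h
        · right; left; rw [← h]; ring
        · right; right
          have : c.1 = a0.1 + (c.1 - a0.1) := by ring
          rw [this, h]; ring
    by_cases h1 : ∃ b, D b ∧ b.1 = a0.1 - 1
    · obtain ⟨b, hb, hb1⟩ := h1
      refine ⟨a0.1 - 1, fun c hc => ?_⟩
      rcases hthree c hc with h | h | h
      · right; rw [h]; ring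
      · exfalso
        have hbc : b ≠ c := by
          intro hbc
          rw [hbc, h] at hb1
          have h5 : ∀ x : ZMod 5, x + 1 ≠ x - 1 := by decide
          exact h5 _ hb1
        obtain ⟨-, h2⟩ := hD b c hb hc hbc
        rw [hb1, h] at h2
        have h6 : ∀ x : ZMod 5, ¬ (x - 1 - (x + 1) = 0 ∨ x - 1 - (x + 1) = 1 ∨
          x - 1 - (x + 1) = -1) := by decide
        exact h6 _ h2
      · left; exact h
    · refine ⟨a0.1, fun c hc => ?_⟩
      rcases hthree c hc with h | h | h
      · left; exact h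
      · right; exact h
      · exact absurd ⟨c, hc, h⟩ h1
  · exact ⟨0, fun a ha => absurd ⟨a, ha⟩ h0⟩

theorem asc_link (A : ZMod 5 × Bool → Prop) (j : ZMod 5)
    (hA : ∀ a : ZMod 5 × Bool, ¬ A a → a.1 = j ∨ a.1 = j + 1) (a : ZMod 5 × Bool) (ha : A a) :
    Relation.ReflTransGen (fun x y => A x ∧ A y ∧ cmt (Sum.inl x) (Sum.inl y)) a (j + 3, false) := by
  have hAi : ∀ i : ZMod 5, ∀ b : Bool, i ≠ 0 → i ≠ 1 → A (j + i, b) := by
    intro i b h0 h1
    by_contra hn
    rcases hA _ hn with h | h
    · apply h0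
      have h2 : j + i = j + 0 := by rw [add_zero]; exact h
      exact add_left_cancel h2
    · apply h1
      exact add_left_cancel h
  have h3 : A (j + 3, false) := hAi 3 false (by decide) (by decide)
  have h2 : A (j + 2, false) := hAi 2 false (by decide) (by decide)
  have h4 : A (j + 4, false) := hAi 4 false (by decide) (by decide)
  have hcases : ∀ (j x : ZMod 5), x = j ∨ x = j + 1 ∨ x = j + 2 ∨ x = j + 3 ∨ x = j + 4 := by
    decide
  have c1 : ∀ (j : ZMod 5) (b : Bool), cmt (Sum.inl (j, b)) (Sum.inl (j + 4, false)) := by decide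
  have c2 : ∀ (j : ZMod 5), cmt (Sum.inl (j + 4, false)) (Sum.inl (j + 3, false)) := by decide
  have c3 : ∀ (j : ZMod 5) (b : Bool), cmt (Sum.inl (j + 1, b)) (Sum.inl (j + 2, false)) := by
    decide
  have c4 : ∀ (j : ZMod 5) (b : Bool), cmt (Sum.inl (j + 2, b)) (Sum.inl (j + 3, false)) := by
    decide
  have c5 : ∀ (j : ZMod 5) (b : Bool), cmt (Sum.inl (j + 4, b)) (Sum.inl (j + 3, false)) := by
    decide
  have c6 : ∀ (j : ZMod 5), cmt (Sum.inl (j + 3, true)) (Sum.inl (j + 3, false)) := by
    decide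
  obtain ⟨i, b⟩ := a
  rcases hcases j i with h | h | h | h | h
  · subst h
    exact (Relation.ReflTransGen.single ⟨ha, h4, c1 i b⟩).tail ⟨h4, h3, c2 i⟩
  · subst h
    exact (Relation.ReflTransGen.single ⟨ha, h2, c3 j b⟩).tail ⟨h2, h3, c4 j false⟩
  · subst h
    exact Relation.ReflTransGen.single ⟨ha, h3, c4 j b⟩
  · subst h
    cases b with
    | false => exact Relation.ReflTransGen.refl
    | true => exact Relation.ReflTransGen.single ⟨ha, h3, c6 j⟩
  · subst h
    exact Relation.ReflTransGen.single ⟨ha, h3, c5 j b⟩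

theorem sg_comm (a b : Lt) (h : cmt a b) : sg a * sg b = sg b * sg a := by
  have h1 := cs.simple_mul_simple_pow a b
  rw [(MM_eq_two_iff _ _).2 h, pow_two] at h1
  have h2 : sg a * sg b = (sg a * sg b)⁻¹ := eq_inv_of_mul_eq_one_left h1
  rw [mul_inv_rev, sg_inv, sg_inv] at h2
  exact h2

theorem rtg_symm {α : Type*} {R : α → α → Prop} (hs : ∀ a b, R a b → R b a) {a b : α}
    (h : Relation.ReflTransGen R a b) : Relation.ReflTransGen R b a := by
  induction h with
  | refl => exact Relation.ReflTransGen.refl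
  | tail _ h ih => exact Relation.ReflTransGen.head (hs _ _ h) ih

theorem rtg_mono {α : Type*} {R S : α → α → Prop} (hs : ∀ a b, R a b → S a b) {a b : α}
    (h : Relation.ReflTransGen R a b) : Relation.ReflTransGen S a b := by
  induction h with
  | refl => exact Relation.ReflTransGen.refl
  | tail _ h ih => exact Relation.ReflTransGen.tail ih (hs _ _ h)

theorem Ws_path (g : Wh) (hg : g ∈ Ws) : ∀ x : Wh,
    Relation.ReflTransGen (fun x y : Wh => True ∧ True ∧ ∃ b : ZMod 5 × Bool, y = x * sg (Sum.inl b))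
      x (x * g) := by
  unfold Ws at hg
  induction hg using Subgroup.closure_induction with
  | mem x hx =>
    obtain ⟨a, rfl⟩ := hx
    intro y
    exact Relation.ReflTransGen.single ⟨trivial, trivial, a, rfl⟩
  | one => intro x; rw [mul_one]
  | mul g h _ _ ihg ihh =>
    intro x
    have := (ihg x).trans (ihh (x * g))
    rwa [mul_assoc] at this
  | inv g _ ih =>
    intro x
    have h1 := ih (x * g⁻¹)
    rw [inv_mul_cancel_right] at h1
    refine rtg_symm ?_ h1
    rintro u v ⟨-, -, b, rfl⟩
    exact ⟨trivial, trivial, b, by rw [mul_assoc, sg_mul_self, mul_one]⟩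

/-- The complement of a ball in a coset of `Ws` is connected. -/
theorem coset_connected (r : ℕ) (x y : Wh) (hxy : x⁻¹ * y ∈ Ws) (hx : r < cs.length x)
    (hy : r < cs.length y) :
    Relation.ReflTransGen (fun u v => r < cs.length u ∧ r < cs.length v ∧
      ∃ a : ZMod 5 × Bool, v = u * sg (Sum.inl a)) x y := by
  have key : ∀ (w : Wh) (a : ZMod 5 × Bool),
      (-(cs.length (w * sg (Sum.inl a)) : ℤ) = -(cs.length w : ℤ) - 1) ↔
        ¬ cs.IsRightDescent w (Sum.inl a) := by
    intro w a
    have h := cs.length_mul_simple w (Sum.inl a)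
    have he : w * sg (Sum.inl a) = w * cs.simple (Sum.inl a) := rfl
    unfold CoxeterSystem.IsRightDescent
    rw [he]
    omega
  have h := push (W := Wh) (B := ZMod 5 × Bool) (fun a => sg (Sum.inl a))
    (fun b => sg_mul_self _) (fun a b => cmt (Sum.inl a) (Sum.inl b))
    (fun a b hab => sg_comm _ _ hab) (fun w => -(cs.length w : ℤ)) (-((r : ℤ) + 1))
    (fun _ => True)
    (by
      intro w b
      have h := cs.length_mul_simple w (Sum.inl b)
      have he : w * sg (Sum.inl b) = w * cs.simple (Sum.inl b) := rfl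
      simp only [he]
      omega)
    (by
      intro w _ _ a b ha hb
      have hD := desc_index (fun a => cs.IsRightDescent w (Sum.inl a)) (by
        intro a b ha hb hab
        have hab' : (Sum.inl a : Lt) ≠ Sum.inl b := fun h => hab (Sum.inl.inj h)
        exact (MM_eq_two_iff _ _).1 (length_mul_two_descents cs hMM w _ _ hab' ha hb).1)
      obtain ⟨j, hj⟩ := hD
      have hA : ∀ c : ZMod 5 × Bool,
          ¬ (-(cs.length (w * sg (Sum.inl c)) : ℤ) = -(cs.length w : ℤ) - 1) →
          c.1 = j ∨ c.1 = j + 1 := by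
        intro c hc
        rw [key] at hc
        push Not at hc
        exact hj c hc
      have l1 := asc_link (fun c => -(cs.length (w * sg (Sum.inl c)) : ℤ) = -(cs.length w : ℤ) - 1)
        j hA a ha
      have l2 := asc_link (fun c => -(cs.length (w * sg (Sum.inl c)) : ℤ) = -(cs.length w : ℤ) - 1)
        j hA b hb
      refine l1.trans (rtg_symm ?_ l2)
      rintro u v ⟨h1, h2, h3⟩
      exact ⟨h2, h1, cmt_symm _ _ h3⟩)
    (by
      intro w _ _ a b ha hb hab
      have ha' := (key w a).1 ha
      have hb' := (key w b).1 hb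
      have := length_mul_two_ascents cs hMM w _ _ ((MM_eq_two_iff _ _).2 hab) ha' hb'
      have he : w * sg (Sum.inl a) * sg (Sum.inl b)
        = w * cs.simple (Sum.inl a) * cs.simple (Sum.inl b) := rfl
      refine ⟨?_, trivial⟩
      simp only [he]
      rw [this]
      push_cast
      ring)
    (fun _ _ _ _ _ => trivial) x y (by omega) (by omega)
    (by
      have := Ws_path _ hxy x
      rwa [mul_inv_cancel_left] at this)
  refine rtg_mono ?_ h
  rintro u v ⟨⟨-, hu⟩, ⟨-, hv⟩, b, hb⟩
  exact ⟨by omega, by omega, b, hb⟩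

end Pool.Agent.Helper376.LC
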