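import Mathlib
import Pool.Agent.Helper376.LC.Conc2
import Pool.Agent.Helper376.LC.Rigid

/-! Part of the construction (see Defs and Conc). -/

namespace Pool.Agent.Helper376.LC


theorem altw_length (a b : Lt) (n : ℕ) : (altw a b n).length = n := by
  induction n generalizing a b with
  | zero => rfl
  | succ n ih => simp [altw, ih]

theorem altw_take (a b : Lt) (n k : ℕ) (h : k ≤ n) : (altw a b n).take k = altw a b k := by
  induction n generalizing a b k with
  | zero =>
    have h0 : k = 0 := by omega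
    subst h0
    rfl
  | succ n ih =>
    cases k with
    | zero => rfl
    | succ k => simp [altw, ih b a k (by omega)]

theorem altw_rigid (a b : Lt) (h : MM a b = 0) (n : ℕ) : Rigid MM (altw a b n) := by
  unfold Rigid
  induction n generalizing a b with
  | zero => exact List.isChain_nil
  | succ n ih =>
    cases n with
    | zero => exact List.isChain_singleton _
    | succ n =>
      show List.IsChain _ (a :: b :: altw a b n)
      rw [List.isChain_cons_cons]
      exact ⟨h, ih b a (by rw [MM.symmetric]; exact h)⟩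

theorem exists_dir_aux1 : ∀ f : ZMod 5 → Bool, ∃ i j : ZMod 5,
    (if f i then (i, false) else (i + 2, true) : ZMod 5 × Bool) ≠
      (if f j then (j, false) else (j + 2, true) : ZMod 5 × Bool) ∧
    ¬ cmt (Sum.inl (if f i then (i, false) else (i + 2, true) : ZMod 5 × Bool))
      (Sum.inl (if f j then (j, false) else (j + 2, true) : ZMod 5 × Bool)) := by
  decide +kernel

theorem exists_dir_aux2 : ∀ i : ZMod 5,
    MM (Sum.inl (i, false)) (Sum.inl (i + 2, true)) = 0 := by
  intro i
  rw [MM_eq_zero_iff]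
  revert i
  decide +kernel

theorem sgn_other (e : ZMod 5 → Bool) (a b : ZMod 5 × Bool) (hc : colr a = colr b)
    (h2 : a.2 ≠ b.2) : sgn e b = - sgn e a := by
  unfold sgn
  rw [hc]
  revert h2
  generalize e (colr b) = x
  generalize a.2 = y
  generalize b.2 = z
  revert x y z
  decide

theorem sgn_cases (e : ZMod 5 → Bool) (a : ZMod 5 × Bool) : sgn e a = 1 ∨ sgn e a = -1 := by
  unfold sgn
  split_ifs <;> simp

theorem val_altw (n : ℕ) : ∀ (w : Wh) (a b : ZMod 5 × Bool), colr a = colr b → a.2 ≠ b.2 →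
    (val (w * cs.wordProd (altw (Sum.inl a) (Sum.inl b) n))).1 =
      (val w).1 + n * sgn (val w).2 a := by
  induction n with
  | zero =>
    intro w a b _ _
    simp [altw]
  | succ n ih =>
    intro w a b hc h2
    have h3 : w * cs.wordProd (altw (Sum.inl a) (Sum.inl b) (n + 1)) =
        (w * sg (Sum.inl a)) * cs.wordProd (altw (Sum.inl b) (Sum.inl a) n) := by
      show w * cs.wordProd (Sum.inl a :: altw (Sum.inl b) (Sum.inl a) n) = _
      rw [cs.wordProd_cons, mul_assoc]
    rw [h3, ih _ b a hc.symm h2.symm, val_mul_inl]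
    have h4 : sgn (flp (val w).2 a) b = sgn (val w).2 a := by
      rw [sgn_other _ a b hc h2, sgn_flp, neg_neg]
    show (val w).1 + sgn (val w).2 a + n * sgn (flp (val w).2 a) b = _
    rw [h4]
    push_cast
    ring

theorem colr_pair : ∀ i : ZMod 5, colr (i, false) = colr (i + 2, true) := by
  decide +kernel

/-- From any `x` one can leave geodesically along an infinite dihedral group in a direction where
the height (of `w`) reaches `0`. -/
theorem exists_dir (x w : Wh) (hw : w ∈ Ws) :
    ∃ a b : ZMod 5 × Bool, MM (Sum.inl a) (Sum.inl b) = 0 ∧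
      ¬ cs.IsRightDescent x (Sum.inl a) ∧
      ∃ n, (val (w * cs.wordProd (altw (Sum.inl a) (Sum.inl b) n))).1 = 0 := by
  classical
  have h1 : ∃ i : ZMod 5, ¬ cs.IsRightDescent x (Sum.inl (i, false)) ∧
      ¬ cs.IsRightDescent x (Sum.inl (i + 2, true)) := by
    by_contra hcon
    push Not at hcon
    obtain ⟨i, j, hij, hn⟩ := exists_dir_aux1
      (fun i => decide (cs.IsRightDescent x (Sum.inl (i, false))))
    have hd : ∀ i : ZMod 5, cs.IsRightDescent x
        (Sum.inl (if decide (cs.IsRightDescent x (Sum.inl (i, false))) then (i, false)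
          else (i + 2, true) : ZMod 5 × Bool)) := by
      intro i
      by_cases h : cs.IsRightDescent x (Sum.inl (i, false))
      · simp only [h, decide_true, if_true]
      · simp only [h, decide_false]
        exact hcon i h
    apply hn
    rw [← MM_eq_two_iff]
    exact (length_mul_two_descents cs hMM x _ _ (by
      intro h
      exact hij (Sum.inl.inj h)) (hd i) (hd j)).1
  obtain ⟨i, hu, hv⟩ := h1
  have hM : MM (Sum.inl (i, false)) (Sum.inl (i + 2, true)) = 0 := exists_dir_aux2 i
  have hM' : MM (Sum.inl (i + 2, true)) (Sum.inl (i, false)) = 0 := by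
    rw [MM.symmetric]; exact hM
  have hc : colr (i, false) = colr (i + 2, true) := colr_pair i
  have key : ∀ a b : ZMod 5 × Bool, colr a = colr b → a.2 ≠ b.2 →
      ((val w).1 ≥ 0 ∧ sgn (val w).2 a = -1 ∨ (val w).1 ≤ 0 ∧ sgn (val w).2 a = 1) →
      ∃ n, (val (w * cs.wordProd (altw (Sum.inl a) (Sum.inl b) n))).1 = 0 := by
    intro a b hc h2 h
    refine ⟨(val w).1.natAbs, ?_⟩
    rw [val_altw _ w a b hc h2]
    rcases h with ⟨h3, h4⟩ | ⟨h3, h4⟩
    · rw [h4]; omega
    · rw [h4]; omega
  have hs := sgn_other (val w).2 (i, false) (i + 2, true) hc (by simp)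
  have hne : ((i, false) : ZMod 5 × Bool).2 ≠ ((i + 2, true) : ZMod 5 × Bool).2 := by simp
  rcases sgn_cases (val w).2 (i, false) with h1 | h1
  · rw [h1] at hs
    rcases le_total 0 (val w).1 with h2 | h2
    · exact ⟨(i + 2, true), (i, false), hM', hv, key _ _ hc.symm hne.symm (Or.inl ⟨h2, hs⟩)⟩
    · exact ⟨(i, false), (i + 2, true), hM, hu, key _ _ hc hne (Or.inr ⟨h2, h1⟩)⟩
  · rw [h1, neg_neg] at hs
    rcases le_total 0 (val w).1 with h2 | h2
    · exact ⟨(i, false), (i + 2, true), hM, hu, key _ _ hc hne (Or.inl ⟨h2, h1⟩)⟩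
    · exact ⟨(i + 2, true), (i, false), hM', hv, key _ _ hc.symm hne.symm (Or.inr ⟨h2, hs⟩)⟩

/-- Elements of height `0` are at bounded distance from `As`. -/
theorem exists_corr : ∃ C0 : ℕ, ∀ w ∈ Ws, (val w).1 = 0 →
    ∃ c : Wh, cs.length c ≤ C0 ∧ w * c ∈ As := by
  classical
  let f : (ZMod 5 → Bool) → Wh := fun e =>
    if h : ∃ w0 : Wh, w0 ∈ Ws ∧ val w0 = (0, e) then h.choose else 1
  refine ⟨Finset.univ.sup (fun e => cs.length (f e)), ?_⟩
  intro w hw h0
  have hex : ∃ w0 : Wh, w0 ∈ Ws ∧ val w0 = (0, (val w).2) := ⟨w, hw, Prod.ext h0 rfl⟩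
  have hf : f (val w).2 = hex.choose := dif_pos hex
  have hf1 : f (val w).2 ∈ Ws := by rw [hf]; exact hex.choose_spec.1
  have hf2 : val (f (val w).2) = val w := by
    rw [hf, hex.choose_spec.2]
    exact Prod.ext h0.symm rfl
  refine ⟨(f (val w).2)⁻¹, ?_, ?_⟩
  · rw [cs.length_inv]
    exact Finset.le_sup (f := fun e => cs.length (f e)) (Finset.mem_univ _)
  · exact (val_eq_iff _ _ hf1 hw).1 hf2

end Pool.Agent.Helper376.LC
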