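import Mathlib

/-! JOB J2: the guessing geodesics lemma for graphs (Bowditch, Masur-Schleimer, Hamenstadt),
with the resulting approximation of the Gromov product. -/

namespace Pool.Agent.Helper376.LC

/-- Gromov product in a graph. -/
noncomputable def gpr {V : Type} (Γ : SimpleGraph V) (o x y : V) : ℝ :=
  ((Γ.dist x o : ℝ) + (Γ.dist y o : ℝ) - (Γ.dist x y : ℝ)) / 2

/-- vertex geodesic -/
def Geo {V : Type} (d : V → V → ℕ) (x y : V) (p : ℕ → V) : Prop :=
  p 0 = x ∧ p (d x y) = y ∧ ∀ i j, i ≤ j → j ≤ d x y → d (p i) (p j) = j - i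

theorem Geo.left {V : Type} {d : V → V → ℕ} {x y : V} {p : ℕ → V} (h : Geo d x y p) {i : ℕ}
    (hi : i ≤ d x y) : d x (p i) = i ∧ Geo d x (p i) p := by
  have h1 : d x (p i) = i := by
    have := h.2.2 0 i (Nat.zero_le _) hi
    rw [h.1, Nat.sub_zero] at this
    exact this
  refine ⟨h1, h.1, ?_, ?_⟩
  · rw [h1]
  · intro a b hab hb
    rw [h1] at hb
    exact h.2.2 a b hab (hb.trans hi)

theorem Geo.right {V : Type} {d : V → V → ℕ} {x y : V} {p : ℕ → V} (h : Geo d x y p) {i : ℕ}
    (hi : i ≤ d x y) : d (p i) y = d x y - i ∧ Geo d (p i) y (fun k => p (i + k)) := by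
  have h1 : d (p i) y = d x y - i := by
    have := h.2.2 i (d x y) hi le_rfl
    rw [h.2.1] at this
    exact this
  refine ⟨h1, rfl, ?_, ?_⟩
  · show p (i + d (p i) y) = y
    rw [h1, Nat.add_sub_cancel' hi, h.2.1]
  · intro a b hab hb
    rw [h1] at hb
    show d (p (i + a)) (p (i + b)) = b - a
    rw [h.2.2 (i + a) (i + b) (by omega) (by omega)]
    omega

theorem log_bound {V : Type} {d : V → V → ℕ} (d0 : ∀ x, d x x = 0)
    (dtri : ∀ x y z, d x z ≤ d x y + d y z)
    (dsymm : ∀ x y, d x y = d y x)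
    (L : V → V → Set V) (C : ℕ)
    (hadj : ∀ x y, d x y ≤ 1 → ∀ u ∈ L x y, d x u ≤ C)
    (hthin : ∀ x y z, ∀ u ∈ L x y, ∃ v ∈ L x z ∪ L z y, d u v ≤ C) :
    ∀ k : ℕ, ∀ (p : ℕ → V) (m : ℕ), m ≤ 2 ^ k → (∀ i < m, d (p i) (p (i + 1)) ≤ 1) →
      ∀ u ∈ L (p 0) (p m), ∃ i ≤ m, d u (p i) ≤ C * (k + 1) := by
  intro k
  induction k with
  | zero =>
    intro p m hm hstep u hu
    refine ⟨0, Nat.zero_le _, ?_⟩
    rw [dsymm]
    have : d (p 0) (p m) ≤ 1 := by
      rcases Nat.eq_zero_or_pos m with h | h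
      · rw [h, d0]; exact Nat.zero_le _
      · have hm1 : m = 1 := by
          rw [pow_zero] at hm
          omega
        rw [hm1]
        exact hstep 0 (by omega)
    have := hadj _ _ this u hu
    omega
  | succ k ih =>
    intro p m hm hstep u hu
    rw [pow_succ] at hm
    obtain ⟨v, hv, huv⟩ := hthin (p 0) (p m) (p (m / 2)) u hu
    rcases hv with hv | hv
    · obtain ⟨i, hi, hvi⟩ := ih p (m / 2) (by omega) (fun i hi => hstep i (by omega)) v hv
      refine ⟨i, by omega, ?_⟩
      have := dtri u v (p i)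
      have e : C * (k + 1 + 1) = C + C * (k + 1) := by ring
      rw [e]
      omega
    · have h1 : m / 2 + (m - m / 2) = m := by omega
      obtain ⟨i, hi, hvi⟩ := ih (fun i => p (m / 2 + i)) (m - m / 2) (by omega)
        (fun i hi => by
          have := hstep (m / 2 + i) (by omega)
          rwa [Nat.add_assoc] at this) v (by
            show v ∈ L (p (m / 2 + 0)) (p (m / 2 + (m - m / 2)))
            rw [h1]
            exact hv)
      refine ⟨m / 2 + i, by omega, ?_⟩
      have := dtri u v (p (m / 2 + i))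
      have e : C * (k + 1 + 1) = C + C * (k + 1) := by ring
      have hvi' : d v (p (m / 2 + i)) ≤ C * (k + 1) := hvi
      rw [e]
      omega

/-- the key bound: `L x y` is close to every geodesic -/
theorem L_near {V : Type} {d : V → V → ℕ} (d0 : ∀ x, d x x = 0)
    (dtri : ∀ x y z, d x z ≤ d x y + d y z)
    (dsymm : ∀ x y, d x y = d y x)
    (L : V → V → Set V) (C : ℕ) (hC : 1 ≤ C)
    (hadj : ∀ x y, d x y ≤ 1 → ∀ u ∈ L x y, d x u ≤ C)
    (hthin : ∀ x y z, ∀ u ∈ L x y, ∃ v ∈ L x z ∪ L z y, d u v ≤ C) :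
    ∃ D : ℕ, ∀ x y p, Geo d x y p → ∀ u ∈ L x y, ∃ i ≤ d x y, d u (p i) ≤ D := by
  -- numeric choice
  obtain ⟨k0, hk0⟩ : ∃ k0 : ℕ, ∀ k ≥ k0, 6 * (C * (k + 4)) ≤ 2 ^ k := by
    have h := (tendsto_pow_const_div_const_pow_of_one_lt 1 (r := (2 : ℝ)) (by norm_num))
    have h2 : ∀ᶠ k : ℕ in Filter.atTop, (k : ℝ) ^ 1 / 2 ^ k < 1 / (30 * C) :=
      h.eventually_lt_const (by positivity)
    obtain ⟨k0, hk⟩ := Filter.eventually_atTop.1 h2
    refine ⟨max k0 1, fun k hk' => ?_⟩
    have h3 := hk k (le_trans (le_max_left _ _) hk')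
    have h4 : 1 ≤ k := le_trans (le_max_right _ _) hk'
    have hCpos : (0 : ℝ) < C := by exact_mod_cast hC
    rw [pow_one, div_lt_div_iff₀ (by positivity) (by positivity)] at h3
    have h5 : (6 * (C * (k + 4)) : ℝ) ≤ 2 ^ k := by
      have h6 : (1 : ℝ) ≤ k := by exact_mod_cast h4
      have h7 : (6 * (C * (k + 4)) : ℝ) ≤ k * (30 * C) := by nlinarith
      linarith
    exact_mod_cast h5
  refine ⟨max (3 * C) (C * (k0 + 4)), ?_⟩
  set D := max (3 * C) (C * (k0 + 4)) with hD
  have hD1 : 3 * C ≤ D := le_max_left _ _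
  have hD2 : C * (k0 + 4) ≤ D := le_max_right _ _
  -- the statement for distances at most n
  let S : ℕ → ℕ → Prop := fun n t => ∀ x y p, d x y ≤ n → Geo d x y p → ∀ u ∈ L x y,
    ∃ i ≤ d x y, d u (p i) ≤ t
  have hex : ∀ n, ∃ t, S n t := by
    intro n
    refine ⟨C * (n + 1), ?_⟩
    intro x y p hn hp u hu
    have h1 := log_bound d0 dtri dsymm L C hadj hthin n p (d x y)
      (hn.trans (Nat.lt_two_pow_self).le) (fun i hi => by
        rw [hp.2.2 i (i + 1) (by omega) (by omega)]
        omega) u (by rw [hp.1, hp.2.1]; exact hu)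
    exact h1
  have main : ∀ n, S n D := by
    intro n
    classical
    obtain ⟨t, ht, hmin⟩ : ∃ t, S n t ∧ ∀ s < t, ¬ S n s :=
      ⟨Nat.find (hex n), Nat.find_spec (hex n), fun s hs => Nat.find_min (hex n) hs⟩
    suffices htD : t ≤ D by
      intro x y p hn hp u hu
      obtain ⟨i, hi, h⟩ := ht x y p hn hp u hu
      exact ⟨i, hi, h.trans htD⟩
    by_contra hlt
    rw [not_le] at hlt
    have ht0 : 0 < t := by omega
    have hns := hmin (t - 1) (by omega)
    simp only [S, not_forall] at hns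
    obtain ⟨x, y, p, hn, hp, u, hu, hno⟩ := hns
    have hfar : ∀ i ≤ d x y, t ≤ d u (p i) := by
      intro i hi
      by_contra h
      exact hno ⟨i, hi, by omega⟩
    obtain ⟨j, hj, hjt⟩ := ht x y p hn hp u hu
    -- truncated points
    set i1 := j - 3 * t with hi1
    set i2 := min (j + 3 * t) (d x y) with hi2
    have h12 : i1 ≤ i2 := by omega
    have h1N : i1 ≤ d x y := by omega
    have h2N : i2 ≤ d x y := by omega
    obtain ⟨v, hv, huv⟩ := hthin x y (p i1) u hu
    rcases hv with hv | hv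
    · -- v in L x x'
      obtain ⟨hdx, hgx⟩ := hp.left h1N
      obtain ⟨i, hi, hvi⟩ := ht x (p i1) p (by omega) hgx v hv
      rw [hdx] at hi
      by_cases h0 : i1 = 0
      · have hi0 : i = 0 := by omega
        have h3 := hadj x (p i1) (by omega) v hv
        have h4 := hfar 0 (Nat.zero_le _)
        rw [hp.1] at h4
        have h5 := dtri u v x
        rw [dsymm v x] at h5
        omega
      · have h3 : d (p i) (p j) = j - i := hp.2.2 i j (by omega) hj
        have h4 := dtri (p i) v (p j)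
        have h5 := dtri v u (p j)
        rw [dsymm v u] at h5
        rw [dsymm (p i) v] at h4
        omega
    · obtain ⟨v', hv', hvv⟩ := hthin (p i1) y (p i2) v hv
      have huv' : d u v' ≤ 2 * C := by
        have := dtri u v v'
        omega
      rcases hv' with hv' | hv'
      · -- middle segment
        have hdd : d (p i1) (p i2) = i2 - i1 := hp.2.2 i1 i2 h12 h2N
        have hlen : i2 - i1 ≤ 6 * t := by omega
        -- choose k
        have hk : ∃ k, 6 * t ≤ 2 ^ k ∧ C * (k + 3) < t := by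
          refine ⟨(t - 1) / C - 3, ?_, ?_⟩
          · have hq : k0 + 4 ≤ (t - 1) / C := by
              rw [Nat.le_div_iff_mul_le (by omega)]
              have : (k0 + 4) * C = C * (k0 + 4) := Nat.mul_comm _ _
              omega
            have h1 := hk0 ((t - 1) / C - 3) (by omega)
            have h2 : t ≤ C * ((t - 1) / C - 3 + 4) := by
              have e : (t - 1) / C - 3 + 4 = (t - 1) / C + 1 := by omega
              rw [e]
              have := Nat.lt_mul_div_succ (t - 1) (show 0 < C by omega)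
              omega
            omega
          · have hq : k0 + 4 ≤ (t - 1) / C := by
              rw [Nat.le_div_iff_mul_le (by omega)]
              have : (k0 + 4) * C = C * (k0 + 4) := Nat.mul_comm _ _
              omega
            have e : (t - 1) / C - 3 + 3 = (t - 1) / C := by omega
            rw [e]
            have := Nat.mul_div_le (t - 1) C
            omega
        obtain ⟨k, hk1, hk2⟩ := hk
        obtain ⟨i, hi, hvi⟩ := log_bound d0 dtri dsymm L C hadj hthin k
          (fun i => p (i1 + i)) (i2 - i1) (by omega) (fun i hi => by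
            show d (p (i1 + i)) (p (i1 + (i + 1))) ≤ 1
            rw [hp.2.2 (i1 + i) (i1 + (i + 1)) (by omega) (by omega)]
            omega) v' (by
            show v' ∈ L (p (i1 + 0)) (p (i1 + (i2 - i1)))
            have e : i1 + (i2 - i1) = i2 := by omega
            rw [e]
            exact hv')
        have h3 := hfar (i1 + i) (by omega)
        have h4 := dtri u v' (p (i1 + i))
        have hvi' : d v' (p (i1 + i)) ≤ C * (k + 1) := hvi
        have e : C * (k + 3) = C * (k + 1) + 2 * C := by ring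
        omega
      · -- v' in L y' y
        obtain ⟨hdy, hgy⟩ := hp.right h2N
        obtain ⟨i, hi, hvi⟩ := ht (p i2) y _ (by omega) hgy v' hv'
        rw [hdy] at hi
        have hvi' : d v' (p (i2 + i)) ≤ t := hvi
        by_cases h0 : i2 = d x y
        · have h3 := hadj (p i2) y (by omega) v' hv'
          have h4 := hfar i2 h2N
          have h5 := dtri u v' (p i2)
          rw [dsymm v' (p i2)] at h5
          omega
        · have h3 : d (p j) (p (i2 + i)) = i2 + i - j := hp.2.2 j (i2 + i) (by omega) (by omega)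
          have h4 := dtri (p j) v' (p (i2 + i))
          have h5 := dtri (p j) u v'
          rw [dsymm (p j) u] at h5
          omega
  intro x y p hp u hu
  exact main (d x y) x y p le_rfl hp u hu

theorem abstract_guess {V : Type} {d : V → V → ℕ} (d0 : ∀ x, d x x = 0)
    (dtri : ∀ x y z, d x z ≤ d x y + d y z)
    (dsymm : ∀ x y, d x y = d y x)
    (hgeo : ∀ x y, ∃ p, Geo d x y p)
    (L : V → V → Set V) (C : ℕ) (hC : 1 ≤ C)
    (hself : ∀ x y, x ∈ L x y)
    (hadj : ∀ x y, d x y ≤ 1 → ∀ u ∈ L x y, d x u ≤ C)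
    (hpath : ∀ x y, Relation.ReflTransGen
      (fun a b => a ∈ L x y ∧ b ∈ L x y ∧ d a b ≤ C) x y)
    (hthin : ∀ x y z, ∀ u ∈ L x y, ∃ v ∈ L x z ∪ L z y, d u v ≤ C) :
    ∃ R : ℕ,
      (∀ x y, ∀ v ∈ L x y, d x v + d v y ≤ d x y + R) ∧
      (∀ o x y, ∃ w, d x w + d w y = d x y ∧ 2 * d o w + d x y ≤ d x o + d y o + R ∧
        (∃ v ∈ L x y, d w v ≤ R) ∧
        ∀ z, ∃ s, (d x s + d s z = d x z ∨ d z s + d s y = d z y) ∧ d w s ≤ R) := by
  obtain ⟨D, hD⟩ := L_near d0 dtri dsymm L C hC hadj hthin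
  -- step 3
  have h3 : ∀ x y p, Geo d x y p → ∀ j ≤ d x y, ∃ v ∈ L x y, d v (p j) ≤ 3 * D + C := by
    intro x y p hp
    have hQ : ∀ a, Relation.ReflTransGen (fun a b => a ∈ L x y ∧ b ∈ L x y ∧ d a b ≤ C) x a →
        ∀ i ≤ d x y, d a (p i) ≤ D → ∀ j ≤ i, ∃ v ∈ L x y, d v (p j) ≤ 3 * D + C := by
      intro a ha
      induction ha with
      | refl =>
        intro i hi hia j hj
        have h1 := (hp.left hi).1
        have h2 := (hp.left (hj.trans hi)).1
        exact ⟨x, hself x y, by omega⟩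
      | tail hab hbc ih =>
        rename_i b c
        intro i hi hia j hj
        obtain ⟨hb, hc, hdbc⟩ := hbc
        obtain ⟨ib, hib, hbib⟩ := hD x y p hp b hb
        by_cases hle : j ≤ ib
        · exact ih ib hib hbib j hle
        · refine ⟨c, hc, ?_⟩
          have h1 : d (p ib) (p i) = i - ib := hp.2.2 ib i (by omega) hi
          have h2 : d (p j) (p i) = i - j := hp.2.2 j i hj hi
          have h3 := dtri (p ib) b (p i)
          have h4 := dtri b c (p i)
          have h5 := dtri c (p i) (p j)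
          rw [dsymm (p ib) b] at h3
          rw [dsymm (p i) (p j)] at h5
          omega
    intro j hj
    have hy : d y (p (d x y)) ≤ D := by
      rw [hp.2.1, d0]
      exact Nat.zero_le _
    exact hQ y (hpath x y) (d x y) le_rfl hy j hj
  set D1 := 3 * D + C with hD1
  set δ := D1 + C + D with hδ
  -- slim triangles
  have hslim : ∀ x y z p q r, Geo d x y p → Geo d x z q → Geo d z y r → ∀ j ≤ d x y,
      (∃ i ≤ d x z, d (p j) (q i) ≤ δ) ∨ (∃ i ≤ d z y, d (p j) (r i) ≤ δ) := by
    intro x y z p q r hp hq hr j hj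
    obtain ⟨v, hv, hvj⟩ := h3 x y p hp j hj
    obtain ⟨v', hv', hvv⟩ := hthin x y z v hv
    rcases hv' with hv' | hv'
    · left
      obtain ⟨i, hi, hvi⟩ := hD x z q hq v' hv'
      refine ⟨i, hi, ?_⟩
      have h1 := dtri (p j) v (q i)
      have h2 := dtri v v' (q i)
      rw [dsymm (p j) v] at h1
      omega
    · right
      obtain ⟨i, hi, hvi⟩ := hD z y r hr v' hv'
      refine ⟨i, hi, ?_⟩
      have h1 := dtri (p j) v (r i)
      have h2 := dtri v v' (r i)
      rw [dsymm (p j) v] at h1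
      omega
  refine ⟨4 * (δ + 1), ?_, ?_⟩
  · intro x y v hv
    obtain ⟨p, hp⟩ := hgeo x y
    obtain ⟨i, hi, hvi⟩ := hD x y p hp v hv
    have h1 := (hp.left hi).1
    have h2 := (hp.right hi).1
    have h3 := dtri x (p i) v
    have h4 := dtri v (p i) y
    rw [dsymm (p i) v] at h3
    omega
  · intro o x y
    obtain ⟨p, hp⟩ := hgeo x y
    obtain ⟨q, hq⟩ := hgeo x o
    obtain ⟨r, hr⟩ := hgeo o y
    -- find the switching vertex
    have hsw : ∃ j ≤ d x y, (∃ i ≤ d x o, d (p j) (q i) ≤ δ + 1) ∧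
        (∃ i ≤ d o y, d (p j) (r i) ≤ δ + 1) := by
      by_contra hno
      have hall : ∀ j ≤ d x y, ∃ i ≤ d x o, d (p j) (q i) ≤ δ := by
        intro j
        induction j with
        | zero =>
          intro _
          refine ⟨0, Nat.zero_le _, ?_⟩
          rw [hp.1, hq.1, d0]
          exact Nat.zero_le _
        | succ j ih =>
          intro hj
          obtain ⟨i, hi, hji⟩ := ih (by omega)
          rcases hslim x y o p q r hp hq hr (j + 1) hj with h | ⟨i', hi', hji'⟩
          · exact h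
          · exfalso
            apply hno
            refine ⟨j, by omega, ⟨i, hi, by omega⟩, ⟨i', hi', ?_⟩⟩
            have h1 := dtri (p j) (p (j + 1)) (r i')
            have h2 : d (p j) (p (j + 1)) = j + 1 - j := hp.2.2 j (j + 1) (by omega) hj
            omega
      apply hno
      obtain ⟨i, hi, hji⟩ := hall (d x y) le_rfl
      refine ⟨d x y, le_rfl, ⟨i, hi, by omega⟩, ⟨d o y, le_rfl, ?_⟩⟩
      rw [hp.2.1, hr.2.1, d0]
      exact Nat.zero_le _
    obtain ⟨j, hj, ⟨a, ha, hja⟩, ⟨b, hb, hjb⟩⟩ := hsw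
    refine ⟨p j, ?_, ?_, ?_, ?_⟩
    · have h1 := (hp.left hj).1
      have h2 := (hp.right hj).1
      omega
    · have h1 := (hp.left hj).1
      have h2 := (hp.right hj).1
      have h3 := (hq.left ha).1
      have h4 := (hq.right ha).1
      have h5 := (hr.left hb).1
      have h6 := (hr.right hb).1
      -- d x o = d x (q a) + d (q a) o
      have e1 := dtri x (q a) (p j)
      have e2 := dtri o (q a) (p j)
      have e3 := dtri o (r b) (p j)
      have e4 := dtri (p j) (r b) y
      rw [dsymm (q a) (p j)] at e1 e2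
      rw [dsymm (r b) (p j)] at e3
      rw [dsymm o (q a)] at e2
      have e5 := dsymm o y
      omega
    · obtain ⟨v, hv, hvj⟩ := h3 x y p hp j hj
      refine ⟨v, hv, ?_⟩
      rw [dsymm]
      omega
    · intro z
      obtain ⟨q', hq'⟩ := hgeo x z
      obtain ⟨r', hr'⟩ := hgeo z y
      rcases hslim x y z p q' r' hp hq' hr' j hj with ⟨i, hi, h⟩ | ⟨i, hi, h⟩
      · refine ⟨q' i, Or.inl ?_, by omega⟩
        have h1 := (hq'.left hi).1
        have h2 := (hq'.right hi).1
        omega
      · refine ⟨r' i, Or.inr ?_, by omega⟩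
        have h1 := (hr'.left hi).1
        have h2 := (hr'.right hi).1
        omega

theorem exists_geo {V : Type} (Γ : SimpleGraph V) (hconn : Γ.Connected) (x y : V) :
    ∃ p, Geo Γ.dist x y p := by
  obtain ⟨w, hw⟩ := hconn.exists_walk_length_eq_dist x y
  refine ⟨w.getVert, w.getVert_zero, ?_, ?_⟩
  · rw [← hw, w.getVert_length]
  · have hstep : ∀ i, ∀ k, i + k ≤ w.length → Γ.dist (w.getVert i) (w.getVert (i + k)) ≤ k := by
      intro i k
      induction k with
      | zero =>
        intro _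
        simp
      | succ k ih =>
        intro hk
        have h1 := ih (by omega)
        have h2 : Γ.Adj (w.getVert (i + k)) (w.getVert (i + k + 1)) :=
          w.adj_getVert_succ (by omega)
        have h3 : Γ.dist (w.getVert (i + k)) (w.getVert (i + k + 1)) = 1 :=
          SimpleGraph.dist_eq_one_iff_adj.2 h2
        have h4 := hconn.dist_triangle (u := w.getVert i) (v := w.getVert (i + k))
          (w := w.getVert (i + k + 1))
        rw [← Nat.add_assoc]
        omega
    intro i j hij hj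
    rw [← hw] at hj
    have h1 := hstep i (j - i) (by omega)
    rw [Nat.add_sub_cancel' hij] at h1
    have h2 := hstep 0 i (by omega)
    rw [Nat.zero_add, w.getVert_zero] at h2
    have h3 := hstep j (w.length - j) (by omega)
    rw [Nat.add_sub_cancel' hj, w.getVert_length] at h3
    have h4 := hconn.dist_triangle (u := x) (v := w.getVert i) (w := y)
    have h5 := hconn.dist_triangle (u := w.getVert i) (v := w.getVert j) (w := y)
    omega

theorem guessing_geodesics {V : Type} (Γ : SimpleGraph V) (hconn : Γ.Connected)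
    (L : V → V → Set V) (C : ℕ)
    (hsymm : ∀ x y, L x y = L y x)
    (hself : ∀ x y, x ∈ L x y)
    (hadj : ∀ x y, Γ.Adj x y → ∀ u ∈ L x y, Γ.dist x u ≤ C)
    (hrefl : ∀ x, ∀ u ∈ L x x, Γ.dist x u ≤ C)
    (hpath : ∀ x y, Relation.ReflTransGen
      (fun a b => a ∈ L x y ∧ b ∈ L x y ∧ Γ.dist a b ≤ C) x y)
    (hthin : ∀ x y z, ∀ u ∈ L x y, ∃ v ∈ L x z ∪ L z y, Γ.dist u v ≤ C) :
    ∃ R : ℝ,
      (∀ o x y z, min (gpr Γ o x z) (gpr Γ o z y) - R ≤ gpr Γ o x y) ∧
      (∀ x y, ∀ v ∈ L x y, (Γ.dist x v : ℝ) + (Γ.dist v y : ℝ) ≤ (Γ.dist x y : ℝ) + R) ∧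
      (∀ o x y, ∀ N : ℝ, (∀ v ∈ L x y, N ≤ (Γ.dist o v : ℝ)) → N - R ≤ gpr Γ o x y) := by
  have dtri : ∀ x y z, Γ.dist x z ≤ Γ.dist x y + Γ.dist y z := fun x y z => hconn.dist_triangle
  have dsymm : ∀ x y, Γ.dist x y = Γ.dist y x := fun x y => SimpleGraph.dist_comm
  have d0 : ∀ x, Γ.dist x x = 0 := fun x => SimpleGraph.dist_self
  have hadj' : ∀ x y, Γ.dist x y ≤ 1 → ∀ u ∈ L x y, Γ.dist x u ≤ C + 1 := by
    intro x y hxy u hu
    rcases Nat.eq_zero_or_pos (Γ.dist x y) with h | h
    · rw [hconn.dist_eq_zero_iff] at h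
      subst h
      exact (hrefl x u hu).trans (Nat.le_succ _)
    · have h1 : Γ.dist x y = 1 := by omega
      exact (hadj x y (SimpleGraph.dist_eq_one_iff_adj.1 h1) u hu).trans (Nat.le_succ _)
  obtain ⟨R, hR1, hR2⟩ := abstract_guess d0 dtri dsymm (exists_geo Γ hconn) L (C + 1)
    (by omega) hself hadj'
    (fun x y => Relation.ReflTransGen.mono (r := fun a b => a ∈ L x y ∧ b ∈ L x y ∧ Γ.dist a b ≤ C)
      (fun a b h => ⟨h.1, h.2.1, h.2.2.trans (Nat.le_succ _)⟩) x y (hpath x y))
    (fun x y z u hu => by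
      obtain ⟨v, hv, h⟩ := hthin x y z u hu
      exact ⟨v, hv, h.trans (Nat.le_succ _)⟩)
  refine ⟨2 * R, ?_, ?_, ?_⟩
  · intro o x y z
    obtain ⟨w, hw1, hw2, -, hw4⟩ := hR2 o x y
    obtain ⟨s, hs, hws⟩ := hw4 z
    have hos := dtri o w s
    have key : gpr Γ o x y ≥ Γ.dist o w - R / 2 := by
      have : (2 * Γ.dist o w + Γ.dist x y : ℝ) ≤ Γ.dist x o + Γ.dist y o + R := by exact_mod_cast hw2
      rw [gpr]
      linarith
    have hos' : (Γ.dist o s : ℝ) ≤ Γ.dist o w + R := by
      have : Γ.dist o s ≤ Γ.dist o w + R := by omega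
      exact_mod_cast this
    have hR0 : (0 : ℝ) ≤ R := Nat.cast_nonneg R
    rcases hs with hs | hs
    · have h1 : gpr Γ o x z ≤ Γ.dist o s := by
        have e1 := dtri x s o
        have e2 := dtri z s o
        rw [dsymm s o] at e1 e2
        rw [dsymm z s] at e2
        have : Γ.dist x o + Γ.dist z o ≤ Γ.dist x z + 2 * Γ.dist o s := by omega
        have : (Γ.dist x o + Γ.dist z o : ℝ) ≤ Γ.dist x z + 2 * Γ.dist o s := by exact_mod_cast this
        rw [gpr]
        linarith
      have := min_le_left (gpr Γ o x z) (gpr Γ o z y)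
      linarith
    · have h1 : gpr Γ o z y ≤ Γ.dist o s := by
        have e1 := dtri z s o
        have e2 := dtri y s o
        rw [dsymm s o] at e1 e2
        rw [dsymm y s] at e2
        have : Γ.dist z o + Γ.dist y o ≤ Γ.dist z y + 2 * Γ.dist o s := by omega
        have : (Γ.dist z o + Γ.dist y o : ℝ) ≤ Γ.dist z y + 2 * Γ.dist o s := by exact_mod_cast this
        rw [gpr]
        linarith
      have := min_le_right (gpr Γ o x z) (gpr Γ o z y)
      linarith
  · intro x y v hv
    have h := hR1 x y v hv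
    have h' : (Γ.dist x v + Γ.dist v y : ℝ) ≤ Γ.dist x y + R := by exact_mod_cast h
    have hR0 : (0 : ℝ) ≤ R := Nat.cast_nonneg R
    linarith
  · intro o x y N hN
    obtain ⟨w, hw1, hw2, ⟨v, hv, hwv⟩, -⟩ := hR2 o x y
    have key : gpr Γ o x y ≥ Γ.dist o w - R / 2 := by
      have : (2 * Γ.dist o w + Γ.dist x y : ℝ) ≤ Γ.dist x o + Γ.dist y o + R := by exact_mod_cast hw2
      rw [gpr]
      linarith
    have h1 := hN v hv
    have h2 := dtri o w v
    have h3 : (Γ.dist o v : ℝ) ≤ Γ.dist o w + R := by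
      have : Γ.dist o v ≤ Γ.dist o w + R := by omega
      exact_mod_cast this
    have hR0 : (0 : ℝ) ≤ R := Nat.cast_nonneg R
    linarith

end Pool.Agent.Helper376.LC
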