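import Mathlib
import Pool.Agent.Helper376.LC.Conc
import Pool.Agent.Helper376.LC.Rigid
import Pool.Agent.Helper376.LC.Comb

/-! Part of the construction (see Defs and Conc). -/

namespace Pool.Agent.Helper376.LC


theorem gb_tri {x y z H : Wh} (hz : H ∈ Wl cs z y) (h : H ∉ Wl cs x z) : H ∈ Wl cs x y := by
  simp only [Wl, Set.mem_symmDiff] at *
  tauto

theorem gb_path (n : ℕ) : ∀ x y : Wh, cs.length (x⁻¹ * y) = n →
    ∃ ω : List Lt, y = x * cs.wordProd ω ∧ ∀ i ∈ ω, ∃ z, z * sg i * z⁻¹ ∈ Wl cs x y := by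
  induction n with
  | zero =>
    intro x y h
    refine ⟨[], ?_, by simp⟩
    rw [cs.length_eq_zero_iff] at h
    rw [cs.wordProd_nil, mul_one]
    exact (inv_mul_eq_one.1 h).symm
  | succ n ih =>
    intro x y h
    have hxy : x ≠ y := by
      rintro rfl
      simp at h
    obtain ⟨i, h1, -, h3⟩ := exists_step cs x y hxy
    obtain ⟨ω, h4, h5⟩ := ih (x * sg i) y (by
      have : cs.length ((x * sg i)⁻¹ * y) + 1 = cs.length (x⁻¹ * y) := h3
      omega)
    refine ⟨i :: ω, ?_, ?_⟩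
    · rw [cs.wordProd_cons, ← mul_assoc]; exact h4
    · intro j hj
      rw [List.mem_cons] at hj
      rcases hj with rfl | hj
      · refine ⟨x, h1 ?_⟩
        rw [Wl_mul_simple]
        rfl
      · obtain ⟨z, hz⟩ := h5 j hj
        refine ⟨z, ?_⟩
        by_cases h6 : z * sg j * z⁻¹ ∈ Wl cs x (x * sg i)
        · exact h1 h6
        · exact gb_tri hz h6

theorem gb_comm (i j : Lt) (h : i = j ∨ cmt i j) : sg i * sg j = sg j * sg i := by
  rcases h with rfl | h
  · rfl
  · have h1 := cs.simple_mul_simple_pow i j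
    rw [(MM_eq_two_iff _ _).2 h, pow_two] at h1
    have h2 : sg i * sg j = (sg i * sg j)⁻¹ := eq_inv_of_mul_eq_one_left h1
    rw [mul_inv_rev, sg_inv, sg_inv] at h2
    exact h2

theorem gb_comm_word (i : Lt) (ω : List Lt) (h : ∀ j ∈ ω, i = j ∨ cmt i j) :
    sg i * cs.wordProd ω = cs.wordProd ω * sg i := by
  induction ω with
  | nil => simp
  | cons j ω ih =>
    rw [cs.wordProd_cons, ← mul_assoc, gb_comm i j (h j (by simp)), mul_assoc,
      ih (fun k hk => h k (by simp [hk])), mul_assoc]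

theorem gb_walls (ω : List Lt) (h : ∀ i ∈ ω, ∀ j ∈ ω, i = j ∨ cmt i j) :
    Wl cs 1 (cs.wordProd ω) ⊆ {t | ∃ i ∈ ω, t = sg i} := by
  induction ω using List.reverseRecOn with
  | nil =>
    intro t ht
    rw [cs.wordProd_nil] at ht
    simp [Wl] at ht
  | append_singleton ω i ih =>
    intro t ht
    rw [cs.wordProd_append, cs.wordProd_singleton] at ht
    by_cases h1 : t ∈ Wl cs 1 (cs.wordProd ω)
    · obtain ⟨j, hj, e⟩ := ih (fun a ha b hb => h a (by simp [ha]) b (by simp [hb])) h1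
      exact ⟨j, by simp [hj], e⟩
    · have h2 : t ∈ Wl cs (cs.wordProd ω) (cs.wordProd ω * cs.simple i) := by
        simp only [Wl, Set.mem_symmDiff] at *
        tauto
      rw [Wl_mul_simple, Set.mem_singleton_iff] at h2
      refine ⟨i, by simp, ?_⟩
      have h3 := gb_comm_word i ω (fun j hj => h i (by simp) j (by simp [hj]))
      rw [h2]
      show cs.wordProd ω * sg i * (cs.wordProd ω)⁻¹ = sg i
      rw [← h3, mul_inv_cancel_right]

theorem gb_c5 : ∀ S : Finset (ZMod 5),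
    (∀ a ∈ S, ∀ b ∈ S, a - b = 0 ∨ a - b = 1 ∨ a - b = -1) → S.card ≤ 2 := by
  decide +kernel

theorem gb_clique (S : Finset Lt) (h : ∀ i ∈ S, ∀ j ∈ S, i = j ∨ cmt i j) : S.card ≤ 4 := by
  by_cases hr : ∃ b, (Sum.inr b : Lt) ∈ S
  · obtain ⟨b, hb⟩ := hr
    have h1 : S ⊆ {Sum.inr b} := by
      intro i hi
      rcases h _ hb i hi with h2 | h2
      · simp [h2]
      · exact absurd h2 (by unfold cmt; exact id)
    have := Finset.card_le_card h1
    simp at this
    omega
  · have h1 : S ⊆ (((S.image (fun x : Lt => match x with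
        | Sum.inl a => a.1
        | Sum.inr _ => 0)) ×ˢ (Finset.univ : Finset Bool)).image (fun a => (Sum.inl a : Lt))) := by
      intro i hi
      cases i with
      | inl a =>
        rw [Finset.mem_image]
        refine ⟨a, ?_, rfl⟩
        rw [Finset.mem_product]
        refine ⟨?_, Finset.mem_univ _⟩
        rw [Finset.mem_image]
        exact ⟨Sum.inl a, hi, rfl⟩
      | inr b => exact absurd ⟨b, hi⟩ hr
    refine (Finset.card_le_card h1).trans (Finset.card_image_le.trans ?_)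
    rw [Finset.card_product]
    have h2 := gb_c5 (S.image (fun x : Lt => match x with
        | Sum.inl a => a.1
        | Sum.inr _ => 0)) (by
      intro a ha b hb
      rw [Finset.mem_image] at ha hb
      obtain ⟨x, hx, rfl⟩ := ha
      obtain ⟨y, hy, rfl⟩ := hb
      cases x with
      | inr b => exact absurd ⟨b, hx⟩ hr
      | inl x =>
        cases y with
        | inr b => exact absurd ⟨b, hy⟩ hr
        | inl y =>
          rcases h _ hx _ hy with h3 | h3
          · left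
            have : x = y := Sum.inl_injective h3
            rw [this]; simp
          · exact h3.2)
    have h3 : (Finset.univ : Finset Bool).card = 2 := rfl
    rw [h3]
    omega

theorem gb_types (m a : Wh) (h : 5 ≤ (Wl cs m a).ncard) :
    ∃ i i' : Lt, i ≠ i' ∧ ¬ cmt i i' ∧ (∃ z, z * sg i * z⁻¹ ∈ Wl cs m a) ∧
      (∃ z, z * sg i' * z⁻¹ ∈ Wl cs m a) := by
  by_contra hcon
  push Not at hcon
  obtain ⟨ω, h1, h2⟩ := gb_path _ m a rfl
  have h3 : ∀ i ∈ ω, ∀ j ∈ ω, i = j ∨ cmt i j := by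
    intro i hi j hj
    by_contra h4
    push Not at h4
    obtain ⟨z, hz⟩ := h2 i hi
    obtain ⟨z', hz'⟩ := h2 j hj
    exact hcon i j h4.1 h4.2 ⟨z, hz⟩ z' hz'
  have h4 := gb_walls ω h3
  have h5 : (Wl cs m a).ncard = (Wl cs 1 (cs.wordProd ω)).ncard := by
    rw [Wl_ncard, Wl_ncard, h1]
    simp
  have h6 : Wl cs 1 (cs.wordProd ω) ⊆ sg '' (ω.toFinset : Set Lt) := by
    intro t ht
    obtain ⟨i, hi, rfl⟩ := h4 ht
    exact ⟨i, by simpa using hi, rfl⟩
  have h7 : (Wl cs 1 (cs.wordProd ω)).ncard ≤ ω.toFinset.card := by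
    refine (Set.ncard_le_ncard h6 ((Finset.finite_toSet _).image _)).trans ?_
    refine (Set.ncard_image_le (Finset.finite_toSet _)).trans ?_
    rw [Set.ncard_coe_finset]
  have h8 := gb_clique ω.toFinset (fun i hi j hj => h3 i (by simpa using hi) j (by simpa using hj))
  omega

theorem gb_square : ∀ i i' : Lt, i ≠ i' → ¬ cmt i i' → ∀ j, cmt i j → cmt i' j →
    ∀ j', cmt i j' → cmt i' j' → j = j' ∨ cmt j j' := by
  decide +kernel

theorem gb_cross (m a b : Wh)
    (h : ∀ H ∈ Wl cs m a, ∀ H' ∈ Wl cs m b, Crs (Wl cs) H H') (i j : Lt)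
    (hi : ∃ z, z * sg i * z⁻¹ ∈ Wl cs m a) (hj : ∃ z, z * sg j * z⁻¹ ∈ Wl cs m b) : cmt i j := by
  obtain ⟨z, hz⟩ := hi
  obtain ⟨z', hz'⟩ := hj
  obtain ⟨a', b', c', d', ⟨h1, h2⟩, ⟨h3, h4⟩, h5, h6⟩ := h _ hz _ hz'
  obtain ⟨x, i1, j1, h7, h8, h9, h10⟩ := crossing cs hMM _ _ a' b' c' d' h1 h2 h3 h4 h5 h6
  have e1 := type_unique cs hMM z x i i1 h9
  have e2 := type_unique cs hMM z' x j j1 h10
  rw [e1, e2]
  exact (MM_eq_two_iff _ _).1 h8

theorem grid_bound (m a b : Wh)
    (h : ∀ H ∈ Wl cs m a, ∀ H' ∈ Wl cs m b, Crs (Wl cs) H H') :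
    (Wl cs m a).ncard ≤ 4 ∨ (Wl cs m b).ncard ≤ 4 := by
  by_contra hcon
  push Not at hcon
  obtain ⟨i, i', h1, h2, h3, h4⟩ := gb_types m a (by omega)
  obtain ⟨j, j', h5, h6, h7, h8⟩ := gb_types m b (by omega)
  rcases gb_square i i' h1 h2 j (gb_cross m a b h i j h3 h7) (gb_cross m a b h i' j h4 h7) j'
    (gb_cross m a b h i j' h3 h8) (gb_cross m a b h i' j' h4 h8) with h9 | h9
  · exact h5 h9
  · exact h6 h9

end Pool.Agent.Helper376.LC
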