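import Mathlib
import Pool.Agent.Helper376.LC.CombC
import Pool.Agent.Helper376.LC.Grid

/-! The comb space structure on the Coxeter group. -/

namespace Pool.Agent.Helper376.LC

/-- The comb of `g`. -/
def QS (g : Wh) : Set Wh := {x | ∃ t k, CP t k ∧ x = g * el t k}

theorem Wl_mul_left_ncard (g x y : Wh) : (Wl cs (g * x) (g * y)).ncard = (Wl cs x y).ncard := by
  rw [Wl_ncard, Wl_ncard]
  congr 1
  group

theorem Wl_self (x : Wh) : Wl cs x x = ∅ := by
  unfold Wl
  exact symmDiff_self _

theorem Wl_comm (x y : Wh) : Wl cs x y = Wl cs y x := symmDiff_comm _ _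

theorem Wl_tri (x y z : Wh) : Wl cs x z = symmDiff (Wl cs x y) (Wl cs y z) := Wl_tri' cs x y z

theorem el_length (t : ℤ) (k : ℕ) (t' : ℤ) (k' : ℕ) (h : CP t k) (h' : CP t' k') :
    cs.length ((el t k)⁻¹ * el t' k') = cd t k t' k' := by
  obtain ⟨ω, h1, h2, h3, -⟩ := comb_word t k t' k' h h'
  rw [h2, inv_mul_cancel_left, (rigid_reduced cs hMM ω h1).eq, h3]

theorem cd_eq_zero (t : ℤ) (k : ℕ) (t' : ℤ) (k' : ℕ) (h : cd t k t' k' = 0) : t = t' ∧ k = k' := by
  unfold cd at h
  split_ifs at h with h1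
  · exact ⟨h1, by omega⟩
  · exfalso
    omega

theorem el_inj (t : ℤ) (k : ℕ) (t' : ℤ) (k' : ℕ) (h : CP t k) (h' : CP t' k')
    (he : el t k = el t' k') : t = t' ∧ k = k' := by
  apply cd_eq_zero
  rw [← el_length t k t' k' h h', he, inv_mul_cancel, cs.length_one]

theorem QS_conv (g x y m : Wh) (hx : x ∈ QS g) (hy : y ∈ QS g)
    (hm : Disjoint (Wl cs x m) (Wl cs m y)) : m ∈ QS g := by
  obtain ⟨t, k, h, rfl⟩ := hx
  obtain ⟨t', k', h', rfl⟩ := hy
  obtain ⟨ω, h1, h2, h3, h4, -⟩ := comb_word t k t' k' h h'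
  rw [h2, ← mul_assoc] at hm
  obtain ⟨j, -, hj⟩ := rigid_between cs hMM ω h1 _ _ hm
  obtain ⟨t1, k1, h5, h6⟩ := h4 j
  exact ⟨t1, k1, h5, by rw [hj, mul_assoc, h6]⟩

/-- Cosets of the cyclic group in `Gs`: the index set of the combs. -/
abbrev KK : Type := Gs ⧸ ((Subgroup.zpowers bb).subgroupOf Gs)

/-- A representative. -/
noncomputable def rep (c : KK) : Wh := ((Quotient.out c : Gs) : Wh)

theorem rep_mem (c : KK) : rep c ∈ Gs := (Quotient.out c : Gs).2

theorem exists_rep (g : Wh) (hg : g ∈ Gs) : ∃ (c : KK) (n : ℤ), g = rep c * bb ^ n := by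
  refine ⟨QuotientGroup.mk (⟨g, hg⟩ : Gs), ?_⟩
  have h1 := QuotientGroup.mk_out_eq_mul ((Subgroup.zpowers bb).subgroupOf Gs) (⟨g, hg⟩ : Gs)
  obtain ⟨h, h2⟩ := h1
  have h3 : ((h : Gs) : Wh) ∈ Subgroup.zpowers bb := Subgroup.mem_subgroupOf.1 h.2
  obtain ⟨n, hn⟩ := Subgroup.mem_zpowers_iff.1 h3
  refine ⟨-n, ?_⟩
  unfold rep
  have h4 : ((Quotient.out (QuotientGroup.mk (⟨g, hg⟩ : Gs) : KK) : Gs) : Wh) = g * bb ^ n := by
    have h5 := congrArg (Subtype.val) h2
    rw [hn]
    exact h5
  rw [h4, mul_assoc, ← zpow_add, add_neg_cancel, zpow_zero, mul_one]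

theorem rep_inj (c c' : KK) (n m : ℤ) (h : rep c * bb ^ n = rep c' * bb ^ m) : c = c' := by
  have h1 : (QuotientGroup.mk (Quotient.out c : Gs) : KK) = QuotientGroup.mk (Quotient.out c') := by
    rw [QuotientGroup.eq]
    rw [Subgroup.mem_subgroupOf]
    refine Subgroup.mem_zpowers_iff.2 ⟨n - m, ?_⟩
    show bb ^ (n - m) = (rep c)⁻¹ * rep c'
    rw [zpow_sub, eq_comm, inv_mul_eq_iff_eq_mul, ← mul_assoc, h, mul_inv_cancel_right]
  have h2 : ∀ c : KK, (QuotientGroup.mk (Quotient.out c : Gs) : KK) = c := fun c =>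
    Quotient.out_eq c
  rwa [h2, h2] at h1

theorem rho_inj_aux (g : Wh) (hg : g ∈ Gs) (k l : ℕ) (h : g * rho k = rho l) : g = 1 ∧ k = l := by
  have h1 : g = rho l * (rho k)⁻¹ := by rw [← h, mul_inv_cancel_right]
  have h2 : g ∈ Ws := by
    rw [h1]
    exact Ws.mul_mem (rho_mem l) (Ws.inv_mem (rho_mem k))
  have h3 := mem_As_of g hg h2
  have h4 := val_mul_left g (rho k) h3
  rw [h, val_rho, val_rho] at h4
  have h5 : (l : ℤ) = k := congrArg Prod.fst h4
  have h6 : k = l := by exact_mod_cast h5.symm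
  refine ⟨?_, h6⟩
  subst h6
  rw [h1, mul_inv_cancel]

theorem sp_even (n : ℤ) : sp (2 * n) = bb ^ n := by
  unfold sp
  rw [if_pos (by omega), mul_one]
  congr 1
  omega

theorem sp_odd (n : ℤ) : sp (2 * n + 1) = bb ^ n * sg (Sum.inr false) := by
  unfold sp
  rw [if_neg (by omega)]
  congr 2
  omega

theorem bb_zpow_mem (n : ℤ) : bb ^ n ∈ Gs := Gs.zpow_mem bb_mem_Gs n

theorem chi_el (t : ℤ) (k : ℕ) : chi (el t k) = if t % 2 = 0 then 1 else Multiplicative.ofAdd 1 := by
  unfold el sp
  rw [map_mul, map_mul, chi_Gs _ (bb_zpow_mem _), chi_Ws _ (rho_mem k), one_mul, mul_one]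
  split_ifs
  · exact map_one _
  · exact chi_inr _

theorem QS_unique (g g' : Wh) (hg : g ∈ Gs) (hg' : g' ∈ Gs) (x : Wh) (hx : x ∈ QS g)
    (hx' : x ∈ QS g') : ∃ n : ℤ, g' = g * bb ^ n := by
  obtain ⟨t, k, h, rfl⟩ := hx
  obtain ⟨t', k', h', h2⟩ := hx'
  have h3 := congrArg chi h2
  rw [map_mul, map_mul, chi_Gs g hg, chi_Gs g' hg', one_mul, one_mul, chi_el, chi_el] at h3
  have hne : (1 : Multiplicative (ZMod 2)) ≠ Multiplicative.ofAdd 1 := by decide
  rcases Int.even_or_odd' t with ⟨n, rfl | rfl⟩ <;> rcases Int.even_or_odd' t' with ⟨m, rfl | rfl⟩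
  · -- both even
    unfold el at h2
    rw [sp_even, sp_even] at h2
    have h4 : ((bb ^ m)⁻¹ * g'⁻¹ * g * bb ^ n) * rho k = rho k' := by
      rw [mul_assoc, mul_assoc, mul_assoc, h2]
      group
    have h5 := rho_inj_aux _ (Gs.mul_mem (Gs.mul_mem (Gs.mul_mem (Gs.inv_mem (bb_zpow_mem m))
      (Gs.inv_mem hg')) hg) (bb_zpow_mem n)) _ _ h4
    refine ⟨n - m, ?_⟩
    have h6 := h5.1
    have h7 : g * bb ^ n = g' * bb ^ m := by
      have h8 : g' * bb ^ m * ((bb ^ m)⁻¹ * g'⁻¹ * g * bb ^ n) = g' * bb ^ m := by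
        rw [h6, mul_one]
      rw [← h8]
      group
    rw [zpow_sub, ← mul_assoc, h7, mul_inv_cancel_right]
  · exfalso
    rw [if_pos (by omega), if_neg (by omega)] at h3
    exact hne h3
  · exfalso
    rw [if_neg (by omega), if_pos (by omega)] at h3
    exact hne h3.symm
  · have hk : k = 0 := by
      rcases h with h | h
      · exact h
      · omega
    have hk' : k' = 0 := by
      rcases h' with h' | h'
      · exact h'
      · omega
    subst hk
    subst hk'
    unfold el at h2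
    rw [sp_odd, sp_odd] at h2
    have h7 : g * bb ^ n = g' * bb ^ m := by
      have h8 : g * (bb ^ n * sg (Sum.inr false)) = g' * (bb ^ m * sg (Sum.inr false)) := by
        simpa [rho] using h2
      rw [← mul_assoc, ← mul_assoc] at h8
      exact mul_right_cancel h8
    refine ⟨n - m, ?_⟩
    rw [zpow_sub, ← mul_assoc, h7, mul_inv_cancel_right]

theorem QS_mul_zpow (g : Wh) (n : ℤ) : QS (g * bb ^ n) = QS g := by
  have key : ∀ (g : Wh) (n : ℤ), QS (g * bb ^ n) ⊆ QS g := by
    rintro g n x ⟨t, k, h, rfl⟩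
    refine ⟨t + 2 * n, k, ?_, ?_⟩
    · rcases h with h | h
      · exact Or.inl h
      · right; omega
    · unfold el
      rw [sp_add_two]
      simp only [mul_assoc]
  apply Set.Subset.antisymm (key g n)
  have h := key (g * bb ^ n) (-n)
  rwa [mul_assoc, ← zpow_add, add_neg_cancel, zpow_zero, mul_one] at h

theorem QS_rep_disj (c c' : KK) (h : c ≠ c') : Disjoint (QS (rep c)) (QS (rep c')) := by
  rw [Set.disjoint_left]
  intro x hx hx'
  obtain ⟨n, hn⟩ := QS_unique _ _ (rep_mem c) (rep_mem c') x hx hx'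
  apply h
  apply rep_inj c c' n 0
  rw [hn, zpow_zero, mul_one]

theorem QS_nonempty (g : Wh) : (QS g).Nonempty := ⟨g * el 0 0, 0, 0, Or.inl rfl, rfl⟩

/-- Gate of the comb. -/
noncomputable def gt (g x : Wh) : Wh :=
  Classical.choose (exists_gate cs hMM (QS g) (QS_nonempty g) (fun _ hx _ hy m hm =>
    QS_conv g _ _ m hx hy hm) x)

theorem gt_mem (g x : Wh) : gt g x ∈ QS g :=
  (Classical.choose_spec (exists_gate cs hMM (QS g) (QS_nonempty g) (fun _ hx _ hy m hm =>
    QS_conv g _ _ m hx hy hm) x)).1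

theorem gt_sep (g x y : Wh) (hy : y ∈ QS g) : Disjoint (Wl cs x (gt g x)) (Wl cs (gt g x) y) :=
  (Classical.choose_spec (exists_gate cs hMM (QS g) (QS_nonempty g) (fun _ hx _ hy m hm =>
    QS_conv g _ _ m hx hy hm) x)).2 y hy

theorem gt_self (g x : Wh) (hx : x ∈ QS g) : gt g x = x := by
  have h := gt_sep g x x hx
  rw [Wl_comm (gt g x) x, disjoint_self] at h
  have h1 : (Wl cs x (gt g x)).ncard = 0 := by
    rw [h]
    exact Set.ncard_empty _
  rw [Wl_ncard, cs.length_eq_zero_iff] at h1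
  exact (inv_mul_eq_one.1 h1).symm

open Classical in
/-- Plane coordinates on the comb of `g`. -/
noncomputable def kap (g x : Wh) : ℤ × ℕ :=
  if h : ∃ p : ℤ × ℕ, CP p.1 p.2 ∧ gt g x = g * el p.1 p.2 then
    (-((Classical.choose h).1 / 2), (Classical.choose h).2) else (0, 0)

theorem kap_eq (g x : Wh) (t : ℤ) (k : ℕ) (h : CP t k) (hx : gt g x = g * el t k) :
    kap g x = (-(t / 2), k) := by
  unfold kap
  have h1 : ∃ p : ℤ × ℕ, CP p.1 p.2 ∧ gt g x = g * el p.1 p.2 := ⟨(t, k), h, hx⟩
  rw [dif_pos h1]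
  have h2 := Classical.choose_spec h1
  have h3 : el (Classical.choose h1).1 (Classical.choose h1).2 = el t k := by
    have h4 := h2.2.symm.trans hx
    exact mul_left_cancel h4
  obtain ⟨h5, h6⟩ := el_inj _ _ _ _ h2.1 h h3
  rw [h5, h6]

theorem kap_of_el (g : Wh) (t : ℤ) (k : ℕ) (h : CP t k) :
    kap g (g * el t k) = (-(t / 2), k) :=
  kap_eq g _ t k h (gt_self g _ ⟨t, k, h, rfl⟩)

/-- The plane map. -/
noncomputable def tht (g : Wh) (u : ℤ × ℕ) : Wh := g * (bb ^ (-u.1) * rho u.2)

theorem tht_eq (g : Wh) (u : ℤ × ℕ) : tht g u = g * el (2 * (-u.1)) u.2 := by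
  unfold tht el
  rw [sp_even]

theorem CP_even (n : ℤ) (k : ℕ) : CP (2 * n) k := Or.inr (by omega)

/-- The comb space. -/
noncomputable def S : CombSpace Wh Wh KK where
  Wl := Wl cs
  Wl_comm := Wl_comm
  Wl_tri := Wl_tri
  Wl_fin := Wl_finite cs
  Wl_inj := by
    intro x y h
    have h1 : (Wl cs x y).ncard = 0 := by rw [h]; exact Set.ncard_empty _
    rw [Wl_ncard, cs.length_eq_zero_iff] at h1
    exact inv_mul_eq_one.1 h1
  step := by
    intro x y h
    obtain ⟨i, h1, h2, -⟩ := exists_step cs x y h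
    exact ⟨_, h2, h1⟩
  median := exists_median cs hMM
  grid := grid_bound
  Q := fun c => QS (rep c)
  gate := fun c => gt (rep c)
  gate_mem := fun c x => gt_mem (rep c) x
  gate_sep := fun c x y hy => gt_sep (rep c) x y hy
  conv := fun c x y m hx hy hm => QS_conv (rep c) x y m hx hy hm
  Q_disj := QS_rep_disj
  no3 := by
    intro c x y hx hy h3 H
    obtain ⟨t, k, h, rfl⟩ := hx
    obtain ⟨t', k', h', rfl⟩ := hy
    obtain ⟨ω, h4, h5, h6, h7, h8, -⟩ := comb_word t k t' k' h h'
    by_contra hcon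
    push Not at hcon
    have hlen : 3 ≤ ω.length := by
      rw [Wl_mul_left_ncard, Wl_ncard, el_length t k t' k' h h', ← h6] at h3
      exact h3
    set x := rep c * el t k with hx
    have hy : rep c * el t' k' = x * cs.wordProd ω := by
      rw [hx, h5, mul_assoc]
    -- walls of the first three edges
    have hw : ∀ (i : ℕ) (hi : i < ω.length),
        x * cs.wordProd (ω.take i) * cs.simple (ω[i]) * (x * cs.wordProd (ω.take i))⁻¹ ∈
          Wl cs x (rep c * el t' k') := by
      intro i hi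
      rw [hy]
      have h9 : Wl cs x (x * cs.wordProd (ω.take i) * cs.simple (ω[i])) ⊆
          Wl cs x (x * cs.wordProd ω) := by
        have h10 : ω = ω.take (i + 1) ++ ω.drop (i + 1) := (List.take_append_drop _ _).symm
        have h11 : x * cs.wordProd (ω.take i) * cs.simple (ω[i]) =
            x * cs.wordProd (ω.take (i + 1)) := by
          rw [mul_assoc]
          congr 1
          rw [List.take_succ_eq_append_getElem hi, cs.wordProd_append, cs.wordProd_singleton]
        rw [h11]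
        have h12 : Disjoint (Wl cs x (x * cs.wordProd (ω.take (i + 1))))
            (Wl cs (x * cs.wordProd (ω.take (i + 1))) (x * cs.wordProd ω)) := by
          rw [disjoint_iff_length']
          have h13 := (rigid_reduced cs hMM ω h4)
          rw [inv_mul_cancel_left, inv_mul_cancel_left]
          have h14 : (x * cs.wordProd (ω.take (i + 1)))⁻¹ * (x * cs.wordProd ω) =
              cs.wordProd (ω.drop (i + 1)) := by
            conv_lhs => rw [h10]
            rw [cs.wordProd_append]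
            simp only [List.take_append_drop]
            group
          rw [h14, h13.eq, (h13.take (i + 1)).eq, (h13.drop (i + 1)).eq, List.length_take,
            List.length_drop]
          omega
        rw [Wl_tri x (x * cs.wordProd (ω.take (i + 1))) (x * cs.wordProd ω)]
        intro s hs
        rw [Set.mem_symmDiff]
        left
        exact ⟨hs, fun h => Set.disjoint_left.1 h12 hs h⟩
      apply h9
      rw [Wl_tri x (x * cs.wordProd (ω.take i))]
      rw [Set.mem_symmDiff]
      right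
      rw [Wl_mul_simple]
      refine ⟨rfl, ?_⟩
      intro h15
      -- the wall is crossed after position i only
      have h16 : Disjoint (Wl cs x (x * cs.wordProd (ω.take i)))
          (Wl cs (x * cs.wordProd (ω.take i)) (x * cs.wordProd (ω.take i) * cs.simple (ω[i]))) := by
        rw [disjoint_iff_length']
        have h13 := (rigid_reduced cs hMM ω h4)
        have h11 : x * cs.wordProd (ω.take i) * cs.simple (ω[i]) =
            x * cs.wordProd (ω.take (i + 1)) := by
          rw [mul_assoc]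
          congr 1
          rw [List.take_succ_eq_append_getElem hi, cs.wordProd_append, cs.wordProd_singleton]
        have h17 : (x * cs.wordProd (ω.take i))⁻¹ *
            (x * cs.wordProd (ω.take i) * cs.simple (ω[i])) = cs.simple (ω[i]) := by group
        rw [h17, h11, inv_mul_cancel_left, inv_mul_cancel_left, (h13.take (i + 1)).eq,
          (h13.take i).eq, cs.length_simple, List.length_take, List.length_take]
        omega
      rw [Wl_mul_simple] at h16
      exact Set.disjoint_left.1 h16 h15 rfl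
    -- types
    have hty : ∀ (i : ℕ) (hi : i < ω.length), ∃ d, (∃ z, H = z * cs.simple d * z⁻¹) ∧
        cmt d (ω[i]) := by
      intro i hi
      obtain ⟨a, b, c', d', hb, hc, hd⟩ := hcon _ (hw i hi)
      obtain ⟨z, i1, j1, -, hM, hH, hH'⟩ := crossing cs hMM H _ a b c' d' hb.1 hb.2 hc.1 hc.2
        hd.1 hd.2
      have h18 := type_unique cs hMM _ _ _ _ hH'
      refine ⟨i1, ⟨z, hH⟩, ?_⟩
      rw [h18]
      exact (MM_eq_two_iff _ _).1 hM
    obtain ⟨d, ⟨z, hz⟩, hd0⟩ := hty 0 (by omega)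
    obtain ⟨d1, ⟨z1, hz1⟩, hd1⟩ := hty 1 (by omega)
    obtain ⟨d2, ⟨z2, hz2⟩, hd2⟩ := hty 2 (by omega)
    have e1 : d1 = d := type_unique cs hMM _ _ _ _ (hz1.symm.trans hz)
    have e2 : d2 = d := type_unique cs hMM _ _ _ _ (hz2.symm.trans hz)
    subst e1
    subst e2
    exact (h8 0 _ _ _ (List.getElem?_eq_getElem (by omega)) (List.getElem?_eq_getElem (by omega))
      (List.getElem?_eq_getElem (by omega))).1 ⟨_, hd0, hd1, hd2⟩
  θ := fun c => tht (rep c)
  κ := fun c => kap (rep c)
  θ_mem := by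
    intro c p
    rw [tht_eq]
    exact ⟨_, _, CP_even _ _, rfl⟩
  κ_θ := by
    intro c p
    rw [tht_eq, kap_of_el _ _ _ (CP_even _ _)]
    refine Prod.ext ?_ rfl
    show -(2 * -p.1 / 2) = p.1
    omega
  κ_gate := by
    intro c x
    obtain ⟨t, k, h, h1⟩ := gt_mem (rep c) x
    rw [kap_eq _ _ t k h h1, kap_eq _ _ t k h]
    rw [gt_self _ _ (gt_mem _ _), h1]
  near := by
    intro c x hx
    obtain ⟨t, k, h, rfl⟩ := hx
    rw [kap_of_el _ _ _ h, tht_eq, Wl_mul_left_ncard, Wl_ncard, el_length _ _ _ _ h (CP_even _ _)]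
    unfold cd
    show (if t = 2 * -(-(t / 2)) then k - k + (k - k) else (t - 2 * -(-(t / 2))).natAbs + k + k) ≤ 1
    split_ifs with h1
    · omega
    · have h2 : k = 0 := by
        rcases h with h | h
        · exact h
        · exfalso; omega
      omega
  lip := by
    intro c x y hx hy h1
    obtain ⟨t, k, h, rfl⟩ := hx
    obtain ⟨t', k', h', rfl⟩ := hy
    rw [Wl_mul_left_ncard, Wl_ncard, el_length _ _ _ _ h h'] at h1
    rw [kap_of_el _ _ _ h, kap_of_el _ _ _ h']
    unfold cd at h1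
    unfold PAdj par
    split_ifs at h1 with h2
    · right; right; right
      subst h2
      refine ⟨rfl, ?_⟩
      show k' = k + 1 ∨ k = k' + 1
      omega
    · have h3 : k = 0 ∧ k' = 0 := by omega
      obtain ⟨rfl, rfl⟩ := h3
      by_cases h4 : t / 2 = t' / 2
      · left; rw [h4]
      · right
        by_cases h5 : t < t'
        · right; left
          refine Prod.ext ?_ (by simp)
          show -(t / 2) = -(t' / 2) + 1
          omega
        · left
          refine Prod.ext ?_ (by simp)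
          show -(t' / 2) = -(t / 2) + 1
          omega
  horiz := by
    intro c j k
    rw [tht_eq, tht_eq, Wl_mul_left_ncard, Wl_ncard, el_length _ _ _ _ (CP_even _ _) (CP_even _ _)]
    unfold cd
    rw [if_pos rfl]
    omega

end Pool.Agent.Helper376.LC
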