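import Mathlib
import Pool.Agent.Helper376.LC.Space

/-! Part of the construction (see Defs and Conc). -/

namespace Pool.Agent.Helper376.LC


theorem neighborSet_finite (v : Wh) : (S.graph.neighborSet v).Finite := by
  have hA1 : (Set.range (fun i : Lt => v * cs.simple i)).Finite := Set.finite_range _
  by_cases hc : ∃ c, v ∈ S.Q c
  · obtain ⟨c0, hc0⟩ := hc
    have huniq : ∀ c, v ∈ S.Q c → c = c0 := by
      intro c hcv
      by_contra hne
      exact Set.disjoint_left.1 (S.Q_disj c c0 hne) hcv hc0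
    set u := S.κ c0 v with hu
    refine (hA1.union (Set.toFinite ({S.θ c0 (par u), S.θ c0 (u.1 - 1, 2 * u.2),
      S.θ c0 (u.1 - 1, 2 * u.2 + 1)} : Set Wh))).subset ?_
    intro y hy
    rcases hy with hy | ⟨c, p, hy | hy⟩
    · left
      have h1 : (Wl cs v y).ncard = 1 := hy
      rw [Wl_ncard, cs.length_eq_one_iff] at h1
      obtain ⟨i, hi⟩ := h1
      exact ⟨i, by show v * cs.simple i = y; rw [← hi, mul_inv_cancel_left]⟩
    · right
      obtain ⟨h1, h2⟩ := hy
      have h3 : c = c0 := huniq c (by rw [h1]; exact S.θ_mem c p)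
      subst h3
      have h4 : u = p := by rw [hu, h1, S.κ_θ]
      rw [h2, ← h4]
      exact Set.mem_insert _ _
    · right
      obtain ⟨h1, h2⟩ := hy
      have h3 : c = c0 := huniq c (by rw [h2]; exact S.θ_mem c _)
      subst h3
      have h4 : u = par p := by rw [hu, h2, S.κ_θ]
      have h5 : u.1 = p.1 + 1 := congrArg Prod.fst h4
      have h6 : u.2 = p.2 / 2 := congrArg Prod.snd h4
      rw [h1]
      rcases Nat.even_or_odd' p.2 with ⟨k, hk | hk⟩
      · right; left
        congr 1
        refine Prod.ext ?_ ?_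
        · show p.1 = u.1 - 1
          omega
        · show p.2 = 2 * u.2
          omega
      · right; right
        show S.θ c p = _
        congr 1
        refine Prod.ext ?_ ?_
        · show p.1 = u.1 - 1
          omega
        · show p.2 = 2 * u.2 + 1
          omega
  · refine hA1.subset ?_
    intro y hy
    rcases hy with hy | ⟨c, p, hy | hy⟩
    · have h1 : (Wl cs v y).ncard = 1 := hy
      rw [Wl_ncard, cs.length_eq_one_iff] at h1
      obtain ⟨i, hi⟩ := h1
      exact ⟨i, by show v * cs.simple i = y; rw [← hi, mul_inv_cancel_left]⟩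
    · exact absurd ⟨c, by rw [hy.1]; exact S.θ_mem c p⟩ hc
    · exact absurd ⟨c, by rw [hy.2]; exact S.θ_mem c _⟩ hc

theorem tht_shift (g : Wh) (c c' : KK) (n : ℤ) (h : g * rep c = rep c' * bb ^ n) (p : ℤ × ℕ) :
    g * tht (rep c) p = tht (rep c') (p.1 - n, p.2) := by
  unfold tht
  show g * (rep c * (bb ^ (-p.1) * rho p.2)) = rep c' * (bb ^ (-(p.1 - n)) * rho p.2)
  have e : -(p.1 - n) = n + -p.1 := by ring
  rw [e, zpow_add, ← mul_assoc g, h]
  simp only [mul_assoc]

theorem graph_adj_mul_aux (g : Wh) (hg : g ∈ Gs) (x y : Wh) (h : S.graph.Adj x y) :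
    S.graph.Adj (g * x) (g * y) := by
  have key : ∀ (x y : Wh) (c : KK) (p : ℤ × ℕ), x = S.θ c p → y = S.θ c (par p) →
      ∃ c' p', g * x = S.θ c' p' ∧ g * y = S.θ c' (par p') := by
    intro x y c p hx hy
    obtain ⟨c', n, hn⟩ := exists_rep (g * rep c) (Gs.mul_mem hg (rep_mem c))
    refine ⟨c', (p.1 - n, p.2), ?_, ?_⟩
    · rw [hx]
      exact tht_shift g c c' n hn p
    · rw [hy]
      refine (tht_shift g c c' n hn (par p)).trans ?_
      show tht (rep c') _ = tht (rep c') _
      congr 1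
      unfold par
      refine Prod.ext ?_ rfl
      show p.1 + 1 - n = p.1 - n + 1
      ring
  rcases h with h | ⟨c, p, ⟨h1, h2⟩ | ⟨h1, h2⟩⟩
  · left
    show (Wl cs (g * x) (g * y)).ncard = 1
    rw [Wl_mul_left_ncard]
    exact h
  · obtain ⟨c', p', h3, h4⟩ := key x y c p h1 h2
    exact Or.inr ⟨c', p', Or.inl ⟨h3, h4⟩⟩
  · obtain ⟨c', p', h3, h4⟩ := key y x c p h1 h2
    exact Or.inr ⟨c', p', Or.inr ⟨h3, h4⟩⟩

theorem graph_adj_mul (g : Wh) (hg : g ∈ Gs) (x y : Wh) :
    S.graph.Adj (g * x) (g * y) ↔ S.graph.Adj x y := by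
  constructor
  · intro h
    have h1 := graph_adj_mul_aux g⁻¹ (Gs.inv_mem hg) _ _ h
    rwa [inv_mul_cancel_left, inv_mul_cancel_left] at h1
  · exact graph_adj_mul_aux g hg x y

theorem finite_ball (N : ℕ) : {v : Wh | S.graph.dist 1 v ≤ N}.Finite := by
  haveI : Nonempty Wh := ⟨1⟩
  have hconn : S.graph.Connected := S.graph_connected
  induction N with
  | zero =>
    refine (Set.finite_singleton (1 : Wh)).subset ?_
    intro v hv
    have h1 : S.graph.dist 1 v = 0 := Nat.le_zero.1 hv
    have h2 := (hconn.dist_eq_zero_iff).1 h1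
    exact h2.symm
  | succ N ih =>
    have hfin : ({v : Wh | S.graph.dist 1 v ≤ N} ∪
        ⋃ u ∈ {v : Wh | S.graph.dist 1 v ≤ N}, S.graph.neighborSet u).Finite :=
      ih.union (ih.biUnion fun u _ => neighborSet_finite u)
    refine hfin.subset ?_
    intro v hv
    have hv' : S.graph.dist 1 v ≤ N + 1 := hv
    obtain ⟨w, hw⟩ := hconn.exists_walk_length_eq_dist v 1
    cases w with
    | nil =>
      left
      show S.graph.dist 1 1 ≤ N
      rw [SimpleGraph.dist_self]
      exact Nat.zero_le _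
    | @cons _ u _ hadj q =>
      right
      rw [SimpleGraph.Walk.length_cons, SimpleGraph.dist_comm] at hw
      have h1 : S.graph.dist 1 u ≤ N := by
        rw [SimpleGraph.dist_comm]
        have := SimpleGraph.dist_le q
        omega
      rw [Set.mem_iUnion₂]
      exact ⟨u, h1, hadj.symm⟩

end Pool.Agent.Helper376.LC
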