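import Mathlib
import Pool.Agent.Helper376.LC.Space
import Pool.Agent.Helper376.LC.Ext

/-! Part of the construction (see Defs and Conc). -/

namespace Pool.Agent.Helper376.LC


theorem exists_c1 : ∃ (c : KK) (m : ℤ), rep c = bb ^ m := by
  obtain ⟨c, n, h⟩ := exists_rep 1 Gs.one_mem
  refine ⟨c, -n, ?_⟩
  rw [zpow_neg]
  exact eq_inv_of_mul_eq_one_left h.symm

theorem rel_unique (c c' : KK) (x y : Wh) (hx : x ∈ QS (rep c)) (hy : y ∈ QS (rep c))
    (h : 3 ≤ S.dc c' x y) : c' = c := by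
  by_contra hne
  have h1 := (S.gate_between c' x y h).1
  have h2 : S.gate c' x ∈ S.Q c := S.conv c x y _ hx hy h1
  exact Set.disjoint_left.1 (S.Q_disj c' c hne) (S.gate_mem c' x) h2

theorem sp_zero' : sp 0 = 1 := by
  have := sp_even 0
  simpa using this

theorem el_zero_rho (k : ℕ) : el 0 k = rho k := by
  unfold el
  rw [sp_zero', one_mul]

theorem rep_el (c : KK) (m : ℤ) (hc : rep c = bb ^ m) (n : ℤ) (k : ℕ) :
    bb ^ n * rho k = rep c * el (2 * (n - m)) k := by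
  unfold el
  rw [sp_even, hc, ← mul_assoc, ← zpow_add]
  congr 2
  ring

theorem rho_rep_el (c : KK) (m : ℤ) (hc : rep c = bb ^ m) (k : ℕ) :
    rho k = rep c * el (2 * (0 - m)) k := by
  rw [← rep_el c m hc 0 k, zpow_zero, one_mul]

theorem mem_QS_of (c : KK) (m : ℤ) (hc : rep c = bb ^ m) (n : ℤ) (k : ℕ) :
    bb ^ n * rho k ∈ QS (rep c) :=
  ⟨_, _, CP_even _ _, rep_el c m hc n k⟩

theorem rho_mem_QS (c : KK) (m : ℤ) (hc : rep c = bb ^ m) (k : ℕ) : rho k ∈ QS (rep c) :=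
  ⟨_, _, CP_even _ _, rho_rep_el c m hc k⟩

theorem kap_rep (c : KK) (m : ℤ) (hc : rep c = bb ^ m) (n : ℤ) (k : ℕ) :
    kap (rep c) (bb ^ n * rho k) = (m - n, k) := by
  rw [rep_el c m hc n k, kap_of_el _ _ _ (CP_even _ _)]
  refine Prod.ext ?_ rfl
  show -(2 * (n - m) / 2) = m - n
  omega

theorem kap_rho (c : KK) (m : ℤ) (hc : rep c = bb ^ m) (k : ℕ) :
    kap (rep c) (rho k) = (m, k) := by
  have := kap_rep c m hc 0 k
  rwa [zpow_zero, one_mul, sub_zero] at this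

theorem tht_rep (c : KK) (m : ℤ) (hc : rep c = bb ^ m) (p : ℤ × ℕ) :
    tht (rep c) p = el (2 * (m - p.1)) p.2 := by
  unfold tht el
  rw [sp_even, hc, ← mul_assoc, ← zpow_add]
  congr 2

theorem el_zero_zero : el 0 0 = 1 := el_zero_rho 0

theorem length_el (t : ℤ) (k : ℕ) (h : CP t k) : cs.length (el t k) = cd 0 0 t k := by
  have := el_length 0 0 t k (Or.inl rfl) h
  rwa [el_zero_zero, inv_one, one_mul] at this

theorem length_rho (k : ℕ) : cs.length (rho k) = k := by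
  rw [← el_zero_rho, length_el 0 k (Or.inr rfl)]
  unfold cd
  simp

theorem length_rho_rho (k l : ℕ) : cs.length ((rho k)⁻¹ * rho l) = (k - l) + (l - k) := by
  rw [← el_zero_rho, ← el_zero_rho, el_length 0 k 0 l (Or.inr rfl) (Or.inr rfl)]
  unfold cd
  simp

theorem L_rho (N : ℕ) : ∃ K, ∀ k ≥ K, ∀ l ≥ K, ∀ v ∈ S.L (rho k) (rho l), N ≤ cs.length v := by
  obtain ⟨c1, m, hc1⟩ := exists_c1
  have key : ∀ k : ℕ, (N + 1) * 2 ^ (N + 1) ≤ k → ∀ w : ℤ × ℕ, m ≤ w.1 → w = anc (m, k) w.1 →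
      N ≤ cs.length (tht (rep c1) w) := by
    intro k hk w hw1 hw2
    rw [tht_rep c1 m hc1 w, length_el _ _ (CP_even _ _)]
    obtain ⟨i, hi⟩ : ∃ i : ℕ, w.1 = m + i := ⟨(w.1 - m).toNat, by omega⟩
    have h2 : w.2 = k / 2 ^ i := by
      have h3 := congrArg Prod.snd hw2
      have h4 : (anc (m, k) w.1).2 = k / 2 ^ (w.1 - m).toNat := rfl
      rw [h4] at h3
      rw [h3, hi]
      congr 2
      omega
    have h5 : N ≤ 2 * i + w.2 := by
      by_cases hi' : i < N + 1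
      · have h6 : N + 1 ≤ k / 2 ^ i := by
          rw [Nat.le_div_iff_mul_le (by positivity)]
          refine le_trans (Nat.mul_le_mul_left _ (Nat.pow_le_pow_right (by norm_num) ?_)) hk
          omega
        omega
      · omega
    unfold cd
    split_ifs with h7
    · omega
    · have h8 : (0 - 2 * (m - w.1)).natAbs = 2 * i := by
        rw [hi]
        omega
      rw [h8]
      omega
  refine ⟨(N + 1) * 2 ^ (N + 1), ?_⟩
  intro k hk l hl v hv
  have hN : N ≤ (N + 1) * 2 ^ (N + 1) := by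
    have : 1 ≤ 2 ^ (N + 1) := Nat.one_le_two_pow
    nlinarith
  rcases hv with ⟨h1, -⟩ | ⟨c, h3, p, hp, rfl⟩
  · have h2 := (disjoint_iff_length' cs _ _ _).1 h1
    rw [length_rho_rho] at h2
    have h4 : k ≤ cs.length v + cs.length ((rho k)⁻¹ * v) := by
      have h5 := cs.length_mul_le v ((rho k)⁻¹ * v)⁻¹
      rw [cs.length_inv] at h5
      have h6 : v * ((rho k)⁻¹ * v)⁻¹ = rho k := by group
      rw [h6, length_rho] at h5
      exact h5
    have h7 : l ≤ cs.length v + cs.length (v⁻¹ * rho l) := by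
      have h5 := cs.length_mul_le v (v⁻¹ * rho l)
      have h6 : v * (v⁻¹ * rho l) = rho l := by group
      rw [h6, length_rho] at h5
      exact h5
    omega
  · have hc : c = c1 := rel_unique c1 c _ _ (rho_mem_QS c1 m hc1 k) (rho_mem_QS c1 m hc1 l) h3
    subst hc
    have e1 : S.κ c (rho k) = (m, k) := kap_rho c m hc1 k
    have e2 : S.κ c (rho l) = (m, l) := kap_rho c m hc1 l
    rw [e1, e2] at hp
    rcases hp.2 with h4 | h4
    · exact key k hk p h4.1 h4.2
    · exact key l hl p h4.1 h4.2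

theorem rho_one_mem_L (n k : ℕ) (hn : 1 ≤ n) :
    rho 1 ∈ S.L (bb ^ (n : ℤ) * rho (2 ^ n)) (rho k) := by
  obtain ⟨c1, m, hc1⟩ := exists_c1
  right
  refine ⟨c1, ?_, (m, 1), ?_, ?_⟩
  · show 3 ≤ (Wl cs (gt (rep c1) (bb ^ (n : ℤ) * rho (2 ^ n))) (gt (rep c1) (rho k))).ncard
    rw [gt_self _ _ (mem_QS_of c1 m hc1 n _), gt_self _ _ (rho_mem_QS c1 m hc1 k), Wl_ncard]
    have e1 : bb ^ (n : ℤ) * rho (2 ^ n) = el (2 * (n : ℤ)) (2 ^ n) := by
      unfold el
      rw [sp_even]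
    rw [e1, ← el_zero_rho k, el_length _ _ _ _ (CP_even _ _) (Or.inr rfl)]
    unfold cd
    have h2 : 2 ≤ 2 ^ n := by
      calc 2 = 2 ^ 1 := rfl
        _ ≤ 2 ^ n := Nat.pow_le_pow_right (by norm_num) hn
    rw [if_neg (by omega)]
    omega
  · have e1 : S.κ c1 (bb ^ (n : ℤ) * rho (2 ^ n)) = (m - n, 2 ^ n) := kap_rep c1 m hc1 n _
    have e2 : S.κ c1 (rho k) = (m, k) := kap_rho c1 m hc1 k
    rw [e1, e2]
    refine ⟨fun n' hn' => hn'.2.1, Or.inl ⟨?_, ?_⟩⟩
    · show m - (n : ℤ) ≤ m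
      omega
    · refine Prod.ext rfl ?_
      show 1 = 2 ^ n / 2 ^ (m - (m - (n : ℤ))).toNat
      have h3 : (m - (m - (n : ℤ))).toNat = n := by omega
      rw [h3, Nat.div_self (by positivity)]
  · show rho 1 = tht (rep c1) (m, 1)
    rw [tht_rep c1 m hc1]
    show rho 1 = el (2 * (m - m)) 1
    rw [sub_self, mul_zero, el_zero_rho]

theorem length_mul_altw (x : Wh) (a b : ZMod 5 × Bool) (hab : MM (Sum.inl a) (Sum.inl b) = 0)
    (hx : ¬ cs.IsRightDescent x (Sum.inl a)) (n : ℕ) :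
    cs.length (x * cs.wordProd (altw (Sum.inl a) (Sum.inl b) n)) = cs.length x + n := by
  cases n with
  | zero =>
    show cs.length (x * cs.wordProd []) = _
    rw [cs.wordProd_nil, mul_one, add_zero]
  | succ n =>
    have h1 := length_mul_rigid cs hMM x (Sum.inl a) (altw (Sum.inl b) (Sum.inl a) n)
      (altw_rigid (Sum.inl a) (Sum.inl b) hab (n + 1)) hx
    rw [altw_length] at h1
    exact h1

theorem altw_drop (k n : ℕ) (a b : Lt) (h : k ≤ n) :
    (altw a b n).drop k = if k % 2 = 0 then altw a b (n - k) else altw b a (n - k) := by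
  induction k generalizing n a b with
  | zero => simp
  | succ k ih =>
    obtain ⟨n, rfl⟩ : ∃ n', n = n' + 1 := ⟨n - 1, by omega⟩
    have h1 : (altw a b (n + 1)).drop (k + 1) = (altw b a n).drop k := rfl
    rw [h1, ih n b a (by omega)]
    have h2 : n + 1 - (k + 1) = n - k := by omega
    rw [h2]
    split_ifs with h3 h4 h4
    · omega
    · rfl
    · rfl
    · omega

theorem altw_split (x : Wh) (a b : Lt) (k n : ℕ) (h : k ≤ n) :
    x * cs.wordProd (altw a b n) =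
      x * cs.wordProd (altw a b k) * cs.wordProd ((altw a b n).drop k) := by
  conv_lhs => rw [← List.take_append_drop k (altw a b n)]
  rw [cs.wordProd_append, altw_take a b n k h, mul_assoc]

theorem no_alt (x : Wh) (a b : ZMod 5 × Bool) (hab : MM (Sum.inl a) (Sum.inl b) = 0)
    (c : KK) (k1 k2 : ℕ) (hk : k1 + 3 ≤ k2)
    (h1 : x * cs.wordProd (altw (Sum.inl a) (Sum.inl b) k1) ∈ QS (rep c))
    (h2 : x * cs.wordProd (altw (Sum.inl a) (Sum.inl b) k2) ∈ QS (rep c)) : False := by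
  obtain ⟨t, k, hC, e1⟩ := h1
  obtain ⟨t', k', hC', e2⟩ := h2
  obtain ⟨ω, w1, w2, -, -, w5, -⟩ := comb_word t k t' k' hC hC'
  rw [altw_split x _ _ k1 k2 (by omega), e1, w2, ← mul_assoc] at e2
  have e3 := mul_left_cancel e2
  have hd := altw_drop k1 k2 (Sum.inl a) (Sum.inl b) (by omega)
  have hba : MM (Sum.inl b) (Sum.inl a) = 0 := by
    rw [MM_eq_zero_iff] at hab ⊢
    exact ⟨hab.1.symm, fun h => hab.2 (cmt_symm _ _ h)⟩
  obtain ⟨r, hr⟩ : ∃ r, k2 - k1 = r + 3 := ⟨k2 - k1 - 3, by omega⟩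
  rw [hr] at hd
  have key : ∀ A B : ZMod 5 × Bool, MM (Sum.inl A) (Sum.inl B) = 0 →
      (altw (Sum.inl a) (Sum.inl b) k2).drop k1 = altw (Sum.inl A) (Sum.inl B) (r + 3) → False := by
    intro A B hAB h
    rw [h] at e3
    have h5 := rigid_unique cs hMM _ ω (altw_rigid _ _ hAB _) w1 e3
    have h6 := (w5 0 (Sum.inl A) (Sum.inl B) (Sum.inl A) (by rw [← h5]; rfl) (by rw [← h5]; rfl)
      (by rw [← h5]; rfl)).2 rfl
    obtain ⟨β, hβ⟩ := h6
    cases hβ
  split_ifs at hd with h7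
  · exact key a b hab hd
  · exact key b a hba hd

theorem L_alt_aux (x : Wh) (a b : ZMod 5 × Bool) (hab : MM (Sum.inl a) (Sum.inl b) = 0)
    (i j : ℕ) (hij : i ≤ j) (v : Wh)
    (hv : v ∈ S.L (x * cs.wordProd (altw (Sum.inl a) (Sum.inl b) i))
      (x * cs.wordProd (altw (Sum.inl a) (Sum.inl b) j))) :
    ∃ k, i ≤ k ∧ v = x * cs.wordProd (altw (Sum.inl a) (Sum.inl b) k) := by
  have hrig : Rigid MM ((altw (Sum.inl a) (Sum.inl b) j).drop i) :=
    List.IsChain.drop (altw_rigid (Sum.inl a) (Sum.inl b) hab j) i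
  have hbet : ∀ m, Disjoint (Wl cs (x * cs.wordProd (altw (Sum.inl a) (Sum.inl b) i)) m)
      (Wl cs m (x * cs.wordProd (altw (Sum.inl a) (Sum.inl b) j))) →
      ∃ k, i ≤ k ∧ k ≤ j ∧ m = x * cs.wordProd (altw (Sum.inl a) (Sum.inl b) k) := by
    intro m hm
    rw [altw_split x _ _ i j hij] at hm
    obtain ⟨k, hk, hk2⟩ := rigid_between cs hMM _ hrig _ _ hm
    rw [List.length_drop, altw_length] at hk
    refine ⟨i + k, by omega, by omega, ?_⟩
    rw [hk2, altw_split x _ _ i (i + k) (by omega)]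
    congr 2
    rw [← altw_take (Sum.inl a) (Sum.inl b) j (i + k) (by omega), List.drop_take]
    congr 1
    omega
  rcases hv with ⟨h1, -⟩ | ⟨c, h3, p, hp, -⟩
  · obtain ⟨k, h2, -, h4⟩ := hbet v h1
    exact ⟨k, h2, h4⟩
  · exfalso
    obtain ⟨g1, g2⟩ := S.gate_between c _ _ h3
    obtain ⟨k1, a1, a2, a3⟩ := hbet _ g1
    obtain ⟨k2, b1, b2, b3⟩ := hbet _ g2
    have m1 := S.gate_mem c (x * cs.wordProd (altw (Sum.inl a) (Sum.inl b) i))
    have m2 := S.gate_mem c (x * cs.wordProd (altw (Sum.inl a) (Sum.inl b) j))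
    have h4 : 3 ≤ (Wl cs (S.gate c (x * cs.wordProd (altw (Sum.inl a) (Sum.inl b) i)))
      (S.gate c (x * cs.wordProd (altw (Sum.inl a) (Sum.inl b) j)))).ncard := h3
    rw [a3, b3] at h4
    rw [a3] at m1
    rw [b3] at m2
    have hlen : ∀ p q : ℕ, p ≤ q →
        (Wl cs (x * cs.wordProd (altw (Sum.inl a) (Sum.inl b) p))
          (x * cs.wordProd (altw (Sum.inl a) (Sum.inl b) q))).ncard = q - p := by
      intro p q hpq
      rw [altw_split x _ _ p q hpq, Wl_ncard, inv_mul_cancel_left]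
      have hr : Rigid MM ((altw (Sum.inl a) (Sum.inl b) q).drop p) :=
        List.IsChain.drop (altw_rigid (Sum.inl a) (Sum.inl b) hab q) p
      rw [(rigid_reduced cs hMM _ hr).eq, List.length_drop, altw_length]
    rcases le_total k1 k2 with hk | hk
    · rw [hlen k1 k2 hk] at h4
      exact no_alt x a b hab c k1 k2 (by omega) m1 m2
    · rw [Wl_comm, hlen k2 k1 hk] at h4
      exact no_alt x a b hab c k2 k1 (by omega) m2 m1

theorem L_alt (x : Wh) (a b : ZMod 5 × Bool) (hab : MM (Sum.inl a) (Sum.inl b) = 0)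
    (i j : ℕ) (v : Wh)
    (hv : v ∈ S.L (x * cs.wordProd (altw (Sum.inl a) (Sum.inl b) i))
      (x * cs.wordProd (altw (Sum.inl a) (Sum.inl b) j))) :
    ∃ k, min i j ≤ k ∧ v = x * cs.wordProd (altw (Sum.inl a) (Sum.inl b) k) := by
  rcases le_total i j with h | h
  · rw [min_eq_left h]
    exact L_alt_aux x a b hab i j h v hv
  · rw [min_eq_right h]
    obtain ⟨C, hC, -⟩ := S.main
    rw [hC] at hv
    exact L_alt_aux x a b hab j i h v hv

end Pool.Agent.Helper376.LC
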