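import Mathlib
import Pool.Agent.Helper376.LC.Space
import Pool.Agent.Helper376.LC.Bside
import Pool.Agent.Helper376.LC.Conc2

/-! Part of the construction (see Defs and Conc). -/

namespace Pool.Agent.Helper376.LC


theorem adj_bside_sp_zero : sp 0 = 1 := by
  have h := sp_even 0
  simpa using h

theorem adj_bside_el_zero (k : ℕ) : el 0 k = rho k := by
  unfold el
  rw [adj_bside_sp_zero, one_mul]

theorem adj_bside_one_mem (g x y : Wh) (hxQ : x ∈ QS g) (hyQ : y ∈ QS g) (hx : ¬ bside x)
    (hy : bside y) : (1 : Wh) ∈ QS g := by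
  obtain ⟨t, k, h, rfl⟩ := hxQ
  obtain ⟨t', k', h', rfl⟩ := hyQ
  obtain ⟨ω, h1, h2, h3, h4, -⟩ := comb_word t k t' k' h h'
  have hlast : bside (g * el t k * cs.wordProd (ω.take ω.length)) := by
    rw [List.take_length, mul_assoc, ← h2]
    exact hy
  have hfirst : ¬ bside (g * el t k * cs.wordProd (ω.take 0)) := by
    rw [List.take_zero, cs.wordProd_nil, mul_one]
    exact hx
  have hex : ∃ j, bside (g * el t k * cs.wordProd (ω.take j)) := ⟨_, hlast⟩
  classical
  have hspec := Nat.find_spec hex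
  have hmin := fun j hj => Nat.find_min (m := j) hex hj
  set n := Nat.find hex with hn
  have hnle : n ≤ ω.length := Nat.find_min' hex hlast
  cases hn' : n with
  | zero =>
    rw [hn'] at hspec
    exact absurd hspec hfirst
  | succ j =>
    have hj : j < ω.length := by omega
    have h5 := hmin j (by omega)
    have h6 : g * el t k * cs.wordProd (ω.take (j + 1)) =
        g * el t k * cs.wordProd (ω.take j) * sg (ω[j]) := by
      rw [mul_assoc (g * el t k)]
      congr 1
      rw [List.take_succ_eq_append_getElem hj, cs.wordProd_append, cs.wordProd_singleton]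
    rw [hn', h6] at hspec
    have h7 := bside_step _ _ h5 hspec
    obtain ⟨t1, k1, h8, h9⟩ := h4 j
    refine ⟨t1, k1, h8, ?_⟩
    rw [← h9, ← mul_assoc, h7]

theorem adj_bside (x y : Wh) (h : S.graph.Adj x y) (hx : ¬ bside x) (hy : bside y) :
    ∃ k, x = rho k := by
  rcases h with h | ⟨c, p, h⟩
  · have h1 : (Wl cs x y).ncard = 1 := h
    rw [Wl_ncard, cs.length_eq_one_iff] at h1
    obtain ⟨a, ha⟩ := h1
    have h2 : y = x * sg a := by rw [← inv_mul_eq_iff_eq_mul]; exact ha
    rw [h2] at hy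
    exact ⟨0, bside_step x a hx hy⟩
  · have hQ : ∀ u : ℤ × ℕ, S.θ c u ∈ QS (rep c) := S.θ_mem c
    have hxQ : x ∈ QS (rep c) := by
      rcases h with h | h
      · rw [h.1]; exact hQ _
      · rw [h.2]; exact hQ _
    have hyQ : y ∈ QS (rep c) := by
      rcases h with h | h
      · rw [h.2]; exact hQ _
      · rw [h.1]; exact hQ _
    have h1 := adj_bside_one_mem (rep c) x y hxQ hyQ hx hy
    have h2 : (1 : Wh) ∈ QS 1 := by
      refine ⟨0, 0, Or.inl rfl, ?_⟩
      rw [adj_bside_el_zero, one_mul]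
      rfl
    obtain ⟨n, hn⟩ := QS_unique 1 (rep c) Gs.one_mem (rep_mem c) 1 h2 h1
    rw [hn, QS_mul_zpow] at hxQ
    obtain ⟨t, k, h3, h4⟩ := hxQ
    rw [one_mul] at h4
    refine ⟨k, ?_⟩
    by_cases ht : t = 0
    · rw [h4, ht, adj_bside_el_zero]
    · exfalso
      apply hx
      rw [h4]
      exact bside_el t k h3 ht

end Pool.Agent.Helper376.LC
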