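import Mathlib
import Pool.Agent.Helper376.LC.Space
import Pool.Agent.Helper376.LC.Conc2
import Pool.Agent.Helper376.LC.Coset

/-! Part of the construction (see Defs and Conc). -/

namespace Pool.Agent.Helper376.LC



/-- The relation. -/
def RR (r : ℕ) (u v : Wh) : Prop :=
  (u ∈ GW ∧ r < cs.length u) ∧ (v ∈ GW ∧ r < cs.length v) ∧ S.graph.Adj u v

theorem RR_symm (r : ℕ) {u v : Wh} (h : RR r u v) : RR r v u := ⟨h.2.1, h.1, h.2.2.symm⟩

theorem RT_symm (r : ℕ) {u v : Wh} (h : Relation.ReflTransGen (RR r) u v) :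
    Relation.ReflTransGen (RR r) v u := by
  induction h with
  | refl => exact Relation.ReflTransGen.refl
  | tail _ hbc ih => exact Relation.ReflTransGen.head (RR_symm r hbc) ih

theorem adj_sg (u : Wh) (a : ZMod 5 × Bool) : S.graph.Adj u (u * sg (Sum.inl a)) := by
  left
  show (Wl cs u (u * cs.simple (Sum.inl a))).ncard = 1
  rw [Wl_mul_simple, Set.ncard_singleton]

theorem GW_mul (u w : Wh) (hu : u ∈ GW) (hw : w ∈ Ws) : u * w ∈ GW := by
  obtain ⟨g, hg, w', hw', rfl⟩ := hu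
  exact ⟨g, hg, w' * w, Ws.mul_mem hw' hw, mul_assoc _ _ _⟩

theorem coset_RR (r : ℕ) (x y : Wh) (hxG : x ∈ GW) (hxy : x⁻¹ * y ∈ Ws) (hx : r < cs.length x)
    (hy : r < cs.length y) : Relation.ReflTransGen (RR r) x y := by
  have h := coset_connected r x y hxy hx hy
  suffices hs : Relation.ReflTransGen (RR r) x y ∧ y ∈ GW from hs.1
  clear hxy hy
  induction h with
  | refl => exact ⟨Relation.ReflTransGen.refl, hxG⟩
  | tail _ hbc ih =>
    obtain ⟨ih1, ih2⟩ := ih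
    obtain ⟨h1, h2, a, rfl⟩ := hbc
    have h3 := GW_mul _ _ ih2 (sg_mem_Ws a)
    exact ⟨ih1.tail ⟨⟨ih2, h1⟩, ⟨h3, h2⟩, adj_sg _ a⟩, h3⟩

theorem length_rho (k : ℕ) : cs.length (rho k) = k := by
  have h := el_length 0 0 0 k (Or.inl rfl) (Or.inr rfl)
  have h1 : el 0 0 = 1 := by simp [el, sp, rho]
  have h2 : el 0 k = rho k := by simp [el, sp]
  rw [h1, h2, inv_one, one_mul] at h
  rw [h]
  simp [cd]

theorem length_mul_rho (g : Wh) (k : ℕ) : k - cs.length g ≤ cs.length (g * rho k) := by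
  have h := cs.length_le_length_mul_add_left g (rho k)
  rw [length_rho] at h
  omega

theorem adj_par (g : Wh) (hg : g ∈ Gs) (k : ℕ) :
    S.graph.Adj (g * rho k) (g * bb⁻¹ * rho (k / 2)) := by
  obtain ⟨c, n, hc⟩ := exists_rep g hg
  right
  refine ⟨c, (-n, k), Or.inl ⟨?_, ?_⟩⟩
  · show g * rho k = rep c * (bb ^ (-(-n)) * rho k)
    rw [neg_neg, ← mul_assoc, ← hc]
  · show g * bb⁻¹ * rho (k / 2) = rep c * (bb ^ (-(-n + 1)) * rho (k / 2))
    rw [← mul_assoc, hc]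
    congr 1
    rw [mul_assoc]
    congr 1
    rw [show (-(-n + 1) : ℤ) = n - 1 by ring, zpow_sub_one]

theorem Gs_eq : Gs = Subgroup.closure ((As : Set Wh) ∪ {bb}) := by
  rw [Subgroup.closure_union, Subgroup.closure_eq, ← Subgroup.zpowers_eq_closure]
  rfl

theorem link (r : ℕ) (g : Wh) (hg : g ∈ Gs) : ∃ u v : Wh, g⁻¹ * u ∈ Ws ∧ (g * bb⁻¹)⁻¹ * v ∈ Ws ∧
    RR r u v := by
  set k := 2 * (r + 1 + cs.length g + cs.length (g * bb⁻¹)) with hk
  have h1 := length_mul_rho g k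
  have h2 := length_mul_rho (g * bb⁻¹) (k / 2)
  refine ⟨g * rho k, g * bb⁻¹ * rho (k / 2), ?_, ?_, ?_⟩
  · rw [inv_mul_cancel_left]; exact rho_mem k
  · rw [inv_mul_cancel_left]; exact rho_mem _
  · refine ⟨⟨⟨g, hg, _, rho_mem k, rfl⟩, by omega⟩, ⟨⟨g * bb⁻¹, Gs.mul_mem hg
      (Gs.inv_mem bb_mem_Gs), _, rho_mem _, rfl⟩, by omega⟩, adj_par g hg k⟩

theorem all_conn (r : ℕ) (g : Wh) (hg : g ∈ Gs) : ∀ x y : Wh, g⁻¹ * x ∈ Ws → y ∈ Ws →
    r < cs.length x → r < cs.length y → Relation.ReflTransGen (RR r) x y := by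
  rw [Gs_eq] at hg
  induction hg using Subgroup.closure_induction_right with
  | one =>
    intro x y hx hy hx' hy'
    rw [inv_one, one_mul] at hx
    exact coset_RR r x y ⟨1, Gs.one_mem, x, hx, (one_mul x).symm⟩
      (Ws.mul_mem (Ws.inv_mem hx) hy) hx' hy'
  | mul_right g hg b hb ih =>
    rw [← Gs_eq] at hg
    intro x y hx hy hx' hy'
    rcases hb with hb | hb
    · refine ih x y ?_ hy hx' hy'
      have h1 : g⁻¹ * x = b * ((g * b)⁻¹ * x) := by group
      rw [h1]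
      exact Ws.mul_mem ((mem_As b).1 hb).1 hx
    · have hb' : b = bb := hb
      subst hb'
      have hgb : g * bb ∈ Gs := Gs.mul_mem hg bb_mem_Gs
      obtain ⟨u, v, h1, h2, h3⟩ := link r (g * bb) hgb
      have h4 : Relation.ReflTransGen (RR r) x u := by
        refine coset_RR r x u ⟨g * bb, hgb, _, hx, by group⟩ ?_ hx' h3.1.2
        have : x⁻¹ * u = ((g * bb)⁻¹ * x)⁻¹ * ((g * bb)⁻¹ * u) := by group
        rw [this]
        exact Ws.mul_mem (Ws.inv_mem hx) h1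
      have h5 : Relation.ReflTransGen (RR r) v y := by
        refine ih v y ?_ hy h3.2.1.2 hy'
        rwa [mul_inv_cancel_right] at h2
      exact (h4.tail h3).trans h5
  | mul_inv_cancel g hg b hb ih =>
    rw [← Gs_eq] at hg
    intro x y hx hy hx' hy'
    rcases hb with hb | hb
    · refine ih x y ?_ hy hx' hy'
      have h1 : g⁻¹ * x = b⁻¹ * ((g * b⁻¹)⁻¹ * x) := by group
      rw [h1]
      exact Ws.mul_mem (Ws.inv_mem ((mem_As b).1 hb).1) hx
    · have hb' : b = bb := hb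
      subst hb'
      have hgb : g * bb⁻¹ ∈ Gs := Gs.mul_mem hg (Gs.inv_mem bb_mem_Gs)
      obtain ⟨u, v, h1, h2, h3⟩ := link r g hg
      have h4 : Relation.ReflTransGen (RR r) x v := by
        refine coset_RR r x v ⟨g * bb⁻¹, hgb, _, hx, by group⟩ ?_ hx' h3.2.1.2
        have : x⁻¹ * v = ((g * bb⁻¹)⁻¹ * x)⁻¹ * ((g * bb⁻¹)⁻¹ * v) := by group
        rw [this]
        exact Ws.mul_mem (Ws.inv_mem hx) h2
      have h5 : Relation.ReflTransGen (RR r) u y := ih u y h1 hy h3.1.2 hy'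
      exact (h4.tail (RR_symm r h3)).trans h5

theorem GW_connected (r : ℕ) (x y : Wh) (hx : x ∈ GW) (hy : y ∈ GW) (hx' : r < cs.length x)
    (hy' : r < cs.length y) :
    Relation.ReflTransGen (fun u v => (u ∈ GW ∧ r < cs.length u) ∧ (v ∈ GW ∧ r < cs.length v) ∧
      S.graph.Adj u v) x y := by
  show Relation.ReflTransGen (RR r) x y
  obtain ⟨g, hg, w, hw, hxe⟩ := hx
  obtain ⟨g', hg', w', hw', hye⟩ := hy
  have hz : r < cs.length (rho (r + 1)) := by rw [length_rho]; omega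
  have h1 := all_conn r g hg x (rho (r + 1)) (by rw [hxe, inv_mul_cancel_left]; exact hw)
    (rho_mem _) hx' hz
  have h2 := all_conn r g' hg' y (rho (r + 1)) (by rw [hye, inv_mul_cancel_left]; exact hw')
    (rho_mem _) hy' hz
  exact h1.trans (RT_symm r h2)

end Pool.Agent.Helper376.LC

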