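import Mathlib
import Pool.Agent.Helper376.LC.Defs
import Pool.Agent.Helper376.LC.Geo
import Pool.Agent.Helper376.LC.Guess
import Pool.Agent.Helper376.LC.Bdry
import Pool.Agent.Helper376.LC.Space
import Pool.Agent.Helper376.LC.AsFg
import Pool.Agent.Helper376.LC.Ext
import Pool.Agent.Helper376.LC.Bside
import Pool.Agent.Helper376.LC.Coset
import Pool.Agent.Helper376.LC.Sp1
import Pool.Agent.Helper376.LC.Sp2
import Pool.Agent.Helper376.LC.Sp3
import Pool.Agent.Helper376.LC.Sp4

/-! Assembly of the construction. -/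

namespace Pool.Agent.Helper376.LC

instance : Nonempty Wh := ⟨1⟩

/-- Graph distance. -/
noncomputable abbrev gd (x y : Wh) : ℕ := S.graph.dist x y

theorem gd_comm (x y : Wh) : gd x y = gd y x := SimpleGraph.dist_comm

theorem gd_tri (x y z : Wh) : gd x z ≤ gd x y + gd y z := S.graph_connected.dist_triangle

theorem gd_le_length (x y : Wh) : gd x y ≤ cs.length (x⁻¹ * y) := by
  have h := S.dist_le_ncard x y
  have h1 : (S.Wl x y).ncard = cs.length (x⁻¹ * y) := Wl_ncard cs x y
  rw [h1] at h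
  exact h

theorem gd_one_le_length (x : Wh) : gd 1 x ≤ cs.length x := by
  have h := gd_le_length 1 x
  rwa [inv_one, one_mul] at h

theorem far (N : ℕ) : ∃ r : ℕ, ∀ v : Wh, r ≤ cs.length v → N ≤ gd 1 v := by
  obtain ⟨B, hB⟩ := ((finite_ball N).image cs.length).bddAbove
  refine ⟨B + 1, fun v hv => ?_⟩
  by_contra hcon
  push Not at hcon
  have h1 : cs.length v ≤ B := hB ⟨v, le_of_lt hcon, rfl⟩
  omega

theorem gd_mul_left_le (g : Wh) (hg : g ∈ Gs) (x y : Wh) : gd (g * x) (g * y) ≤ gd x y := by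
  obtain ⟨p, hp⟩ := S.graph_connected.exists_walk_length_eq_dist x y
  let e : S.graph →g S.graph :=
    { toFun := fun z => g * z
      map_rel' := by
        intro a b h
        exact (graph_adj_mul g hg a b).2 h }
  have h1 : S.graph.dist (g * x) (g * y) ≤ (p.map e).length := SimpleGraph.dist_le (p.map e)
  rw [SimpleGraph.Walk.length_map, hp] at h1
  exact h1

theorem gd_mul_left (g : Wh) (hg : g ∈ Gs) (x y : Wh) : gd (g * x) (g * y) = gd x y := by
  apply le_antisymm (gd_mul_left_le g hg x y)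
  have h := gd_mul_left_le g⁻¹ (Gs.inv_mem hg) (g * x) (g * y)
  rwa [inv_mul_cancel_left, inv_mul_cancel_left] at h

/-- Crossing from the non-`b` side to the `b` side. -/
theorem cross_walk (x y : Wh) (p : S.graph.Walk x y) (hx : ¬ bside x) (hy : bside y) :
    ∃ k, gd x (rho k) ≤ p.length := by
  induction p with
  | nil => exact absurd hy hx
  | @cons u v w h q ih =>
    by_cases hv : bside v
    · obtain ⟨k, hk⟩ := adj_bside u v h hx hv
      refine ⟨k, ?_⟩
      rw [← hk]
      show S.graph.dist u u ≤ _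
      rw [SimpleGraph.dist_self]
      exact Nat.zero_le _
    · obtain ⟨k, hk⟩ := ih hv hy
      refine ⟨k, ?_⟩
      have h1 := gd_tri u v (rho k)
      have h2 : gd u v = 1 := SimpleGraph.dist_eq_one_iff_adj.2 h
      rw [SimpleGraph.Walk.length_cons]
      omega

theorem cross_dist (x y : Wh) (hx : ¬ bside x) (hy : bside y) :
    ∃ k, gd x (rho k) ≤ gd x y := by
  obtain ⟨p, hp⟩ := S.graph_connected.exists_walk_length_eq_dist x y
  obtain ⟨k, hk⟩ := cross_walk x y p hx hy
  exact ⟨k, hk.trans (le_of_eq hp)⟩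

theorem gd_bb_rho (g : Wh) (hg : g ∈ Gs) (k : ℕ) : gd (g * rho k) (g * bb⁻¹ * rho (k / 2)) ≤ 1 := by
  obtain ⟨c, n, hn⟩ := exists_rep g hg
  have h : S.graph.Adj (g * rho k) (g * bb⁻¹ * rho (k / 2)) := by
    right
    refine ⟨c, (-n, k), Or.inl ⟨?_, ?_⟩⟩
    · show _ = tht (rep c) (-n, k)
      unfold tht
      rw [hn, neg_neg, mul_assoc]
    · show _ = tht (rep c) (par (-n, k))
      unfold tht par
      show _ = rep c * (bb ^ (-(-n + 1)) * rho (k / 2))
      rw [hn, ← mul_assoc]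
      congr 1
      rw [mul_assoc]
      congr 1
      rw [← zpow_sub_one]
      congr 1
      ring
  exact le_of_eq (SimpleGraph.dist_eq_one_iff_adj.2 h)

theorem gd_pow_rho (n k : ℕ) : gd (bb ^ (n : ℤ) * rho k) (rho (k / 2 ^ n)) ≤ n := by
  induction n generalizing k with
  | zero =>
    simp [SimpleGraph.dist_self]
  | succ n ih =>
    have h1 := gd_bb_rho (bb ^ ((n + 1 : ℕ) : ℤ)) (bb_zpow_mem _) k
    have h2 : bb ^ ((n + 1 : ℕ) : ℤ) * bb⁻¹ = bb ^ (n : ℤ) := by
      rw [← zpow_sub_one]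
      congr 1
      push_cast
      ring
    rw [h2] at h1
    have h3 := ih (k / 2)
    have h4 : k / 2 / 2 ^ n = k / 2 ^ (n + 1) := by
      rw [Nat.div_div_eq_div_mul, pow_succ, mul_comm]
    rw [h4] at h3
    have h5 := gd_tri (bb ^ ((n + 1 : ℕ) : ℤ) * rho k) (bb ^ (n : ℤ) * rho (k / 2))
      (rho (k / 2 ^ (n + 1)))
    omega

theorem length_y (n : ℕ) : cs.length (bb ^ ((n : ℕ) : ℤ) * rho (2 ^ n)) ≥ n := by
  have h := el_length 0 0 (2 * (n : ℤ)) (2 ^ n) (Or.inl rfl) (CP_even _ _)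
  have h0 : el 0 0 = 1 := by
    unfold el sp rho
    simp
  rw [h0, inv_one, one_mul] at h
  have h1 : el (2 * (n : ℤ)) (2 ^ n) = bb ^ ((n : ℕ) : ℤ) * rho (2 ^ n) := by
    unfold el
    rw [sp_even]
  rw [h1] at h
  rw [h]
  generalize (2 : ℕ) ^ n = M
  unfold cd
  split_ifs with h2
  · omega
  · omega

theorem Gs_fg : Group.FG Gs := by
  rw [Group.fg_iff_subgroup_fg]
  unfold Gs
  refine Subgroup.FG.sup As_fg ?_
  exact ⟨{bb}, by rw [Finset.coe_singleton, Subgroup.zpowers_eq_closure]⟩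


/-- Gromov products, real valued. -/
theorem gpr_le_left (o x y : Wh) : gpr S.graph o x y ≤ gd o x := by
  unfold gpr
  have h1 : (gd y o : ℝ) ≤ gd x y + gd x o := by
    have := gd_tri y x o
    rw [gd_comm y x] at this
    exact_mod_cast this
  have h2 : (gd o x : ℝ) = gd x o := by rw [gd_comm]
  have h3 : (S.graph.dist x o : ℝ) = gd x o := rfl
  have h4 : (S.graph.dist y o : ℝ) = gd y o := rfl
  have h5 : (S.graph.dist x y : ℝ) = gd x y := rfl
  rw [h3, h4, h5, h2]
  linarith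

theorem gpr_ge_sub (o x y : Wh) : (gd o x : ℝ) - gd x y ≤ gpr S.graph o x y := by
  unfold gpr
  have h1 : (gd x o : ℝ) ≤ gd x y + gd y o := by exact_mod_cast gd_tri x y o
  have h2 : (gd o x : ℝ) = gd x o := by rw [gd_comm]
  have h3 : (S.graph.dist x o : ℝ) = gd x o := rfl
  have h4 : (S.graph.dist y o : ℝ) = gd y o := rfl
  have h5 : (S.graph.dist x y : ℝ) = gd x y := rfl
  rw [h3, h4, h5, h2]
  linarith

theorem gpr_change (o x y y' : Wh) : gpr S.graph o x y - gd y y' ≤ gpr S.graph o x y' := by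
  unfold gpr
  have h1 : (gd y o : ℝ) ≤ gd y y' + gd y' o := by exact_mod_cast gd_tri y y' o
  have h2 : (gd x y' : ℝ) ≤ gd x y + gd y y' := by exact_mod_cast gd_tri x y y'
  have h3 : (S.graph.dist x o : ℝ) = gd x o := rfl
  have h4 : (S.graph.dist y o : ℝ) = gd y o := rfl
  have h5 : (S.graph.dist x y : ℝ) = gd x y := rfl
  have h6 : (S.graph.dist x y' : ℝ) = gd x y' := rfl
  have h7 : (S.graph.dist y' o : ℝ) = gd y' o := rfl
  rw [h3, h4, h5, h6, h7]
  linarith

theorem gpr_base (o o' x y : Wh) : gpr S.graph o x y - gd o o' ≤ gpr S.graph o' x y := by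
  unfold gpr
  have h1 : (gd x o : ℝ) ≤ gd x o' + gd o o' := by
    have := gd_tri x o' o
    rw [gd_comm o' o] at this
    exact_mod_cast this
  have h2 : (gd y o : ℝ) ≤ gd y o' + gd o o' := by
    have := gd_tri y o' o
    rw [gd_comm o' o] at this
    exact_mod_cast this
  have h3 : (S.graph.dist x o : ℝ) = gd x o := rfl
  have h4 : (S.graph.dist y o : ℝ) = gd y o := rfl
  have h5 : (S.graph.dist x y : ℝ) = gd x y := rfl
  have h6 : (S.graph.dist x o' : ℝ) = gd x o' := rfl
  have h7 : (S.graph.dist y o' : ℝ) = gd y o' := rfl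
  rw [h3, h4, h5, h6, h7]
  linarith

theorem gpr_mul_left (g : Wh) (hg : g ∈ Gs) (o x y : Wh) :
    gpr S.graph (g * o) (g * x) (g * y) = gpr S.graph o x y := by
  unfold gpr
  have h1 : S.graph.dist (g * x) (g * o) = S.graph.dist x o := gd_mul_left g hg x o
  have h2 : S.graph.dist (g * y) (g * o) = S.graph.dist y o := gd_mul_left g hg y o
  have h3 : S.graph.dist (g * x) (g * y) = S.graph.dist x y := gd_mul_left g hg x y
  rw [h1, h2, h3]

/-- The hyperbolicity package. -/
theorem package : ∃ (C : ℕ) (R : ℝ), 0 ≤ R ∧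
    (∀ o x y z, min (gpr S.graph o x z) (gpr S.graph o z y) - R ≤ gpr S.graph o x y) ∧
    (∀ x y, ∀ v ∈ S.L x y, ∀ o, gpr S.graph o x y - R ≤ gpr S.graph o x v) ∧
    (∀ x y, ∀ v ∈ S.L x y, ∀ o, gpr S.graph o x y ≤ gd o v + R) ∧
    (∀ o x y, ∀ N : ℝ, (∀ v ∈ S.L x y, N ≤ (gd o v : ℝ)) → N - R ≤ gpr S.graph o x y) ∧
    (∀ x y, Relation.ReflTransGen
      (fun a b => a ∈ S.L x y ∧ b ∈ S.L x y ∧ gd a b ≤ C) x y) := by
  obtain ⟨C, h1, h2, h3, h4, h5, h6⟩ := S.main
  obtain ⟨R, hR1, hR2, hR3⟩ := guessing_geodesics S.graph S.graph_connected S.L C h1 h2 h3 h4 h5 h6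
  refine ⟨C, |R|, abs_nonneg R, ?_, ?_, ?_, ?_, h5⟩
  · intro o x y z
    have := hR1 o x y z
    have h7 := le_abs_self R
    linarith
  · intro x y v hv o
    have h7 := hR2 x y v hv
    have h8 := le_abs_self R
    have h9 : (gd v y : ℝ) + gd v o ≥ gd y o := by
      have := gd_tri y v o
      rw [gd_comm y v] at this
      exact_mod_cast this
    unfold gpr
    have e3 : (S.graph.dist x o : ℝ) = gd x o := rfl
    have e4 : (S.graph.dist y o : ℝ) = gd y o := rfl
    have e5 : (S.graph.dist x y : ℝ) = gd x y := rfl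
    have e6 : (S.graph.dist x v : ℝ) = gd x v := rfl
    have e7 : (S.graph.dist v o : ℝ) = gd v o := rfl
    have e8 : (S.graph.dist v y : ℝ) = gd v y := rfl
    rw [e3, e4, e5, e6, e7]
    rw [e5, e6, e8] at h7
    have h10 := abs_nonneg R
    linarith
  · intro x y v hv o
    have h7 := hR2 x y v hv
    have h8 := le_abs_self R
    have h10 := abs_nonneg R
    have h9 : (gd y o : ℝ) ≤ gd v y + gd v o := by
      have := gd_tri y v o
      rw [gd_comm y v] at this
      exact_mod_cast this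
    have h11 : (gd x o : ℝ) ≤ gd x v + gd v o := by exact_mod_cast gd_tri x v o
    have h12 : (gd o v : ℝ) = gd v o := by rw [gd_comm]
    unfold gpr
    have e3 : (S.graph.dist x o : ℝ) = gd x o := rfl
    have e4 : (S.graph.dist y o : ℝ) = gd y o := rfl
    have e5 : (S.graph.dist x y : ℝ) = gd x y := rfl
    have e6 : (S.graph.dist x v : ℝ) = gd x v := rfl
    have e8 : (S.graph.dist v y : ℝ) = gd v y := rfl
    rw [e3, e4, e5, h12]
    rw [e5, e6, e8] at h7
    linarith
  · intro o x y N hN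
    have := hR3 o x y N hN
    have h8 := le_abs_self R
    linarith

end Pool.Agent.Helper376.LC
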