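import Mathlib
import Pool.Agent.Helper376.LC.Final

/-! The counterexample. -/

namespace Pool.Agent.Helper376.LC

/-- Index `n` of the pieces. -/
noncomputable abbrev bn (n : ℕ) : Wh := bb ^ ((n + 1 : ℕ) : ℤ)

/-- The points accumulating at `xi`. -/
noncomputable def yy (n : ℕ) : Wh := bn n * rho (2 ^ (n + 1))

theorem yy_mem_GW (n : ℕ) : yy n ∈ GW := ⟨_, bb_zpow_mem _, _, rho_mem _, rfl⟩

theorem exists_ab (n : ℕ) : ∃ ab : (ZMod 5 × Bool) × (ZMod 5 × Bool),
    MM (Sum.inl ab.1) (Sum.inl ab.2) = 0 ∧ ¬ cs.IsRightDescent (yy n) (Sum.inl ab.1) := by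
  obtain ⟨a, b, h1, h2, -⟩ := exists_dir (yy n) 1 Ws.one_mem
  exact ⟨(a, b), h1, h2⟩

/-- The pair of letters used after `yy n`. -/
noncomputable def ab (n : ℕ) : (ZMod 5 × Bool) × (ZMod 5 × Bool) := Classical.choose (exists_ab n)

/-- Extensions of `yy n`. -/
noncomputable def pp (n j : ℕ) : Wh :=
  yy n * cs.wordProd (altw (Sum.inl (ab n).1) (Sum.inl (ab n).2) j)

theorem altw_mem_Ws (a b : ZMod 5 × Bool) (n : ℕ) :
    cs.wordProd (altw (Sum.inl a) (Sum.inl b) n) ∈ Ws := by
  induction n generalizing a b with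
  | zero => rw [altw, cs.wordProd_nil]; exact Ws.one_mem
  | succ n ih => rw [altw, cs.wordProd_cons]; exact Ws.mul_mem (sg_mem_Ws a) (ih b a)

theorem pp_zero (n : ℕ) : pp n 0 = yy n := by
  unfold pp
  rw [altw, cs.wordProd_nil, mul_one]

theorem pp_length (n j : ℕ) : cs.length (pp n j) = cs.length (yy n) + j :=
  length_mul_altw (yy n) _ _ (Classical.choose_spec (exists_ab n)).1
    (Classical.choose_spec (exists_ab n)).2 j

theorem pp_mem_GW (n j : ℕ) : pp n j ∈ GW := by
  refine ⟨bn n, bb_zpow_mem _, rho (2 ^ (n + 1)) *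
    cs.wordProd (altw (Sum.inl (ab n).1) (Sum.inl (ab n).2) j), ?_, ?_⟩
  · exact Ws.mul_mem (rho_mem _) (altw_mem_Ws _ _ _)
  · unfold pp yy
    rw [mul_assoc]

theorem pp_not_bside (n j : ℕ) : ¬ bside ((bn n)⁻¹ * pp n j) := by
  have h : (bn n)⁻¹ * pp n j = rho (2 ^ (n + 1)) *
      cs.wordProd (altw (Sum.inl (ab n).1) (Sum.inl (ab n).2) j) := by
    unfold pp yy
    group
  rw [h]
  exact not_bside_of_mem_Ws _ (Ws.mul_mem (rho_mem _) (altw_mem_Ws _ _ _))

theorem pp_L (n j j' : ℕ) (v : Wh) (hv : v ∈ S.L (pp n j) (pp n j')) :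
    cs.length (yy n) ≤ cs.length v := by
  obtain ⟨k, -, h⟩ := L_alt (yy n) _ _ (Classical.choose_spec (exists_ab n)).1 j j' v hv
  rw [h, length_mul_altw (yy n) _ _ (Classical.choose_spec (exists_ab n)).1
    (Classical.choose_spec (exists_ab n)).2]
  exact Nat.le_add_right _ _

theorem main_result : ∃ (X : Type) (_ : MetricSpace X) (G : Type) (_ : Group G)
    (_ : MulAction G X), Nonempty X ∧ ProperSpace X ∧ GeodesicSpace X ∧ GromovHyperbolic X ∧
    Group.FG G ∧ (∀ (g : G) (x y : X), dist (g • x) (g • y) = dist x y) ∧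
    (∀ K : Set X, IsCompact K → {g : G | ((fun x => g • x) '' K ∩ K).Nonempty}.Finite) ∧
    ∀ x : X, IsConnected (limitSet G x) ∧ ¬ LocallyConnectedSpace (limitSet G x) := by
  obtain ⟨X, mX, aX, ι, hprop, hgeo, hiso, hdist, hequi, hdense⟩ :=
    exists_realization (G := Gs) S.graph S.graph_connected neighborSet_finite
      (fun g a b => graph_adj_mul (g : Wh) g.2 a b)
  obtain ⟨C, R, hR0, h4, hLp, hLu, hLl, hpath⟩ := package
  have hd : ∀ a b, dist (ι a) (ι b) = (gd a b : ℝ) := hdist
  have hgp : ∀ a b c, gprod (ι a) (ι b) (ι c) = gpr S.graph a b c := by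
    intro a b c
    unfold gprod gpr
    rw [hdist, hdist, hdist]
  have hhyp : GromovHyperbolic X := by
    refine ⟨R + 6, fun o x y z => ?_⟩
    obtain ⟨o', ho⟩ := hdense o
    obtain ⟨x', hx⟩ := hdense x
    obtain ⟨y', hy⟩ := hdense y
    obtain ⟨z', hz⟩ := hdense z
    have key : ∀ (a b : X) (a' b' : Wh), dist a (ι a') ≤ 1 → dist b (ι b') ≤ 1 →
        |gprod o a b - gprod (ι o') (ι a') (ι b')| ≤ 3 := by
      intro a b a' b' ha hb
      unfold gprod
      have h1 : |dist a o - dist (ι a') (ι o')| ≤ 2 := by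
        have := dist_dist_dist_le a o (ι a') (ι o')
        rw [Real.dist_eq] at this
        linarith
      have h2 : |dist b o - dist (ι b') (ι o')| ≤ 2 := by
        have := dist_dist_dist_le b o (ι b') (ι o')
        rw [Real.dist_eq] at this
        linarith
      have h3 : |dist a b - dist (ι a') (ι b')| ≤ 2 := by
        have := dist_dist_dist_le a b (ι a') (ι b')
        rw [Real.dist_eq] at this
        linarith
      rw [abs_le] at h1 h2 h3 ⊢
      constructor <;> linarith [h1.1, h1.2, h2.1, h2.2, h3.1, h3.2]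
    have k1 := key x z x' z' hx hz
    have k2 := key z y z' y' hz hy
    have k3 := key x y x' y' hx hy
    have k4 := h4 o' x' y' z'
    rw [hgp] at k1 k2 k3
    rw [abs_le] at k1 k2 k3
    have k5 : min (gprod o x z) (gprod o z y) ≤
        min (gpr S.graph o' x' z') (gpr S.graph o' z' y') + 3 := by
      rw [← min_add_add_right]
      exact min_le_min (by linarith [k1.2]) (by linarith [k2.2])
    linarith [k3.1]
  have hinj : ∀ a b, ι a = ι b → a = b := by
    intro a b h
    have h1 : (gd a b : ℝ) = 0 := by rw [← hd, h, dist_self]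
    have h2 : gd a b = 0 := by exact_mod_cast h1
    exact S.graph_connected.dist_eq_zero_iff.1 h2
  refine ⟨X, mX, Gs, inferInstance, aX, ⟨ι 1⟩, hprop, hgeo, hhyp, Gs_fg, hiso, ?_, ?_⟩
  · -- proper discontinuity
    intro K hK
    obtain ⟨D, hD⟩ := hK.isBounded.subset_closedBall (ι 1)
    obtain ⟨N, hN⟩ := exists_nat_ge (2 * D)
    have hfin : {v : Wh | gd 1 v ≤ N}.Finite := finite_ball N
    refine Set.Finite.subset (hfin.preimage (f := fun g : Gs => (g : Wh))
      (Subtype.val_injective.injOn)) ?_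
    rintro g ⟨y, ⟨x, hx, hxy⟩, hy⟩
    show gd 1 (g : Wh) ≤ N
    have h1 : dist (ι 1) (ι (g : Wh)) ≤ 2 * D := by
      have e1 : ι (g : Wh) = g • ι 1 := by
        rw [← hequi]
        congr 1
        show (g : Wh) = (g : Wh) * 1
        rw [mul_one]
      rw [e1]
      have h2 : dist (g • ι 1) y ≤ D := by
        have h3 : y = g • x := hxy.symm
        rw [h3, hiso]
        have := hD hx
        rw [Metric.mem_closedBall] at this
        rw [dist_comm]
        exact this
      have h4 : dist y (ι 1) ≤ D := by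
        have := hD hy
        rwa [Metric.mem_closedBall] at this
      calc dist (ι 1) (g • ι 1) = dist (g • ι 1) (ι 1) := dist_comm _ _
        _ ≤ dist (g • ι 1) y + dist y (ι 1) := dist_triangle _ _ _
        _ ≤ 2 * D := by linarith
    rw [hd] at h1
    exact_mod_cast h1.trans hN
  · have hsmul : ∀ g : Gs, g • ι 1 = ι (g : Wh) := by
      intro g
      rw [← hequi]
      congr 1
      show (g : Wh) * 1 = (g : Wh)
      rw [mul_one]
    refine limitSet_connected_not_locallyConnected hgeo hhyp hiso (ι 1) (ι '' GW) ?_ ?_ ?_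
      (fun k => ι (rho k)) ?_ (fun n => ι '' {x | x ∈ GW ∧ ¬ bside ((bn n)⁻¹ * x)}) ?_ ?_ ?_
      (fun n j => ι (pp n j)) ?_ ?_ ?_ ?_
    · -- the orbit
      intro g
      rw [hsmul]
      exact ⟨_, ⟨(g : Wh), g.2, 1, Ws.one_mem, (mul_one _).symm⟩, rfl⟩
    · -- approximation by the orbit
      intro N
      obtain ⟨C0, hC0⟩ := exists_corr
      obtain ⟨N1, hN1⟩ := exists_nat_ge (N + 2 * R + C0)
      obtain ⟨r, hr⟩ := far N1
      refine ⟨r, ?_⟩
      rintro x ⟨v, hv, rfl⟩ hx
      obtain ⟨g0, hg0, w, hw, rfl⟩ := hv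
      obtain ⟨a, b, hab, hRD, n, hn⟩ := exists_dir (g0 * w) w hw
      set u := cs.wordProd (altw (Sum.inl a) (Sum.inl b) n) with hu
      obtain ⟨c, hc, hcA⟩ := hC0 (w * u) (Ws.mul_mem hw (altw_mem_Ws a b n)) hn
      have hlen : r ≤ cs.length (g0 * w) := by
        have h1 : (gd 1 (g0 * w) : ℝ) ≤ cs.length (g0 * w) := by
          exact_mod_cast gd_one_le_length (g0 * w)
        rw [hd] at hx
        have h2 : (r : ℝ) ≤ cs.length (g0 * w) := hx.trans h1
        exact_mod_cast h2
      have hgG : g0 * (w * u * c) ∈ Gs := Gs.mul_mem hg0 (As_le_Gs hcA)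
      refine ⟨⟨g0 * (w * u * c), hgG⟩, ?_⟩
      rw [hsmul, hgp]
      show N ≤ gpr S.graph 1 (g0 * w) (g0 * (w * u * c))
      have e1 : g0 * (w * u * c) = g0 * w * u * c := by group
      rw [e1]
      have k1 : (N1 : ℝ) - R ≤ gpr S.graph 1 (g0 * w) (g0 * w * u) := by
        apply hLl
        intro v hv
        have e2 : g0 * w = g0 * w * cs.wordProd (altw (Sum.inl a) (Sum.inl b) 0) := by
          rw [altw, cs.wordProd_nil, mul_one]
        rw [e2, mul_assoc (g0 * w) (cs.wordProd (altw (Sum.inl a) (Sum.inl b) 0)) u] at hv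
        have e3 : cs.wordProd (altw (Sum.inl a) (Sum.inl b) 0) * u = u := by
          rw [altw, cs.wordProd_nil, one_mul]
        rw [e3] at hv
        obtain ⟨k, -, h⟩ := L_alt (g0 * w) a b hab 0 n v hv
        have h5 : r ≤ cs.length v := by
          rw [h, length_mul_altw _ _ _ hab hRD]
          omega
        exact_mod_cast hr v h5
      have k2 : (N1 : ℝ) - C0 ≤ gpr S.graph 1 (g0 * w * u) (g0 * w * u * c) := by
        have h6 := gpr_ge_sub 1 (g0 * w * u) (g0 * w * u * c)
        have h7 : gd (g0 * w * u) (g0 * w * u * c) ≤ C0 := by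
          have := gd_le_length (g0 * w * u) (g0 * w * u * c)
          rw [inv_mul_cancel_left] at this
          exact this.trans hc
        have h8 : N1 ≤ gd 1 (g0 * w * u) := by
          apply hr
          rw [hu, length_mul_altw _ _ _ hab hRD]
          omega
        have h7' : (gd (g0 * w * u) (g0 * w * u * c) : ℝ) ≤ C0 := by exact_mod_cast h7
        have h8' : (N1 : ℝ) ≤ gd 1 (g0 * w * u) := by exact_mod_cast h8
        linarith
      have k3 := h4 1 (g0 * w) (g0 * w * u * c) (g0 * w * u)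
      have k4 : N + R ≤ min (gpr S.graph 1 (g0 * w) (g0 * w * u))
          (gpr S.graph 1 (g0 * w * u) (g0 * w * u * c)) := by
        apply le_min
        · have : (0 : ℝ) ≤ C0 := Nat.cast_nonneg _
          linarith
        · linarith
      linarith
    · -- connectivity of the complement of balls
      intro N
      obtain ⟨N1, hN1⟩ := exists_nat_ge (N + 1)
      obtain ⟨r, hr⟩ := far N1
      refine ⟨r + 1, ?_⟩
      rintro x ⟨u, hu, rfl⟩ y ⟨v, hv, rfl⟩ hx hy
      have hlen : ∀ w : Wh, (r : ℝ) + 1 ≤ dist (ι 1) (ι w) → r < cs.length w := by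
        intro w hw
        rw [hd] at hw
        have h1 : (gd 1 w : ℝ) ≤ cs.length w := by exact_mod_cast gd_one_le_length w
        have h2 : (r : ℝ) + 1 ≤ cs.length w := hw.trans h1
        have h3 : r + 1 ≤ cs.length w := by exact_mod_cast h2
        omega
      have hc := GW_connected r u v hu hv (hlen u hx) (hlen v hy)
      refine Relation.ReflTransGen.lift (p := fun a b => a ∈ ι '' GW ∧ b ∈ ι '' GW ∧
        N ≤ gprod (ι 1) a b) ι ?_ u v hc
      rintro a b ⟨⟨ha, ha'⟩, ⟨hb, hb'⟩, hadj⟩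
      refine ⟨⟨a, ha, rfl⟩, ⟨b, hb, rfl⟩, ?_⟩
      rw [hgp]
      have h6 := gpr_ge_sub 1 a b
      have h7 : (gd a b : ℝ) = 1 := by
        exact_mod_cast SimpleGraph.dist_eq_one_iff_adj.2 hadj
      have h8 : (N1 : ℝ) ≤ gd 1 a := by exact_mod_cast hr a (le_of_lt ha')
      linarith
    · -- the ray
      intro N
      obtain ⟨N1, hN1⟩ := exists_nat_ge (N + R)
      obtain ⟨r, hr⟩ := far N1
      obtain ⟨K, hK⟩ := L_rho r
      refine ⟨K, fun k hk l hl => ?_⟩
      show N ≤ gprod (ι 1) (ι (rho k)) (ι (rho l))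
      rw [hgp]
      have h1 := hLl 1 (rho k) (rho l) N1 (fun v hv => by
        exact_mod_cast hr v (hK k hk l hl v hv))
      linarith
    · -- pieces are in the orbit set
      rintro n x ⟨v, hv, rfl⟩
      exact ⟨v, hv.1, rfl⟩
    · -- disjointness
      intro n m hnm
      rw [Set.disjoint_left]
      rintro x ⟨u, hu, rfl⟩ ⟨v, hv, hvu⟩
      have huv : v = u := hinj _ _ hvu
      subst huv
      have h1 := bside_bb_zpow_mul _ hu.2 ((n : ℤ) - m) (by
        intro h
        apply hnm
        omega)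
      apply hv.2
      have h2 : (bn m)⁻¹ * v = bb ^ ((n : ℤ) - m) * ((bn n)⁻¹ * v) := by
        rw [← mul_assoc]
        congr 1
        show (bb ^ ((m + 1 : ℕ) : ℤ))⁻¹ = bb ^ ((n : ℤ) - m) * (bb ^ ((n + 1 : ℕ) : ℤ))⁻¹
        rw [← zpow_neg, ← zpow_neg, ← zpow_add]
        congr 1
        push_cast
        ring
      rw [h2]
      exact h1
    · -- separation
      intro n N
      refine ⟨N + R + C + 2 * gd 1 (bn n)⁻¹ + (n + 1), ?_⟩
      rintro x ⟨u, hu, rfl⟩ y ⟨v, hv, rfl⟩ hvn hprod
      rw [hgp] at hprod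
      have hv' : bside ((bn n)⁻¹ * v) := by
        by_contra hcon
        exact hvn ⟨v, ⟨hv, hcon⟩, rfl⟩
      have hbG : (bn n)⁻¹ ∈ Gs := Gs.inv_mem (bb_zpow_mem _)
      set u' := (bn n)⁻¹ * u with hu'
      set v' := (bn n)⁻¹ * v with hv''
      -- crossing pair in the chain
      have hcross : ∃ a b, a ∈ S.L u' v' ∧ b ∈ S.L u' v' ∧ gd a b ≤ C ∧ ¬ bside a ∧ bside b := by
        have hch := hpath u' v'
        by_contra hcon
        push Not at hcon
        have : ∀ w, Relation.ReflTransGen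
            (fun a b => a ∈ S.L u' v' ∧ b ∈ S.L u' v' ∧ gd a b ≤ C) u' w → ¬ bside w := by
          intro w hw
          induction hw with
          | refl => exact hu.2
          | tail _ h ih => exact hcon _ _ h.1 h.2.1 h.2.2 ih
        exact this v' hch hv'
      obtain ⟨a, b, haL, -, hab, ha, hb⟩ := hcross
      obtain ⟨k, hk⟩ := cross_dist a b ha hb
      refine ⟨k / 2 ^ (n + 1), ?_⟩
      show N ≤ gprod (ι 1) (ι u) (ι (rho (k / 2 ^ (n + 1))))
      rw [hgp]
      have s1 : gpr S.graph 1 u v ≤ gpr S.graph 1 u' v' + gd 1 (bn n)⁻¹ := by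
        have e1 := gpr_mul_left (bn n)⁻¹ hbG 1 u v
        have e2 := gpr_base ((bn n)⁻¹ * 1) 1 u' v'
        rw [← e1]
        rw [mul_one] at e2 ⊢
        have e3 : (gd (bn n)⁻¹ 1 : ℝ) = gd 1 (bn n)⁻¹ := by rw [gd_comm]
        rw [e3] at e2
        linarith
      have s2 := hLp u' v' a haL 1
      have s3 := gpr_change 1 u' a (rho k)
      have s4 : (gd a (rho k) : ℝ) ≤ C := by exact_mod_cast hk.trans hab
      have s5 : gpr S.graph 1 u' (rho k) - gd 1 (bn n)⁻¹ ≤
          gpr S.graph 1 u (bn n * rho k) := by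
        have e1 := gpr_mul_left (bn n)⁻¹ hbG 1 u (bn n * rho k)
        rw [← e1, inv_mul_cancel_left, mul_one]
        exact gpr_base 1 (bn n)⁻¹ u' (rho k)
      have s6 := gpr_change 1 u (bn n * rho k) (rho (k / 2 ^ (n + 1)))
      have s7 : (gd (bn n * rho k) (rho (k / 2 ^ (n + 1))) : ℝ) ≤ n + 1 := by
        exact_mod_cast gd_pow_rho (n + 1) k
      linarith
    · -- membership
      intro n j
      exact ⟨pp n j, ⟨pp_mem_GW n j, pp_not_bside n j⟩, rfl⟩
    · -- each sequence tends to infinity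
      intro n N
      obtain ⟨N1, hN1⟩ := exists_nat_ge N
      obtain ⟨r, hr⟩ := far N1
      refine ⟨r, fun j hj => ?_⟩
      show N ≤ dist (ι 1) (ι (pp n j))
      rw [hd]
      have h1 : N1 ≤ gd 1 (pp n j) := by
        apply hr
        rw [pp_length]
        omega
      have h2 : (N1 : ℝ) ≤ gd 1 (pp n j) := by exact_mod_cast h1
      linarith
    · -- bounded products with the ray
      refine ⟨gd 1 (rho 1) + R, fun n => ⟨0, fun k _ => ?_⟩⟩
      show gprod (ι 1) (ι (pp n 0)) (ι (rho k)) ≤ _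
      rw [hgp, pp_zero]
      exact hLu (yy n) (rho k) (rho 1) (rho_one_mem_L (n + 1) k (by omega)) 1
    · -- the sequences are close
      intro N
      obtain ⟨N1, hN1⟩ := exists_nat_ge (N + R)
      obtain ⟨r, hr⟩ := far N1
      refine ⟨r, fun n hn j j' => ?_⟩
      show N ≤ gprod (ι 1) (ι (pp n j)) (ι (pp n j'))
      rw [hgp]
      have h1 := hLl 1 (pp n j) (pp n j') N1 (fun v hv => by
        have h2 := pp_L n j j' v hv
        have h3 := length_y (n + 1)
        have h4 : cs.length (yy n) ≥ n + 1 := h3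
        exact_mod_cast hr v (by omega))
      linarith

end Pool.Agent.Helper376.LC
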