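import Mathlib
import Pool.Agent.Helper376.LC.Bdry

/-! Sanity checks on the boundary: the sets of points whose Gromov product with a given boundary
point is at least `R` form a neighbourhood basis of that point. -/

namespace Pool.Agent.Helper376.LC

open Topology

theorem Near.self {X : Type} [MetricSpace X] (o : X) (R : ℝ) (η : Boundary X) : Near o R η η := by
  obtain ⟨u, hu⟩ := Quot.exists_rep η
  obtain ⟨N, hN⟩ := u.conv o R
  exact ⟨u, u, hu, hu, N, hN⟩

theorem Near.base {X : Type} [MetricSpace X] (o o' : X) (R : ℝ) (ξ η : Boundary X)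
    (h : Near o R ξ η) : Near o' (R - dist o o') ξ η := by
  obtain ⟨u, v, hu, hv, N, hN⟩ := h
  refine ⟨u, v, hu, hv, N, fun m hm n hn => ?_⟩
  have h1 := hN m hm n hn
  have h2 := gprod_base o o' (u.seq m) (v.seq n)
  linarith

theorem Near.trans {X : Type} [MetricSpace X] (δ : ℝ) (hδ : 0 ≤ δ)
    (hhyp : ∀ o x y z : X, min (gprod o x z) (gprod o z y) - δ ≤ gprod o x y)
    (o : X) (R : ℝ) (ξ η ζ : Boundary X) (h : Near o R ξ η) (h' : Near o R η ζ) :
    Near o (R - 3 * δ) ξ ζ := by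
  obtain ⟨u, hu⟩ := Quot.exists_rep ξ
  obtain ⟨v, hv⟩ := Quot.exists_rep η
  obtain ⟨w, hw⟩ := Quot.exists_rep ζ
  obtain ⟨N, hN⟩ := Near.of_reps δ hδ hhyp o R ξ η h u v hu hv
  obtain ⟨N', hN'⟩ := Near.of_reps δ hδ hhyp o R η ζ h' v w hv hw
  refine ⟨u, w, hu, hw, max N N', fun m hm n hn => ?_⟩
  have h1 := hN m (le_trans (le_max_left _ _) hm) (max N N') (le_max_left _ _)
  have h2 := hN' (max N N') (le_max_right _ _) n (le_trans (le_max_right _ _) hn)
  have h3 := hhyp o (u.seq m) (w.seq n) (v.seq (max N N'))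
  have h4 : R - 2 * δ ≤ min (gprod o (u.seq m) (v.seq (max N N')))
      (gprod o (v.seq (max N N')) (w.seq n)) := le_min h1 h2
  linarith

/-- Sanity check: in a Gromov hyperbolic space the sets of points whose Gromov product with `ξ` is
at least `R` form a neighbourhood basis at `ξ`. -/
theorem mem_nhds_boundary_iff {X : Type} [MetricSpace X] (hhyp : GromovHyperbolic X) (o : X)
    (ξ : Boundary X) (U : Set (Boundary X)) :
    U ∈ 𝓝 ξ ↔ ∃ R : ℝ, ∀ η, Near o R ξ η → η ∈ U := by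
  obtain ⟨δ, hδ, h4⟩ := hyp_max hhyp
  constructor
  · intro hU
    obtain ⟨V, hVU, hV, hξ⟩ := mem_nhds_iff.1 hU
    obtain ⟨R, hR⟩ := hV ξ hξ o
    exact ⟨R, fun η h => hVU (hR η h)⟩
  · rintro ⟨R, hR⟩
    refine mem_nhds_iff.2 ⟨{η | ∃ R' : ℝ, ∀ ζ, Near o R' η ζ → ζ ∈ U}, ?_, ?_, ⟨R, hR⟩⟩
    · rintro η ⟨R', hR'⟩
      exact hR' η (Near.self o R' η)
    · rintro η ⟨R', hR'⟩ o'
      refine ⟨R' + 3 * δ + dist o' o, fun ζ hζ => ⟨R' + 3 * δ, fun θ hθ => ?_⟩⟩
      apply hR'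
      have h1 := Near.base o' o _ η ζ hζ
      have h2 : R' + 3 * δ + dist o' o - dist o' o = R' + 3 * δ := by ring
      rw [h2] at h1
      have h3 := Near.trans δ hδ h4 o _ η ζ θ h1 hθ
      have h5 : R' + 3 * δ - 3 * δ = R' := by ring
      rwa [h5] at h3

end Pool.Agent.Helper376.LC
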